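import Pool.Agent.Helper77.RS.Mom

/-! The diagonal sums. -/

open MeasureTheory Finset Complex

namespace Pool.Agent.Helper77.RS

lemma ofFn_perm {j k : ℕ} {f : Fin j → ℕ} {g : Fin k → ℕ} (hf : ∀ i, (f i).Prime)
    (hg : ∀ i, (g i).Prime) (h : pr f = pr g) : (List.ofFn f).Perm (List.ofFn g) := by
  have h1 := Nat.primeFactorsList_unique (n := pr f) (l := List.ofFn f)
    (by rw [List.prod_ofFn]; rfl) (by
      intro p hp
      rw [List.mem_ofFn] at hp
      obtain ⟨i, hi⟩ := hp
      rw [← hi]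
      exact hf i)
  have h2 := Nat.primeFactorsList_unique (n := pr f) (l := List.ofFn g)
    (by rw [List.prod_ofFn, h]; rfl) (by
      intro p hp
      rw [List.mem_ofFn] at hp
      obtain ⟨i, hi⟩ := hp
      rw [← hi]
      exact hg i)
  exact h1.trans h2.symm

lemma len_eq {j k : ℕ} {f : Fin j → ℕ} {g : Fin k → ℕ} (hf : ∀ i, (f i).Prime)
    (hg : ∀ i, (g i).Prime) (h : pr f = pr g) : j = k := by
  have := (ofFn_perm hf hg h).length_eq
  simpa using this

lemma exists_perm {k : ℕ} {f g : Fin k → ℕ} (hf : ∀ i, (f i).Prime)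
    (hg : ∀ i, (g i).Prime) (h : pr f = pr g) : ∃ σ : Equiv.Perm (Fin k), g = f ∘ σ := by
  have h1 := ofFn_perm hf hg h
  have h2 : f ∘ Tuple.sort f = g ∘ Tuple.sort g := by
    apply List.ofFn_injective
    have h3 := ((Tuple.sort f).ofFn_comp_perm f).trans (h1.trans ((Tuple.sort g).ofFn_comp_perm g).symm)
    exact h3.eq_of_pairwise' (Tuple.monotone_sort f).sortedLE_ofFn.pairwise
      (Tuple.monotone_sort g).sortedLE_ofFn.pairwise
  refine ⟨(Tuple.sort g).symm.trans (Tuple.sort f), ?_⟩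
  calc g = (g ∘ Tuple.sort g) ∘ (Tuple.sort g).symm := by
        funext i
        simp
    _ = (f ∘ Tuple.sort f) ∘ (Tuple.sort g).symm := by rw [h2]
    _ = _ := rfl

lemma Dg_ne {S : Finset ℕ} (hS : ∀ p ∈ S, p.Prime) (c : ℕ → ℂ) {j k : ℕ} (hjk : j ≠ k) :
    Dg S c j k = 0 := by
  unfold Dg
  apply Finset.sum_eq_zero
  intro f hf
  apply Finset.sum_eq_zero
  intro g hg
  rw [Fintype.mem_piFinset] at hf hg
  rw [if_neg]
  intro h
  exact hjk (len_eq (fun i => hS _ (hf i)) (fun i => hS _ (hg i)) h)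

lemma cf_perm {k : ℕ} (c : ℕ → ℂ) (f : Fin k → ℕ) (σ : Equiv.Perm (Fin k)) :
    cf c (f ∘ σ) = cf c f := by
  unfold cf
  exact Equiv.prod_comp σ (fun i => c (f i))

lemma pr_perm {k : ℕ} (f : Fin k → ℕ) (σ : Equiv.Perm (Fin k)) : pr (f ∘ σ) = pr f := by
  unfold pr
  exact Equiv.prod_comp σ (fun i => f i)

/-- the number of the rearrangements -/
def nf (S : Finset ℕ) {k : ℕ} (f : Fin k → ℕ) : ℕ :=
  ((Fintype.piFinset (fun _ : Fin k => S)).filter (fun g => pr f = pr g)).card

lemma nf_le {S : Finset ℕ} (hS : ∀ p ∈ S, p.Prime) {k : ℕ} {f : Fin k → ℕ}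
    (hf : f ∈ Fintype.piFinset (fun _ : Fin k => S)) : nf S f ≤ k.factorial := by
  classical
  rw [Fintype.mem_piFinset] at hf
  have h1 : (Fintype.piFinset (fun _ : Fin k => S)).filter (fun g => pr f = pr g) ⊆
      (Finset.univ : Finset (Equiv.Perm (Fin k))).image (fun σ : Equiv.Perm (Fin k) => f ∘ σ) := by
    intro g hg
    rw [Finset.mem_filter, Fintype.mem_piFinset] at hg
    obtain ⟨σ, hσ⟩ := exists_perm (fun i => hS _ (hf i)) (fun i => hS _ (hg.1 i)) hg.2
    rw [Finset.mem_image]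
    exact ⟨σ, Finset.mem_univ _, hσ.symm⟩
  calc nf S f ≤ _ := Finset.card_le_card h1
    _ ≤ (Finset.univ : Finset (Equiv.Perm (Fin k))).card := Finset.card_image_le
    _ = k.factorial := by rw [Finset.card_univ, Fintype.card_perm, Fintype.card_fin]

lemma le_nf {S : Finset ℕ} {k : ℕ} {f : Fin k → ℕ}
    (hf : f ∈ Fintype.piFinset (fun _ : Fin k => S)) (hinj : Function.Injective f) :
    k.factorial ≤ nf S f := by
  classical
  rw [Fintype.mem_piFinset] at hf
  have h1 : (Finset.univ : Finset (Equiv.Perm (Fin k))).image (fun σ : Equiv.Perm (Fin k) => f ∘ σ) ⊆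
      (Fintype.piFinset (fun _ : Fin k => S)).filter (fun g => pr f = pr g) := by
    intro g hg
    rw [Finset.mem_image] at hg
    obtain ⟨σ, _, hσ⟩ := hg
    rw [Finset.mem_filter, Fintype.mem_piFinset, ← hσ]
    exact ⟨fun i => hf _, (pr_perm f σ).symm⟩
  have h2 : ((Finset.univ : Finset (Equiv.Perm (Fin k))).image (fun σ : Equiv.Perm (Fin k) => f ∘ σ)).card =
      k.factorial := by
    rw [Finset.card_image_of_injective, Finset.card_univ, Fintype.card_perm, Fintype.card_fin]
    intro σ τ h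
    ext i
    have := congrFun h i
    simp only [Function.comp_apply] at this
    exact congrArg _ (hinj this)
  rw [← h2]
  exact Finset.card_le_card h1

/-- the diagonal sum as a real number -/
lemma Dg_eq {S : Finset ℕ} (hS : ∀ p ∈ S, p.Prime) (c : ℕ → ℂ) (k : ℕ) :
    Dg S c k k = ((∑ f ∈ Fintype.piFinset (fun _ : Fin k => S), ‖cf c f‖ ^ 2 * nf S f : ℝ) : ℂ) := by
  unfold Dg nf
  push_cast
  apply Finset.sum_congr rfl
  intro f hf
  rw [Finset.card_filter]
  push_cast
  rw [Finset.mul_sum]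
  apply Finset.sum_congr rfl
  intro g hg
  rw [Fintype.mem_piFinset] at hf hg
  by_cases h : pr f = pr g
  · rw [if_pos h, if_pos h, mul_one]
    obtain ⟨σ, hσ⟩ := exists_perm (fun i => hS _ (hf i)) (fun i => hS _ (hg i)) h
    rw [hσ, cf_perm, Complex.mul_conj, Complex.normSq_eq_norm_sq]
    push_cast
    rfl
  · rw [if_neg h, if_neg h, mul_zero]

lemma sum_cf2 (S : Finset ℕ) (c : ℕ → ℂ) (k : ℕ) :
    ∑ f ∈ Fintype.piFinset (fun _ : Fin k => S), ‖cf c f‖ ^ 2 = (∑ p ∈ S, ‖c p‖ ^ 2) ^ k := by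
  rw [Finset.sum_pow']
  apply Finset.sum_congr rfl
  intro f _
  unfold cf
  rw [norm_prod, Finset.prod_pow]

lemma Dg_le {S : Finset ℕ} (hS : ∀ p ∈ S, p.Prime) (c : ℕ → ℂ) (k : ℕ) :
    (Dg S c k k).re ≤ k.factorial * (∑ p ∈ S, ‖c p‖ ^ 2) ^ k := by
  rw [Dg_eq hS, Complex.ofReal_re, ← sum_cf2, Finset.mul_sum]
  apply Finset.sum_le_sum
  intro f hf
  rw [mul_comm]
  apply mul_le_mul_of_nonneg_right _ (by positivity)
  exact_mod_cast nf_le hS hf

lemma coll {S : Finset ℕ} (c : ℕ → ℂ) {k : ℕ} {i j : Fin k} (hij : i ≠ j) :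
    ∑ f ∈ (Fintype.piFinset (fun _ : Fin k => S)).filter (fun f => f i = f j), ‖cf c f‖ ^ 2 =
      (∑ p ∈ S, ‖c p‖ ^ 4) * (∑ p ∈ S, ‖c p‖ ^ 2) ^ (k - 2) := by
  classical
  set w : ℕ → ℝ := fun p => ‖c p‖ ^ 2 with hw
  have h1 : ∀ f ∈ Fintype.piFinset (fun _ : Fin k => S),
      (if f i = f j then ‖cf c f‖ ^ 2 else 0) =
      ∑ p ∈ S, ∏ l, (if l = i ∨ l = j then (if f l = p then w (f l) else 0) else w (f l)) := by
    intro f hf
    rw [Fintype.mem_piFinset] at hf
    have h2 : ‖cf c f‖ ^ 2 = ∏ l, w (f l) := by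
      unfold cf
      rw [norm_prod, Finset.prod_pow]
    split_ifs with h
    · rw [Finset.sum_eq_single (f i)]
      · rw [h2]
        apply Finset.prod_congr rfl
        intro l _
        by_cases hl : l = i ∨ l = j
        · rw [if_pos hl, if_pos]
          rcases hl with hl | hl
          · rw [hl]
          · rw [hl, h]
        · rw [if_neg hl]
      · intro p _ hp
        apply Finset.prod_eq_zero (Finset.mem_univ i)
        rw [if_pos (Or.inl rfl), if_neg (Ne.symm hp)]
      · intro hp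
        exact absurd (hf i) hp
    · symm
      apply Finset.sum_eq_zero
      intro p _
      by_cases hp : f i = p
      · apply Finset.prod_eq_zero (Finset.mem_univ j)
        rw [if_pos (Or.inr rfl), if_neg]
        intro h3
        exact h (hp.trans h3.symm)
      · apply Finset.prod_eq_zero (Finset.mem_univ i)
        rw [if_pos (Or.inl rfl), if_neg hp]
  rw [Finset.sum_filter, Finset.sum_congr rfl h1, Finset.sum_comm, Finset.sum_mul]
  apply Finset.sum_congr rfl
  intro p hp
  rw [← Finset.prod_univ_sum (fun _ : Fin k => S)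
    (fun l q => if l = i ∨ l = j then (if q = p then w q else 0) else w q)]
  have h3 : ∀ l : Fin k, ∑ q ∈ S, (if l = i ∨ l = j then (if q = p then w q else 0) else w q) =
      if l = i ∨ l = j then w p else ∑ q ∈ S, w q := by
    intro l
    by_cases hl : l = i ∨ l = j
    · simp only [if_pos hl]
      rw [Finset.sum_ite_eq' S p w, if_pos hp]
    · simp only [if_neg hl]
  simp_rw [h3]
  rw [Finset.prod_ite, Finset.prod_const, Finset.prod_const]
  have h4 : (Finset.univ.filter (fun l : Fin k => l = i ∨ l = j)).card = 2 := by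
    have : Finset.univ.filter (fun l : Fin k => l = i ∨ l = j) = {i, j} := by
      ext l
      simp
    rw [this, Finset.card_pair hij]
  have h5 : (Finset.univ.filter (fun l : Fin k => ¬ (l = i ∨ l = j))).card = k - 2 := by
    have h6 := Finset.card_filter_add_card_filter_not (s := (Finset.univ : Finset (Fin k)))
      (fun l : Fin k => l = i ∨ l = j)
    rw [h4, Finset.card_univ, Fintype.card_fin] at h6
    omega
  rw [h4, h5]
  congr 1
  rw [hw]
  ring

lemma le_Dg {S : Finset ℕ} (hS : ∀ p ∈ S, p.Prime) (c : ℕ → ℂ) (k : ℕ) :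
    k.factorial * ((∑ p ∈ S, ‖c p‖ ^ 2) ^ k -
      k ^ 2 * ((∑ p ∈ S, ‖c p‖ ^ 4) * (∑ p ∈ S, ‖c p‖ ^ 2) ^ (k - 2))) ≤ (Dg S c k k).re := by
  classical
  rw [Dg_eq hS, Complex.ofReal_re]
  set F := Fintype.piFinset (fun _ : Fin k => S) with hF
  have h1 : ∑ f ∈ F.filter (fun f => ¬ Function.Injective f), ‖cf c f‖ ^ 2 ≤
      k ^ 2 * ((∑ p ∈ S, ‖c p‖ ^ 4) * (∑ p ∈ S, ‖c p‖ ^ 2) ^ (k - 2)) := by
    set T : Finset (Fin k × Fin k) := Finset.univ.filter (fun x => x.1 ≠ x.2) with hT
    calc ∑ f ∈ F.filter (fun f => ¬ Function.Injective f), ‖cf c f‖ ^ 2 ≤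
        ∑ x ∈ T, ∑ f ∈ F.filter (fun f => f x.1 = f x.2), ‖cf c f‖ ^ 2 := by
          have h2 : ∀ x ∈ T, ∑ f ∈ F.filter (fun f => f x.1 = f x.2), ‖cf c f‖ ^ 2 =
              ∑ f ∈ F, if f x.1 = f x.2 then ‖cf c f‖ ^ 2 else 0 := fun x _ => Finset.sum_filter _ _
          rw [Finset.sum_congr rfl h2, Finset.sum_comm, Finset.sum_filter]
          apply Finset.sum_le_sum
          intro f _
          by_cases h : Function.Injective f
          · rw [if_neg (not_not.2 h)]
            apply Finset.sum_nonneg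
            intro x _
            split_ifs <;> positivity
          · rw [if_pos h]
            unfold Function.Injective at h
            push Not at h
            obtain ⟨i, j, h3, h4⟩ := h
            have h5 : (i, j) ∈ T := by
              rw [hT, Finset.mem_filter]
              exact ⟨Finset.mem_univ _, h4⟩
            refine le_trans ?_ (Finset.single_le_sum (f := fun x : Fin k × Fin k =>
              if f x.1 = f x.2 then ‖cf c f‖ ^ 2 else 0) (fun x _ => ?_) h5)
            · rw [if_pos h3]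
            · split_ifs <;> positivity
      _ = ∑ x ∈ T, (∑ p ∈ S, ‖c p‖ ^ 4) * (∑ p ∈ S, ‖c p‖ ^ 2) ^ (k - 2) := by
          apply Finset.sum_congr rfl
          intro x hx
          rw [hT, Finset.mem_filter] at hx
          exact coll c hx.2
      _ = T.card * ((∑ p ∈ S, ‖c p‖ ^ 4) * (∑ p ∈ S, ‖c p‖ ^ 2) ^ (k - 2)) := by
          rw [Finset.sum_const, nsmul_eq_mul]
      _ ≤ _ := by
          apply mul_le_mul_of_nonneg_right _ (by positivity)
          have h6 : T.card ≤ k ^ 2 := by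
            calc T.card ≤ (Finset.univ : Finset (Fin k × Fin k)).card :=
                  Finset.card_le_card (Finset.filter_subset _ _)
              _ = k ^ 2 := by
                rw [Finset.card_univ, Fintype.card_prod, Fintype.card_fin, sq]
          exact_mod_cast h6
  have h2 := sum_cf2 S c k
  rw [← Finset.sum_filter_add_sum_filter_not F (fun f => Function.Injective f)] at h2
  have h3 : (k.factorial : ℝ) * ∑ f ∈ F.filter (fun f => Function.Injective f), ‖cf c f‖ ^ 2 ≤
      ∑ f ∈ F.filter (fun f => Function.Injective f), ‖cf c f‖ ^ 2 * nf S f := by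
    rw [Finset.mul_sum]
    apply Finset.sum_le_sum
    intro f hf
    rw [Finset.mem_filter] at hf
    rw [mul_comm]
    apply mul_le_mul_of_nonneg_left _ (by positivity)
    exact_mod_cast le_nf hf.1 hf.2
  have h4 : ∑ f ∈ F.filter (fun f => Function.Injective f), ‖cf c f‖ ^ 2 * nf S f ≤
      ∑ f ∈ F, ‖cf c f‖ ^ 2 * nf S f := by
    apply Finset.sum_le_sum_of_subset_of_nonneg (Finset.filter_subset _ _)
    intro f _ _
    positivity
  refine le_trans ?_ (h3.trans h4)
  apply mul_le_mul_of_nonneg_left _ (by positivity)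
  linarith

end Pool.Agent.Helper77.RS
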