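import Pool.Agent.Helper77.RS.Clo

/-! The variance of the prime polynomial is asymptotic to the number variance. -/

open Complex Filter Topology Set MeasureTheory

namespace Pool.Agent.Helper77.RS

open Pool.Agent.H707.NV (cn cn_log cn_meas cn_nonneg hl cn_pow_ii cn_bdd)

lemma DD_meas (x T : ℝ) : Measurable (DD x T) := (cn_meas _).sub_const _

lemma ii_comp {x T : ℝ} (hh : 0 ≤ hl x T) (g : ℝ → ℝ → ℝ) (hg : Continuous (Function.uncurry g)) {a b : ℝ} (hab : a ≤ b) :
    IntervalIntegrable (fun t => g (DD x T t) t) volume a b := by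
  set M : ℝ := SG.NZ (b + hl x T) + |x| with hM
  have hbd : ∀ t ∈ Icc a b, DD x T t ∈ Icc (-M) M := by
    intro t ht
    have h1 := cn_nonneg hh t
    have h2 := cn_bdd (h := hl x T) ht
    have h3 := le_abs_self x
    have h4 := neg_abs_le x
    have h5 : (0 : ℝ) ≤ SG.NZ (b + hl x T) := Nat.cast_nonneg _
    unfold DD
    constructor <;> linarith
  obtain ⟨C, hC⟩ := (isCompact_Icc.prod isCompact_Icc : IsCompact (Icc (-M) M ×ˢ Icc a b)).exists_bound_of_continuousOn
    hg.continuousOn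
  rw [intervalIntegrable_iff_integrableOn_Icc_of_le hab]
  apply Measure.integrableOn_of_bounded (M := C)
  · rw [Real.volume_Icc]; exact ENNReal.ofReal_ne_top
  · exact (hg.measurable.comp ((DD_meas x T).prodMk measurable_id)).aestronglyMeasurable
  · rw [ae_restrict_iff' measurableSet_Icc]
    apply Filter.Eventually.of_forall
    intro t ht
    exact hC (DD x T t, t) ⟨hbd t ht, ht⟩

lemma hl_aa (x T : ℝ) : hl x T = 2 * aa x T := by
  unfold hl aa; ring

/-- second moment of the error -/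
theorem err_sq (hRH : RiemannHypothesis) {k : ℕ} (hk : 8 ≤ k) : ∃ C : ℝ, 0 < C ∧ ∀ x : ℝ, 0 < x →
    ∀ᶠ T : ℝ in atTop, ∫ t in (U1 T)..(U2 T), EE x k T t ^ 2 ≤ C * (U2 T - U1 T) := by
  obtain ⟨C, hC, h⟩ := err_mom hRH hk
  refine ⟨1 + 2 * C, by positivity, fun x hx => ?_⟩
  filter_upwards [basics x hx 1, h x hx] with T ⟨hTT, hT10, hL1, ha0, ha1, hU, hL0, hL3⟩ h1
  have hh : 0 ≤ hl x T := by rw [hl_aa]; linarith
  have hPc := Pc_cont x k T
  have i4 : IntervalIntegrable (fun t => 1 + EE x k T t ^ 4) volume (U1 T) (U2 T) :=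
    ii_comp hh (fun d t => 1 + (d + Pc x k T t) ^ 4) (by simp only [Function.uncurry_def]; fun_prop) hU
  have i4' : IntervalIntegrable (fun t => EE x k T t ^ 4) volume (U1 T) (U2 T) :=
    ii_comp hh (fun d t => (d + Pc x k T t) ^ 4) (by simp only [Function.uncurry_def]; fun_prop) hU
  have i2 : IntervalIntegrable (fun t => EE x k T t ^ 2) volume (U1 T) (U2 T) :=
    ii_comp hh (fun d t => (d + Pc x k T t) ^ 2) (by simp only [Function.uncurry_def]; fun_prop) hU
  have h2 : ∫ t in (U1 T)..(U2 T), EE x k T t ^ 2 ≤ ∫ t in (U1 T)..(U2 T), (1 + EE x k T t ^ 4) := by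
    apply intervalIntegral.integral_mono_on hU i2 i4
    intro t _
    nlinarith [sq_nonneg (EE x k T t ^ 2 - 1), sq_nonneg (EE x k T t)]
  rw [intervalIntegral.integral_add intervalIntegrable_const i4', intervalIntegral.integral_const, smul_eq_mul, mul_one] at h2
  have hW : T ≤ 2 * (U2 T - U1 T) := by unfold U1 U2; linarith
  have : C * T ≤ C * (2 * (U2 T - U1 T)) := mul_le_mul_of_nonneg_left hW hC.le
  linarith

theorem A_close (hRH : RiemannHypothesis) {k : ℕ} (hk : 8 ≤ k) {η : ℝ} (hη : 0 < η) : ∃ x0 : ℝ, 1 ≤ x0 ∧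
    ∀ x : ℝ, x0 ≤ x → ∀ᶠ T : ℝ in atTop,
    |∑ p ∈ Pr (2 * ll k T), ‖cs x k T p‖ ^ 2 - 2 * (Real.log x / Real.pi ^ 2)| ≤ η * (Real.log x / Real.pi ^ 2) := by
  have hpi := Real.pi_pos
  obtain ⟨C, hC, hE⟩ := err_sq hRH hk
  set δ : ℝ := min (η / 8) (1 / 4) with hδ
  have hδ0 : 0 < δ := lt_min (by positivity) (by norm_num)
  have hδ1 : δ ≤ 1 / 4 := min_le_right _ _
  have hδη : 8 * δ ≤ η := by
    have := min_le_left (η / 8) (1 / 4)
    rw [← hδ] at this
    linarith
  set M : ℝ := (1 + 1 / δ) * C + 10 with hM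
  have hM0 : 0 < M := by positivity
  refine ⟨Real.exp (Real.pi ^ 2 * (M / δ)), Real.one_le_exp (by positivity), fun x hx => ?_⟩
  have hx0 : 0 < x := (Real.exp_pos _).trans_le hx
  have hx1 : 1 ≤ x := (Real.one_le_exp (by positivity)).trans hx
  set Q := Real.log x / Real.pi ^ 2 with hQ
  have hQM : M ≤ δ * Q := by
    have h1 : Real.pi ^ 2 * (M / δ) ≤ Real.log x := by
      rw [Real.le_log_iff_exp_le hx0]; exact hx
    have h2 : M / δ ≤ Q := by
      rw [hQ, le_div_iff₀ (by positivity)]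
      linarith
    rw [div_le_iff₀ hδ0] at h2
    linarith
  have hQ0 : 0 ≤ Q := by
    rw [hQ]; exact div_nonneg (Real.log_nonneg hx1) (by positivity)
  filter_upwards [basics x hx0 1, varU hRH hx1, hE x hx0, polyfacts hk (show 3 * 2 ≤ k by omega) hx0 hδ0] with
    T ⟨hTT, hT10, hL1, ha0, ha1, hU, hL0, hL3⟩ ⟨hv1, hv2⟩ hE2 ⟨hp1, hp2⟩
  have hh : 0 ≤ hl x T := by rw [hl_aa]; linarith
  have hPc := Pc_cont x k T
  set W := U2 T - U1 T with hW
  have hW0 : 0 < W := by rw [hW]; unfold U1 U2; linarith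
  set A := ∑ p ∈ Pr (2 * ll k T), ‖cs x k T p‖ ^ 2 with hA
  have hA0 : 0 ≤ A := Finset.sum_nonneg fun _ _ => by positivity
  have hll0 : 0 ≤ 2 * ll k T := by
    rw [ll_eq]
    have : (0 : ℝ) < k := by exact_mod_cast (by omega : 0 < k)
    positivity
  -- mean square of the polynomial
  have hmean := re_pow_mean (S := Pr (2 * ll k T)) (fun p hp => Pr_prime hp) (cs x k T) 2 (X := Real.exp (2 * ll k T))
    (Real.one_le_exp hll0) (fun p hp => Pr_le hp) (U1 T) (U2 T)
  rw [if_pos (by decide)] at hmean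
  norm_num at hmean
  have hD1 := Dg_le (S := Pr (2 * ll k T)) (fun p hp => Pr_prime hp) (cs x k T) 1
  have hD2 := le_Dg (S := Pr (2 * ll k T)) (fun p hp => Pr_prime hp) (cs x k T) 1
  norm_num at hD1 hD2
  rw [← hA] at hD1 hD2
  have hB : ∑ p ∈ Pr (2 * ll k T), ‖cs x k T p‖ ^ 4 ≤ δ * A := by
    rw [hA, Finset.mul_sum]
    apply Finset.sum_le_sum
    intro p hp
    have := hp1 p hp
    calc ‖cs x k T p‖ ^ 4 = ‖cs x k T p‖ ^ 2 * ‖cs x k T p‖ ^ 2 := by ring
      _ ≤ δ * ‖cs x k T p‖ ^ 2 := mul_le_mul_of_nonneg_right this (by positivity)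
  set IP := ∫ t in (U1 T)..(U2 T), Pc x k T t ^ 2 with hIP
  have hIP' : ∫ t in (U1 T)..(U2 T), (PP (Pr (2 * ll k T)) (cs x k T) t).re ^ 2 = IP := rfl
  rw [hIP'] at hmean
  set G := (Dg (Pr (2 * ll k T)) (cs x k T) 1 1).re with hG
  have hm := abs_le.1 hmean
  have hW' : U2 T - U1 T = W := rfl
  rw [hW'] at hm
  have hmu : IP ≤ W * (1 / 4 * (2 * G)) + δ * W := by linarith [hm.2]
  have hml : W * (1 / 4 * (2 * G)) - δ * W ≤ IP := by linarith [hm.1]
  -- the two inequalities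
  have key : ∀ u v : ℝ, (u + v) ^ 2 ≤ (1 + δ) * u ^ 2 + (1 + 1 / δ) * v ^ 2 := by
    intro u v
    have h1 : (1 + δ) * u ^ 2 + (1 + 1 / δ) * v ^ 2 - (u + v) ^ 2 = (δ * u - v) ^ 2 / δ := by
      field_simp
      ring
    have h2 : 0 ≤ (δ * u - v) ^ 2 / δ := by positivity
    linarith
  have iE : IntervalIntegrable (fun t => EE x k T t ^ 2) volume (U1 T) (U2 T) :=
    ii_comp hh (fun d t => (d + Pc x k T t) ^ 2) (by simp only [Function.uncurry_def]; fun_prop) hU
  have iD : IntervalIntegrable (fun t => DD x T t ^ 2) volume (U1 T) (U2 T) :=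
    ii_comp hh (fun d t => d ^ 2) (by simp only [Function.uncurry_def]; fun_prop) hU
  have iP : IntervalIntegrable (fun t => Pc x k T t ^ 2) volume (U1 T) (U2 T) :=
    (hPc.pow 2).intervalIntegrable _ _
  have k1 : ∫ t in (U1 T)..(U2 T), DD x T t ^ 2 ≤ (1 + δ) * IP + (1 + 1 / δ) * ∫ t in (U1 T)..(U2 T), EE x k T t ^ 2 := by
    rw [hIP, ← intervalIntegral.integral_const_mul, ← intervalIntegral.integral_const_mul,
      ← intervalIntegral.integral_add (iP.const_mul _) (iE.const_mul _)]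
    apply intervalIntegral.integral_mono_on hU iD ((iP.const_mul _).add (iE.const_mul _))
    intro t _
    have := key (-Pc x k T t) (EE x k T t)
    rw [neg_sq] at this
    refine le_trans (le_of_eq ?_) this
    rw [EE_eq]
    ring
  have k2 : IP ≤ (1 + δ) * (∫ t in (U1 T)..(U2 T), DD x T t ^ 2) + (1 + 1 / δ) * ∫ t in (U1 T)..(U2 T), EE x k T t ^ 2 := by
    rw [hIP, ← intervalIntegral.integral_const_mul, ← intervalIntegral.integral_const_mul,
      ← intervalIntegral.integral_add (iD.const_mul _) (iE.const_mul _)]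
    apply intervalIntegral.integral_mono_on hU iP ((iD.const_mul _).add (iE.const_mul _))
    intro t _
    have := key (-DD x T t) (EE x k T t)
    rw [neg_sq] at this
    refine le_trans (le_of_eq ?_) this
    rw [EE_eq]
    ring
  have hδi : 0 < 1 + 1 / δ := by positivity
  have hE3 : (1 + 1 / δ) * ∫ t in (U1 T)..(U2 T), EE x k T t ^ 2 ≤ ((1 + 1 / δ) * C) * W := by
    calc _ ≤ (1 + 1 / δ) * (C * W) := mul_le_mul_of_nonneg_left hE2 hδi.le
      _ = _ := by ring
  -- lower bound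
  have l1 : (Q - 1) * W ≤ ((1 + δ) * (1 / 2 * A + δ) + (1 + 1 / δ) * C) * W := by
    have h1 : IP ≤ (1 / 2 * A + δ) * W := by
      have : W * G ≤ W * A := mul_le_mul_of_nonneg_left hD1 hW0.le
      linarith
    have h2 : (1 + δ) * IP ≤ (1 + δ) * ((1 / 2 * A + δ) * W) := mul_le_mul_of_nonneg_left h1 (by linarith)
    linarith
  have l2 := le_of_mul_le_mul_right l1 hW0
  have l3 : (2 * Q - 4 * δ * Q) * (1 + δ) ≤ A * (1 + δ) := by nlinarith
  have l4 : 2 * Q - 4 * δ * Q ≤ A := le_of_mul_le_mul_right l3 (by linarith)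
  -- upper bound
  have u1 : (1 / 2 * (A - δ * A) - δ) * W ≤ ((1 + δ) * (Q + 3) + (1 + 1 / δ) * C) * W := by
    have h1 : (1 / 2 * (A - δ * A) - δ) * W ≤ IP := by
      have : W * (A - δ * A) ≤ W * G := mul_le_mul_of_nonneg_left (by linarith) hW0.le
      linarith
    have h2 : (1 + δ) * (∫ t in (U1 T)..(U2 T), DD x T t ^ 2) ≤ (1 + δ) * ((Q + 3) * W) :=
      mul_le_mul_of_nonneg_left hv2 (by linarith)
    linarith
  have u2 := le_of_mul_le_mul_right u1 hW0
  have u3 : A * (1 - δ) ≤ (2 * Q + 8 * δ * Q) * (1 - δ) := by nlinarith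
  have u4 : A ≤ 2 * Q + 8 * δ * Q := le_of_mul_le_mul_right u3 (by linarith)
  have hηQ : 8 * δ * Q ≤ η * Q := mul_le_mul_of_nonneg_right hδη hQ0
  have hδQ : 0 ≤ δ * Q := by positivity
  rw [abs_le]
  constructor <;> linarith

end Pool.Agent.Helper77.RS
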