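import Pool.Graph.R_pool_sql_team_seeded_620a6dc7.H707.NV.Fin

/-! The number variance is `log x / π² + O(1)`. -/

open Filter Topology Set MeasureTheory

namespace Pool.Agent.Helper77.RS

open Pool.Agent.H707.NV (cn hl LL var_lower var_upper)
open Pool.Agent.H707.SM (Jm Jm_le H1 H1_succ)

lemma H1_eq (m : ℕ) : H1 m = (harmonic m : ℝ) := by
  unfold H1 harmonic
  push_cast
  apply Finset.sum_congr rfl
  intro i _
  rw [one_div]

lemma H1_le {m : ℕ} : H1 m ≤ 1 + Real.log m := by
  rw [H1_eq]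
  exact harmonic_le_one_add_log m

lemma H1_ge {m : ℕ} : Real.log (m + 1) ≤ H1 m := by
  rw [H1_eq]
  have := log_add_one_le_harmonic m
  push_cast at this
  exact this

noncomputable def Fs (s : ℝ) : ℝ := Real.pi ^ 2 * s * Real.sinc (Real.pi * s) ^ 2

lemma Fs_cont : Continuous Fs := by
  unfold Fs
  have := Real.continuous_sinc
  fun_prop

lemma Fs_eq (s : ℝ) : Fs s = Real.sin (Real.pi * s) ^ 2 / s := by
  unfold Fs
  by_cases hs : s = 0
  · rw [hs]; simp
  · have hpi := Real.pi_ne_zero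
    rw [Real.sinc_of_ne_zero (mul_ne_zero hpi hs)]
    field_simp

lemma int_sin_sq (j : ℕ) : ∫ s in (j : ℝ)..((j : ℝ) + 1), Real.sin (Real.pi * s) ^ 2 = 1 / 2 := by
  have hpi := Real.pi_ne_zero
  have hd : ∀ s ∈ uIcc (j : ℝ) ((j : ℝ) + 1), HasDerivAt (fun s : ℝ => s / 2 - Real.sin (2 * Real.pi * s) / (4 * Real.pi))
      (Real.sin (Real.pi * s) ^ 2) s := by
    intro s _
    have h1 : HasDerivAt (fun s : ℝ => 2 * Real.pi * s) (2 * Real.pi) s := by
      simpa using (hasDerivAt_id s).const_mul (2 * Real.pi)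
    have h2 := ((hasDerivAt_id s).div_const 2).sub (h1.sin.div_const (4 * Real.pi))
    refine h2.congr_deriv ?_
    have h3 : Real.cos (2 * Real.pi * s) = 1 - 2 * Real.sin (Real.pi * s) ^ 2 := by
      rw [show 2 * Real.pi * s = 2 * (Real.pi * s) by ring, Real.cos_two_mul, Real.cos_sq']
      ring
    rw [h3]
    field_simp
    ring
  rw [intervalIntegral.integral_eq_sub_of_hasDerivAt hd (by apply Continuous.intervalIntegrable; fun_prop)]
  have e1 : Real.sin (2 * Real.pi * ((j : ℝ) + 1)) = 0 := by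
    have := Real.sin_nat_mul_pi (2 * (j + 1))
    push_cast at this
    rw [show 2 * Real.pi * ((j : ℝ) + 1) = 2 * ((j : ℝ) + 1) * Real.pi by ring]
    exact this
  have e2 : Real.sin (2 * Real.pi * (j : ℝ)) = 0 := by
    have := Real.sin_nat_mul_pi (2 * j)
    push_cast at this
    rw [show 2 * Real.pi * (j : ℝ) = 2 * (j : ℝ) * Real.pi by ring]
    exact this
  rw [e1, e2]
  ring

lemma int_Fs (j : ℕ) : 1 / (2 * ((j : ℝ) + 1)) ≤ ∫ s in (j : ℝ)..((j : ℝ) + 1), Fs s := by
  have h1 : ∫ s in (j : ℝ)..((j : ℝ) + 1), 1 / ((j : ℝ) + 1) * Real.sin (Real.pi * s) ^ 2 ≤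
      ∫ s in (j : ℝ)..((j : ℝ) + 1), Fs s := by
    apply intervalIntegral.integral_mono_on (by linarith)
    · apply Continuous.intervalIntegrable; fun_prop
    · exact Fs_cont.intervalIntegrable _ _
    · intro s hs
      rw [Fs_eq]
      have hj : (0 : ℝ) ≤ j := Nat.cast_nonneg j
      rcases eq_or_lt_of_le (hj.trans hs.1) with h | h
      · rw [← h]; simp
      · rw [div_mul_eq_mul_div, one_mul]
        exact div_le_div_of_nonneg_left (sq_nonneg _) h hs.2
  rw [intervalIntegral.integral_const_mul, int_sin_sq] at h1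
  refine le_trans (le_of_eq ?_) h1
  field_simp

lemma LL_low {x : ℝ} (hx : 1 ≤ x) : Real.log x / Real.pi ^ 2 ≤ LL x := by
  have hpi := Real.pi_pos
  unfold LL
  have h1 : ∫ t in (0 : ℝ)..1, Real.sin (Real.pi * x * t) ^ 2 / t = ∫ s in (0 : ℝ)..x, Fs s := by
    have h := intervalIntegral.smul_integral_comp_mul_left (a := 0) (b := 1) Fs x
    rw [mul_zero, mul_one] at h
    rw [← h, smul_eq_mul, ← intervalIntegral.integral_const_mul]
    apply intervalIntegral.integral_congr
    intro t _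
    simp only
    rw [Fs_eq]
    by_cases ht : t = 0
    · rw [ht]; simp
    · have : x ≠ 0 := by linarith
      rw [show Real.pi * (x * t) = Real.pi * x * t by ring]
      field_simp
  rw [h1]
  set m := ⌊x⌋₊ with hm
  have hmx : (m : ℝ) ≤ x := Nat.floor_le (by linarith)
  have hxm : x < m + 1 := Nat.lt_floor_add_one x
  have h2 : ∀ n : ℕ, 1 / 2 * H1 n ≤ ∫ s in (0 : ℝ)..n, Fs s := by
    intro n
    induction n with
    | zero => simp [H1]
    | succ n ih =>
      rw [H1_succ, Nat.cast_succ, ← intervalIntegral.integral_add_adjacent_intervals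
        (Fs_cont.intervalIntegrable 0 n) (Fs_cont.intervalIntegrable n _)]
      have := int_Fs n
      have h3 : 1 / (2 * ((n : ℝ) + 1)) = 1 / 2 * (1 / ((n : ℝ) + 1)) := by
        field_simp
      rw [mul_add]
      linarith
  have h3 : ∫ s in (0 : ℝ)..m, Fs s ≤ ∫ s in (0 : ℝ)..x, Fs s := by
    rw [← intervalIntegral.integral_add_adjacent_intervals (Fs_cont.intervalIntegrable 0 m)
      (Fs_cont.intervalIntegrable m x)]
    have : 0 ≤ ∫ s in (m : ℝ)..x, Fs s := by
      apply intervalIntegral.integral_nonneg hmx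
      intro s hs
      rw [Fs_eq]
      have : 0 ≤ s := (Nat.cast_nonneg m).trans hs.1
      positivity
    linarith
  have h4 : Real.log x ≤ H1 m := by
    refine le_trans ?_ H1_ge
    exact Real.log_le_log (by linarith) hxm.le
  have h5 : 1 / 2 * Real.log x ≤ ∫ s in (0 : ℝ)..x, Fs s := by
    have := h2 m
    linarith
  calc Real.log x / Real.pi ^ 2 = 2 / Real.pi ^ 2 * (1 / 2 * Real.log x) := by field_simp
    _ ≤ _ := mul_le_mul_of_nonneg_left h5 (by positivity)

theorem var_low (hRH : RiemannHypothesis) {x : ℝ} (hx : 1 ≤ x) {ε : ℝ} (hε : 0 < ε) :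
    ∀ᶠ V : ℝ in atTop, (Real.log x / Real.pi ^ 2 - ε) * V ≤ ∫ t in V..(2 * V), (cn (hl x V) t - x) ^ 2 := by
  filter_upwards [var_lower hRH (by linarith : 0 < x) hε, eventually_gt_atTop 0] with V h1 h2
  refine le_trans ?_ h1
  apply mul_le_mul_of_nonneg_right _ h2.le
  linarith [LL_low hx]

theorem var_up (hRH : RiemannHypothesis) {x : ℝ} (hx : 1 ≤ x) :
    ∀ᶠ V : ℝ in atTop, ∫ t in V..(2 * V), (cn (hl x V) t - x) ^ 2 ≤ (Real.log x / Real.pi ^ 2 + 2) * V := by
  have hpi := Real.pi_pos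
  have hpi3 := Real.pi_gt_three
  set m := ⌊x - 1 / 2⌋₊ with hm
  set s := x - 1 / 2 - m with hs
  have hs0 : 0 ≤ s := by
    have := Nat.floor_le (by linarith : 0 ≤ x - 1 / 2)
    rw [hs]
    linarith
  have hs1 : s ≤ 1 := by
    have := Nat.lt_floor_add_one (x - 1 / 2)
    rw [hs]
    linarith
  have hx' : (m : ℝ) + 1 / 2 + s = x := by rw [hs]; ring
  have h := var_upper hRH m hs0 hs1 (ε := 1 / 2) (by norm_num)
  rw [hx'] at h
  filter_upwards [h, eventually_gt_atTop 0] with V h1 h2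
  refine h1.trans ?_
  apply mul_le_mul_of_nonneg_right _ h2.le
  have hm1 : (m : ℝ) + 1 ≤ 2 * x := by
    have := Nat.floor_le (by linarith : 0 ≤ x - 1 / 2)
    rw [← hm] at this
    linarith
  have hH : H1 (m + 1) ≤ 2 + Real.log x := by
    have h3 := H1_le (m := m + 1)
    push_cast at h3
    have h4 : Real.log ((m : ℝ) + 1) ≤ Real.log 2 + Real.log x := by
      rw [← Real.log_mul (by norm_num) (by linarith)]
      exact Real.log_le_log (by positivity) hm1
    have h5 := Real.log_two_lt_d9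
    linarith
  have hJ1 : Jm (m + 1) ≤ (4 + Real.log x) / Real.pi ^ 2 := by
    refine (Jm_le (m + 1)).trans ?_
    apply div_le_div_of_nonneg_right _ (by positivity)
    linarith
  have hJ0 : Jm m ≤ (4 + Real.log x) / Real.pi ^ 2 := by
    refine (Jm_le m).trans ?_
    apply div_le_div_of_nonneg_right _ (by positivity)
    have : H1 m ≤ H1 (m + 1) := by
      rw [H1_succ]
      have : (0 : ℝ) ≤ 1 / ((m : ℝ) + 1) := by positivity
      linarith
    linarith
  have h9 : 4 / Real.pi ^ 2 ≤ 1 / 2 := by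
    rw [div_le_iff₀ (by positivity)]
    nlinarith
  have h10 : (4 + Real.log x) / Real.pi ^ 2 = 4 / Real.pi ^ 2 + Real.log x / Real.pi ^ 2 := by ring
  have h11 : (1 - s) * Jm m + s * Jm (m + 1) ≤ (4 + Real.log x) / Real.pi ^ 2 := by
    calc (1 - s) * Jm m + s * Jm (m + 1) ≤ (1 - s) * ((4 + Real.log x) / Real.pi ^ 2) + s * ((4 + Real.log x) / Real.pi ^ 2) :=
          add_le_add (mul_le_mul_of_nonneg_left hJ0 (by linarith)) (mul_le_mul_of_nonneg_left hJ1 hs0)
      _ = _ := by ring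
  have h12 : s * (1 - s) ≤ 1 / 4 := by nlinarith [sq_nonneg (s - 1 / 2)]
  rw [h10] at h11
  linarith

end Pool.Agent.Helper77.RS
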