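import Pool.Agent.Helper77.RS.Dec
import Pool.Agent.Helper77.RS.Var

/-! The error of the decomposition in mean. -/

open Complex Filter Topology Set MeasureTheory

namespace Pool.Agent.Helper77.RS

open SP (zs ps QW ell W1 RHs ZZ mu bt ppf)
open Pool.Agent.TH800.LD (ZZf)
open Pool.Agent.H707.NV (cn cn_log cn_meas cn_nonneg hl)

/-- even moments of Dirichlet polynomials over primes -/
lemma even_PP {S : Finset ℕ} (hS : ∀ p ∈ S, p.Prime) (c : ℕ → ℂ) (k : ℕ) {X : ℝ} (hX1 : 1 ≤ X)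
    (hX : ∀ p ∈ S, (p : ℝ) ≤ X) {V1 V2 : ℝ} (hV : V1 ≤ V2) :
    ∫ t in V1..V2, ‖PP S c t‖ ^ (2 * k) ≤ (V2 - V1) * (k.factorial * (∑ p ∈ S, ‖c p‖ ^ 2) ^ k) +
      2 * X ^ (2 * k) * (∑ p ∈ S, ‖c p‖) ^ (2 * k) := by
  have h1 := mean_PP S (fun p hp => (hS p hp).ne_zero) c k k hX1 hX V1 V2
  have h2 : ∀ t, PP S c t ^ k * (starRingEnd ℂ) (PP S c t) ^ k = ((‖PP S c t‖ ^ (2 * k) : ℝ) : ℂ) := by
    intro t
    rw [← mul_pow, Complex.mul_conj, Complex.normSq_eq_norm_sq, pow_mul]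
    push_cast
    rfl
  simp_rw [h2] at h1
  rw [intervalIntegral.integral_ofReal, ← two_mul] at h1
  have h3 := (Complex.abs_re_le_norm _).trans h1
  rw [Complex.sub_re, Complex.ofReal_re, Complex.re_ofReal_mul] at h3
  have h4 := (abs_le.1 h3).2
  have h5 : (V2 - V1) * (Dg S c k k).re ≤ (V2 - V1) * (k.factorial * (∑ p ∈ S, ‖c p‖ ^ 2) ^ k) :=
    mul_le_mul_of_nonneg_left (Dg_le hS c k) (by linarith)
  linarith

lemma PP_shift (S : Finset ℕ) (c : ℕ → ℂ) (t a : ℝ) :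
    PP S c (t + a) = PP S (fun p => c p * ee p a) t := by
  unfold PP
  apply Finset.sum_congr rfl
  intro p _
  have : ee p (t + a) = ee p a * ee p t := by
    unfold ee
    rw [← Complex.exp_add]
    congr 1
    push_cast
    ring
  rw [this]
  ring

/-- half the window -/
noncomputable def aa (x T : ℝ) : ℝ := Real.pi * x / Real.log T

/-- the length of the polynomial -/
noncomputable def ll (k : ℕ) (T : ℝ) : ℝ := ell (1 / 4) T k

lemma ll_eq (k : ℕ) (T : ℝ) : ll k T = 3 * Real.log T / (8 * k) := by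
  unfold ll ell
  by_cases hk : (k : ℝ) = 0
  · rw [hk]; simp
  · field_simp
    ring

/-- the coefficients -/
noncomputable def cs (x : ℝ) (k : ℕ) (T : ℝ) (p : ℕ) : ℂ := c1 T (aa x T) (ll k T) p * ee p (aa x T)

/-- the polynomial -/
noncomputable def Pc (x : ℝ) (k : ℕ) (T t : ℝ) : ℝ := (PP (Pr (2 * ll k T)) (cs x k T) t).re

/-- the error -/
noncomputable def EE (x : ℝ) (k : ℕ) (T t : ℝ) : ℝ := cn (hl x T) t - x + Pc x k T t

lemma Pc_cont (x : ℝ) (k : ℕ) (T : ℝ) : Continuous (Pc x k T) :=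
  Complex.continuous_re.comp (PP_cont _ _)

lemma EE_meas (x : ℝ) (k : ℕ) (T : ℝ) : Measurable (EE x k T) :=
  ((cn_meas _).sub_const _).add (Pc_cont x k T).measurable

lemma log_le_quarter {n : ℕ} (hn : 0 < n) : Real.log n ≤ 4 * (n : ℝ) ^ (1 / 4 : ℝ) := by
  have hn0 : (0 : ℝ) < n := by exact_mod_cast hn
  have h1 := Real.log_le_rpow_div hn0.le (show (0 : ℝ) < 1 / 4 by norm_num)
  calc Real.log n ≤ (n : ℝ) ^ (1 / 4 : ℝ) / (1 / 4) := h1
    _ = _ := by ring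

lemma sqs_summable : Summable (fun n : ℕ => (Real.log n * (n : ℝ) ^ (-1 : ℝ)) ^ 2) := by
  have hs : Summable (fun n : ℕ => 16 * (1 / (n : ℝ) ^ (3 / 2 : ℝ))) :=
    (Real.summable_one_div_nat_rpow.2 (by norm_num)).mul_left _
  refine Summable.of_nonneg_of_le (fun n => sq_nonneg _) (fun n => ?_) hs
  rcases Nat.eq_zero_or_pos n with h | h
  · subst h
    simp
  have hn : (0 : ℝ) < n := by exact_mod_cast h
  have h0 : 0 ≤ Real.log n := Real.log_natCast_nonneg n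
  have h1 : Real.log n * (n : ℝ) ^ (-1 : ℝ) ≤ 4 * (n : ℝ) ^ (-(3 / 4) : ℝ) := by
    calc Real.log n * (n : ℝ) ^ (-1 : ℝ) ≤ 4 * (n : ℝ) ^ (1 / 4 : ℝ) * (n : ℝ) ^ (-1 : ℝ) :=
          mul_le_mul_of_nonneg_right (log_le_quarter h) (by positivity)
      _ = 4 * ((n : ℝ) ^ (1 / 4 : ℝ) * (n : ℝ) ^ (-1 : ℝ)) := by ring
      _ = _ := by
        rw [← Real.rpow_add hn]
        norm_num
  calc (Real.log n * (n : ℝ) ^ (-1 : ℝ)) ^ 2 ≤ (4 * (n : ℝ) ^ (-(3 / 4) : ℝ)) ^ 2 :=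
        pow_le_pow_left₀ (by positivity) h1 2
    _ = 16 * ((n : ℝ) ^ (-(3 / 4) : ℝ)) ^ 2 := by ring
    _ = 16 * (1 / (n : ℝ) ^ (3 / 2 : ℝ)) := by
      rw [← Real.rpow_natCast, ← Real.rpow_mul hn.le, one_div ((n : ℝ) ^ (3 / 2 : ℝ)), ← Real.rpow_neg hn.le]
      norm_num

lemma Pr_card (y : ℝ) : ((Pr y).card : ℝ) ≤ Real.exp y := by
  have h1 : (Pr y).card ≤ (Finset.Icc 1 ⌊Real.exp y⌋₊).card := Finset.card_filter_le _ _
  rw [Nat.card_Icc, Nat.add_sub_cancel] at h1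
  exact (Nat.cast_le.2 h1).trans (Nat.floor_le (Real.exp_pos _).le)

lemma c2_norm {T a l : ℝ} (hT : 1 ≤ T) (ha : 0 ≤ a) {p : ℕ} (hp : p.Prime) :
    ‖c2 T a l p‖ ≤ (Real.log p * (p : ℝ) ^ (-1 : ℝ)) * (2 * a / Real.pi) := by
  have hlp : 0 ≤ Real.log p := Real.log_natCast_nonneg p
  unfold c2
  rw [norm_mul, norm_mul, Complex.norm_real, Complex.norm_real, Real.norm_of_nonneg hlp,
    Real.norm_of_nonneg (by positivity)]
  exact mul_le_mul_of_nonneg_left (SP.bt_le T hT (vW a l) _ (fun u _ => vW_norm ha l u) _) (by positivity)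

lemma c1_norm {T a l : ℝ} (hT : 1 ≤ T) (ha : 0 ≤ a) {p : ℕ} (hp : p.Prime) :
    ‖c1 T a l p‖ ≤ 4 * (2 * a / Real.pi) := by
  have hlp : 0 ≤ Real.log p := Real.log_natCast_nonneg p
  have hp0 : (0 : ℝ) < p := by exact_mod_cast hp.pos
  have hp1 : (1 : ℝ) ≤ p := by exact_mod_cast hp.one_lt.le
  unfold c1
  rw [norm_mul, norm_mul, Complex.norm_real, Complex.norm_real, Real.norm_of_nonneg hlp,
    Real.norm_of_nonneg (by positivity)]
  have h1 : Real.log p * (p : ℝ) ^ (-(1 / 2) : ℝ) ≤ 4 := by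
    calc Real.log p * (p : ℝ) ^ (-(1 / 2) : ℝ) ≤ 4 * (p : ℝ) ^ (1 / 4 : ℝ) * (p : ℝ) ^ (-(1 / 2) : ℝ) :=
          mul_le_mul_of_nonneg_right (log_le_quarter hp.pos) (by positivity)
      _ = 4 * ((p : ℝ) ^ (1 / 4 : ℝ) * (p : ℝ) ^ (-(1 / 2) : ℝ)) := by ring
      _ = 4 * (p : ℝ) ^ (-(1 / 4) : ℝ) := by
        rw [← Real.rpow_add hp0]
        norm_num
      _ ≤ 4 * 1 := by
        apply mul_le_mul_of_nonneg_left _ (by norm_num)
        exact Real.rpow_le_one_of_one_le_of_nonpos hp1 (by norm_num)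
      _ = 4 := mul_one _
  exact mul_le_mul h1 (SP.bt_le T hT (vW a l) _ (fun u _ => vW_norm ha l u) _) (norm_nonneg _) (by norm_num)

/-- the contribution of the squares -/
lemma squares_mom : ∃ C : ℝ, 0 < C ∧ ∀ T a l V1 V2 : ℝ, 1 ≤ T → 0 ≤ a → a ≤ 1 → 0 ≤ l → 8 * l ≤ Real.log T →
    V1 ≤ V2 → V2 ≤ V1 + T → ∫ t in V1..V2, ‖PP (Pr l) (c2 T a l) (2 * t)‖ ^ 4 ≤ C * T := by
  set C5 : ℝ := ∑' n : ℕ, (Real.log n * (n : ℝ) ^ (-1 : ℝ)) ^ 2 with hC5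
  have hC50 : 0 ≤ C5 := tsum_nonneg fun n => sq_nonneg _
  refine ⟨2 * C5 ^ 2 + 1, by positivity, ?_⟩
  intro T a l V1 V2 hT ha ha1 hl hlT hV hVT
  have hpi := Real.pi_pos
  have hpi3 := Real.pi_gt_three
  have hK1 : 2 * a / Real.pi ≤ 1 := by
    rw [div_le_iff₀ hpi]
    linarith
  have hK0 : 0 ≤ 2 * a / Real.pi := by positivity
  have h0 : ∫ t in V1..V2, ‖PP (Pr l) (c2 T a l) (2 * t)‖ ^ 4 =
      1 / 2 * ∫ s in (2 * V1)..(2 * V2), ‖PP (Pr l) (c2 T a l) s‖ ^ 4 := by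
    have := intervalIntegral.smul_integral_comp_mul_left (a := V1) (b := V2) (fun s => ‖PP (Pr l) (c2 T a l) s‖ ^ 4) 2
    rw [← this, smul_eq_mul]
    ring
  have h1 := even_PP (S := Pr l) (fun p hp => Pr_prime hp) (c2 T a l) 2 (X := Real.exp l)
    (Real.one_le_exp hl) (fun p hp => Pr_le hp) (V1 := 2 * V1) (V2 := 2 * V2) (by linarith)
  norm_num at h1
  have hA : ∑ p ∈ Pr l, ‖c2 T a l p‖ ^ 2 ≤ C5 := by
    calc ∑ p ∈ Pr l, ‖c2 T a l p‖ ^ 2 ≤ ∑ p ∈ Pr l, (Real.log p * (p : ℝ) ^ (-1 : ℝ)) ^ 2 := by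
          apply Finset.sum_le_sum
          intro p hp
          have h2 := c2_norm (l := l) hT ha (Pr_prime hp)
          have hlp : 0 ≤ Real.log p := Real.log_natCast_nonneg p
          apply pow_le_pow_left₀ (norm_nonneg _)
          calc _ ≤ _ := h2
            _ ≤ (Real.log p * (p : ℝ) ^ (-1 : ℝ)) * 1 := mul_le_mul_of_nonneg_left hK1 (by positivity)
            _ = _ := mul_one _
      _ ≤ _ := sqs_summable.sum_le_tsum _ (fun n _ => sq_nonneg _)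
  have hY : ∑ p ∈ Pr l, ‖c2 T a l p‖ ≤ Real.exp l := by
    calc ∑ p ∈ Pr l, ‖c2 T a l p‖ ≤ ∑ p ∈ Pr l, 1 := by
          apply Finset.sum_le_sum
          intro p hp
          have h2 := c2_norm (l := l) hT ha (Pr_prime hp)
          have hlp : 0 ≤ Real.log p := Real.log_natCast_nonneg p
          have hp0 : (0 : ℝ) < p := by exact_mod_cast (Pr_prime hp).pos
          have h3 : Real.log p * (p : ℝ) ^ (-1 : ℝ) ≤ 1 := by
            rw [Real.rpow_neg_one, ← div_eq_mul_inv, div_le_one hp0]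
            have := Real.log_le_sub_one_of_pos hp0
            linarith
          calc _ ≤ _ := h2
            _ ≤ 1 * 1 := mul_le_mul h3 hK1 hK0 zero_le_one
            _ = 1 := one_mul 1
      _ = ((Pr l).card : ℝ) := by simp
      _ ≤ _ := Pr_card l
  have hA0 : 0 ≤ ∑ p ∈ Pr l, ‖c2 T a l p‖ ^ 2 := Finset.sum_nonneg fun _ _ => by positivity
  have hY0 : 0 ≤ ∑ p ∈ Pr l, ‖c2 T a l p‖ := Finset.sum_nonneg fun _ _ => norm_nonneg _
  have hA2 := pow_le_pow_left₀ hA0 hA 2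
  have hY4 := pow_le_pow_left₀ hY0 hY 4
  have hexp : Real.exp l ^ 4 * Real.exp l ^ 4 ≤ T := by
    rw [← pow_add, ← Real.exp_nat_mul]
    have hT0 : 0 < T := by linarith
    rw [← Real.le_log_iff_exp_le hT0]
    push_cast
    linarith
  have hX4 : 0 ≤ Real.exp l ^ 4 := by positivity
  have h5 : 2 * Real.exp l ^ 4 * (∑ p ∈ Pr l, ‖c2 T a l p‖) ^ 4 ≤ 2 * T := by
    calc _ ≤ 2 * Real.exp l ^ 4 * Real.exp l ^ 4 := mul_le_mul_of_nonneg_left hY4 (by positivity)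
      _ = 2 * (Real.exp l ^ 4 * Real.exp l ^ 4) := by ring
      _ ≤ _ := by linarith
  have h6 : (2 * V2 - 2 * V1) * (2 * (∑ p ∈ Pr l, ‖c2 T a l p‖ ^ 2) ^ 2) ≤ (2 * T) * (2 * C5 ^ 2) := by
    apply mul_le_mul
    · linarith
    · linarith
    · positivity
    · linarith
  rw [h0]
  linarith

lemma pow4 {a b c d : ℝ} (ha : 0 ≤ a) (hb : 0 ≤ b) (hc : 0 ≤ c) (hd : 0 ≤ d) :
    (a + b + c + d) ^ 4 ≤ 64 * (a ^ 4 + b ^ 4 + c ^ 4 + d ^ 4) := by
  have key : ∀ u v : ℝ, (u + v) ^ 4 ≤ 8 * (u ^ 4 + v ^ 4) := by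
    intro u v
    nlinarith [sq_nonneg (u - v), sq_nonneg (u ^ 2 - v ^ 2), sq_nonneg (u + v), mul_nonneg (sq_nonneg (u - v)) (sq_nonneg (u + v)),
      mul_nonneg (sq_nonneg (u - v)) (sq_nonneg (u - v)), sq_nonneg (u * v)]
  have h1 := key (a + b) (c + d)
  have h2 := key a b
  have h3 := key c d
  have h4 : a + b + c + d = (a + b) + (c + d) := by ring
  rw [h4]
  linarith

end Pool.Agent.Helper77.RS
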