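import Pool.Agent.Helper77.RS.Err

/-! The variance of the prime polynomial. -/

open Complex Filter Topology Set MeasureTheory

namespace Pool.Agent.Helper77.RS

open Pool.Agent.H707.NV (cn cn_log cn_meas cn_nonneg hl cn_pow_ii)

/-- deviation of the count -/
noncomputable def DD (x T t : ℝ) : ℝ := cn (hl x T) t - x

lemma EE_eq (x : ℝ) (k : ℕ) (T t : ℝ) : EE x k T t = DD x T t + Pc x k T t := rfl

lemma ee_norm' (p t : ℝ) : ‖ee p t‖ = 1 := ee_norm p t

lemma cs_norm (x : ℝ) (k : ℕ) (T : ℝ) (p : ℕ) : ‖cs x k T p‖ = ‖c1 T (aa x T) (ll k T) p‖ := by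
  unfold cs
  rw [norm_mul, ee_norm', mul_one]

lemma ll_bound {k q : ℕ} (hk : 8 ≤ k) (hq : 3 * q ≤ k) {T : ℝ} (hL : 0 ≤ Real.log T) :
    4 * ll k T * q ≤ Real.log T / 2 := by
  have hk0 : (0 : ℝ) < k := by exact_mod_cast (by omega : 0 < k)
  rw [ll_eq]
  have h1 : (3 * q : ℝ) ≤ k := by exact_mod_cast hq
  have h2 : 4 * (3 * Real.log T / (8 * (k : ℝ))) * q = (3 * q / k) * (Real.log T / 2) := by
    field_simp
    ring
  rw [h2]
  have h3 : 3 * (q : ℝ) / k ≤ 1 := by rw [div_le_one hk0]; exact h1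
  nlinarith

/-- facts about the polynomial for large `T` -/
lemma polyfacts {k q : ℕ} (hk : 8 ≤ k) (hq : 3 * q ≤ k) {x : ℝ} (hx : 0 < x) {η : ℝ} (hη : 0 < η) :
    ∀ᶠ T : ℝ in atTop, (∀ p ∈ Pr (2 * ll k T), ‖cs x k T p‖ ^ 2 ≤ η) ∧
      2 * Real.exp (2 * ll k T) ^ q * (∑ p ∈ Pr (2 * ll k T), ‖cs x k T p‖) ^ q ≤ η * (U2 T - U1 T) := by
  have hpi := Real.pi_pos
  have hpi3 := Real.pi_gt_three
  have e1 : ∀ᶠ T : ℝ in atTop, (8 * x / Real.log T) ^ 2 ≤ η := by
    have h1 : Tendsto (fun T : ℝ => (8 * x / Real.log T) ^ 2) atTop (𝓝 (0 ^ 2)) :=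
      (Real.tendsto_log_atTop.const_div_atTop (8 * x)).pow 2
    rw [zero_pow (by norm_num)] at h1
    exact h1.eventually_le_const hη
  have e2 : ∀ᶠ T : ℝ in atTop, 4 * 4 ^ q / η ≤ T ^ (1 / 2 : ℝ) :=
    (tendsto_rpow_atTop (by norm_num)).eventually_ge_atTop _
  filter_upwards [basics x hx 1, e1, e2] with T ⟨hTT, hT10, hL1, ha0, ha1, hU, hL0, hL3⟩ h1 h2
  have hT : 1 ≤ T := by linarith
  have ha : 2 * aa x T / Real.pi = 2 * x / Real.log T := by
    unfold aa
    field_simp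
  have hK : 2 * aa x T / Real.pi ≤ 1 := by
    rw [div_le_iff₀ hpi]
    linarith
  have hcn : ∀ p ∈ Pr (2 * ll k T), ‖cs x k T p‖ ≤ 4 * (2 * aa x T / Real.pi) := by
    intro p hp
    rw [cs_norm]
    exact c1_norm hT ha0.le (Pr_prime hp)
  refine ⟨fun p hp => ?_, ?_⟩
  · refine (pow_le_pow_left₀ (norm_nonneg _) (hcn p hp) 2).trans ?_
    rw [ha]
    refine le_trans (le_of_eq ?_) h1
    ring
  · have hY : ∑ p ∈ Pr (2 * ll k T), ‖cs x k T p‖ ≤ 4 * Real.exp (2 * ll k T) := by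
      calc _ ≤ ∑ p ∈ Pr (2 * ll k T), (4 : ℝ) := by
            apply Finset.sum_le_sum
            intro p hp
            have := hcn p hp
            linarith
        _ = 4 * ((Pr (2 * ll k T)).card : ℝ) := by
            rw [Finset.sum_const, nsmul_eq_mul]; ring
        _ ≤ _ := by
            have := Pr_card (2 * ll k T)
            linarith
    have hY0 : 0 ≤ ∑ p ∈ Pr (2 * ll k T), ‖cs x k T p‖ := Finset.sum_nonneg fun _ _ => norm_nonneg _
    have hlq := ll_bound hk hq hL0.le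
    have h3 : Real.exp (2 * ll k T) ^ q * Real.exp (2 * ll k T) ^ q ≤ T ^ (1 / 2 : ℝ) := by
      rw [← pow_add, ← Real.exp_nat_mul, Real.rpow_def_of_pos (by linarith)]
      apply Real.exp_le_exp.2
      push_cast
      linarith
    have hT2 : T ^ (1 / 2 : ℝ) * T ^ (1 / 2 : ℝ) = T := by
      rw [← Real.rpow_add (by linarith)]
      norm_num
    have hW : T / 2 ≤ U2 T - U1 T := by unfold U1 U2; linarith
    have hs0 : 0 < T ^ (1 / 2 : ℝ) := Real.rpow_pos_of_pos (by linarith) _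
    rw [div_le_iff₀ hη] at h2
    calc 2 * Real.exp (2 * ll k T) ^ q * (∑ p ∈ Pr (2 * ll k T), ‖cs x k T p‖) ^ q ≤
        2 * Real.exp (2 * ll k T) ^ q * (4 * Real.exp (2 * ll k T)) ^ q := by gcongr
      _ = 2 * 4 ^ q * (Real.exp (2 * ll k T) ^ q * Real.exp (2 * ll k T) ^ q) := by rw [mul_pow]; ring
      _ ≤ 2 * 4 ^ q * T ^ (1 / 2 : ℝ) := by gcongr
      _ ≤ η * (T / 2) := by
        have : 4 * 4 ^ q * T ^ (1 / 2 : ℝ) ≤ T ^ (1 / 2 : ℝ) * η * T ^ (1 / 2 : ℝ) :=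
          mul_le_mul_of_nonneg_right h2 hs0.le
        have h5 : T ^ (1 / 2 : ℝ) * η * T ^ (1 / 2 : ℝ) = η * T := by
          rw [mul_right_comm, hT2, mul_comm]
        linarith
      _ ≤ _ := mul_le_mul_of_nonneg_left hW hη.le

/-- the squares of the deviations on the smaller interval -/
theorem varU (hRH : RiemannHypothesis) {x : ℝ} (hx : 1 ≤ x) : ∀ᶠ T : ℝ in atTop,
    (Real.log x / Real.pi ^ 2 - 1) * (U2 T - U1 T) ≤ ∫ t in (U1 T)..(U2 T), DD x T t ^ 2 ∧
    ∫ t in (U1 T)..(U2 T), DD x T t ^ 2 ≤ (Real.log x / Real.pi ^ 2 + 3) * (U2 T - U1 T) := by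
  have hpi := Real.pi_pos
  have hx0 : 0 < x := by linarith
  obtain ⟨C3, hC3, h3⟩ := cn_log
  set Q := Real.log x / Real.pi ^ 2 with hQ
  have hQ0 : 0 ≤ Q := by
    rw [hQ]
    exact div_nonneg (Real.log_nonneg hx) (by positivity)
  have e1 : ∀ᶠ T : ℝ in atTop, (3 * Real.log T) * (C3 * Real.log (2 * T) + x) ^ 2 ≤ 1 / 4 * T := by
    have h1 : (fun T : ℝ => Real.log T ^ 3) =o[atTop] fun T => T := Real.isLittleO_pow_log_id_atTop
    have h2 := h1.bound (show (0 : ℝ) < 1 / (12 * (2 * C3 + x) ^ 2) by positivity)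
    filter_upwards [h2, basics x hx0 1] with T h4 ⟨hTT, hT10, hL1, ha0, ha1, hU, hL0, hL3⟩
    rw [Real.norm_eq_abs, Real.norm_eq_abs, abs_of_nonneg (by positivity), abs_of_nonneg (by linarith)] at h4
    have hL2 : Real.log (2 * T) ≤ 2 * Real.log T := by
      rw [Real.log_mul (by norm_num) (by linarith)]
      have := Real.log_two_lt_d9
      linarith
    have hl20 : 0 ≤ Real.log (2 * T) := Real.log_nonneg (by linarith)
    have h5 : C3 * Real.log (2 * T) + x ≤ (2 * C3 + x) * Real.log T := by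
      nlinarith
    calc (3 * Real.log T) * (C3 * Real.log (2 * T) + x) ^ 2 ≤ (3 * Real.log T) * ((2 * C3 + x) * Real.log T) ^ 2 := by
          gcongr
      _ = 3 * (2 * C3 + x) ^ 2 * Real.log T ^ 3 := by ring
      _ ≤ 3 * (2 * C3 + x) ^ 2 * (1 / (12 * (2 * C3 + x) ^ 2) * T) := by gcongr
      _ = 1 / 4 * T := by field_simp; norm_num
  have e2 : ∀ᶠ T : ℝ in atTop, (Q + 3) * (3 * Real.log T) ≤ 1 / 2 * T := by
    have h1 : (fun T : ℝ => Real.log T) =o[atTop] fun T => T := Real.isLittleO_log_id_atTop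
    have h2 := h1.bound (show (0 : ℝ) < 1 / (6 * (Q + 3)) by positivity)
    filter_upwards [h2, basics x hx0 1] with T h4 ⟨hTT, hT10, hL1, ha0, ha1, hU, hL0, hL3⟩
    rw [Real.norm_eq_abs, Real.norm_eq_abs, abs_of_nonneg (by positivity), abs_of_nonneg (by linarith)] at h4
    calc (Q + 3) * (3 * Real.log T) ≤ (Q + 3) * (3 * (1 / (6 * (Q + 3)) * T)) := by gcongr
      _ = 1 / 2 * T := by field_simp; norm_num
  filter_upwards [basics x hx0 1, e1, e2, var_low hRH hx (show (0 : ℝ) < 1 / 4 by norm_num), var_up hRH hx] with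
    T ⟨hTT, hT10, hL1, ha0, ha1, hU, hL0, hL3⟩ h4 h5 h6 h7
  have hhl : hl x T = 2 * aa x T := by
    unfold hl aa; ring
  have hh0 : 0 ≤ hl x T := by rw [hhl]; linarith
  have hDi : ∀ a b : ℝ, a ≤ b → IntervalIntegrable (fun t => DD x T t ^ 2) volume a b := by
    intro a b hab
    have i2 := cn_pow_ii hh0 2 hab
    have i1 : IntervalIntegrable (fun t => cn (hl x T) t) volume a b := by
      simpa using cn_pow_ii hh0 1 hab
    have e : ∀ t, DD x T t ^ 2 = cn (hl x T) t ^ 2 - 2 * x * cn (hl x T) t + x ^ 2 := by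
      intro t; unfold DD; ring
    simp_rw [e]
    exact (i2.sub (i1.const_mul _)).add intervalIntegrable_const
  have hU1 : T ≤ U1 T := by unfold U1; linarith
  have hU2 : U2 T ≤ 2 * T := by unfold U2; linarith
  have hsplit : ∫ t in T..(2 * T), DD x T t ^ 2 = (∫ t in T..(U1 T), DD x T t ^ 2) +
      (∫ t in (U1 T)..(U2 T), DD x T t ^ 2) + ∫ t in (U2 T)..(2 * T), DD x T t ^ 2 := by
    rw [intervalIntegral.integral_add_adjacent_intervals (hDi _ _ hU1) (hDi _ _ hU),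
      intervalIntegral.integral_add_adjacent_intervals (hDi _ _ (hU1.trans hU)) (hDi _ _ hU2)]
  have hbd : ∀ t ∈ Icc T (2 * T), DD x T t ^ 2 ≤ (C3 * Real.log (2 * T) + x) ^ 2 := by
    intro t ht
    have h8 := h3 T (by linarith) (hl x T) (by rw [hhl]; linarith) t ht
    have h9 := cn_nonneg hh0 t
    apply sq_le_sq'
    · unfold DD; nlinarith
    · unfold DD; linarith
  have hg1 : 0 ≤ ∫ t in T..(U1 T), DD x T t ^ 2 := intervalIntegral.integral_nonneg hU1 fun _ _ => sq_nonneg _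
  have hg2 : 0 ≤ ∫ t in (U2 T)..(2 * T), DD x T t ^ 2 := intervalIntegral.integral_nonneg hU2 fun _ _ => sq_nonneg _
  have hg3 : ∫ t in T..(U1 T), DD x T t ^ 2 ≤ (U1 T - T) * (C3 * Real.log (2 * T) + x) ^ 2 := by
    have := intervalIntegral.integral_mono_on hU1 (hDi _ _ hU1) (intervalIntegrable_const (c := (C3 * Real.log (2 * T) + x) ^ 2))
      (fun t ht => hbd t ⟨ht.1, ht.2.trans (hU.trans hU2)⟩)
    rw [intervalIntegral.integral_const, smul_eq_mul] at this
    exact this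
  have hg4 : ∫ t in (U2 T)..(2 * T), DD x T t ^ 2 ≤ (2 * T - U2 T) * (C3 * Real.log (2 * T) + x) ^ 2 := by
    have := intervalIntegral.integral_mono_on hU2 (hDi _ _ hU2) (intervalIntegrable_const (c := (C3 * Real.log (2 * T) + x) ^ 2))
      (fun t ht => hbd t ⟨hU1.trans (hU.trans ht.1), ht.2⟩)
    rw [intervalIntegral.integral_const, smul_eq_mul] at this
    exact this
  have hD1 : ∫ t in T..(2 * T), (cn (hl x T) t - x) ^ 2 = ∫ t in T..(2 * T), DD x T t ^ 2 := rfl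
  rw [hD1] at h6 h7
  have hsum : (U1 T - T) * (C3 * Real.log (2 * T) + x) ^ 2 + (2 * T - U2 T) * (C3 * Real.log (2 * T) + x) ^ 2 ≤
      3 * Real.log T * (C3 * Real.log (2 * T) + x) ^ 2 := by
    rw [← add_mul]
    apply mul_le_mul_of_nonneg_right _ (sq_nonneg _)
    unfold U1 U2
    linarith
  have hWT : U2 T - U1 T = T - 2 * Real.log T - 1 := by unfold U1 U2; ring
  constructor
  · have hWle : U2 T - U1 T ≤ T := by rw [hWT]; linarith
    have hWge : T / 2 ≤ U2 T - U1 T := by rw [hWT]; linarith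
    have : (Q - 1) * (U2 T - U1 T) ≤ Q * T - T / 2 := by nlinarith
    linarith
  · have hWge : T - 3 * Real.log T ≤ U2 T - U1 T := by rw [hWT]; linarith
    have : (Q + 2) * T ≤ (Q + 3) * (U2 T - U1 T) := by
      have h8 : (Q + 3) * (T - 3 * Real.log T) ≤ (Q + 3) * (U2 T - U1 T) :=
        mul_le_mul_of_nonneg_left hWge (by linarith)
      nlinarith
    linarith

end Pool.Agent.Helper77.RS
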