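import Pool.Agent.Helper77.RS.Far
import Pool.Graph.R_seed8.H793R2.LG.GapTail

/-! The prime side: primes and squares of primes. -/

open Complex Filter Topology Set MeasureTheory

namespace Pool.Agent.Helper77.RS

open SP

noncomputable def cub (n : ℕ) : ℝ := Real.log n * (n : ℝ) ^ (-(3 / 2) : ℝ)

lemma cub_nonneg (n : ℕ) : 0 ≤ cub n := by
  unfold cub
  have : 0 ≤ Real.log n := Real.log_natCast_nonneg n
  positivity

lemma cub_summable : Summable cub := by
  have hs : Summable (fun n : ℕ => 4 * (1 / (n : ℝ) ^ (5 / 4 : ℝ))) :=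
    (Real.summable_one_div_nat_rpow.2 (by norm_num)).mul_left _
  refine Summable.of_nonneg_of_le cub_nonneg (fun n => ?_) hs
  rcases Nat.eq_zero_or_pos n with h | h
  · subst h
    simp [cub]
  have hn : (0 : ℝ) < n := by exact_mod_cast h
  unfold cub
  have h1 := Real.log_le_rpow_div hn.le (show (0 : ℝ) < 1 / 4 by norm_num)
  calc Real.log n * (n : ℝ) ^ (-(3 / 2) : ℝ) ≤ ((n : ℝ) ^ (1 / 4 : ℝ) / (1 / 4)) * (n : ℝ) ^ (-(3 / 2) : ℝ) :=
        mul_le_mul_of_nonneg_right h1 (by positivity)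
    _ = 4 * ((n : ℝ) ^ (1 / 4 : ℝ) * (n : ℝ) ^ (-(3 / 2) : ℝ)) := by ring
    _ = 4 * (1 / (n : ℝ) ^ (5 / 4 : ℝ)) := by
        rw [← Real.rpow_add hn, one_div ((n : ℝ) ^ (5 / 4 : ℝ)), ← Real.rpow_neg hn.le]
        norm_num

/-- higher prime powers, without the squares -/
lemma ppf_inner3 (T t : ℝ) (hT : 1 ≤ T) (W : ℝ → ℂ) (K l : ℝ) (hl0 : 0 < l)
    (hW : ∀ u ∈ Set.Icc 0 (Real.log T), ‖W u‖ ≤ K) (hl : ∀ u : ℝ, l ≤ u → W u = 0)
    (p : ℕ) (hp : p.Prime) :
    ‖(∑' k : ℕ, ppf T t W (p ^ (k + 2))) - (if p ≤ ⌊Real.exp l⌋₊ then ppf T t W (p ^ 2) else 0)‖ ≤ 4 * K *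
      (cub p + Real.log T * (Real.exp (-l ^ 2 / 4) * ppG (1 / 4) p)) := by
  have hL : 0 ≤ Real.log T := Real.log_nonneg hT
  have hK : 0 ≤ K := (norm_nonneg _).trans (hW 0 ⟨le_rfl, hL⟩)
  have hp2 : (2 : ℝ) ≤ p := by exact_mod_cast hp.two_le
  have hp0 : (0 : ℝ) < p := by linarith
  have hlp : 0 ≤ Real.log p := Real.log_natCast_nonneg p
  by_cases hpN : p ≤ ⌊Real.exp l⌋₊
  · rw [if_pos hpN]
    set r : ℝ := (p : ℝ) ^ (-(1 / 2) : ℝ) with hr
    have hr0 : 0 < r := Real.rpow_pos_of_pos hp0 _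
    have hr2 : r ^ 2 = 1 / p := by
      rw [hr, ← Real.rpow_natCast, ← Real.rpow_mul hp0.le]
      norm_num
      rw [Real.rpow_neg_one]
    have hr3 : Real.log p * r ^ 3 = cub p := by
      unfold cub
      rw [hr, ← Real.rpow_natCast, ← Real.rpow_mul hp0.le]
      norm_num
    have hr34 : r ≤ 3 / 4 := by
      have h1 : r ^ 2 ≤ (3 / 4) ^ 2 := by
        rw [hr2, div_le_iff₀ hp0]
        nlinarith
      exact le_of_sq_le_sq h1 (by norm_num)
    have hr1 : r < 1 := by linarith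
    have hsum := ppf_summable T t hT W K hW
    have hinj : Function.Injective (fun k : ℕ => p ^ (k + 2)) := by
      intro a b hab
      have := Nat.pow_right_injective hp.two_le hab
      omega
    have hs2 : Summable (fun k : ℕ => ppf T t W (p ^ (k + 2))) := hsum.comp_injective hinj
    rw [hs2.tsum_eq_zero_add, zero_add, add_sub_cancel_left]
    have hterm : ∀ k : ℕ, ‖ppf T t W (p ^ (k + 1 + 2))‖ ≤ (cub p * K) * r ^ k := by
      intro k
      have hpos : 1 ≤ p ^ (k + 1 + 2) := Nat.one_le_pow _ _ hp.pos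
      rw [ppf_norm T t W _ hpos, ArithmeticFunction.vonMangoldt_apply_pow (by omega),
        ArithmeticFunction.vonMangoldt_apply_prime hp]
      have h1 : ((p ^ (k + 1 + 2) : ℕ) : ℝ) ^ (-(1 / 2) : ℝ) = r ^ (k + 1 + 2) := by
        push_cast
        rw [hr, ← Real.rpow_natCast, ← Real.rpow_natCast, ← Real.rpow_mul hp0.le,
          ← Real.rpow_mul hp0.le]
        congr 1
        ring
      rw [h1]
      calc Real.log p * r ^ (k + 1 + 2) * ‖bt T W ((p ^ (k + 1 + 2) : ℕ) : ℝ)‖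
          ≤ Real.log p * r ^ (k + 1 + 2) * K :=
            mul_le_mul_of_nonneg_left (SP.bt_le T hT W K hW _) (by positivity)
        _ = (cub p * K) * r ^ k := by rw [← hr3]; ring
    have hgeo : HasSum (fun k : ℕ => (cub p * K) * r ^ k) ((cub p * K) * (1 - r)⁻¹) :=
      (hasSum_geometric_of_lt_one hr0.le hr1).mul_left _
    refine (tsum_of_norm_bounded hgeo hterm).trans ?_
    have h4 : (1 - r)⁻¹ ≤ 4 := by
      rw [inv_le_comm₀ (by linarith) (by norm_num)]
      linarith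
    have h5 := cub_nonneg p
    have h6 := ppG_nonneg (1 / 4) p
    calc (cub p * K) * (1 - r)⁻¹ ≤ (cub p * K) * 4 := mul_le_mul_of_nonneg_left h4 (by positivity)
      _ = 4 * K * (cub p + 0) := by ring
      _ ≤ _ := by
        apply mul_le_mul_of_nonneg_left _ (by positivity)
        apply add_le_add_right
        positivity
  · rw [if_neg hpN, sub_zero]
    refine (LG.GT.ppf_inner2 T t hT W K l hl0 hW hl p hp).trans ?_
    rw [if_neg hpN]
    apply mul_le_mul_of_nonneg_left _ (by positivity)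
    apply add_le_add_left
    exact cub_nonneg p

theorem prime_part3 : ∃ C : ℝ, 0 < C ∧ ∀ T : ℝ, 10 ≤ T → ∀ t l : ℝ, 0 < l → l ≤ Real.log T →
    ∀ (W : ℝ → ℂ) (K : ℝ), (∀ u ∈ Set.Icc 0 (Real.log T), ‖W u‖ ≤ K) →
    (∀ u : ℝ, l ≤ u → W u = 0) →
    ‖ps T t W - (∑ p ∈ (Finset.Icc 1 ⌊Real.exp (2 * l)⌋₊).filter Nat.Prime, ppf T t W p) -
      ∑ p ∈ (Finset.Icc 1 ⌊Real.exp l⌋₊).filter Nat.Prime, ppf T t W (p ^ 2)‖ ≤
      C * (K * (1 + Real.log T * Real.exp (-l ^ 2 / 4))) := by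
  refine ⟨(∑' n, ppG (1 / 16) n) + 4 * (∑' n, ppG (1 / 4) n) + 4 * (∑' n, cub n) + 1, ?_, ?_⟩
  · have h1 : 0 ≤ ∑' n, ppG (1 / 16) n := tsum_nonneg (ppG_nonneg _)
    have h2 : 0 ≤ ∑' n, ppG (1 / 4) n := tsum_nonneg (ppG_nonneg _)
    have h3 : 0 ≤ ∑' n, cub n := tsum_nonneg cub_nonneg
    positivity
  intro T hT t l hl0 hlT W K hW hl
  have hT1 : (1 : ℝ) ≤ T := by linarith
  have hL1 : 1 ≤ Real.log T := by
    rw [Real.le_log_iff_exp_le (by linarith)]
    have := Real.exp_one_lt_d9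
    linarith
  have hL : 0 ≤ Real.log T := by linarith
  have hK : 0 ≤ K := (norm_nonneg _).trans (hW 0 ⟨le_rfl, hL⟩)
  have hsum := ppf_summable T t hT1 W K hW
  have hps : ps T t W = (∑' p : Nat.Primes, ppf T t W p) +
      ∑' (p : Nat.Primes) (k : ℕ), ppf T t W (p ^ (k + 2)) :=
    tsum_eq_tsum_primes_add_tsum_primes_of_support_subset_prime_powers hsum (ppf_support T t W)
  set S : Finset ℕ := (Finset.Icc 1 ⌊Real.exp (2 * l)⌋₊).filter Nat.Prime with hS
  -- primes
  set g : ℕ → ℂ := Set.indicator {p : ℕ | p.Prime} (ppf T t W) with hg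
  have hgs : Summable g := hsum.indicator _
  have hA1 : (∑' p : Nat.Primes, ppf T t W p) = ∑' n, g n :=
    tsum_subtype {p : ℕ | p.Prime} (ppf T t W)
  have hA2 : ∑ p ∈ S, ppf T t W p = ∑ p ∈ S, g p := by
    apply Finset.sum_congr rfl
    intro p hp
    rw [hg, Set.indicator_of_mem]
    exact (Finset.mem_filter.1 hp).2
  have hA3 : ∑ p ∈ S, g p = ∑' n, (if n ∈ S then g n else 0) := by
    rw [tsum_eq_sum (s := S)]
    · apply Finset.sum_congr rfl
      intro p hp
      rw [if_pos hp]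
    · intro n hn
      rw [if_neg hn]
  have hs2 : Summable (fun n => if n ∈ S then g n else 0) := by
    apply summable_of_ne_finset_zero (s := S)
    intro n hn
    rw [if_neg hn]
  have hA : ‖(∑' p : Nat.Primes, ppf T t W p) - ∑ p ∈ S, ppf T t W p‖ ≤
      K * Real.log T * Real.exp (-l ^ 2 / 4) * ∑' n, ppG (1 / 16) n := by
    rw [hA1, hA2, hA3, ← hgs.tsum_sub hs2]
    apply tsum_of_norm_bounded ((ppG_summable (1 / 16) (by norm_num)).hasSum.mul_left _)
    intro n
    by_cases hnS : n ∈ S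
    · rw [if_pos hnS, sub_self, norm_zero]
      have := ppG_nonneg (1 / 16) n
      positivity
    · rw [if_neg hnS, sub_zero]
      by_cases hn : n.Prime
      · rw [hg, Set.indicator_of_mem (show n ∈ {p : ℕ | p.Prime} from hn)]
        have hn2 : Real.exp (2 * l) < n := by
          have : ¬ (n ≤ ⌊Real.exp (2 * l)⌋₊) := by
            intro h
            exact hnS (Finset.mem_filter.2 ⟨Finset.mem_Icc.2 ⟨hn.one_lt.le, h⟩, hn⟩)
          rw [not_le] at this
          exact (Nat.floor_lt (Real.exp_pos _).le).1 this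
        have hlogn : 2 * l ≤ Real.log n := by
          rw [Real.le_log_iff_exp_le (by exact_mod_cast hn.pos)]
          exact hn2.le
        have h0 : 0 ≤ Real.log n := Real.log_natCast_nonneg n
        calc ‖ppf T t W n‖ ≤ Real.log n * (n : ℝ) ^ (-(1 / 2) : ℝ) * ‖bt T W n‖ :=
              ppf_norm_le T t W n
          _ ≤ Real.log n * (n : ℝ) ^ (-(1 / 2) : ℝ) *
              (K * (Real.exp (-l ^ 2 / 4) * Real.exp (-(1 / 16) * (Real.log n) ^ 2)) *
                Real.log T) := by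
              apply mul_le_mul_of_nonneg_left _ (by positivity)
              refine (bt_far T hT1 W K l hW hl n (by linarith)).trans ?_
              have : Real.exp (-(Real.log n - l) ^ 2 / 2) ≤
                  Real.exp (-l ^ 2 / 4) * Real.exp (-(1 / 16) * (Real.log n) ^ 2) := by
                rw [← Real.exp_add]
                apply Real.exp_le_exp.2
                nlinarith
              gcongr
          _ = _ := by
              unfold ppG
              ring
      · rw [hg, Set.indicator_of_notMem (show n ∉ {p : ℕ | p.Prime} from hn), norm_zero]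
        have := ppG_nonneg (1 / 16) n
        positivity
  -- higher powers
  set N : ℕ := ⌊Real.exp l⌋₊ with hN
  set B : ℕ → ℝ := fun n => 4 * K * (cub n + Real.log T * (Real.exp (-l ^ 2 / 4) * ppG (1 / 4) n)) with hB
  have hB0 : ∀ n, 0 ≤ B n := by
    intro n
    have h1 := ppG_nonneg (1 / 4) n
    have h2 := cub_nonneg n
    rw [hB]
    positivity
  have hBs : HasSum B (4 * K * ((∑' n, cub n) +
      Real.log T * (Real.exp (-l ^ 2 / 4) * ∑' n, ppG (1 / 4) n))) :=
    (cub_summable.hasSum.add (((ppG_summable (1 / 4) (by norm_num)).hasSum.mul_left _).mul_left _)).mul_left _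
  set q : ℕ → ℂ := fun p => if p ≤ N then ppf T t W (p ^ 2) else 0 with hq
  have hin : ∀ p : Nat.Primes, ‖(∑' k : ℕ, ppf T t W ((p : ℕ) ^ (k + 2))) - q p‖ ≤ B p := fun p =>
    ppf_inner3 T t hT1 W K l hl0 hW hl p p.2
  have hBsub : Summable (fun p : Nat.Primes => B p) := hBs.summable.subtype _
  have hqs : Summable (fun p : Nat.Primes => q p) := by
    have : Summable q := by
      apply summable_of_ne_finset_zero (s := Finset.range (N + 1))
      intro n hn
      rw [Finset.mem_range] at hn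
      rw [hq]
      simp only
      rw [if_neg (by omega)]
    exact this.subtype _
  have hds : Summable (fun p : Nat.Primes => (∑' k : ℕ, ppf T t W ((p : ℕ) ^ (k + 2))) - q p) :=
    Summable.of_norm_bounded hBsub hin
  have hps2 : Summable (fun p : Nat.Primes => ∑' k : ℕ, ppf T t W ((p : ℕ) ^ (k + 2))) := by
    have := hds.add hqs
    refine this.congr fun p => ?_
    ring
  have hqsum : ∑' p : Nat.Primes, q p = ∑ p ∈ (Finset.Icc 1 N).filter Nat.Prime, ppf T t W (p ^ 2) := by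
    have e1 : ∑' p : Nat.Primes, q p = ∑' n, Set.indicator {p : ℕ | p.Prime} q n :=
      tsum_subtype {p : ℕ | p.Prime} q
    rw [e1, tsum_eq_sum (s := (Finset.Icc 1 N).filter Nat.Prime)]
    · apply Finset.sum_congr rfl
      intro p hp
      rw [Finset.mem_filter, Finset.mem_Icc] at hp
      rw [Set.indicator_of_mem (show p ∈ {p : ℕ | p.Prime} from hp.2), hq]
      simp only
      rw [if_pos hp.1.2]
    · intro n hn
      by_cases hnp : n.Prime
      · rw [Set.indicator_of_mem (show n ∈ {p : ℕ | p.Prime} from hnp), hq]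
        simp only
        rw [if_neg]
        intro h
        exact hn (Finset.mem_filter.2 ⟨Finset.mem_Icc.2 ⟨hnp.one_lt.le, h⟩, hnp⟩)
      · rw [Set.indicator_of_notMem (show n ∉ {p : ℕ | p.Prime} from hnp)]
  have hC : ‖(∑' (p : Nat.Primes) (k : ℕ), ppf T t W (p ^ (k + 2))) -
      ∑ p ∈ (Finset.Icc 1 N).filter Nat.Prime, ppf T t W (p ^ 2)‖ ≤
      4 * K * ((∑' n, cub n) + Real.log T * (Real.exp (-l ^ 2 / 4) * ∑' n, ppG (1 / 4) n)) := by
    rw [← hqsum, ← hps2.tsum_sub hqs]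
    have h1 : ‖∑' p : Nat.Primes, ((∑' k : ℕ, ppf T t W ((p : ℕ) ^ (k + 2))) - q p)‖ ≤
        ∑' p : Nat.Primes, B p := tsum_of_norm_bounded hBsub.hasSum hin
    refine h1.trans ?_
    rw [← hBs.tsum_eq]
    exact hBs.summable.tsum_subtype_le B {p : ℕ | p.Prime} hB0
  have hfin : ps T t W - (∑ p ∈ S, ppf T t W p) - ∑ p ∈ (Finset.Icc 1 N).filter Nat.Prime, ppf T t W (p ^ 2) =
      ((∑' p : Nat.Primes, ppf T t W p) - ∑ p ∈ S, ppf T t W p) +
      ((∑' (p : Nat.Primes) (k : ℕ), ppf T t W (p ^ (k + 2))) -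
      ∑ p ∈ (Finset.Icc 1 N).filter Nat.Prime, ppf T t W (p ^ 2)) := by
    rw [hps]
    ring
  rw [hfin]
  refine (norm_add_le _ _).trans ((add_le_add hA hC).trans ?_)
  have g1 : 0 ≤ ∑' n, ppG (1 / 16) n := tsum_nonneg (ppG_nonneg _)
  have g2 : 0 ≤ ∑' n, ppG (1 / 4) n := tsum_nonneg (ppG_nonneg _)
  have g3 : 0 ≤ ∑' n, cub n := tsum_nonneg cub_nonneg
  have g4 : 0 ≤ Real.log T * Real.exp (-l ^ 2 / 4) := by positivity
  set x1 := ∑' n, ppG (1 / 16) n
  set x2 := ∑' n, ppG (1 / 4) n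
  set x3 := ∑' n, cub n
  set E := Real.log T * Real.exp (-l ^ 2 / 4) with hE
  have : K * Real.log T * Real.exp (-l ^ 2 / 4) * x1 + 4 * K * (x3 + Real.log T * (Real.exp (-l ^ 2 / 4) * x2)) =
      K * (E * x1 + 4 * (x3 + E * x2)) := by rw [hE]; ring
  rw [this]
  have h2 : E * x1 + 4 * (x3 + E * x2) ≤ (x1 + 4 * x2 + 4 * x3 + 1) * (1 + E) := by
    nlinarith [mul_nonneg g4 g1, mul_nonneg g4 g2, mul_nonneg g4 g3]
  calc _ ≤ K * ((x1 + 4 * x2 + 4 * x3 + 1) * (1 + E)) := mul_le_mul_of_nonneg_left h2 hK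
    _ = _ := by ring

end Pool.Agent.Helper77.RS
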