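import Pool.Agent.Helper77.RS.Fw
import Pool.Agent.Helper77.RS.Prm
import Pool.Graph.R_pool_sql_team_seeded_620a6dc7.H707.NV.Fin

/-! The window counts as Dirichlet polynomials over the primes. -/

open Complex Filter Topology Set MeasureTheory

namespace Pool.Agent.Helper77.RS

open SP (zs ps QW ell W1 RHs ZZ mu bt ppf)
open SG (NZ ZS ZS_finite NZ_eq zmult)
open Pool.Agent.TH800.LD (ZZf)
open Pool.Agent.H707.NV (cn)

/-- half-open indicator -/
noncomputable def iv (a y : ℝ) : ℝ := if -a < y ∧ y ≤ a then 1 else 0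

lemma iv_nonneg (a y : ℝ) : 0 ≤ iv a y := by
  unfold iv; split_ifs <;> norm_num

lemma fv_err {a l : ℝ} (ha : 0 < a) (hl : 0 < l) (y : ℝ) : |fw a l y - iv a y| ≤ 114 * ew a l y := by
  have h1 := fw_err ha hl y
  have h2 : |iw a y - iv a y| ≤ ew a l y := by
    have hew : 0 ≤ ew a l y := by unfold ew; positivity
    unfold iw iv
    by_cases h : -a < y ∧ y ≤ a
    · rw [if_pos h, if_pos (abs_le.2 ⟨h.1.le, h.2⟩)]
      simpa using hew
    · rw [if_neg h]
      by_cases h' : |y| ≤ a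
      · rw [if_pos h']
        rw [abs_le] at h'
        have hy : y = -a := by
          by_contra hne
          exact h ⟨lt_of_le_of_ne h'.1 (Ne.symm hne), h'.2⟩
        rw [hy]
        unfold ew
        have : l * (-a + a) = 0 := by ring
        rw [this]
        norm_num
        positivity
      · rw [if_neg h']
        simpa using hew
  have h3 := abs_sub_le (fw a l y) (iw a y) (iv a y)
  linarith

/-- the counting function as a sum over the zeros -/
lemma cn_eq {T : ℝ} (hT : 1 ≤ T) {t a : ℝ} (ha : 0 ≤ a) (h1 : T ≤ t - a) (h2 : t + a ≤ 2 * T) :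
    cn (2 * a) (t - a) = ∑ s ∈ (ZZf hT).toFinset, (mu s : ℝ) * iv a (s.im - t) := by
  classical
  unfold cn
  have h3 : t - a + 2 * a = t + a := by ring
  rw [h3]
  have h4 : NZ (t + a) = NZ (t - a) + ∑ s ∈ (ZZf hT).toFinset.filter (fun s => -a < s.im - t ∧ s.im - t ≤ a), mu s := by
    rw [NZ_eq, NZ_eq, ← Finset.sum_filter_add_sum_filter_not (ZS_finite (t + a)).toFinset (fun s => s.im ≤ t - a)]
    congr 1
    · apply Finset.sum_congr _ (fun _ _ => rfl)
      ext s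
      rw [Finset.mem_filter, Set.Finite.mem_toFinset, Set.Finite.mem_toFinset]
      constructor
      · rintro ⟨⟨b1, b2, b3, b4, b5⟩, b6⟩
        exact ⟨b1, b2, b3, b4, b6⟩
      · rintro ⟨b1, b2, b3, b4, b5⟩
        exact ⟨⟨b1, b2, b3, b4, by linarith⟩, b5⟩
    · apply Finset.sum_congr _ (fun _ _ => rfl)
      ext s
      rw [Finset.mem_filter, Finset.mem_filter, Set.Finite.mem_toFinset, Set.Finite.mem_toFinset]
      constructor
      · rintro ⟨⟨b1, b2, b3, b4, b5⟩, b6⟩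
        rw [not_le] at b6
        exact ⟨⟨b2, b3, by linarith, by linarith, b1⟩, by linarith, by linarith⟩
      · rintro ⟨⟨b1, b2, b3, b4, b5⟩, b6, b7⟩
        exact ⟨⟨b5, b1, b2, by linarith, by linarith⟩, by rw [not_le]; linarith⟩
  rw [h4]
  push_cast
  rw [add_sub_cancel_left, Finset.sum_filter]
  apply Finset.sum_congr rfl
  intro s _
  unfold iv
  split_ifs <;> simp

/-- the complex weight -/
noncomputable def vW (a l u : ℝ) : ℂ := ((vw a l u : ℝ) : ℂ)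

lemma vW_cont (a l : ℝ) : Continuous (vW a l) := Complex.continuous_ofReal.comp (vw_cont a l)

lemma vW_norm {a : ℝ} (ha : 0 ≤ a) (l u : ℝ) : ‖vW a l u‖ ≤ 2 * a / Real.pi := by
  unfold vW
  rw [Complex.norm_real, Real.norm_eq_abs]
  exact vw_abs ha l u

lemma vW_zero {a l u : ℝ} (hl : 0 < l) (hu : l ≤ u) : vW a l u = 0 := by
  unfold vW
  rw [vw_zero hl hu, Complex.ofReal_zero]

lemma Bm_near (v : ℝ) : |1 - Bm v| ≤ 2 * v ^ 2 := by
  have h1 := Bm_le v
  rw [abs_of_nonneg (by linarith)]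
  rcases le_total |v| 1 with h | h
  · rw [Bm_eq h]
    nlinarith [sq_nonneg (v ^ 2)]
  · rw [Bm_zero h]
    have : 1 ≤ v ^ 2 := by rw [← sq_abs]; exact one_le_pow₀ h
    linarith

lemma vw_near {a : ℝ} (ha : 0 ≤ a) {l : ℝ} (_hl : 0 < l) (u : ℝ) :
    |vw a l u - 2 * a / Real.pi| ≤ 2 * a / Real.pi * (2 * a ^ 2 + 2 / l ^ 2) * u ^ 2 := by
  have hpi := Real.pi_pos
  unfold vw
  have h1 : 2 * a / Real.pi * Real.sinc (a * u) * Bm (u / l) - 2 * a / Real.pi =
      2 * a / Real.pi * (-(1 - Real.sinc (a * u)) - Real.sinc (a * u) * (1 - Bm (u / l))) := by ring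
  rw [h1, abs_mul, abs_of_nonneg (by positivity), mul_assoc]
  apply mul_le_mul_of_nonneg_left _ (by positivity)
  have h2 := Pool.Agent.TH800.LD.sinc_near (a * u)
  have h3 := Bm_near (u / l)
  have h4 := Real.abs_sinc_le_one (a * u)
  have h5 : |Real.sinc (a * u) * (1 - Bm (u / l))| ≤ 1 * (2 * (u / l) ^ 2) := by
    rw [abs_mul]
    exact mul_le_mul h4 h3 (abs_nonneg _) zero_le_one
  calc _ ≤ |-(1 - Real.sinc (a * u))| + |Real.sinc (a * u) * (1 - Bm (u / l))| := abs_sub _ _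
    _ ≤ 2 * (a * u) ^ 2 + 1 * (2 * (u / l) ^ 2) := by rw [abs_neg]; exact add_le_add h2 h5
    _ = _ := by rw [div_pow]; ring

theorem main_int' {a l L : ℝ} (ha : 0 ≤ a) (hl : 0 < l) (hL : 0 < L) :
    |L / Real.sqrt (2 * Real.pi) * (∫ u in (0 : ℝ)..L, vw a l u * Real.exp (-u ^ 2 / 2)) - L * a / Real.pi| ≤
      L * (2 * a / Real.pi) * (4 * a ^ 2 + 4 / l ^ 2 + 1 / L) := by
  have hpi := Real.pi_pos
  obtain ⟨g0, g1, g2⟩ := Pool.Agent.TH800.LD.gauss_head hL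
  have hwc := vw_cont a l
  have hi1 : IntervalIntegrable (fun u => vw a l u * Real.exp (-u ^ 2 / 2)) volume 0 L := by
    apply Continuous.intervalIntegrable; fun_prop
  have hi2 : IntervalIntegrable (fun u : ℝ => 2 * a / Real.pi * Real.exp (-u ^ 2 / 2)) volume 0 L := by
    apply Continuous.intervalIntegrable; fun_prop
  have hs : 0 < Real.sqrt (2 * Real.pi) := Real.sqrt_pos.2 (by positivity)
  have hs1 : 1 ≤ Real.sqrt (2 * Real.pi) := by
    rw [Real.one_le_sqrt]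
    linarith [Real.pi_gt_three]
  have hs4 : Real.sqrt (2 * Real.pi) ≤ 4 := by
    rw [Real.sqrt_le_left (by norm_num)]
    linarith [Real.pi_le_four]
  set c := 2 * a / Real.pi with hc
  have hc0 : 0 ≤ c := by positivity
  have h1 : |(∫ u in (0 : ℝ)..L, vw a l u * Real.exp (-u ^ 2 / 2)) -
      ∫ u in (0 : ℝ)..L, c * Real.exp (-u ^ 2 / 2)| ≤ c * (4 * a ^ 2 + 4 / l ^ 2) := by
    rw [← intervalIntegral.integral_sub hi1 hi2]
    have h2 : |∫ u in (0 : ℝ)..L, (vw a l u * Real.exp (-u ^ 2 / 2) - c * Real.exp (-u ^ 2 / 2))| ≤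
        ∫ u in (0 : ℝ)..L, (c * (2 * a ^ 2 + 2 / l ^ 2)) * (u ^ 2 * Real.exp (-u ^ 2 / 2)) := by
      rw [← Real.norm_eq_abs]
      apply intervalIntegral.norm_integral_le_of_norm_le hL.le
      · refine Filter.Eventually.of_forall fun u hu => ?_
        rw [Real.norm_eq_abs, ← sub_mul, abs_mul, abs_of_pos (Real.exp_pos _)]
        have h3 := vw_near ha hl u
        have h4 := (Real.exp_pos (-u ^ 2 / 2)).le
        calc |vw a l u - c| * Real.exp (-u ^ 2 / 2)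
            ≤ (c * (2 * a ^ 2 + 2 / l ^ 2) * u ^ 2) * Real.exp (-u ^ 2 / 2) :=
              mul_le_mul_of_nonneg_right h3 h4
          _ = _ := by ring
      · apply Continuous.intervalIntegrable; fun_prop
    refine h2.trans ?_
    rw [intervalIntegral.integral_const_mul, Pool.Agent.TH800.LD.int_u2]
    have e3 : -(L * Real.exp (-L ^ 2 / 2)) + ∫ u in (0 : ℝ)..L, Real.exp (-u ^ 2 / 2) ≤ 2 := by
      have e5 : 0 ≤ L * Real.exp (-L ^ 2 / 2) := by positivity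
      linarith
    calc c * (2 * a ^ 2 + 2 / l ^ 2) * (-(L * Real.exp (-L ^ 2 / 2)) + ∫ u in (0 : ℝ)..L, Real.exp (-u ^ 2 / 2)) ≤
        c * (2 * a ^ 2 + 2 / l ^ 2) * 2 := mul_le_mul_of_nonneg_left e3 (by positivity)
      _ = _ := by ring
  rw [intervalIntegral.integral_const_mul] at h1
  set I := ∫ u in (0 : ℝ)..L, vw a l u * Real.exp (-u ^ 2 / 2)
  set G := ∫ u in (0 : ℝ)..L, Real.exp (-u ^ 2 / 2)
  have h5 : L / Real.sqrt (2 * Real.pi) * I - L * a / Real.pi =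
      L / Real.sqrt (2 * Real.pi) * ((I - c * G) + c * (G - Real.sqrt (2 * Real.pi) / 2)) := by
    rw [hc]
    field_simp
    ring
  rw [h5, abs_mul, abs_of_pos (by positivity)]
  have h6 : |(I - c * G) + c * (G - Real.sqrt (2 * Real.pi) / 2)| ≤ c * (4 * a ^ 2 + 4 / l ^ 2) + c * (1 / L) := by
    refine (abs_add_le _ _).trans (add_le_add h1 ?_)
    rw [abs_mul, abs_of_nonneg hc0]
    apply mul_le_mul_of_nonneg_left _ hc0
    rw [abs_le]
    constructor
    · linarith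
    · have : 0 < 1 / L := by positivity
      linarith
  have h7 : L / Real.sqrt (2 * Real.pi) ≤ L := div_le_self hL.le hs1
  calc _ ≤ L * (c * (4 * a ^ 2 + 4 / l ^ 2) + c * (1 / L)) := mul_le_mul h7 h6 (abs_nonneg _) hL.le
    _ = _ := by ring

/-- the primes up to `e^y` -/
noncomputable def Pr (y : ℝ) : Finset ℕ := (Finset.Icc 1 ⌊Real.exp y⌋₊).filter Nat.Prime

lemma Pr_prime {y : ℝ} {p : ℕ} (hp : p ∈ Pr y) : p.Prime := (Finset.mem_filter.1 hp).2

lemma Pr_le {y : ℝ} {p : ℕ} (hp : p ∈ Pr y) : (p : ℝ) ≤ Real.exp y := by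
  have h := (Finset.mem_Icc.1 (Finset.mem_filter.1 hp).1).2
  exact (Nat.cast_le.2 h).trans (Nat.floor_le (Real.exp_pos _).le)

/-- coefficients at the primes -/
noncomputable def c1 (T a l : ℝ) (p : ℕ) : ℂ :=
  (Real.log p : ℂ) * (((p : ℝ) ^ (-(1 / 2) : ℝ) : ℝ) : ℂ) * bt T (vW a l) p

/-- coefficients at the squares of primes -/
noncomputable def c2 (T a l : ℝ) (p : ℕ) : ℂ :=
  (Real.log p : ℂ) * (((p : ℝ) ^ (-1 : ℝ) : ℝ) : ℂ) * bt T (vW a l) ((p ^ 2 : ℕ) : ℝ)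

lemma cpow_ee {n : ℕ} (hn : 0 < n) (t : ℝ) :
    (n : ℂ) ^ (-(1 / 2 : ℂ) - I * t) = (((n : ℝ) ^ (-(1 / 2) : ℝ) : ℝ) : ℂ) * ee n t := by
  have h0 : (n : ℂ) ≠ 0 := by exact_mod_cast hn.ne'
  rw [Complex.cpow_sub _ _ h0, div_eq_mul_inv, ← Complex.cpow_neg]
  congr 1
  · rw [Complex.ofReal_cpow (by positivity)]
    push_cast
    rfl
  · unfold ee
    rw [Complex.cpow_def_of_ne_zero h0]
    congr 1
    rw [← Complex.natCast_log]
    push_cast
    ring

lemma sum1 (T a l t y : ℝ) : ∑ p ∈ Pr y, ppf T t (vW a l) p = PP (Pr y) (c1 T a l) t := by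
  unfold PP
  apply Finset.sum_congr rfl
  intro p hp
  have hpp := Pr_prime hp
  unfold ppf c1
  rw [ArithmeticFunction.vonMangoldt_apply_prime hpp, cpow_ee hpp.pos]
  ring

lemma sum2 (T a l t y : ℝ) : ∑ p ∈ Pr y, ppf T t (vW a l) (p ^ 2) = PP (Pr y) (c2 T a l) (2 * t) := by
  unfold PP
  apply Finset.sum_congr rfl
  intro p hp
  have hpp := Pr_prime hp
  unfold ppf c2
  rw [ArithmeticFunction.vonMangoldt_apply_pow (by norm_num), ArithmeticFunction.vonMangoldt_apply_prime hpp,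
    cpow_ee (pow_pos hpp.pos 2)]
  have h1 : ee ((p ^ 2 : ℕ) : ℝ) t = ee p (2 * t) := by
    unfold ee
    congr 3
    push_cast
    rw [Real.log_pow]
    push_cast
    ring
  have h2 : ((p ^ 2 : ℕ) : ℝ) ^ (-(1 / 2) : ℝ) = (p : ℝ) ^ (-1 : ℝ) := by
    push_cast
    rw [← Real.rpow_natCast, ← Real.rpow_mul (by positivity)]
    norm_num
  rw [h1, h2]
  ring

/-- **the decomposition** -/
theorem pointwise (hRH : RHs) : ∃ C T0 : ℝ, 1 ≤ C ∧ 10 ≤ T0 ∧ ∀ T : ℝ, T0 ≤ T → ∀ (hT : 1 ≤ T) (t : ℝ),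
    T + Real.log T ≤ t → t ≤ 2 * T - Real.log T → ∀ a l : ℝ, 0 < a → a ≤ 1 → 0 < l → l ≤ Real.log T →
    |cn (2 * a) (t - a) - Real.log T * a / Real.pi + (PP (Pr (2 * l)) (c1 T a l) t).re| ≤
      C * (a * (1 + Real.log T * Real.exp (-l ^ 2 / 4)) + Real.log T * a * (a ^ 2 + 1 / l ^ 2 + 1 / Real.log T) +
        a ^ 2 * cn (2 * a) (t - a)) +
      114 * (FS hT a l t + FS hT (-a) l t) + ‖PP (Pr l) (c2 T a l) (2 * t)‖ := by
  obtain ⟨C1, T1, hC1, hT1, h1⟩ := LG.EFWm hRH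
  obtain ⟨C2, hC2, h2⟩ := prime_part3
  refine ⟨C1 + C2 + 8, T1, by linarith, hT1, ?_⟩
  intro T hT0 hT t ht1 ht2 a l ha ha1 hl hlL
  have hpi := Real.pi_pos
  have hpi3 := Real.pi_gt_three
  have hT10 : 10 ≤ T := hT1.trans hT0
  have hL1 : 1 ≤ Real.log T := by
    rw [Real.le_log_iff_exp_le (by linarith)]
    have := Real.exp_one_lt_d9
    linarith
  have hL : 0 < Real.log T := by linarith
  set L := Real.log T with hLdef
  set K := 2 * a / Real.pi with hK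
  have hK0 : 0 < K := by positivity
  have hKa : K ≤ a := by
    rw [hK, div_le_iff₀ hpi]
    nlinarith
  have e1 := h1 T hT0 t ht1 ht2 (vW a l) K (vW_cont a l) (fun u _ => vW_norm ha.le l u)
  have e2 := h2 T hT10 t l hl hlL (vW a l) K (fun u _ => vW_norm ha.le l u) (fun u hu => vW_zero hl hu)
  have s1 := sum1 T a l t (2 * l)
  have s2 := sum2 T a l t l
  unfold Pr at s1 s2
  rw [s1, s2] at e2
  have hPr1 : (Finset.Icc 1 ⌊Real.exp (2 * l)⌋₊).filter Nat.Prime = Pr (2 * l) := rfl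
  have hPr2 : (Finset.Icc 1 ⌊Real.exp l⌋₊).filter Nat.Prime = Pr l := rfl
  rw [hPr1, hPr2] at e2
  -- zero side
  have e3 : (zs T t (vW a l)).re = ∑ s ∈ (ZZf hT).toFinset,
      (mu s : ℝ) * Real.exp (-(s.im - t) ^ 2 / 2) * fw a l (s.im - t) := by
    have := Pool.Agent.TH800.LD.re_zs hT t (vw a l) (vw_cont a l)
    rw [show (vW a l) = (fun u => ((vw a l u : ℝ) : ℂ)) from rfl, this]
    refine Finset.sum_congr rfl fun s _ => ?_
    rw [fw_eq ha hl hlL]
  -- the main term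
  have e4 : ∫ u in (0 : ℝ)..L, vW a l u * (Real.exp (-u ^ 2 / 2) : ℂ) =
      ((∫ u in (0 : ℝ)..L, vw a l u * Real.exp (-u ^ 2 / 2) : ℝ) : ℂ) := by
    rw [← intervalIntegral.integral_ofReal]
    apply intervalIntegral.integral_congr
    intro u _
    simp only [vW]
    push_cast
    rfl
  rw [e4, ← Complex.ofReal_mul] at e1
  have e5 := main_int' ha.le hl hL
  set MT := L / Real.sqrt (2 * Real.pi) * ∫ u in (0 : ℝ)..L, vw a l u * Real.exp (-u ^ 2 / 2) with hMT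
  set Z := ∑ s ∈ (ZZf hT).toFinset,
      (mu s : ℝ) * Real.exp (-(s.im - t) ^ 2 / 2) * fw a l (s.im - t) with hZ
  have f1 := (Complex.abs_re_le_norm _).trans e1
  have f2 := (Complex.abs_re_le_norm _).trans e2
  rw [Complex.sub_re, Complex.add_re, Complex.ofReal_re, e3] at f1
  rw [Complex.sub_re, Complex.sub_re] at f2
  set P1 := (PP (Pr (2 * l)) (c1 T a l) t).re with hP1
  set P2 := PP (Pr l) (c2 T a l) (2 * t) with hP2
  have f3 : |P2.re| ≤ ‖P2‖ := Complex.abs_re_le_norm _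
  -- the count
  have hcn := cn_eq hT (t := t) (a := a) ha.le (by linarith) (by linarith)
  set N := cn (2 * a) (t - a) with hN
  set Z' := ∑ s ∈ (ZZf hT).toFinset,
      (mu s : ℝ) * Real.exp (-(s.im - t) ^ 2 / 2) * iv a (s.im - t) with hZ'
  have g1 : |N - Z'| ≤ a ^ 2 / 2 * N := by
    rw [hcn, hZ', ← Finset.sum_sub_distrib, Finset.mul_sum]
    refine (Finset.abs_sum_le_sum_abs _ _).trans (Finset.sum_le_sum fun s _ => ?_)
    have i1 := iv_nonneg a (s.im - t)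
    by_cases hiv : -a < s.im - t ∧ s.im - t ≤ a
    · have i2 : (s.im - t) ^ 2 ≤ a ^ 2 := by
        rw [← sq_abs]
        exact pow_le_pow_left₀ (abs_nonneg _) (abs_le.2 ⟨hiv.1.le, hiv.2⟩) 2
      have i3 := Real.add_one_le_exp (-(s.im - t) ^ 2 / 2)
      have i4 : Real.exp (-(s.im - t) ^ 2 / 2) ≤ 1 := Real.exp_le_one_iff.2 (by nlinarith [sq_nonneg (s.im - t)])
      have i5 : (mu s : ℝ) * iv a (s.im - t) - (mu s : ℝ) * Real.exp (-(s.im - t) ^ 2 / 2) * iv a (s.im - t) =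
          (mu s : ℝ) * iv a (s.im - t) * (1 - Real.exp (-(s.im - t) ^ 2 / 2)) := by ring
      have i6 : (0 : ℝ) ≤ (mu s : ℝ) * iv a (s.im - t) := mul_nonneg (Nat.cast_nonneg _) i1
      rw [i5, abs_mul, abs_of_nonneg i6, abs_of_nonneg (by linarith)]
      calc (mu s : ℝ) * iv a (s.im - t) * (1 - Real.exp (-(s.im - t) ^ 2 / 2)) ≤
          (mu s : ℝ) * iv a (s.im - t) * (a ^ 2 / 2) := mul_le_mul_of_nonneg_left (by linarith) i6
        _ = _ := by ring
    · have : iv a (s.im - t) = 0 := by unfold iv; rw [if_neg hiv]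
      rw [this]
      simp
  have g2 : |Z' - Z| ≤ 114 * (FS hT a l t + FS hT (-a) l t) := by
    rw [hZ, hZ', ← Finset.sum_sub_distrib]
    unfold FS
    rw [← Finset.sum_add_distrib, Finset.mul_sum]
    refine (Finset.abs_sum_le_sum_abs _ _).trans (Finset.sum_le_sum fun s _ => ?_)
    have i1 := fv_err ha hl (s.im - t)
    rw [abs_sub_comm] at i1
    have i2 : (mu s : ℝ) * Real.exp (-(s.im - t) ^ 2 / 2) * iv a (s.im - t) -
        (mu s : ℝ) * Real.exp (-(s.im - t) ^ 2 / 2) * fw a l (s.im - t) =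
        (mu s : ℝ) * Real.exp (-(s.im - t) ^ 2 / 2) * (iv a (s.im - t) - fw a l (s.im - t)) := by ring
    rw [i2, abs_mul, abs_of_nonneg (by positivity)]
    calc _ ≤ (mu s : ℝ) * Real.exp (-(s.im - t) ^ 2 / 2) * (114 * ew a l (s.im - t)) :=
          mul_le_mul_of_nonneg_left i1 (by positivity)
      _ = _ := by
        unfold ew
        rw [show s.im - t - -a = s.im - t + a by ring]
        ring
  have hE0 : 0 ≤ L * Real.exp (-l ^ 2 / 4) := by positivity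
  have b1 : C2 * (K * (1 + L * Real.exp (-l ^ 2 / 4))) ≤ C2 * (a * (1 + L * Real.exp (-l ^ 2 / 4))) := by
    gcongr
  have b2 : C1 * K ≤ C1 * (a * (1 + L * Real.exp (-l ^ 2 / 4))) := by
    apply mul_le_mul_of_nonneg_left _ hC1.le
    nlinarith
  have hl2 : 0 ≤ 1 / l ^ 2 := by positivity
  have hLi : 0 ≤ 1 / L := by positivity
  have b3 : L * K * (4 * a ^ 2 + 4 / l ^ 2 + 1 / L) ≤ 8 * (L * a * (a ^ 2 + 1 / l ^ 2 + 1 / L)) := by
    have : 4 * a ^ 2 + 4 / l ^ 2 + 1 / L ≤ 8 * (a ^ 2 + 1 / l ^ 2 + 1 / L) := by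
      have : 4 / l ^ 2 = 4 * (1 / l ^ 2) := by ring
      rw [this]
      linarith [sq_nonneg a]
    calc L * K * (4 * a ^ 2 + 4 / l ^ 2 + 1 / L) ≤ L * a * (8 * (a ^ 2 + 1 / l ^ 2 + 1 / L)) := by gcongr
      _ = _ := by ring
  have hN0 : 0 ≤ N := by
    rw [hN]
    exact Pool.Agent.H707.NV.cn_nonneg (by linarith) _
  set Q1 := a * (1 + L * Real.exp (-l ^ 2 / 4)) with hQ1
  set Q2 := L * a * (a ^ 2 + 1 / l ^ 2 + 1 / L) with hQ2
  have hQ10 : 0 ≤ Q1 := by positivity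
  have hQ20 : 0 ≤ Q2 := by positivity
  have hQ3 : 0 ≤ a ^ 2 * N := by positivity
  have b4 : C1 * Q1 + C2 * Q1 + 8 * Q2 + a ^ 2 / 2 * N ≤ (C1 + C2 + 8) * (Q1 + Q2 + a ^ 2 * N) := by
    have z1 := mul_nonneg hC1.le hQ20
    have z2 := mul_nonneg hC1.le hQ3
    have z3 := mul_nonneg hC2.le hQ20
    have z4 := mul_nonneg hC2.le hQ3
    have z5 : (C1 + C2 + 8) * (Q1 + Q2 + a ^ 2 * N) = C1 * Q1 + C2 * Q1 + 8 * Q1 + C1 * Q2 + C2 * Q2 + 8 * Q2 +
        C1 * (a ^ 2 * N) + C2 * (a ^ 2 * N) + 8 * (a ^ 2 * N) := by ring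
    have z6 : a ^ 2 / 2 * N = 1 / 2 * (a ^ 2 * N) := by ring
    rw [z5, z6]
    linarith
  rw [abs_le] at f1 f2 f3 g1 g2 e5 ⊢
  constructor <;> linarith [f1.1, f1.2, f2.1, f2.2, f3.1, f3.2, g1.1, g1.2, g2.1, g2.2, e5.1, e5.2]

end Pool.Agent.Helper77.RS
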