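import Pool.Agent.Helper77.RS.Fin

/-! Uniform version of the central limit theorem. -/

open Filter Topology Set MeasureTheory ProbabilityTheory

namespace Pool.Agent.Helper77.RS

open SG (ord NZ)
open Pool.Agent.H707.NB (sp lc lc_nonneg lc_le)

lemma Ph_cdf (z : ℝ) : Ph z = cdf (gaussianReal 0 1) z := by
  unfold Ph
  rw [cdf_eq_real]

lemma cnt_mono (r N : ℕ) {a b : ℝ} (h : a ≤ b) : cnt r N a ≤ cnt r N b := by
  unfold cnt
  have : (Finset.Icc 1 N).filter (fun n => sp n r ≤ a) ⊆ (Finset.Icc 1 N).filter (fun n => sp n r ≤ b) := by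
    intro n hn
    rw [Finset.mem_filter] at hn ⊢
    exact ⟨hn.1, hn.2.trans h⟩
  exact_mod_cast Finset.card_le_card this

lemma cnt_le_N (r N : ℕ) (a : ℝ) : cnt r N a ≤ N := by
  unfold cnt
  have h := Finset.card_filter_le (Finset.Icc 1 N) (fun n => sp n r ≤ a)
  rw [Nat.card_Icc, Nat.add_sub_cancel] at h
  exact_mod_cast h

theorem uniform_clt (hRH : RiemannHypothesis) {ε : ℝ} (hε : 0 < ε) : ∀ᶠ r : ℕ in atTop, ∀ᶠ N : ℕ in atTop,
    ∀ z : ℝ, |cnt r N (r + z * sg r) - Ph z * N| ≤ ε * N := by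
  have t1 : Tendsto Ph atBot (𝓝 0) := by
    have := tendsto_cdf_atBot (gaussianReal 0 1)
    exact this.congr fun z => (Ph_cdf z).symm
  have t2 : Tendsto Ph atTop (𝓝 1) := by
    have := tendsto_cdf_atTop (gaussianReal 0 1)
    exact this.congr fun z => (Ph_cdf z).symm
  obtain ⟨a, ha⟩ := (t1.eventually_le_const (show (0 : ℝ) < ε / 4 by positivity)).exists_forall_of_atBot
  obtain ⟨b, hb⟩ := (t2.eventually_const_le (show 1 - ε / 4 < 1 by linarith)).exists_forall_of_atTop
  set M : ℝ := max 1 (max (-a) b) with hM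
  have hM1 : 1 ≤ M := le_max_left _ _
  have hMa : -M ≤ a := by
    have : -a ≤ M := (le_max_left _ _).trans (le_max_right _ _)
    linarith
  have hMb : b ≤ M := (le_max_right _ _).trans (le_max_right _ _)
  have g0 : ∀ z, 0 ≤ Ph z := fun z => measureReal_nonneg
  have g1 : ∀ z, Ph z ≤ 1 := fun z => by
    unfold Ph
    exact measureReal_le_one
  set δ := ε / 4 with hδ
  have hδ0 : 0 < δ := by positivity
  set K := ⌈2 * M / δ⌉₊ with hK
  have hKM : 2 * M ≤ K * δ := by
    have := Nat.le_ceil (2 * M / δ)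
    rw [← hK, div_le_iff₀ hδ0] at this
    exact this
  set zz : ℕ → ℝ := fun i => -M + i * δ with hzz
  have h1 : ∀ᶠ r : ℕ in atTop, ∀ i ∈ Finset.range (K + 1), ∀ᶠ N : ℕ in atTop,
      |cnt r N (r + zz i * sg r) - Ph (zz i) * N| ≤ δ * N :=
    (Filter.eventually_all_finset _).2 fun i _ => pointwise_clt hRH (zz i) hδ0
  filter_upwards [h1, sg_facts 0 1 one_pos] with r h2 ⟨hs, _⟩
  filter_upwards [(Filter.eventually_all_finset _).2 h2] with N h3 z
  have hN : (0 : ℝ) ≤ N := Nat.cast_nonneg N
  have hmono : ∀ u v : ℝ, u ≤ v → cnt r N (r + u * sg r) ≤ cnt r N (r + v * sg r) := fun u v huv =>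
    cnt_mono r N (by nlinarith)
  have hc0 : 0 ≤ cnt r N (r + z * sg r) := by unfold cnt; positivity
  have hcN := cnt_le_N r N (r + z * sg r)
  have hPN : 0 ≤ Ph z * N := mul_nonneg (g0 z) hN
  have hεN : ε * N = 4 * (δ * N) := by rw [hδ]; ring
  have hδN : 0 ≤ δ * N := by positivity
  rcases lt_or_ge z (-M) with hz | hz
  · have h4 := h3 0 (Finset.mem_range.2 (by omega))
    have h5 : zz 0 = -M := by simp [hzz]
    rw [h5] at h4
    have h6 := hmono z (-M) hz.le
    have h7 : Ph (-M) ≤ δ := ha _ hMa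
    have h8 : Ph z ≤ δ := ha _ (by linarith)
    have h9 : Ph (-M) * N ≤ δ * N := mul_le_mul_of_nonneg_right h7 hN
    have h10 : Ph z * N ≤ δ * N := mul_le_mul_of_nonneg_right h8 hN
    have h11 := (abs_le.1 h4).2
    rw [abs_le]
    constructor <;> linarith
  · rcases lt_or_ge z (zz K) with hz2 | hz2
    · set i := ⌊(z + M) / δ⌋₊ with hi
      have hi0 : 0 ≤ (z + M) / δ := div_nonneg (by linarith) hδ0.le
      have hi1 : (i : ℝ) * δ ≤ z + M := by
        have := Nat.floor_le hi0
        rw [← hi, le_div_iff₀ hδ0] at this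
        exact this
      have hi2 : z + M < ((i : ℝ) + 1) * δ := by
        have := Nat.lt_floor_add_one ((z + M) / δ)
        rw [← hi, div_lt_iff₀ hδ0] at this
        exact this
      have hiK : i < K := by
        have h4 : (i : ℝ) * δ < K * δ := by
          simp only [hzz] at hz2
          linarith
        have := lt_of_mul_lt_mul_right h4 hδ0.le
        exact_mod_cast this
      have h4 := h3 i (Finset.mem_range.2 (by omega))
      have h5 := h3 (i + 1) (Finset.mem_range.2 (by omega))
      have e1 : zz i ≤ z := by simp only [hzz]; linarith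
      have e2 : z ≤ zz (i + 1) := by simp only [hzz]; push_cast; linarith
      have e3 : zz (i + 1) = zz i + δ := by simp only [hzz]; push_cast; ring
      have h6 := hmono _ _ e1
      have h7 := hmono _ _ e2
      have h8 := Ph_lip e1
      have h9 := Ph_lip e2
      have h10 : Ph (zz (i + 1)) * N ≤ (Ph z + δ) * N := mul_le_mul_of_nonneg_right (by linarith) hN
      have h11 : (Ph z - δ) * N ≤ Ph (zz i) * N := mul_le_mul_of_nonneg_right (by linarith) hN
      rw [abs_le] at h4 h5 ⊢
      constructor <;> linarith [h4.1, h5.2]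
    · have h4 := h3 K (Finset.mem_range.2 (by omega))
      have h5 : M ≤ zz K := by simp only [hzz]; linarith
      have h6 := hmono _ _ hz2
      have h7 : 1 - δ ≤ Ph (zz K) := hb _ (hMb.trans h5)
      have h8 : 1 - δ ≤ Ph z := hb _ (hMb.trans (h5.trans hz2))
      have h9 : (1 - δ) * N ≤ Ph (zz K) * N := mul_le_mul_of_nonneg_right h7 hN
      have h10 : (1 - δ) * N ≤ Ph z * N := mul_le_mul_of_nonneg_right h8 hN
      have h11 := (abs_le.1 h4).1
      have h12 : Ph z * N ≤ 1 * N := mul_le_mul_of_nonneg_right (g1 z) hN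
      rw [abs_le]
      constructor <;> linarith

end Pool.Agent.Helper77.RS
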