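import Pool.Agent.Helper77.RS.Four
import Pool.Agent.Helper77.RS.Uni
import Pool.Graph.R_pool_sql_team_seeded_620a6dc7.H707.NB.Var

/-! Means of positive parts far from the centre. -/

open Filter Topology Set MeasureTheory ProbabilityTheory

namespace Pool.Agent.Helper77.RS

open SG (ord NZ)
open Pool.Agent.H707.SM (const_small dlt_nonneg sum_dlt_le sum_dlt_ge tl tl_nonneg)
open Pool.Agent.H707.NB (sp sp_sum lc lc_nonneg lc_le lo_pt' sq_tail tail_shift)
open Pool.Agent.H707.NV (cn cn_nonneg hl cn_pow_ii first)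
open LG (dlt)

/-- the positive part of the sum of gaps -/
noncomputable def sq (n r : ℕ) : ℝ := max 0 (sp n r)

lemma sq_nonneg' (n r : ℕ) : 0 ≤ sq n r := le_max_left _ _

lemma lc_sq {x : ℝ} (hx : 0 ≤ x) (n r : ℕ) : lc x (sp n r) = max 0 (x - sq n r) := by
  unfold sq
  rcases le_total 0 (sp n r) with h | h
  · rw [max_eq_right h, lo_pt' hx h]
  · rw [max_eq_left h, sub_zero, max_eq_right hx]
    unfold lc
    rw [min_eq_left]
    exact (by linarith : x ≤ x - sp n r).trans (le_max_right _ _)

lemma mk_le {a D : ℝ} (ha : 0 < a) : max 0 (D - a) ≤ D ^ 4 / a ^ 3 := by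
  have h3 : 0 < a ^ 3 := by positivity
  rcases le_total D a with h | h
  · rw [max_eq_left (by linarith)]
    positivity
  · rw [max_eq_right (by linarith), le_div_iff₀ h3]
    have h1 : a ^ 3 ≤ D ^ 3 := pow_le_pow_left₀ ha.le h 3
    have h2 : (D - a) * a ^ 3 ≤ D * a ^ 3 := mul_le_mul_of_nonneg_right (by linarith) h3.le
    have h4 : D * a ^ 3 ≤ D * D ^ 3 := mul_le_mul_of_nonneg_left h1 (by linarith)
    calc _ ≤ D * D ^ 3 := h2.trans h4
      _ = D ^ 4 := by ring

lemma far_lo (hRH : RiemannHypothesis) : ∃ C : ℝ, 0 < C ∧ ∀ (r : ℕ) (x : ℝ), 1 ≤ x →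
    (x < r → ∀ ε : ℝ, 0 < ε → ∀ᶠ N : ℕ in atTop, ∑ n ∈ Finset.Icc 1 N, max 0 (x - sq n r) ≤
      (C * (1 + Real.log x) ^ 2 / (r - x) ^ 3 + ε) * N) ∧
    ((r : ℝ) < x → ∀ ε : ℝ, 0 < ε → ∀ᶠ N : ℕ in atTop, ∑ n ∈ Finset.Icc 1 N, max 0 (x - sq n r) ≤
      (x - r + C * (1 + Real.log x) ^ 2 / (x - r) ^ 3 + ε) * N) := by
  obtain ⟨C, hC, hf⟩ := four hRH
  refine ⟨C, hC, fun r x hx => ⟨fun hxr ε hε => ?_, fun hxr ε hε => ?_⟩⟩
  · have hx0 : 0 < x := by linarith
    have ha : 0 < (r : ℝ) - x := by linarith
    set b := C * (1 + Real.log x) ^ 2 / (r - x) ^ 3 with hb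
    have hb0 : 0 ≤ b := by positivity
    have hav : ∀ᶠ V : ℝ in atTop, |(1 / (U2 V - U1 V)) * (∫ t in (U1 V)..(U2 V), max 0 (cn (hl x V) t - r)) - b / 2| ≤ b / 2 := by
      filter_upwards [hf x hx, basics x hx0 1] with V h1 ⟨hTT, hT10, hL1, ha0, ha1, hU, hL0, hL3⟩
      have hh0 : 0 ≤ hl x V := by rw [hl_aa]; linarith
      set W := U2 V - U1 V with hW
      have hW0 : 0 < W := by rw [hW]; unfold U1 U2; linarith
      have i1 : IntervalIntegrable (fun t => max 0 (cn (hl x V) t - r)) volume (U1 V) (U2 V) := by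
        have := ii_comp (x := x) (T := V) hh0 (fun d t => max 0 (d + x - r)) (by simp only [Function.uncurry_def]; fun_prop) hU
        refine this.congr ?_
        intro t _
        simp only [DD]
        ring_nf
      have i2 : IntervalIntegrable (fun t => DD x V t ^ 4 / (r - x) ^ 3) volume (U1 V) (U2 V) :=
        ii_comp hh0 (fun d t => d ^ 4 / (r - x) ^ 3) (by simp only [Function.uncurry_def]; fun_prop) hU
      have h2 : ∫ t in (U1 V)..(U2 V), max 0 (cn (hl x V) t - r) ≤ b * W := by
        calc _ ≤ ∫ t in (U1 V)..(U2 V), DD x V t ^ 4 / (r - x) ^ 3 := by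
              apply intervalIntegral.integral_mono_on hU i1 i2
              intro t _
              have := mk_le (D := DD x V t) ha
              rwa [show DD x V t - (r - x) = cn (hl x V) t - r by unfold DD; ring] at this
          _ = (∫ t in (U1 V)..(U2 V), DD x V t ^ 4) / (r - x) ^ 3 := intervalIntegral.integral_div _ _
          _ ≤ (C * (1 + Real.log x) ^ 2 * W) / (r - x) ^ 3 := by
              apply div_le_div_of_nonneg_right h1
              positivity
          _ = b * W := by rw [hb]; ring
      have h3 : 0 ≤ ∫ t in (U1 V)..(U2 V), max 0 (cn (hl x V) t - r) :=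
        intervalIntegral.integral_nonneg hU fun _ _ => le_max_left _ _
      have h4 : 1 / W * (∫ t in (U1 V)..(U2 V), max 0 (cn (hl x V) t - r)) ≤ b := by
        rw [div_mul_eq_mul_div, one_mul, div_le_iff₀ hW0]
        exact h2
      have h5 : 0 ≤ 1 / W * (∫ t in (U1 V)..(U2 V), max 0 (cn (hl x V) t - r)) := by positivity
      rw [abs_le]
      constructor <;> linarith
    have h6 := transfer hRH hx0 r (by positivity) hav hε
    filter_upwards [h6] with N h7
    have h8 := (abs_le.1 h7).2
    have h9 : ∑ n ∈ Finset.Icc 1 N, lc x (sp n r) = ∑ n ∈ Finset.Icc 1 N, max 0 (x - sq n r) :=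
      Finset.sum_congr rfl fun n _ => lc_sq hx0.le n r
    rw [h9] at h8
    linarith
  · have hx0 : 0 < x := by linarith
    have ha : 0 < x - (r : ℝ) := by linarith
    set b := C * (1 + Real.log x) ^ 2 / (x - r) ^ 3 with hb
    have hb0 : 0 ≤ b := by positivity
    obtain ⟨e, he⟩ : ∃ e : ℝ, e = ε / 4 := ⟨_, rfl⟩
    have he0 : 0 < e := by rw [he]; positivity
    obtain ⟨θ, hθ⟩ : ∃ θ : ℝ, θ = e / (x + e) := ⟨_, rfl⟩
    have hθ0 : 0 < θ := by rw [hθ]; positivity
    have hlogs : ∀ᶠ V : ℝ in atTop, 4 * Real.log V ≤ θ / 2 * V := by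
      have := Real.isLittleO_log_id_atTop.bound (show (0 : ℝ) < θ / 8 by positivity)
      filter_upwards [this, eventually_ge_atTop 1] with T h1 h2
      rw [Real.norm_eq_abs, Real.norm_eq_abs, id, abs_of_nonneg (Real.log_nonneg h2), abs_of_nonneg (by linarith)] at h1
      linarith
    set A := (x - r + b + 2 * e) / 2 with hA
    have hA0 : 0 ≤ A := by rw [hA]; positivity
    have hav : ∀ᶠ V : ℝ in atTop, |(1 / (U2 V - U1 V)) * (∫ t in (U1 V)..(U2 V), max 0 (cn (hl x V) t - r)) - A| ≤ A := by
      filter_upwards [hf x hx, basics x hx0 1, first hRH hx0 he0, hlogs, eventually_ge_atTop 8] with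
        V h1 ⟨hTT, hT10, hL1, ha0, ha1, hU, hL0, hL3⟩ hfirst hlog hV8
      have hh0 : 0 ≤ hl x V := by rw [hl_aa]; linarith
      set W := U2 V - U1 V with hW
      have hW0 : 0 < W := by rw [hW]; unfold U1 U2; linarith
      have hU1 : V ≤ U1 V := by unfold U1; linarith
      have hU2 : U2 V ≤ 2 * V := by unfold U2; linarith
      have hWV : V ≤ (1 + θ) * W := by
        have : W = V - (2 * Real.log V + 1) := by rw [hW]; unfold U1 U2; ring
        have h2 : V / 2 ≤ W := by rw [hW]; unfold U1 U2; linarith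
        have h3 : θ * (V / 2) ≤ θ * W := mul_le_mul_of_nonneg_left h2 hθ0.le
        linarith
      have i1 : IntervalIntegrable (fun t => max 0 (cn (hl x V) t - r)) volume (U1 V) (U2 V) := by
        have := ii_comp (x := x) (T := V) hh0 (fun d t => max 0 (d + x - r)) (by simp only [Function.uncurry_def]; fun_prop) hU
        refine this.congr ?_
        intro t _
        simp only [DD]
        ring_nf
      have i2 : IntervalIntegrable (fun t => DD x V t ^ 4 / (x - r) ^ 3) volume (U1 V) (U2 V) :=
        ii_comp hh0 (fun d t => d ^ 4 / (x - r) ^ 3) (by simp only [Function.uncurry_def]; fun_prop) hU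
      have i3 : ∀ a b : ℝ, a ≤ b → IntervalIntegrable (fun t => cn (hl x V) t) volume a b := fun a b hab => by
        simpa using cn_pow_ii hh0 1 (a := a) (b := b) hab
      have hcn : ∫ t in (U1 V)..(U2 V), cn (hl x V) t ≤ ∫ t in V..(2 * V), cn (hl x V) t := by
        apply intervalIntegral.integral_mono_interval hU1 hU hU2
        · exact Filter.Eventually.of_forall fun t => cn_nonneg hh0 t
        · exact i3 _ _ (by linarith)
      have hcn2 : ∫ t in (U1 V)..(U2 V), cn (hl x V) t ≤ (x + 2 * e) * W := by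
        have h2 := (abs_le.1 hfirst).2
        have h3 : (x + e) * V ≤ (x + e) * ((1 + θ) * W) := mul_le_mul_of_nonneg_left hWV (by positivity)
        have h4 : (x + e) * ((1 + θ) * W) = (x + 2 * e) * W := by
          rw [hθ]
          field_simp
          ring
        linarith
      have h2 : ∫ t in (U1 V)..(U2 V), max 0 (cn (hl x V) t - r) ≤ (2 * A) * W := by
        have i4 : IntervalIntegrable (fun t => (cn (hl x V) t - r) + DD x V t ^ 4 / (x - r) ^ 3) volume (U1 V) (U2 V) :=
          ((i3 _ _ hU).sub intervalIntegrable_const).add i2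
        calc _ ≤ ∫ t in (U1 V)..(U2 V), ((cn (hl x V) t - r) + DD x V t ^ 4 / (x - r) ^ 3) := by
              apply intervalIntegral.integral_mono_on hU i1 i4
              intro t _
              have h5 := mk_le (D := -DD x V t) ha
              rw [show -DD x V t - (x - r) = r - cn (hl x V) t by unfold DD; ring, Even.neg_pow (by decide : Even 4)] at h5
              have h6 : max 0 (cn (hl x V) t - r) = (cn (hl x V) t - r) + max 0 (r - cn (hl x V) t) := by
                rcases le_total (r : ℝ) (cn (hl x V) t) with h | h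
                · rw [max_eq_right (by linarith), max_eq_left (by linarith), add_zero]
                · rw [max_eq_left (by linarith), max_eq_right (by linarith)]
                  ring
              rw [h6]
              linarith
          _ = (∫ t in (U1 V)..(U2 V), cn (hl x V) t) - W * r + (∫ t in (U1 V)..(U2 V), DD x V t ^ 4) / (x - r) ^ 3 := by
              rw [intervalIntegral.integral_add ((i3 _ _ hU).sub intervalIntegrable_const) i2,
                intervalIntegral.integral_sub (i3 _ _ hU) intervalIntegrable_const, intervalIntegral.integral_const,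
                smul_eq_mul, intervalIntegral.integral_div]
          _ ≤ (x + 2 * e) * W - W * r + (C * (1 + Real.log x) ^ 2 * W) / (x - r) ^ 3 := by
              have : (∫ t in (U1 V)..(U2 V), DD x V t ^ 4) / (x - r) ^ 3 ≤ (C * (1 + Real.log x) ^ 2 * W) / (x - r) ^ 3 := by
                apply div_le_div_of_nonneg_right h1
                positivity
              linarith
          _ = 2 * A * W := by rw [hA, hb]; ring
      have h3 : 0 ≤ ∫ t in (U1 V)..(U2 V), max 0 (cn (hl x V) t - r) :=
        intervalIntegral.integral_nonneg hU fun _ _ => le_max_left _ _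
      have h4 : 1 / W * (∫ t in (U1 V)..(U2 V), max 0 (cn (hl x V) t - r)) ≤ 2 * A := by
        rw [div_mul_eq_mul_div, one_mul, div_le_iff₀ hW0]
        exact h2
      have h5 : 0 ≤ 1 / W * (∫ t in (U1 V)..(U2 V), max 0 (cn (hl x V) t - r)) := by positivity
      rw [abs_le]
      constructor <;> linarith
    have h6 := transfer hRH hx0 r hA0 hav (ε := ε / 2) (by positivity)
    filter_upwards [h6] with N h7
    have h8 := (abs_le.1 h7).2
    have h9 : ∑ n ∈ Finset.Icc 1 N, lc x (sp n r) = ∑ n ∈ Finset.Icc 1 N, max 0 (x - sq n r) :=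
      Finset.sum_congr rfl fun n _ => lc_sq hx0.le n r
    rw [h9] at h8
    have h10 : (x - r + b + ε) * (N : ℝ) = (A + ε / 2) * N + A * N := by rw [hA, he]; ring
    rw [h10]
    linarith

end Pool.Agent.Helper77.RS
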