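import Pool.Agent.Helper77.RS.Dy1

/-! Means of positive parts near the centre; Gaussian sums. -/

open Filter Topology Set MeasureTheory ProbabilityTheory

namespace Pool.Agent.Helper77.RS

open SG (ord NZ)
open Pool.Agent.H707.SM (dlt_nonneg sum_dlt_le sum_dlt_ge tl tl_nonneg)
open Pool.Agent.H707.SM renaming const_small → csm
open Pool.Agent.H707.NB (sp sp_sum lc lc_nonneg lc_le lo_pt' sq_tail tail_shift)
open LG (dlt)

lemma sum_shift (f : ℕ → ℝ) (N j : ℕ) : ∑ n ∈ Finset.Icc 1 N, f (n + j) =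
    ∑ n ∈ Finset.Icc 1 (N + j), f n - ∑ n ∈ Finset.Icc 1 j, f n := by
  induction N with
  | zero => simp
  | succ N ih =>
    rw [Finset.sum_Icc_succ_top (by omega), ih, show N + 1 + j = (N + j) + 1 by omega,
      Finset.sum_Icc_succ_top (by omega)]
    ring

/-- the mean of the sums -/
lemma mean_sp (hRH : RiemannHypothesis) (r : ℕ) {ε : ℝ} (hε : 0 < ε) : ∀ᶠ N : ℕ in atTop,
    |∑ n ∈ Finset.Icc 1 N, sp n r - r * N| ≤ ε * N := by
  have h1 : ∀ j : ℕ, ∀ δ : ℝ, 0 < δ → ∀ᶠ N : ℕ in atTop, |∑ n ∈ Finset.Icc 1 N, dlt (n + j) - N| ≤ δ * N := by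
    intro j δ hδ
    have hlim : Tendsto (fun N : ℕ => N + j) atTop atTop := tendsto_add_atTop_nat j
    filter_upwards [hlim.eventually (sum_dlt_le (δ / 4) (by positivity)), hlim.eventually (sum_dlt_ge hRH (δ / 4) (by positivity)),
      csm (|∑ n ∈ Finset.Icc 1 j, dlt n| + j) (δ / 4) (by positivity), eventually_ge_atTop j] with N h1 h2 h3 h4
    rw [sum_shift]
    have hNj : (j : ℝ) ≤ N := by exact_mod_cast h4
    have h5 := abs_le.1 (le_refl |∑ n ∈ Finset.Icc 1 j, dlt n|)
    have h6 : δ / 4 * (N + j : ℝ) ≤ δ / 4 * (2 * N) := mul_le_mul_of_nonneg_left (by linarith) (by positivity)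
    have hj : (0 : ℝ) ≤ j := Nat.cast_nonneg j
    push_cast at h1 h2
    rw [abs_le]
    constructor <;> linarith [h5.1, h5.2]
  have hr0 : (0 : ℝ) ≤ r := Nat.cast_nonneg r
  have h2 : ∀ᶠ N : ℕ in atTop, ∀ j ∈ Finset.range r, |∑ n ∈ Finset.Icc 1 N, dlt (n + j) - N| ≤ ε / (r + 1) * N :=
    (Filter.eventually_all_finset _).2 fun j _ => h1 j _ (by positivity)
  filter_upwards [h2] with N h3
  have hN : (0 : ℝ) ≤ N := Nat.cast_nonneg N
  have e1 : ∑ n ∈ Finset.Icc 1 N, sp n r - r * N = ∑ j ∈ Finset.range r, (∑ n ∈ Finset.Icc 1 N, dlt (n + j) - N) := by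
    rw [Finset.sum_sub_distrib, Finset.sum_const, Finset.card_range, nsmul_eq_mul, Finset.sum_comm]
    congr 1
    exact Finset.sum_congr rfl fun n _ => (sp_sum n r).symm
  rw [e1]
  refine (Finset.abs_sum_le_sum_abs _ _).trans ((Finset.sum_le_sum h3).trans ?_)
  rw [Finset.sum_const, Finset.card_range, nsmul_eq_mul]
  have : (r : ℝ) * (ε / (r + 1) * N) = ε * N * (r / (r + 1)) := by field_simp
  rw [this]
  have h4 : (r : ℝ) / (r + 1) ≤ 1 := by rw [div_le_one (by positivity)]; linarith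
  calc _ ≤ ε * N * 1 := mul_le_mul_of_nonneg_left h4 (by positivity)
    _ = _ := mul_one _

/-- changing finitely many terms -/
lemma sq_fin (g : ℝ → ℝ) (r : ℕ) : ∃ D : ℝ, 0 ≤ D ∧ ∀ N : ℕ,
    |∑ n ∈ Finset.Icc 1 N, g (sq n r) - ∑ n ∈ Finset.Icc 1 N, g (sp n r)| ≤ D := by
  classical
  obtain ⟨n0, hn0⟩ := dlt_nonneg
  refine ⟨∑ n ∈ Finset.range n0, |g (sq n r) - g (sp n r)|, Finset.sum_nonneg fun _ _ => abs_nonneg _, fun N => ?_⟩
  rw [← Finset.sum_sub_distrib]
  refine (Finset.abs_sum_le_sum_abs _ _).trans ?_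
  have h1 : ∀ n ∈ Finset.Icc 1 N, |g (sq n r) - g (sp n r)| ≤
      if n ∈ Finset.range n0 then |g (sq n r) - g (sp n r)| else 0 := by
    intro n _
    split_ifs with h
    · exact le_rfl
    · rw [Finset.mem_range, not_lt] at h
      have hs : 0 ≤ sp n r := by
        rw [← sp_sum]
        exact Finset.sum_nonneg fun j _ => hn0 _ (by omega)
      unfold sq
      rw [max_eq_right hs, sub_self, abs_zero]
  refine (Finset.sum_le_sum h1).trans ?_
  rw [← Finset.sum_filter]
  apply Finset.sum_le_sum_of_subset_of_nonneg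
  · intro n hn
    exact (Finset.mem_filter.1 hn).2
  · intro n _ _
    exact abs_nonneg _

lemma mean_sq (hRH : RiemannHypothesis) (r : ℕ) {ε : ℝ} (hε : 0 < ε) : ∀ᶠ N : ℕ in atTop,
    |∑ n ∈ Finset.Icc 1 N, sq n r - r * N| ≤ ε * N := by
  obtain ⟨D, hD, h⟩ := sq_fin (fun x => x) r
  filter_upwards [mean_sp hRH r (half_pos hε), csm D (ε / 2) (by positivity)] with N h1 h2
  have h3 := abs_le.1 (h N)
  rw [abs_le] at h1 ⊢
  constructor <;> linarith [h1.1, h1.2, h3.1, h3.2]

lemma pos_sum (r N : ℕ) (x : ℝ) : ∑ n ∈ Finset.Icc 1 N, max 0 (sq n r - x) =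
    ∑ n ∈ Finset.Icc 1 N, max 0 (x - sq n r) + (∑ n ∈ Finset.Icc 1 N, sq n r - x * N) := by
  have h : (x : ℝ) * N = ∑ n ∈ Finset.Icc 1 N, x := by
    rw [Finset.sum_const, Nat.card_Icc, nsmul_eq_mul, Nat.add_sub_cancel, mul_comm]
  rw [h, ← Finset.sum_sub_distrib, ← Finset.sum_add_distrib]
  apply Finset.sum_congr rfl
  intro n _
  rcases le_total x (sq n r) with h | h
  · rw [max_eq_right (by linarith), max_eq_left (by linarith)]
    ring
  · rw [max_eq_left (by linarith), max_eq_right (by linarith)]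
    ring

/-- the two far bounds -/
lemma far_both (hRH : RiemannHypothesis) : ∃ C : ℝ, 0 < C ∧ ∀ (r : ℕ) (x : ℝ), 1 ≤ x →
    (x < r → ∀ ε : ℝ, 0 < ε → ∀ᶠ N : ℕ in atTop, ∑ n ∈ Finset.Icc 1 N, max 0 (x - sq n r) ≤
      (C * (1 + Real.log x) ^ 2 / (r - x) ^ 3 + ε) * N) ∧
    ((r : ℝ) < x → ∀ ε : ℝ, 0 < ε → ∀ᶠ N : ℕ in atTop, ∑ n ∈ Finset.Icc 1 N, max 0 (sq n r - x) ≤
      (C * (1 + Real.log x) ^ 2 / (x - r) ^ 3 + ε) * N) := by
  obtain ⟨C, hC, h⟩ := far_lo hRH
  refine ⟨C, hC, fun r x hx => ⟨(h r x hx).1, fun hxr ε hε => ?_⟩⟩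
  filter_upwards [(h r x hx).2 hxr (ε / 2) (by positivity), mean_sq hRH r (half_pos hε)] with N h1 h2
  rw [pos_sum]
  have h3 := (abs_le.1 h2).2
  have e : (C * (1 + Real.log x) ^ 2 / (x - r) ^ 3 + ε) * (N : ℝ) =
    (x - r + C * (1 + Real.log x) ^ 2 / (x - r) ^ 3 + ε / 2) * N + (r * N - x * N) + ε / 2 * N := by ring
  rw [e]
  linarith

/-! Gaussian facts -/

lemma hh_int (y : ℝ) : Integrable (hh y) (gaussianReal 0 1) := hh_integrable sq_int_gauss y

lemma Gy_refl (y : ℝ) : Gy y = y + Gy (-y) := by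
  have h0 : ∫ u, u ∂(gaussianReal 0 1) = 0 := by
    have := integral_id_gaussianReal (μ := 0) (v := 1)
    simpa using this
  have hid : Integrable (fun u : ℝ => u) (gaussianReal 0 1) := by
    exact (memLp_id_gaussianReal (μ := 0) (v := 1) 1).integrable (by norm_num)
  have e1 : Gy (-y) = ∫ u, hh (-y) (-u) ∂(gaussianReal 0 1) := by
    unfold Gy
    have h := gaussianReal_map_neg (μ := 0) (v := 1)
    rw [neg_zero] at h
    conv_lhs => rw [← h]
    rw [integral_map measurable_neg.aemeasurable (hh_cont _).aestronglyMeasurable]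
  have e2 : Gy y - Gy (-y) = ∫ u, (u + y) ∂(gaussianReal 0 1) := by
    rw [e1]
    unfold Gy
    have hi : Integrable (fun u => hh (-y) (-u)) (gaussianReal 0 1) := by
      have h := gaussianReal_map_neg (μ := 0) (v := 1)
      rw [neg_zero] at h
      have h2 := hh_int (-y)
      rw [← h] at h2
      exact h2.comp_measurable measurable_neg
    rw [← integral_sub (hh_int y) hi]
    apply integral_congr_ae
    refine Filter.Eventually.of_forall fun u => ?_
    change hh y u - hh (-y) (-u) = u + y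
    unfold hh
    rcases le_total 0 (u + y) with h | h
    · rw [max_eq_left h, max_eq_right (by linarith)]
      ring
    · rw [max_eq_right h, max_eq_left (by linarith)]
      ring
  rw [integral_add hid (integrable_const y), h0, integral_const] at e2
  simp at e2
  linarith

/-- half the square of the positive part -/
noncomputable def fp (u : ℝ) : ℝ := (max 0 u) ^ 2 / 2

lemma fp_nonneg (u : ℝ) : 0 ≤ fp u := by unfold fp; positivity

lemma fp_add (u : ℝ) : fp u + fp (-u) = u ^ 2 / 2 := by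
  unfold fp
  rcases le_total 0 u with h | h
  · rw [max_eq_right h, max_eq_left (by linarith)]
    ring
  · rw [max_eq_left h, max_eq_right (by linarith)]
    ring

lemma fp_step {δ : ℝ} (hδ : 0 ≤ δ) (v : ℝ) : fp v ≤ δ * max 0 v + fp (v - δ) := by
  unfold fp
  rcases le_total v 0 with h | h
  · rw [max_eq_left h, max_eq_left (by linarith)]
    simp
  · rcases le_total v δ with h2 | h2
    · rw [max_eq_right h, max_eq_left (by linarith)]
      nlinarith
    · rw [max_eq_right h, max_eq_right (by linarith)]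
      nlinarith [sq_nonneg δ]

lemma fp_step' {δ : ℝ} (hδ : 0 ≤ δ) (v : ℝ) : δ * max 0 (v - δ) + fp (v - δ) ≤ fp v := by
  unfold fp
  rcases le_total v δ with h2 | h2
  · rw [max_eq_left (by linarith : v - δ ≤ 0)]
    have : 0 ≤ (max 0 v) ^ 2 / 2 := by positivity
    simp
    linarith
  · rw [max_eq_right (by linarith : 0 ≤ v - δ), max_eq_right (by linarith : 0 ≤ v)]
    nlinarith [sq_nonneg δ]

lemma fp_up {δ : ℝ} (hδ : 0 ≤ δ) (u : ℝ) (I : ℕ) :
    fp u ≤ ∑ i ∈ Finset.range I, δ * max 0 (u - i * δ) + fp (u - I * δ) := by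
  induction I with
  | zero => simp
  | succ I ih =>
    rw [Finset.sum_range_succ]
    have := fp_step hδ (u - I * δ)
    push_cast
    rw [show u - ((I : ℝ) + 1) * δ = u - I * δ - δ by ring]
    linarith

lemma fp_lo {δ : ℝ} (hδ : 0 ≤ δ) (u : ℝ) (I : ℕ) :
    ∑ i ∈ Finset.range I, δ * max 0 (u - (i + 1) * δ) + fp (u - I * δ) ≤ fp u := by
  induction I with
  | zero => simp
  | succ I ih =>
    rw [Finset.sum_range_succ]
    have := fp_step' hδ (u - I * δ)
    push_cast
    rw [show u - ((I : ℝ) + 1) * δ = u - I * δ - δ by ring]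
    linarith

lemma fp_scale {s : ℝ} (hs : 0 ≤ s) (u : ℝ) : fp (s * u) = s ^ 2 * fp u := by
  unfold fp
  rw [show max 0 (s * u) = s * max 0 u by rw [mul_max_of_nonneg _ _ hs, mul_zero]]
  ring

lemma fp_far {Y : ℝ} (hY : 0 < Y) (u : ℝ) : fp (u - Y) ≤ u ^ 4 / Y ^ 2 := by
  unfold fp
  rcases le_total u Y with h | h
  · rw [max_eq_left (by linarith)]
    have : 0 ≤ u ^ 4 / Y ^ 2 := by positivity
    simpa using this
  · rw [max_eq_right (by linarith), le_div_iff₀ (by positivity)]
    have h1 : (u - Y) ^ 2 ≤ u ^ 2 := pow_le_pow_left₀ (by linarith) (by linarith) 2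
    have h2 : Y ^ 2 ≤ u ^ 2 := pow_le_pow_left₀ hY.le h 2
    have h3 : (u - Y) ^ 2 * Y ^ 2 ≤ u ^ 2 * u ^ 2 := mul_le_mul h1 h2 (by positivity) (by positivity)
    have h4 : 0 ≤ (u - Y) ^ 2 * Y ^ 2 := by positivity
    nlinarith

lemma fp_cont : Continuous fp := by
  unfold fp
  fun_prop

lemma four_int : Integrable (fun u : ℝ => u ^ 4) (gaussianReal 0 1) := by
  have := (memLp_id_gaussianReal (μ := 0) (v := 1) 4).integrable_norm_pow (by norm_num)
  simp only [id, Real.norm_eq_abs] at this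
  refine this.congr (Filter.Eventually.of_forall fun u => ?_)
  show |u| ^ 4 = u ^ 4
  rw [show (4 : ℕ) = 2 * 2 by norm_num, pow_mul, pow_mul, sq_abs]

lemma fp_int (Y : ℝ) : Integrable (fun u => fp (u - Y)) (gaussianReal 0 1) := by
  have h1 : Integrable (fun u : ℝ => u ^ 2 + Y ^ 2) (gaussianReal 0 1) := sq_int_gauss.add (integrable_const _)
  refine h1.mono' (fp_cont.comp (continuous_id.sub continuous_const)).aestronglyMeasurable (Filter.Eventually.of_forall fun u => ?_)
  rw [Real.norm_eq_abs, abs_of_nonneg (fp_nonneg _)]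
  have := fp_add (u - Y)
  have := fp_nonneg (-(u - Y))
  nlinarith [sq_nonneg (u + Y)]

/-- the mean of `fp` -/
lemma fp_half : ∫ u, fp u ∂(gaussianReal 0 1) = 1 / 4 := by
  have h2 : ∫ u, u ^ 2 ∂(gaussianReal 0 1) = 1 := by
    have h := variance_fun_id_gaussianReal (μ := 0) (v := 1)
    rw [variance_of_integral_eq_zero] at h
    · simpa using h
    · fun_prop
    · have := integral_id_gaussianReal (μ := 0) (v := 1)
      simpa using this
  have hi : Integrable fp (gaussianReal 0 1) := by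
    have := fp_int 0
    simpa using this
  have e1 : ∫ u, fp u ∂(gaussianReal 0 1) = ∫ u, fp (-u) ∂(gaussianReal 0 1) := by
    have h := gaussianReal_map_neg (μ := 0) (v := 1)
    rw [neg_zero] at h
    conv_lhs => rw [← h]
    rw [integral_map measurable_neg.aemeasurable fp_cont.aestronglyMeasurable]
  have hi2 : Integrable (fun u => fp (-u)) (gaussianReal 0 1) := by
    have h := gaussianReal_map_neg (μ := 0) (v := 1)
    rw [neg_zero] at h
    have h3 := hi
    rw [← h] at h3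
    exact h3.comp_measurable measurable_neg
  have e2 : ∫ u, (fp u + fp (-u)) ∂(gaussianReal 0 1) = 1 / 2 := by
    simp_rw [fp_add]
    rw [integral_div, h2]
  rw [integral_add hi hi2, ← e1] at e2
  linarith

lemma max_hh (u y : ℝ) : max 0 (u - y) = hh (-y) u := by
  unfold hh
  rw [max_comm, sub_eq_add_neg]

/-- the Riemann sums, upper -/
lemma gs_up {δ : ℝ} (hδ : 0 ≤ δ) (hδ1 : δ ≤ 1) (I : ℕ) : ∑ i ∈ Finset.range I, δ * Gy (-(i * δ)) ≤ 1 / 4 + δ := by
  have hG0 : ∀ y, 0 ≤ Gy y := fun y => integral_nonneg fun u => hh_nonneg y u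
  have h1 : ∑ i ∈ Finset.range I, δ * Gy (-((i + 1) * δ)) ≤ 1 / 4 := by
    have h2 : ∀ u, ∑ i ∈ Finset.range I, δ * hh (-((i + 1) * δ)) u ≤ fp u := by
      intro u
      have := fp_lo hδ u I
      simp_rw [max_hh] at this
      linarith [fp_nonneg (u - I * δ)]
    have h3 : ∑ i ∈ Finset.range I, δ * Gy (-((i + 1) * δ)) = ∫ u, ∑ i ∈ Finset.range I, δ * hh (-((i + 1) * δ)) u ∂(gaussianReal 0 1) := by
      rw [integral_finsetSum _ fun i _ => (hh_int _).const_mul δ]
      apply Finset.sum_congr rfl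
      intro i _
      rw [integral_const_mul]
      rfl
    rw [h3, ← fp_half]
    apply integral_mono _ _ h2
    · exact integrable_finsetSum _ fun i _ => (hh_int _).const_mul δ
    · simpa using fp_int 0
  have h0 : Gy 0 ≤ 1 := by
    have h4 : ∀ u : ℝ, hh 0 u ≤ (1 + u ^ 2) / 2 := by
      intro u
      unfold hh
      rw [add_zero]
      apply max_le
      · nlinarith [sq_nonneg (u - 1)]
      · positivity
    have h2 : ∫ u, u ^ 2 ∂(gaussianReal 0 1) = 1 := by
      have h := variance_fun_id_gaussianReal (μ := 0) (v := 1)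
      rw [variance_of_integral_eq_zero] at h
      · simpa using h
      · fun_prop
      · have := integral_id_gaussianReal (μ := 0) (v := 1)
        simpa using this
    have h5 : ∫ u : ℝ, (1 + u ^ 2) / 2 ∂(gaussianReal 0 1) = 1 := by
      rw [integral_div, integral_add (integrable_const _) sq_int_gauss, h2]
      simp
    rw [← h5]
    unfold Gy
    exact integral_mono (hh_int 0) (((integrable_const _).add sq_int_gauss).div_const 2) h4
  cases I with
  | zero => simp; linarith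
  | succ I =>
    rw [Finset.sum_range_succ']
    have h6 : ∑ i ∈ Finset.range I, δ * Gy (-((i + 1) * δ)) ≤ ∑ i ∈ Finset.range (I + 1), δ * Gy (-((i + 1) * δ)) := by
      rw [Finset.sum_range_succ]
      have := mul_nonneg hδ (hG0 (-((I + 1) * δ)))
      linarith
    have h7 : δ * Gy (-(((0 : ℕ) : ℝ) * δ)) ≤ δ := by
      have : δ * Gy 0 ≤ δ * 1 := mul_le_mul_of_nonneg_left h0 hδ
      simpa using this
    push_cast at h7 ⊢
    linarith

/-- the Riemann sums, lower -/
lemma gs_lo : ∃ K4 : ℝ, 0 ≤ K4 ∧ ∀ (δ : ℝ) (I : ℕ), 0 < δ → 0 < I →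
    1 / 4 - K4 / (I * δ) ^ 2 - δ ≤ ∑ i ∈ Finset.range I, δ * Gy (-((i + 1) * δ)) := by
  refine ⟨∫ u, u ^ 4 ∂(gaussianReal 0 1), integral_nonneg fun u => by positivity, fun δ I hδ hI => ?_⟩
  have hG0 : ∀ y, 0 ≤ Gy y := fun y => integral_nonneg fun u => hh_nonneg y u
  have h0 : Gy 0 ≤ 1 := by
    have h4 : ∀ u : ℝ, hh 0 u ≤ (1 + u ^ 2) / 2 := by
      intro u
      unfold hh
      rw [add_zero]
      apply max_le
      · nlinarith [sq_nonneg (u - 1)]
      · positivity
    have h2 : ∫ u, u ^ 2 ∂(gaussianReal 0 1) = 1 := by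
      have h := variance_fun_id_gaussianReal (μ := 0) (v := 1)
      rw [variance_of_integral_eq_zero] at h
      · simpa using h
      · fun_prop
      · have := integral_id_gaussianReal (μ := 0) (v := 1)
        simpa using this
    have h5 : ∫ u : ℝ, (1 + u ^ 2) / 2 ∂(gaussianReal 0 1) = 1 := by
      rw [integral_div, integral_add (integrable_const _) sq_int_gauss, h2]
      simp
    rw [← h5]
    unfold Gy
    exact integral_mono (hh_int 0) (((integrable_const _).add sq_int_gauss).div_const 2) h4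
  have hI' : (0 : ℝ) < I := by exact_mod_cast hI
  have hY : 0 < (I : ℝ) * δ := by positivity
  have h2 : ∀ u, fp u ≤ ∑ i ∈ Finset.range I, δ * hh (-(i * δ)) u + fp (u - I * δ) := by
    intro u
    have := fp_up hδ.le u I
    simp_rw [max_hh] at this
    exact this
  have h3 : ∫ u, (∑ i ∈ Finset.range I, δ * hh (-(i * δ)) u + fp (u - I * δ)) ∂(gaussianReal 0 1) =
      ∑ i ∈ Finset.range I, δ * Gy (-(i * δ)) + ∫ u, fp (u - I * δ) ∂(gaussianReal 0 1) := by
    rw [integral_add (integrable_finsetSum _ fun i _ => (hh_int _).const_mul δ) (fp_int _),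
      integral_finsetSum _ fun i _ => (hh_int _).const_mul δ]
    congr 1
    apply Finset.sum_congr rfl
    intro i _
    rw [integral_const_mul]
    rfl
  have h4 : ∫ u, fp (u - I * δ) ∂(gaussianReal 0 1) ≤ (∫ u, u ^ 4 ∂(gaussianReal 0 1)) / (I * δ) ^ 2 := by
    rw [← integral_div]
    exact integral_mono (fp_int _) (four_int.div_const _) fun u => fp_far hY u
  have h5 : (1 : ℝ) / 4 ≤ ∑ i ∈ Finset.range I, δ * Gy (-(i * δ)) + ∫ u, fp (u - I * δ) ∂(gaussianReal 0 1) := by
    rw [← h3, ← fp_half]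
    apply integral_mono _ _ h2
    · simpa using fp_int 0
    · exact (integrable_finsetSum _ fun i _ => (hh_int _).const_mul δ).add (fp_int _)
  have h6 : ∑ i ∈ Finset.range I, δ * Gy (-(i * δ)) ≤ δ + ∑ i ∈ Finset.range I, δ * Gy (-((i + 1) * δ)) := by
    have h7 := Finset.sum_range_succ (fun i : ℕ => δ * Gy (-(i * δ))) I
    rw [Finset.sum_range_succ'] at h7
    have h8 : 0 ≤ δ * Gy (-(I * δ)) := mul_nonneg hδ.le (hG0 _)
    have h9 : δ * Gy (-(((0 : ℕ) : ℝ) * δ)) ≤ δ := by
      have : δ * Gy 0 ≤ δ * 1 := mul_le_mul_of_nonneg_left h0 hδ.le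
      simpa using this
    push_cast at h7 h9
    linarith
  linarith

end Pool.Agent.Helper77.RS
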