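import Pool.Agent.Helper77.RS.Dy2

/-! The variance of the sums of gaps. -/

open Filter Topology Set MeasureTheory ProbabilityTheory

namespace Pool.Agent.Helper77.RS

open SG (ord NZ)
open Pool.Agent.H707.SM (dlt_nonneg sum_dlt_le sum_dlt_ge tl tl_nonneg)
open Pool.Agent.H707.SM renaming const_small → csm
open Pool.Agent.H707.NB (sp sp_sum lc lc_nonneg lc_le lo_pt' sq_tail tail_shift)
open LG (dlt)

lemma sum_two {a : ℝ} (ha : 1 ≤ a) (I : ℕ) : ∑ i ∈ Finset.range I, 1 / (a + i) ^ 2 ≤ 2 / a := by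
  have h : ∑ i ∈ Finset.range I, 1 / (a + i) ^ 2 ≤ 1 / (a - 1 / 2) - 1 / (a + I - 1 / 2) := by
    induction I with
    | zero => simp
    | succ I ih =>
      rw [Finset.sum_range_succ]
      have hI : (0 : ℝ) ≤ I := Nat.cast_nonneg I
      have h1 : 1 / (a + I) ^ 2 ≤ 1 / (a + I - 1 / 2) - 1 / (a + ((I : ℝ) + 1) - 1 / 2) := by
        have h2 : 0 < a + I - 1 / 2 := by linarith
        have h3 : 0 < a + ((I : ℝ) + 1) - 1 / 2 := by linarith
        rw [div_sub_div _ _ h2.ne' h3.ne', div_le_div_iff₀ (by positivity) (by positivity)]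
        nlinarith
      push_cast
      linarith
  have hI : (0 : ℝ) ≤ I := Nat.cast_nonneg I
  have h2 : 0 < a + I - 1 / 2 := by linarith
  have h3 : 0 ≤ 1 / (a + I - 1 / 2) := by positivity
  have h4 : 1 / (a - 1 / 2) ≤ 2 / a := by
    rw [div_le_div_iff₀ (by linarith) (by linarith)]
    linarith
  linarith

lemma sum_three {a : ℝ} (ha : 1 ≤ a) (I : ℕ) : ∑ i ∈ Finset.range I, 1 / (a + i) ^ 3 ≤ 2 / a ^ 2 := by
  have h : ∀ i ∈ Finset.range I, 1 / (a + i) ^ 3 ≤ 1 / a * (1 / (a + i) ^ 2) := by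
    intro i _
    have hi : (0 : ℝ) ≤ i := Nat.cast_nonneg i
    have hai : 0 < a + i := by linarith
    rw [div_mul_div_comm, one_mul]
    apply one_div_le_one_div_of_le (by positivity)
    have : a * (a + i) ^ 2 ≤ (a + i) * (a + i) ^ 2 := mul_le_mul_of_nonneg_right (by linarith) (by positivity)
    calc _ ≤ (a + i) * (a + i) ^ 2 := this
      _ = _ := by ring
  refine (Finset.sum_le_sum h).trans ?_
  rw [← Finset.mul_sum]
  have h2 := mul_le_mul_of_nonneg_left (sum_two ha I) (show 0 ≤ 1 / a by positivity)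
  refine h2.trans (le_of_eq ?_)
  field_simp

lemma log_b {r b : ℝ} (hr : 1 ≤ r) (hb : 0 ≤ b) :
    (1 + Real.log (r + b)) ^ 2 ≤ 4 * (1 + Real.log r) ^ 2 * (1 + b / r) := by
  have hr0 : 0 < r := by linarith
  have hz : 0 ≤ b / r := by positivity
  obtain ⟨w, hw⟩ : ∃ w, w = Real.sqrt (1 + b / r) := ⟨_, rfl⟩
  have hw1 : 1 ≤ w := by
    rw [hw, Real.one_le_sqrt]
    linarith
  have hw2 : w ^ 2 = 1 + b / r := by rw [hw, Real.sq_sqrt (by linarith)]
  have e1 : Real.log (r + b) = Real.log r + Real.log (w ^ 2) := by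
    rw [hw2, ← Real.log_mul hr0.ne' (by linarith)]
    congr 1
    field_simp
  have e2 : Real.log (w ^ 2) = 2 * Real.log w := by
    rw [Real.log_pow]
    norm_num
  have h1 : Real.log w ≤ w - 1 := Real.log_le_sub_one_of_pos (by linarith)
  have h2 : 0 ≤ Real.log w := Real.log_nonneg hw1
  have h3 : 0 ≤ Real.log r := Real.log_nonneg hr
  have h4 : 1 + Real.log (r + b) ≤ (1 + Real.log r) * (2 * w) := by
    rw [e1, e2]
    nlinarith [mul_nonneg h3 (by linarith : 0 ≤ w - 1)]
  have h5 : 0 ≤ 1 + Real.log (r + b) := by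
    rw [e1, e2]
    linarith
  calc (1 + Real.log (r + b)) ^ 2 ≤ ((1 + Real.log r) * (2 * w)) ^ 2 := pow_le_pow_left₀ h5 h4 2
    _ = 4 * (1 + Real.log r) ^ 2 * w ^ 2 := by ring
    _ = _ := by rw [hw2]

/-- large `r` -/
lemma big_r (Y : ℝ) : ∀ᶠ r : ℕ in atTop, 1 ≤ sg r ∧ Y ≤ sg r ^ 2 ∧ 1 ≤ Real.log r ∧ 2 ≤ (r : ℝ) ∧ Y * sg r ≤ r ∧
    (1 + Real.log r) ^ 2 ≤ 4 * Real.pi ^ 4 * sg r ^ 4 ∧ sg r ^ 2 = Real.log r / Real.pi ^ 2 := by
  have hpi := Real.pi_pos
  have hlim : Tendsto (fun r : ℕ => (r : ℝ)) atTop atTop := tendsto_natCast_atTop_atTop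
  filter_upwards [sg_facts (-Y) 1 one_pos, hlim.eventually (Real.tendsto_log_atTop.eventually_ge_atTop (|Y| * Real.pi ^ 2 + Real.pi ^ 2 + 1)),
    hlim.eventually_ge_atTop 2] with r ⟨hs, h1, h2, h3⟩ h4 h5
  have hY := abs_nonneg Y
  have hl1 : 1 ≤ Real.log r := by
    have : 0 ≤ |Y| * Real.pi ^ 2 := by positivity
    have : 0 < Real.pi ^ 2 := by positivity
    linarith
  have hsq : sg r ^ 2 = Real.log r / Real.pi ^ 2 := by
    unfold sg
    rw [div_pow, Real.sq_sqrt (by linarith)]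
  have hY2 : |Y| + 1 ≤ sg r ^ 2 := by
    rw [hsq, le_div_iff₀ (by positivity)]
    linarith
  refine ⟨?_, ?_, hl1, h5, ?_, ?_, hsq⟩
  · by_contra hc
    rw [not_le] at hc
    nlinarith
  · linarith [le_abs_self Y]
  · linarith
  · have e : Real.pi ^ 4 * sg r ^ 4 = Real.log r ^ 2 := by
      have : sg r ^ 4 = (sg r ^ 2) ^ 2 := by ring
      rw [this, hsq]
      field_simp
    nlinarith

/-- the lower far region -/
lemma fr_lo (hRH : RiemannHypothesis) : ∃ C' : ℝ, 0 < C' ∧ ∀ Y : ℝ, 1 ≤ Y → ∀ᶠ r : ℕ in atTop, ∀ᶠ N : ℕ in atTop,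
    ∑ n ∈ Finset.Icc 1 N, fp (r - Y * sg r - sq n r) ≤ C' / Y ^ 2 * sg r ^ 2 * N ∧
    ∑ n ∈ Finset.Icc 1 N, fp (sq n r - r - Y * sg r) ≤ C' / Y ^ 2 * sg r ^ 2 * N := by
  have hpi := Real.pi_pos
  obtain ⟨C, hC, hfar⟩ := far_both hRH
  refine ⟨64 * C * Real.pi ^ 4 + 1, by positivity, fun Y hY => ?_⟩
  filter_upwards [big_r (2 * Y ^ 2 + Y + 1), big_r Y] with r ⟨hs1, hs2, hl1, hr2, _, hlog, hsq⟩ ⟨_, _, _, _, hYr, _, _⟩
  set σ := sg r with hσ
  set a := Y * σ with ha
  have ha1 : 1 ≤ a := by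
    rw [ha]
    nlinarith
  have ha0 : 0 < a := by linarith
  have hr0 : (0 : ℝ) < r := by linarith
  have hkey : 16 * C * (1 + Real.log r) ^ 2 / a ^ 2 + 2 ≤ (64 * C * Real.pi ^ 4 + 1) / Y ^ 2 * σ ^ 2 := by
    have hY2 : 0 < Y ^ 2 := by positivity
    have h1 : 16 * C * (1 + Real.log r) ^ 2 / a ^ 2 ≤ 16 * C * (4 * Real.pi ^ 4 * σ ^ 4) / a ^ 2 := by
      apply div_le_div_of_nonneg_right _ (by positivity)
      exact mul_le_mul_of_nonneg_left hlog (by positivity)
    have h2 : 16 * C * (4 * Real.pi ^ 4 * σ ^ 4) / a ^ 2 = 64 * C * Real.pi ^ 4 / Y ^ 2 * σ ^ 2 := by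
      rw [ha]
      field_simp
      ring
    have h3 : (2 : ℝ) ≤ 1 / Y ^ 2 * σ ^ 2 := by
      rw [div_mul_eq_mul_div, one_mul, le_div_iff₀ hY2]
      linarith
    have h4 : (64 * C * Real.pi ^ 4 + 1) / Y ^ 2 * σ ^ 2 = 64 * C * Real.pi ^ 4 / Y ^ 2 * σ ^ 2 + 1 / Y ^ 2 * σ ^ 2 := by ring
    rw [h4]
    linarith
  have hL0 : 0 ≤ (1 + Real.log r) ^ 2 := sq_nonneg _
  refine Filter.Eventually.and ?_ ?_
  · -- lower part
    set J := ⌊(r : ℝ) - a⌋₊ with hJ
    have hra : 0 ≤ (r : ℝ) - a := by linarith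
    have hJ1 : (J : ℝ) ≤ r - a := Nat.floor_le hra
    have hJ2 : (r : ℝ) - a < J + 1 := Nat.lt_floor_add_one _
    have hnode : ∀ i ∈ Finset.range J, ∀ᶠ N : ℕ in atTop, ∑ n ∈ Finset.Icc 1 N, max 0 (r - a - i - sq n r) ≤
        (C * (1 + Real.log r) ^ 2 * (1 / (a + i) ^ 3) + 1 / (J + 1)) * N := by
      intro i hi
      rw [Finset.mem_range] at hi
      have hi1 : (i : ℝ) + 1 ≤ J := by exact_mod_cast hi
      have hi0 : (0 : ℝ) ≤ i := Nat.cast_nonneg i
      have hx1 : (1 : ℝ) ≤ r - a - i := by linarith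
      filter_upwards [(hfar r (r - a - i) hx1).1 (by linarith) (1 / (J + 1)) (by positivity)] with N hN
      refine hN.trans ?_
      apply mul_le_mul_of_nonneg_right _ (Nat.cast_nonneg N)
      have h1 : Real.log (r - a - i) ≤ Real.log r := Real.log_le_log (by linarith) (by linarith)
      have h0 : 0 ≤ Real.log (r - a - i) := Real.log_nonneg hx1
      have h2 : C * (1 + Real.log (r - a - i)) ^ 2 / (r - (r - a - i)) ^ 3 ≤ C * (1 + Real.log r) ^ 2 * (1 / (a + i) ^ 3) := by
        rw [show (r : ℝ) - (r - a - i) = a + i by ring, mul_one_div]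
        apply div_le_div_of_nonneg_right _ (by positivity)
        apply mul_le_mul_of_nonneg_left _ hC.le
        exact pow_le_pow_left₀ (by linarith) (by linarith) 2
      linarith
    filter_upwards [(Filter.eventually_all_finset _).2 hnode] with N hN
    have hN0 : (0 : ℝ) ≤ N := Nat.cast_nonneg N
    have hpt : ∀ n ∈ Finset.Icc 1 N, fp (r - Y * σ - sq n r) ≤
        ∑ i ∈ Finset.range J, max 0 (r - a - i - sq n r) + 1 := by
      intro n _
      have h1 := fp_up zero_le_one (r - a - sq n r) J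
      have h2 : ∑ i ∈ Finset.range J, (1 : ℝ) * max 0 (r - a - sq n r - i * 1) =
          ∑ i ∈ Finset.range J, max 0 (r - a - i - sq n r) := by
        apply Finset.sum_congr rfl
        intro i _
        rw [one_mul, mul_one]
        congr 1
        ring
      rw [h2] at h1
      have h3 : fp (r - a - sq n r - J * 1) ≤ 1 := by
        unfold fp
        have h4 : max 0 (r - a - sq n r - J * 1) ≤ 1 := by
          apply max_le zero_le_one
          have := sq_nonneg' n r
          linarith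
        have h5 : 0 ≤ max 0 (r - a - sq n r - J * 1) := le_max_left _ _
        nlinarith
      linarith
    refine (Finset.sum_le_sum hpt).trans ?_
    rw [Finset.sum_add_distrib, Finset.sum_comm, Finset.sum_const, Nat.card_Icc, nsmul_eq_mul, mul_one, Nat.add_sub_cancel]
    have h6 := Finset.sum_le_sum hN
    rw [← Finset.sum_mul, Finset.sum_add_distrib, ← Finset.mul_sum, Finset.sum_const, Finset.card_range, nsmul_eq_mul] at h6
    have h7 : C * (1 + Real.log r) ^ 2 * ∑ i ∈ Finset.range J, 1 / (a + i) ^ 3 ≤ C * (1 + Real.log r) ^ 2 * (2 / a ^ 2) :=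
      mul_le_mul_of_nonneg_left (sum_three ha1 J) (by positivity)
    have h8 : (J : ℝ) * (1 / (J + 1)) ≤ 1 := by
      rw [mul_one_div, div_le_one (by positivity)]
      linarith
    have h9 : C * (1 + Real.log r) ^ 2 * (2 / a ^ 2) ≤ 16 * C * (1 + Real.log r) ^ 2 / a ^ 2 := by
      rw [mul_div_assoc']
      apply div_le_div_of_nonneg_right _ (by positivity)
      have : 0 ≤ C * (1 + Real.log r) ^ 2 := by positivity
      linarith
    calc _ ≤ (16 * C * (1 + Real.log r) ^ 2 / a ^ 2 + 1) * N + N := by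
          have : (C * (1 + Real.log r) ^ 2 * ∑ i ∈ Finset.range J, 1 / (a + i) ^ 3 + J * (1 / (J + 1))) * (N : ℝ) ≤
            (16 * C * (1 + Real.log r) ^ 2 / a ^ 2 + 1) * N := mul_le_mul_of_nonneg_right (by linarith) hN0
          linarith
      _ = (16 * C * (1 + Real.log r) ^ 2 / a ^ 2 + 2) * N := by ring
      _ ≤ _ := mul_le_mul_of_nonneg_right hkey hN0
  · -- upper part
    obtain ⟨K0, hK0⟩ := tail_shift hRH r (ε := 1 / (2 * r)) (by positivity)
    set K := max K0 1 with hK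
    set J := 2 * r * K with hJ
    have hnode : ∀ i ∈ Finset.range J, ∀ᶠ N : ℕ in atTop, ∑ n ∈ Finset.Icc 1 N, max 0 (sq n r - (r + (a + i))) ≤
        (4 * C * (1 + Real.log r) ^ 2 * (1 / (a + i) ^ 3 + 1 / r * (1 / (a + i) ^ 2)) + 1 / (J + 1)) * N := by
      intro i _
      have hi0 : (0 : ℝ) ≤ i := Nat.cast_nonneg i
      filter_upwards [(hfar r (r + (a + i)) (by linarith)).2 (by linarith) (1 / (J + 1)) (by positivity)] with N hN
      refine hN.trans ?_
      apply mul_le_mul_of_nonneg_right _ (Nat.cast_nonneg N)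
      have h2 : C * (1 + Real.log (r + (a + i))) ^ 2 / (r + (a + i) - r) ^ 3 ≤
          4 * C * (1 + Real.log r) ^ 2 * (1 / (a + i) ^ 3 + 1 / r * (1 / (a + i) ^ 2)) := by
        rw [show (r : ℝ) + (a + i) - r = a + i by ring]
        have h3 := log_b (r := r) (b := a + i) (by linarith) (by linarith)
        have hai : 0 < a + i := by linarith
        have h4 : C * (1 + Real.log (r + (a + i))) ^ 2 / (a + i) ^ 3 ≤
            C * (4 * (1 + Real.log r) ^ 2 * (1 + (a + i) / r)) / (a + i) ^ 3 := by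
          apply div_le_div_of_nonneg_right _ (by positivity)
          exact mul_le_mul_of_nonneg_left h3 hC.le
        refine h4.trans (le_of_eq ?_)
        field_simp
      linarith
    filter_upwards [(Filter.eventually_all_finset _).2 hnode, eventually_ge_atTop (max r 1)] with N hN hNr
    have hN0 : (0 : ℝ) ≤ N := Nat.cast_nonneg N
    have ht := hK0 K (le_max_left _ _) N hNr
    have hpt : ∀ n ∈ Finset.Icc 1 N, fp (sq n r - r - Y * σ) ≤
        ∑ i ∈ Finset.range J, max 0 (sq n r - (r + (a + i))) + 2 * r * ∑ j ∈ Finset.range r, tl K (dlt (n + j)) := by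
      intro n _
      have h1 := fp_up zero_le_one (sq n r - r - a) J
      have h2 : ∑ i ∈ Finset.range J, (1 : ℝ) * max 0 (sq n r - r - a - i * 1) =
          ∑ i ∈ Finset.range J, max 0 (sq n r - (r + (a + i))) := by
        apply Finset.sum_congr rfl
        intro i _
        rw [one_mul, mul_one]
        congr 1
        ring
      rw [h2] at h1
      have h3 : fp (sq n r - r - a - J * 1) ≤ 2 * r * ∑ j ∈ Finset.range r, tl K (dlt (n + j)) := by
        have hT0 : 0 ≤ 2 * (r : ℝ) * ∑ j ∈ Finset.range r, tl K (dlt (n + j)) :=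
          mul_nonneg (by positivity) (Finset.sum_nonneg fun j _ => tl_nonneg K _)
        rcases le_total (sq n r - r - a - J * 1) 0 with h4 | h4
        · unfold fp
          rw [max_eq_left h4]
          simpa using hT0
        · have hJr : (J : ℝ) = 2 * r * K := by rw [hJ]; push_cast; ring
          have hJ0 : (0 : ℝ) ≤ J := Nat.cast_nonneg J
          have hsp : sq n r = sp n r := by
            unfold sq
            unfold sq at h4
            rcases le_total 0 (sp n r) with h5 | h5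
            · exact max_eq_right h5
            · rw [max_eq_left h5] at h4
              linarith
          have h5 : 2 * (r : ℝ) * K ≤ ∑ j ∈ Finset.range r, dlt (n + j) := by
            rw [sp_sum, ← hsp]
            linarith
          have h6 := sq_tail h5
          rw [sp_sum, ← hsp] at h6
          unfold fp
          rw [max_eq_right h4]
          have h7 : (sq n r - r - a - J * 1) ^ 2 ≤ sq n r ^ 2 := by
            apply pow_le_pow_left₀ h4
            linarith
          linarith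
      linarith
    refine (Finset.sum_le_sum hpt).trans ?_
    rw [Finset.sum_add_distrib, Finset.sum_comm, ← Finset.mul_sum]
    have h6 := Finset.sum_le_sum hN
    rw [← Finset.sum_mul, Finset.sum_add_distrib, ← Finset.mul_sum, Finset.sum_add_distrib, ← Finset.mul_sum, Finset.sum_const,
      Finset.card_range, nsmul_eq_mul] at h6
    have h7 : 1 / (r : ℝ) * ∑ i ∈ Finset.range J, 1 / (a + i) ^ 2 ≤ 2 / a ^ 2 := by
      have h8 : 1 / (r : ℝ) ≤ 1 / a := one_div_le_one_div_of_le ha0 (by linarith)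
      have h9 : 0 ≤ ∑ i ∈ Finset.range J, 1 / (a + i) ^ 2 := Finset.sum_nonneg fun i _ => by positivity
      calc _ ≤ 1 / a * ∑ i ∈ Finset.range J, 1 / (a + i) ^ 2 := mul_le_mul_of_nonneg_right h8 h9
        _ ≤ 1 / a * (2 / a) := mul_le_mul_of_nonneg_left (sum_two ha1 J) (by positivity)
        _ = _ := by field_simp
    have h7' := sum_three ha1 J
    have h8 : (J : ℝ) * (1 / (J + 1)) ≤ 1 := by
      rw [mul_one_div, div_le_one (by positivity)]
      linarith
    have h9 : 4 * C * (1 + Real.log r) ^ 2 * (∑ i ∈ Finset.range J, 1 / (a + i) ^ 3 + 1 / (r : ℝ) * ∑ i ∈ Finset.range J, 1 / (a + i) ^ 2) ≤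
        16 * C * (1 + Real.log r) ^ 2 / a ^ 2 := by
      calc _ ≤ 4 * C * (1 + Real.log r) ^ 2 * (2 / a ^ 2 + 2 / a ^ 2) :=
            mul_le_mul_of_nonneg_left (by linarith) (by positivity)
        _ = _ := by ring
    have h10 : 2 * (r : ℝ) * ∑ n ∈ Finset.Icc 1 N, ∑ j ∈ Finset.range r, tl K (dlt (n + j)) ≤ N := by
      have : 2 * (r : ℝ) * ∑ n ∈ Finset.Icc 1 N, ∑ j ∈ Finset.range r, tl K (dlt (n + j)) ≤ 2 * r * (1 / (2 * r) * N) :=
        mul_le_mul_of_nonneg_left ht (by positivity)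
      refine this.trans (le_of_eq ?_)
      field_simp
    calc _ ≤ (16 * C * (1 + Real.log r) ^ 2 / a ^ 2 + 1) * N + N := by
          have : (4 * C * (1 + Real.log r) ^ 2 * (∑ i ∈ Finset.range J, 1 / (a + i) ^ 3 + 1 / (r : ℝ) * ∑ i ∈ Finset.range J, 1 / (a + i) ^ 2) +
            J * (1 / (J + 1))) * (N : ℝ) ≤ (16 * C * (1 + Real.log r) ^ 2 / a ^ 2 + 1) * N := mul_le_mul_of_nonneg_right (by linarith) hN0
          linarith
      _ = (16 * C * (1 + Real.log r) ^ 2 / a ^ 2 + 2) * N := by ring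
      _ ≤ _ := mul_le_mul_of_nonneg_right hkey hN0

end Pool.Agent.Helper77.RS
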