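import Pool.Agent.Helper77.RS.Dy3

/-! The asymptotic variance of the sums of gaps. -/

open Filter Topology Set MeasureTheory ProbabilityTheory

namespace Pool.Agent.Helper77.RS

open SG (ord NZ)
open Pool.Agent.H707.SM (dlt_nonneg sum_dlt_le sum_dlt_ge tl tl_nonneg)
open Pool.Agent.H707.SM renaming const_small → csm
open Pool.Agent.H707.NB (sp sp_sum lc lc_nonneg lc_le lo_pt' sq_tail tail_shift)
open LG (dlt)

lemma near (hRH : RiemannHypothesis) (y : ℝ) {e : ℝ} (he : 0 < e) : ∀ᶠ r : ℕ in atTop, ∀ᶠ N : ℕ in atTop,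
    |∑ n ∈ Finset.Icc 1 N, max 0 (r - sq n r - y * sg r) - sg r * Gy (-y) * N| ≤ e * sg r * N ∧
    |∑ n ∈ Finset.Icc 1 N, max 0 (sq n r - r - y * sg r) - sg r * Gy (-y) * N| ≤ e * sg r * N := by
  filter_upwards [mean_y hRH (-y) he, sg_facts (-y) 1 one_pos, mean_y hRH y (half_pos he), sg_facts y 1 one_pos] with
    r h1 ⟨hs, _, h2, _⟩ h3 ⟨_, _, h4, _⟩
  filter_upwards [h1, h3, mean_sq hRH r (ε := e / 2 * sg r) (by positivity)] with N k1 k2 k3
  constructor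
  · have e1 : ∑ n ∈ Finset.Icc 1 N, lc (r + -y * sg r) (sp n r) = ∑ n ∈ Finset.Icc 1 N, max 0 (r - sq n r - y * sg r) := by
      apply Finset.sum_congr rfl
      intro n _
      rw [lc_sq h2.le]
      congr 1
      ring
    rw [e1] at k1
    exact k1
  · have e1 : ∑ n ∈ Finset.Icc 1 N, lc (r + y * sg r) (sp n r) = ∑ n ∈ Finset.Icc 1 N, max 0 (r + y * sg r - sq n r) :=
      Finset.sum_congr rfl fun n _ => lc_sq h4.le n r
    have e2 : ∑ n ∈ Finset.Icc 1 N, max 0 (sq n r - r - y * sg r) = ∑ n ∈ Finset.Icc 1 N, max 0 (sq n r - (r + y * sg r)) := by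
      apply Finset.sum_congr rfl
      intro n _
      congr 1
      ring
    rw [e1, Gy_refl y] at k2
    rw [e2, pos_sum]
    rw [abs_le] at k2 k3 ⊢
    constructor <;> nlinarith [k2.1, k2.2, k3.1, k3.2]

lemma comb {N I : ℕ} {σ δ e Y0 η : ℝ} (v : ℕ → ℝ) (hδ : 0 < δ) (hδ1 : δ ≤ 1) (hσ : 0 < σ) (hI : (I : ℝ) * δ = Y0)
    (hI0 : 0 < I) (he : Y0 * e ≤ η) (hδη : δ ≤ η) {K4 : ℝ}
    (hlo : 1 / 4 - K4 / (I * δ) ^ 2 - δ ≤ ∑ i ∈ Finset.range I, δ * Gy (-((i + 1) * δ))) (hK4 : K4 / Y0 ^ 2 ≤ η)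
    (hnear : ∀ i ∈ Finset.range (I + 1),
      |∑ n ∈ Finset.Icc 1 N, max 0 (v n - i * δ * σ) - σ * Gy (-(i * δ)) * N| ≤ e * σ * N)
    (hfar : ∑ n ∈ Finset.Icc 1 N, fp (v n - Y0 * σ) ≤ η * σ ^ 2 * N) :
    |∑ n ∈ Finset.Icc 1 N, fp (v n) - σ ^ 2 / 4 * N| ≤ 3 * η * σ ^ 2 * N := by
  have hN0 : (0 : ℝ) ≤ N := Nat.cast_nonneg N
  have hs2N : 0 ≤ σ ^ 2 * N := by positivity
  have hup := gs_up hδ.le hδ1 I
  have hnear' : ∀ i ∈ Finset.range (I + 1), (σ * Gy (-(i * δ)) - e * σ) * N ≤ ∑ n ∈ Finset.Icc 1 N, max 0 (v n - i * δ * σ) ∧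
      ∑ n ∈ Finset.Icc 1 N, max 0 (v n - i * δ * σ) ≤ (σ * Gy (-(i * δ)) + e * σ) * N := by
    intro i hi
    have := abs_le.1 (hnear i hi)
    constructor <;> linarith [this.1, this.2]
  have hds : 0 < δ * σ := by positivity
  rw [abs_le]
  constructor
  · -- lower bound
    have h1 : ∀ n ∈ Finset.Icc 1 N, ∑ i ∈ Finset.range I, δ * σ * max 0 (v n - ((i + 1 : ℕ) : ℝ) * δ * σ) ≤ fp (v n) := by
      intro n _
      have h2 := fp_lo hds.le (v n) I
      have h3 : ∑ i ∈ Finset.range I, δ * σ * max 0 (v n - (i + 1) * (δ * σ)) =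
          ∑ i ∈ Finset.range I, δ * σ * max 0 (v n - ((i + 1 : ℕ) : ℝ) * δ * σ) := by
        apply Finset.sum_congr rfl
        intro i _
        push_cast
        congr 2
        ring
      rw [h3] at h2
      linarith [fp_nonneg (v n - I * (δ * σ))]
    have h2 := Finset.sum_le_sum h1
    rw [Finset.sum_comm] at h2
    have h3 : ∑ i ∈ Finset.range I, δ * σ * ((σ * Gy (-((i + 1) * δ)) - e * σ) * N) ≤
        ∑ i ∈ Finset.range I, ∑ n ∈ Finset.Icc 1 N, δ * σ * max 0 (v n - ((i + 1 : ℕ) : ℝ) * δ * σ) := by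
      apply Finset.sum_le_sum
      intro i hi
      rw [← Finset.mul_sum]
      apply mul_le_mul_of_nonneg_left _ hds.le
      have := (hnear' (i + 1) (by rw [Finset.mem_range] at hi ⊢; omega)).1
      push_cast at this ⊢
      exact this
    have h4 : ∑ i ∈ Finset.range I, δ * σ * ((σ * Gy (-((i + 1) * δ)) - e * σ) * N) =
        σ ^ 2 * N * (∑ i ∈ Finset.range I, δ * Gy (-((i + 1) * δ))) - σ ^ 2 * N * (I * δ * e) := by
      rw [Finset.mul_sum]
      have : σ ^ 2 * N * (I * δ * e) = ∑ i ∈ Finset.range I, σ ^ 2 * N * (δ * e) := by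
        rw [Finset.sum_const, Finset.card_range, nsmul_eq_mul]
        ring
      rw [this, ← Finset.sum_sub_distrib]
      apply Finset.sum_congr rfl
      intro i _
      ring
    rw [h4, hI] at h3
    rw [hI] at hlo
    have h5 : σ ^ 2 * N * (1 / 4 - 3 * η) ≤ σ ^ 2 * N * (∑ i ∈ Finset.range I, δ * Gy (-((i + 1) * δ))) - σ ^ 2 * N * (Y0 * e) := by
      rw [← mul_sub]
      apply mul_le_mul_of_nonneg_left _ hs2N
      linarith
    have h6 : σ ^ 2 * N * (1 / 4 - 3 * η) = σ ^ 2 / 4 * N - 3 * η * σ ^ 2 * N := by ring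
    linarith
  · have h1 : ∀ n ∈ Finset.Icc 1 N, fp (v n) ≤ ∑ i ∈ Finset.range I, δ * σ * max 0 (v n - i * δ * σ) + fp (v n - Y0 * σ) := by
      intro n _
      have h2 := fp_up hds.le (v n) I
      have h3 : ∑ i ∈ Finset.range I, δ * σ * max 0 (v n - i * (δ * σ)) =
          ∑ i ∈ Finset.range I, δ * σ * max 0 (v n - i * δ * σ) := by
        apply Finset.sum_congr rfl
        intro i _
        congr 2
        ring
      rw [h3, show (I : ℝ) * (δ * σ) = I * δ * σ by ring, hI] at h2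
      exact h2
    have h2 := Finset.sum_le_sum h1
    rw [Finset.sum_add_distrib, Finset.sum_comm] at h2
    have h3 : ∑ i ∈ Finset.range I, ∑ n ∈ Finset.Icc 1 N, δ * σ * max 0 (v n - i * δ * σ) ≤
        ∑ i ∈ Finset.range I, δ * σ * ((σ * Gy (-(i * δ)) + e * σ) * N) := by
      apply Finset.sum_le_sum
      intro i hi
      rw [← Finset.mul_sum]
      apply mul_le_mul_of_nonneg_left _ hds.le
      exact (hnear' i (by rw [Finset.mem_range] at hi ⊢; omega)).2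
    have h4 : ∑ i ∈ Finset.range I, δ * σ * ((σ * Gy (-(i * δ)) + e * σ) * N) =
        σ ^ 2 * N * (∑ i ∈ Finset.range I, δ * Gy (-(i * δ))) + σ ^ 2 * N * (I * δ * e) := by
      rw [Finset.mul_sum]
      have : σ ^ 2 * N * (I * δ * e) = ∑ i ∈ Finset.range I, σ ^ 2 * N * (δ * e) := by
        rw [Finset.sum_const, Finset.card_range, nsmul_eq_mul]
        ring
      rw [this, ← Finset.sum_add_distrib]
      apply Finset.sum_congr rfl
      intro i _
      ring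
    rw [h4, hI] at h3
    have h5 : σ ^ 2 * N * (∑ i ∈ Finset.range I, δ * Gy (-(i * δ))) + σ ^ 2 * N * (Y0 * e) ≤ σ ^ 2 * N * (1 / 4 + 2 * η) := by
      rw [← mul_add]
      apply mul_le_mul_of_nonneg_left _ hs2N
      linarith
    have h6 : σ ^ 2 * N * (1 / 4 + 2 * η) = σ ^ 2 / 4 * N + 2 * η * σ ^ 2 * N := by ring
    linarith

/-- the variance -/
theorem var_sq (hRH : RiemannHypothesis) {ε : ℝ} (hε : 0 < ε) : ∀ᶠ r : ℕ in atTop, ∀ᶠ N : ℕ in atTop,
    |∑ n ∈ Finset.Icc 1 N, (sq n r - r) ^ 2 - sg r ^ 2 * N| ≤ ε * sg r ^ 2 * N := by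
  obtain ⟨C', hC', hfar⟩ := fr_lo hRH
  obtain ⟨K4, hK4, hlo⟩ := gs_lo
  obtain ⟨η, hη⟩ : ∃ η : ℝ, η = ε / 12 := ⟨_, rfl⟩
  have hη0 : 0 < η := by rw [hη]; positivity
  obtain ⟨Y, hY⟩ := exists_nat_ge (max 1 ((C' + K4) / η))
  have hY1 : (1 : ℝ) ≤ Y := (le_max_left _ _).trans hY
  have hY2 : (C' + K4) / η ≤ Y := (le_max_right _ _).trans hY
  have hY0 : (0 : ℝ) < Y := by linarith
  have hYn : 0 < Y := by exact_mod_cast hY0
  rw [div_le_iff₀ hη0] at hY2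
  have hYY : (Y : ℝ) * η ≤ η * Y ^ 2 := by nlinarith [mul_nonneg (mul_nonneg hη0.le hY0.le) (by linarith : (0 : ℝ) ≤ Y - 1)]
  have c1 : C' / (Y : ℝ) ^ 2 ≤ η := by
    rw [div_le_iff₀ (by positivity)]
    linarith
  have c2 : K4 / (Y : ℝ) ^ 2 ≤ η := by
    rw [div_le_iff₀ (by positivity)]
    linarith
  obtain ⟨m, hm⟩ := exists_nat_ge (max 1 (1 / η))
  have hm1 : (1 : ℝ) ≤ m := (le_max_left _ _).trans hm
  have hm2 : 1 / η ≤ m := (le_max_right _ _).trans hm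
  have hm0 : (0 : ℝ) < m := by linarith
  have hmn : 0 < m := by exact_mod_cast hm0
  obtain ⟨δ, hδ⟩ : ∃ δ : ℝ, δ = 1 / m := ⟨_, rfl⟩
  have hδ0 : 0 < δ := by rw [hδ]; positivity
  have hδ1 : δ ≤ 1 := by rw [hδ, div_le_one hm0]; exact hm1
  have hδη : δ ≤ η := by
    rw [hδ, div_le_iff₀ hm0]
    rw [div_le_iff₀ hη0] at hm2
    linarith
  set I := Y * m with hI
  have hIδ : (I : ℝ) * δ = Y := by
    rw [hI, hδ]
    push_cast
    field_simp
  have hI0 : 0 < I := Nat.mul_pos hYn hmn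
  obtain ⟨e, he⟩ : ∃ e : ℝ, e = η / Y := ⟨_, rfl⟩
  have he0 : 0 < e := by rw [he]; positivity
  have hYe : (Y : ℝ) * e ≤ η := by
    rw [he]
    field_simp
    exact le_rfl
  have hall : ∀ᶠ r : ℕ in atTop, ∀ i ∈ Finset.range (I + 1), ∀ᶠ N : ℕ in atTop,
      |∑ n ∈ Finset.Icc 1 N, max 0 (r - sq n r - i * δ * sg r) - sg r * Gy (-(i * δ)) * N| ≤ e * sg r * N ∧
      |∑ n ∈ Finset.Icc 1 N, max 0 (sq n r - r - i * δ * sg r) - sg r * Gy (-(i * δ)) * N| ≤ e * sg r * N :=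
    (Filter.eventually_all_finset _).2 fun i _ => near hRH (i * δ) he0
  filter_upwards [hall, hfar Y hY1, sg_facts 0 1 one_pos] with r h1 h2 ⟨hs, _⟩
  filter_upwards [(Filter.eventually_all_finset _).2 h1, h2] with N h3 h4
  have hN0 : (0 : ℝ) ≤ N := Nat.cast_nonneg N
  have hsN : 0 ≤ sg r ^ 2 * N := by positivity
  have a1 := comb (fun n => (r : ℝ) - sq n r) hδ0 hδ1 hs hIδ hI0 hYe hδη (hlo δ I hδ0 hI0) c2
    (fun i hi => (h3 i hi).1) (by
      have e1 : ∑ n ∈ Finset.Icc 1 N, fp ((fun n => (r : ℝ) - sq n r) n - Y * sg r) = ∑ n ∈ Finset.Icc 1 N, fp (r - Y * sg r - sq n r) := by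
        apply Finset.sum_congr rfl
        intro n _
        congr 1
        simp only
        ring
      rw [e1]
      refine h4.1.trans ?_
      have := mul_le_mul_of_nonneg_right c1 hsN
      linarith)
  have a2 := comb (fun n => sq n r - (r : ℝ)) hδ0 hδ1 hs hIδ hI0 hYe hδη (hlo δ I hδ0 hI0) c2
    (fun i hi => (h3 i hi).2) (by
      refine h4.2.trans ?_
      have := mul_le_mul_of_nonneg_right c1 hsN
      linarith)
  have e2 : ∑ n ∈ Finset.Icc 1 N, (sq n r - r) ^ 2 = 2 * (∑ n ∈ Finset.Icc 1 N, fp ((fun n => (r : ℝ) - sq n r) n)) +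
      2 * (∑ n ∈ Finset.Icc 1 N, fp ((fun n => sq n r - (r : ℝ)) n)) := by
    rw [Finset.mul_sum, Finset.mul_sum, ← Finset.sum_add_distrib]
    apply Finset.sum_congr rfl
    intro n _
    have := fp_add (sq n r - r)
    simp only
    rw [show (r : ℝ) - sq n r = -(sq n r - r) by ring]
    linarith
  rw [e2]
  rw [abs_le] at a1 a2 ⊢
  have e3 : ε * sg r ^ 2 * N = 4 * (3 * η * sg r ^ 2 * N) := by rw [hη]; ring
  rw [e3]
  constructor <;> linarith [a1.1, a1.2, a2.1, a2.2]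

/-- the variance of the sums of gaps -/
theorem var_sp (hRH : RiemannHypothesis) {ε : ℝ} (hε : 0 < ε) : ∀ᶠ r : ℕ in atTop, ∀ᶠ N : ℕ in atTop,
    |∑ n ∈ Finset.Icc 1 N, (sp n r - r) ^ 2 - sg r ^ 2 * N| ≤ ε * sg r ^ 2 * N := by
  filter_upwards [var_sq hRH (half_pos hε), sg_facts 0 1 one_pos] with r h1 ⟨hs, _⟩
  obtain ⟨D, hD, h⟩ := sq_fin (fun x => (x - r) ^ 2) r
  filter_upwards [h1, csm D (ε / 2 * sg r ^ 2) (by positivity)] with N h2 h3
  have h4 := abs_le.1 (h N)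

  rw [abs_le] at h2 ⊢
  constructor <;> linarith [h2.1, h2.2, h4.1, h4.2]

end Pool.Agent.Helper77.RS
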