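import Pool.Agent.Helper77.RS.Dy4

/-! Covariances of the gaps. -/

open Filter Topology Set MeasureTheory ProbabilityTheory

namespace Pool.Agent.Helper77.RS

open SG (ord NZ)
open Pool.Agent.H707.SM (dlt_nonneg sum_dlt_le sum_dlt_ge tl tl_nonneg tail_dlt)
open Pool.Agent.H707.SM renaming const_small → csm
open Pool.Agent.H707.NB (sp sp_sum variance Od)
open LG (dlt)

lemma sp_add (n a b : ℕ) : sp n (a + b) = sp n a + sp (n + a) b := by
  unfold sp
  rw [show n + (a + b) = n + a + b by ring]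
  ring

lemma sp_zero (n : ℕ) : sp n 0 = 0 := by
  unfold sp
  simp

/-- sums of squares -/
noncomputable def VV (k N : ℕ) : ℝ := ∑ n ∈ Finset.Icc 1 N, (sp n k - k) ^ 2

/-- individual gaps -/
lemma dlt_small (hRH : RiemannHypothesis) {ε : ℝ} (hε : 0 < ε) : ∀ᶠ n : ℕ in atTop, (dlt n - 1) ^ 2 ≤ ε * n := by
  obtain ⟨K0, hK0⟩ := tail_dlt hRH (ε := ε / 4) (by positivity)
  obtain ⟨n0, hn0⟩ := dlt_nonneg
  filter_upwards [csm (2 * (K0 : ℝ) ^ 2 + 2) (ε / 2) (by positivity), eventually_ge_atTop n0, eventually_ge_atTop 1] with n h1 h2 h3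
  have h4 := hK0 K0 le_rfl n h3
  have h5 : tl K0 (dlt n) ≤ ∑ m ∈ Finset.Icc 1 n, tl K0 (dlt m) :=
    Finset.single_le_sum (f := fun m => tl K0 (dlt m)) (fun m _ => tl_nonneg K0 _) (Finset.mem_Icc.2 ⟨h3, le_rfl⟩)
  have h6 : (dlt n) ^ 2 ≤ (K0 : ℝ) ^ 2 + tl K0 (dlt n) := by
    unfold tl
    split_ifs with h
    · have : (0 : ℝ) ≤ (K0 : ℝ) ^ 2 := by positivity
      linarith
    · rw [not_le] at h
      have := pow_le_pow_left₀ (hn0 n h2) h.le 2
      linarith
  nlinarith [sq_nonneg (dlt n + 1)]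

lemma T_small (hRH : RiemannHypothesis) (k : ℕ) {ε : ℝ} (hε : 0 < ε) : ∀ᶠ n : ℕ in atTop, (sp n k - k) ^ 2 ≤ ε * n := by
  rcases Nat.eq_zero_or_pos k with hk | hk
  · filter_upwards with n
    rw [hk, sp_zero]
    simp
    positivity
  · have hk0 : (0 : ℝ) < k := by exact_mod_cast hk
    have h1 : ∀ j ∈ Finset.range k, ∀ᶠ n : ℕ in atTop, (dlt (n + j) - 1) ^ 2 ≤ ε / k ^ 2 * n := by
      intro j _
      have hlim : Tendsto (fun N : ℕ => N + j) atTop atTop := tendsto_add_atTop_nat j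
      filter_upwards [hlim.eventually (dlt_small hRH (ε := ε / (2 * k ^ 2)) (by positivity)), eventually_ge_atTop j] with n h2 h3
      have h4 : (j : ℝ) ≤ n := by exact_mod_cast h3
      push_cast at h2
      have h5 : ε / (2 * k ^ 2) * ((n : ℝ) + j) ≤ ε / (2 * k ^ 2) * (2 * n) := mul_le_mul_of_nonneg_left (by linarith) (by positivity)
      have h6 : ε / (2 * (k : ℝ) ^ 2) * (2 * n) = ε / k ^ 2 * n := by field_simp
      linarith
    filter_upwards [(Filter.eventually_all_finset _).2 h1] with n h2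
    have e1 : sp n k - k = ∑ j ∈ Finset.range k, (dlt (n + j) - 1) := by
      rw [Finset.sum_sub_distrib, sp_sum]
      simp
    have h3 := sq_sum_le_card_mul_sum_sq (s := Finset.range k) (f := fun j => dlt (n + j) - 1)
    rw [← e1, Finset.card_range] at h3
    have h4 := Finset.sum_le_sum h2
    rw [Finset.sum_const, Finset.card_range, nsmul_eq_mul] at h4
    calc _ ≤ (k : ℝ) * ∑ j ∈ Finset.range k, (dlt (n + j) - 1) ^ 2 := h3
      _ ≤ k * (k * (ε / k ^ 2 * n)) := mul_le_mul_of_nonneg_left h4 hk0.le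
      _ = ε * n := by field_simp

/-- shifting the window -/
lemma VV_shift (hRH : RiemannHypothesis) (k a : ℕ) {ε : ℝ} (hε : 0 < ε) : ∀ᶠ N : ℕ in atTop,
    |∑ n ∈ Finset.Icc 1 N, (sp (n + a) k - k) ^ 2 - VV k N| ≤ ε * N := by
  induction a generalizing ε with
  | zero =>
    filter_upwards with N
    unfold VV
    simp
    positivity
  | succ a ih =>
    have hlim : Tendsto (fun N : ℕ => N + (a + 1)) atTop atTop := tendsto_add_atTop_nat (a + 1)
    filter_upwards [ih (half_pos hε), hlim.eventually (T_small hRH k (ε := ε / 8) (by positivity)),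
      csm ((sp (a + 1) k - k) ^ 2) (ε / 4) (by positivity), eventually_ge_atTop (a + 1)] with N h1 h2 h3 h4
    have e1 : ∑ n ∈ Finset.Icc 1 N, (sp (n + (a + 1)) k - k) ^ 2 = ∑ n ∈ Finset.Icc 1 N, (sp (n + a) k - k) ^ 2 +
        (sp (N + (a + 1)) k - k) ^ 2 - (sp (a + 1) k - k) ^ 2 := by
      clear h1 h2 h3 h4
      induction N with
      | zero => simp
      | succ N ihN =>
        rw [Finset.sum_Icc_succ_top (by omega), ihN, Finset.sum_Icc_succ_top (by omega), show N + 1 + a = N + (a + 1) by ring]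
        ring
    rw [e1]
    have h5 : ((a : ℝ) + 1) ≤ N := by exact_mod_cast h4
    push_cast at h2
    have h6 : ε / 8 * ((N : ℝ) + (a + 1)) ≤ ε / 8 * (2 * N) := mul_le_mul_of_nonneg_left (by linarith) (by positivity)
    have h7 := sq_nonneg (sp (N + (a + 1)) k - k)
    have h8 := sq_nonneg (sp (a + 1) k - k)
    rw [abs_le] at h1 ⊢
    constructor <;> linarith [h1.1, h1.2]

/-- polarisation -/
lemma polar (n p q s : ℕ) : 2 * ((sp n p - p) * (sp (n + (p + q)) s - s)) =
    (sp n (p + q + s) - ((p + q + s : ℕ) : ℝ)) ^ 2 - (sp n (p + q) - ((p + q : ℕ) : ℝ)) ^ 2 -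
    (sp (n + p) (q + s) - ((q + s : ℕ) : ℝ)) ^ 2 + (sp (n + p) q - (q : ℝ)) ^ 2 := by
  have e1 : sp n (p + q + s) = sp n p + sp (n + p) q + sp (n + (p + q)) s := by
    rw [sp_add, sp_add]
  have e2 : sp n (p + q) = sp n p + sp (n + p) q := sp_add n p q
  have e3 : sp (n + p) (q + s) = sp (n + p) q + sp (n + (p + q)) s := by
    rw [sp_add, show n + p + q = n + (p + q) by ring]
  rw [e1, e2, e3]
  push_cast
  ring

/-- covariances of blocks -/
noncomputable def CV (p q s N : ℕ) : ℝ := ∑ n ∈ Finset.Icc 1 N, (sp n p - p) * (sp (n + (p + q)) s - s)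

lemma CV_eq (hRH : RiemannHypothesis) (p q s : ℕ) {ε : ℝ} (hε : 0 < ε) : ∀ᶠ N : ℕ in atTop,
    |2 * CV p q s N - (VV (p + q + s) N - VV (p + q) N - VV (q + s) N + VV q N)| ≤ ε * N := by
  filter_upwards [VV_shift hRH (q + s) p (half_pos hε), VV_shift hRH q p (half_pos hε)] with N h1 h2
  have e : 2 * CV p q s N = VV (p + q + s) N - VV (p + q) N - ∑ n ∈ Finset.Icc 1 N, (sp (n + p) (q + s) - ((q + s : ℕ) : ℝ)) ^ 2 +
      ∑ n ∈ Finset.Icc 1 N, (sp (n + p) q - (q : ℝ)) ^ 2 := by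
    unfold CV VV
    rw [Finset.mul_sum, ← Finset.sum_sub_distrib, ← Finset.sum_sub_distrib, ← Finset.sum_add_distrib]
    exact Finset.sum_congr rfl fun n _ => polar n p q s
  rw [e]
  rw [abs_le] at h1 h2 ⊢
  constructor <;> linarith [h1.1, h1.2, h2.1, h2.2]

/-- the variance in terms of the logarithm -/
lemma VV_log (hRH : RiemannHypothesis) {ε : ℝ} (hε : 0 < ε) : ∀ᶠ r : ℕ in atTop, ∀ᶠ N : ℕ in atTop,
    |VV r N - Real.log r / Real.pi ^ 2 * N| ≤ ε * Real.log r * N := by
  have hpi := Real.pi_pos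
  filter_upwards [var_sp hRH hε, big_r 1] with r h1 ⟨_, _, hl1, _, _, _, hsq⟩
  filter_upwards [h1] with N h2
  rw [hsq] at h2
  refine h2.trans ?_
  have hN0 : (0 : ℝ) ≤ N := Nat.cast_nonneg N
  apply mul_le_mul_of_nonneg_right _ hN0
  apply mul_le_mul_of_nonneg_left _ hε.le
  apply div_le_self (by linarith)
  nlinarith [Real.pi_gt_three]

lemma VV_mul (hRH : RiemannHypothesis) {a : ℕ} (ha : 1 ≤ a) {ε : ℝ} (hε : 0 < ε) : ∀ᶠ r : ℕ in atTop, ∀ᶠ N : ℕ in atTop,
    |VV (a * r) N - Real.log r / Real.pi ^ 2 * N| ≤ ε * Real.log r * N := by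
  have hpi := Real.pi_pos
  have hpi3 := Real.pi_gt_three
  have hlim : Tendsto (fun r : ℕ => a * r) atTop atTop := Filter.tendsto_id.const_mul_atTop' (by omega : 0 < a)
  have hlim' : Tendsto (fun r : ℕ => (r : ℝ)) atTop atTop := tendsto_natCast_atTop_atTop
  have ha0 : (0 : ℝ) < a := by exact_mod_cast ha
  filter_upwards [hlim.eventually (VV_log hRH (ε := ε / 4) (by positivity)),
    hlim'.eventually (Real.tendsto_log_atTop.eventually_ge_atTop (4 / ε * Real.log a)),
    hlim'.eventually (Real.tendsto_log_atTop.eventually_ge_atTop (Real.log a)), eventually_ge_atTop 3] with r h1 h2 h3 h4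
  filter_upwards [h1] with N h5
  have hN0 : (0 : ℝ) ≤ N := Nat.cast_nonneg N
  have hr0 : (0 : ℝ) < r := by
    have : 0 < r := by omega
    exact_mod_cast this
  have hla : 0 ≤ Real.log a := Real.log_nonneg (by exact_mod_cast ha)
  have e : Real.log ((a * r : ℕ) : ℝ) = Real.log a + Real.log r := by
    push_cast
    exact Real.log_mul ha0.ne' hr0.ne'
  rw [e] at h5
  have h6 : Real.log a ≤ ε / 4 * Real.log r := by
    rw [div_mul_eq_mul_div, div_le_iff₀ hε] at h2
    linarith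
  have h7 : Real.log a / Real.pi ^ 2 * N ≤ ε / 4 * Real.log r * N := by
    apply mul_le_mul_of_nonneg_right _ hN0
    refine (div_le_self hla ?_).trans h6
    nlinarith
  have h8 : ε / 4 * (Real.log a + Real.log r) * N ≤ ε / 4 * (2 * Real.log r) * N := by
    apply mul_le_mul_of_nonneg_right _ hN0
    apply mul_le_mul_of_nonneg_left _ (by positivity)
    linarith
  have h9 : 0 ≤ Real.log a / Real.pi ^ 2 * N := by positivity
  have e2 : (Real.log a + Real.log r) / Real.pi ^ 2 * N = Real.log a / Real.pi ^ 2 * N + Real.log r / Real.pi ^ 2 * N := by ring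
  rw [e2] at h5
  have h10 : ε * Real.log r * N = ε / 4 * Real.log r * N + ε / 4 * (2 * Real.log r) * N + ε / 4 * Real.log r * N := by ring
  have h11 : 0 ≤ ε / 4 * Real.log r * N := h9.trans h7
  rw [abs_le] at h5 ⊢
  constructor <;> linarith [h5.1, h5.2]

/-- covariance of blocks of length `r` at distance `j r` -/
theorem cov_blocks (hRH : RiemannHypothesis) {j : ℕ} (hj : 1 ≤ j) {ε : ℝ} (hε : 0 < ε) : ∀ᶠ r : ℕ in atTop, ∀ᶠ N : ℕ in atTop,
    |∑ n ∈ Finset.Icc 1 N, (sp n r - r) * (sp (n + j * r) r - r) + (if j = 1 then Real.log r / (2 * Real.pi ^ 2) else 0) * N| ≤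
      ε * Real.log r * N := by
  have hpi := Real.pi_pos
  have hlim' : Tendsto (fun r : ℕ => (r : ℝ)) atTop atTop := tendsto_natCast_atTop_atTop
  obtain ⟨q, rfl⟩ : ∃ q, j = q + 1 := ⟨j - 1, by omega⟩
  have hq : ∀ᶠ r : ℕ in atTop, ∀ᶠ N : ℕ in atTop,
      |VV (q * r) N - (if q + 1 = 1 then 0 else Real.log r / Real.pi ^ 2) * N| ≤ ε / 4 * Real.log r * N := by
    rcases Nat.eq_zero_or_pos q with h0 | h0
    · filter_upwards [hlim'.eventually (Real.tendsto_log_atTop.eventually_ge_atTop 1)] with r h1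
      filter_upwards with N
      have hN0 : (0 : ℝ) ≤ N := Nat.cast_nonneg N
      rw [h0]
      unfold VV
      simp [sp_zero]
      positivity
    · have := VV_mul hRH (a := q) (by omega) (ε := ε / 4) (by positivity)
      filter_upwards [this] with r h1
      filter_upwards [h1] with N h2
      rw [if_neg (by omega)]
      exact h2
  filter_upwards [hq, VV_mul hRH (a := q + 2) (by omega) (ε := ε / 4) (by positivity),
    VV_mul hRH (a := q + 1) (by omega) (ε := ε / 4) (by positivity),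
    hlim'.eventually (Real.tendsto_log_atTop.eventually_ge_atTop 1)] with r h1 h2 h3 h4
  filter_upwards [h1, h2, h3, CV_eq hRH r (q * r) r (ε := ε) hε] with N k1 k2 k3 k4
  have hN0 : (0 : ℝ) ≤ N := Nat.cast_nonneg N
  have e1 : ∑ n ∈ Finset.Icc 1 N, (sp n r - r) * (sp (n + (q + 1) * r) r - r) = CV r (q * r) r N := by
    unfold CV
    rw [show (q + 1) * r = r + q * r by ring]
  rw [e1]
  rw [show r + q * r + r = (q + 2) * r by ring, show r + q * r = (q + 1) * r by ring, show q * r + r = (q + 1) * r by ring] at k4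
  have h5 : ε * N ≤ ε * Real.log r * N := by
    apply mul_le_mul_of_nonneg_right _ hN0
    nlinarith
  have e2 : (if q + 1 = 1 then Real.log r / (2 * Real.pi ^ 2) else 0) * (N : ℝ) =
      (Real.log r / Real.pi ^ 2 * N - (if q + 1 = 1 then 0 else Real.log r / Real.pi ^ 2) * N) / 2 := by
    split_ifs
    · rw [zero_mul, sub_zero]
      field_simp
    · rw [sub_self, zero_mul, zero_div]
  rw [e2]
  rw [abs_le] at k1 k2 k3 k4 ⊢
  constructor <;> linarith [k1.1, k1.2, k2.1, k2.2, k3.1, k3.2, k4.1, k4.2]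

/-- covariances of gaps -/
noncomputable def cg (k N : ℕ) : ℝ := ∑ n ∈ Finset.Icc 1 N, (dlt n - 1) * (dlt (n + k) - 1)

lemma cg_eq (hRH : RiemannHypothesis) (k : ℕ) {ε : ℝ} (hε : 0 < ε) : ∀ᶠ N : ℕ in atTop,
    |2 * cg (k + 1) N - (VV (k + 2) N - 2 * VV (k + 1) N + VV k N)| ≤ ε * N := by
  filter_upwards [CV_eq hRH 1 k 1 hε] with N h
  have e : CV 1 k 1 N = cg (k + 1) N := by
    unfold CV cg
    apply Finset.sum_congr rfl
    intro n _
    rw [← sp_sum, ← sp_sum, Finset.sum_range_one, Finset.sum_range_one]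
    push_cast
    rw [add_zero, add_zero, show n + (1 + k) = n + (k + 1) by ring]
  rw [e, show 1 + k + 1 = k + 2 by ring, show 1 + k = k + 1 by ring] at h
  have : VV (k + 2) N - VV (k + 1) N - VV (k + 1) N + VV k N = VV (k + 2) N - 2 * VV (k + 1) N + VV k N := by ring
  rwa [this] at h

/-- summation by parts -/
lemma parts (v : ℕ → ℝ) (h0 : v 0 = 0) (K : ℕ) (c : ℝ) :
    ∑ k ∈ Finset.range K, (c - (k + 1)) * (k + 1) * (v (k + 2) - 2 * v (k + 1) + v k) =
      (c - K) * K * v (K + 1) - (c - (K + 1)) * (K + 1) * v K - 2 * ∑ k ∈ Finset.range (K + 1), v k + 0 := by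
  induction K with
  | zero => simp [h0]
  | succ K ih =>
    rw [Finset.sum_range_succ, ih, Finset.sum_range_succ _ (K + 1)]
    push_cast
    ring

end Pool.Agent.Helper77.RS
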