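import Pool.Agent.Helper77.RS.Dy5

/-! Covariances of all pairs of blocks. -/

open Filter Topology Set MeasureTheory ProbabilityTheory

namespace Pool.Agent.Helper77.RS

open SG (ord NZ)
open Pool.Agent.H707.NB (sp sp_sum)
open LG (dlt)

/-- the centred sums -/
noncomputable def XX (r t n : ℕ) : ℝ := sp n (t * r) - t * r

lemma pair_aux (hRH : RiemannHypothesis) {s t : ℕ} (hst : s ≤ t) {ε : ℝ} (hε : 0 < ε) : ∀ᶠ r : ℕ in atTop, ∀ᶠ N : ℕ in atTop,
    |∑ n ∈ Finset.Icc 1 N, (XX r s n - XX r t n) ^ 2 - (if s = t then 0 else Real.log r / Real.pi ^ 2) * N| ≤ ε * Real.log r * N := by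
  have hlim' : Tendsto (fun r : ℕ => (r : ℝ)) atTop atTop := tendsto_natCast_atTop_atTop
  rcases hst.eq_or_lt with h | h
  · rw [← h]
    filter_upwards [hlim'.eventually (Real.tendsto_log_atTop.eventually_ge_atTop 1)] with r h1
    filter_upwards with N
    simp
    positivity
  · filter_upwards [VV_mul hRH (a := t - s) (by omega) (half_pos hε),
      hlim'.eventually (Real.tendsto_log_atTop.eventually_ge_atTop 1)] with r h1 h2
    filter_upwards [h1, VV_shift hRH ((t - s) * r) (s * r) (ε := ε / 2) (by positivity)] with N h3 h4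
    rw [if_neg (by omega)]
    have hN0 : (0 : ℝ) ≤ N := Nat.cast_nonneg N
    have e : ∑ n ∈ Finset.Icc 1 N, (XX r s n - XX r t n) ^ 2 =
        ∑ n ∈ Finset.Icc 1 N, (sp (n + s * r) ((t - s) * r) - (((t - s) * r : ℕ) : ℝ)) ^ 2 := by
      apply Finset.sum_congr rfl
      intro n _
      have h5 : sp n (t * r) = sp n (s * r) + sp (n + s * r) ((t - s) * r) := by
        rw [← sp_add, ← add_mul, Nat.add_sub_cancel' hst]
      unfold XX
      rw [h5, Nat.cast_mul, Nat.cast_sub hst]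
      ring
    rw [e]
    have h5 : ε / 2 * N ≤ ε / 2 * Real.log r * N := by
      apply mul_le_mul_of_nonneg_right _ hN0
      nlinarith
    rw [abs_le] at h3 h4 ⊢
    constructor <;> linarith [h3.1, h3.2, h4.1, h4.2]

lemma pair (hRH : RiemannHypothesis) (s t : ℕ) {ε : ℝ} (hε : 0 < ε) : ∀ᶠ r : ℕ in atTop, ∀ᶠ N : ℕ in atTop,
    |∑ n ∈ Finset.Icc 1 N, (XX r s n - XX r t n) ^ 2 - (if s = t then 0 else Real.log r / Real.pi ^ 2) * N| ≤ ε * Real.log r * N := by
  rcases le_total s t with h | h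
  · exact pair_aux hRH h hε
  · have := pair_aux hRH h hε
    simp_rw [eq_comm (a := t) (b := s)] at this
    filter_upwards [this] with r h1
    filter_upwards [h1] with N h2
    have e : ∑ n ∈ Finset.Icc 1 N, (XX r s n - XX r t n) ^ 2 = ∑ n ∈ Finset.Icc 1 N, (XX r t n - XX r s n) ^ 2 := by
      apply Finset.sum_congr rfl
      intro n _
      ring
    rw [e]
    exact h2

/-- the limiting covariance -/
noncomputable def kap (a b c d : ℕ) : ℝ :=
  ((if a = c then 1 else 0) + (if b = d then 1 else 0) - (if a = d then 1 else 0) - (if b = c then 1 else 0)) / 2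

theorem cov_all (hRH : RiemannHypothesis) (a b c d : ℕ) {ε : ℝ} (hε : 0 < ε) : ∀ᶠ r : ℕ in atTop, ∀ᶠ N : ℕ in atTop,
    |∑ n ∈ Finset.Icc 1 N, (XX r b n - XX r a n) * (XX r d n - XX r c n) - kap a b c d * (Real.log r / Real.pi ^ 2) * N| ≤
      ε * Real.log r * N := by
  filter_upwards [pair hRH b c (half_pos hε), pair hRH a d (half_pos hε), pair hRH b d (half_pos hε), pair hRH a c (half_pos hε)] with
    r h1 h2 h3 h4
  filter_upwards [h1, h2, h3, h4] with N k1 k2 k3 k4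
  have e : ∑ n ∈ Finset.Icc 1 N, (XX r b n - XX r a n) * (XX r d n - XX r c n) =
      ((∑ n ∈ Finset.Icc 1 N, (XX r b n - XX r c n) ^ 2) + (∑ n ∈ Finset.Icc 1 N, (XX r a n - XX r d n) ^ 2) -
        (∑ n ∈ Finset.Icc 1 N, (XX r b n - XX r d n) ^ 2) - (∑ n ∈ Finset.Icc 1 N, (XX r a n - XX r c n) ^ 2)) / 2 := by
    rw [← Finset.sum_add_distrib, ← Finset.sum_sub_distrib, ← Finset.sum_sub_distrib, Finset.sum_div]
    apply Finset.sum_congr rfl
    intro n _
    ring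
  have ei : ∀ (p : Prop) [Decidable p], (if p then 0 else Real.log r / Real.pi ^ 2) * (N : ℝ) =
      (1 - (if p then 1 else 0)) * (Real.log r / Real.pi ^ 2 * N) := by
    intro p _
    split_ifs <;> ring
  rw [ei] at k1 k2 k3 k4
  rw [e]
  unfold kap
  set L := Real.log r / Real.pi ^ 2 * (N : ℝ) with hL
  obtain ⟨p1, hp1⟩ : ∃ p : ℝ, p = (if b = c then 1 else 0) := ⟨_, rfl⟩
  obtain ⟨p2, hp2⟩ : ∃ p : ℝ, p = (if a = d then 1 else 0) := ⟨_, rfl⟩
  obtain ⟨p3, hp3⟩ : ∃ p : ℝ, p = (if b = d then 1 else 0) := ⟨_, rfl⟩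
  obtain ⟨p4, hp4⟩ : ∃ p : ℝ, p = (if a = c then 1 else 0) := ⟨_, rfl⟩
  rw [← hp1] at k1 ⊢
  rw [← hp2] at k2 ⊢
  rw [← hp3] at k3 ⊢
  rw [← hp4] at k4 ⊢
  have e2 : (p4 + p3 - p2 - p1) / 2 * (Real.log r / Real.pi ^ 2) * (N : ℝ) = (p4 * L + p3 * L - p2 * L - p1 * L) / 2 := by
    rw [hL]; ring
  rw [e2]
  rw [sub_mul, one_mul] at k1 k2 k3 k4
  rw [abs_le] at k1 k2 k3 k4 ⊢
  constructor <;> linarith [k1.1, k1.2, k2.1, k2.2, k3.1, k3.2, k4.1, k4.2]

end Pool.Agent.Helper77.RS
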