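import Pool.Agent.Helper77.RS.Avg

/-! The fourth moment of the error is bounded, uniformly in the length of the window. -/

open Complex Filter Topology Set MeasureTheory

namespace Pool.Agent.Helper77.RS

open SP (zs ps QW ell W1 RHs ZZ mu bt ppf)
open Pool.Agent.TH800.LD (ZZf)
open Pool.Agent.H707.NV (cn cn_log cn_meas cn_nonneg hl)

lemma const_small (C0 C3 x c : ℝ) (hC0 : 0 ≤ C0) (hC3 : 0 ≤ C3) (hx : 0 < x) (hc : 0 < c) :
    ∀ᶠ T : ℝ in atTop, C0 * (aa x T * (1 + Real.log T * Real.exp (-(c * Real.log T) ^ 2 / 4)) +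
      Real.log T * aa x T * ((aa x T) ^ 2 + 1 / (c * Real.log T) ^ 2 + 1 / Real.log T) +
        (aa x T) ^ 2 * (C3 * Real.log (2 * T))) ≤ 1 := by
  have hpi := Real.pi_pos
  set y := Real.pi * x with hy
  have hy0 : 0 < y := by positivity
  set M : ℝ := y * (1 + 4 / c ^ 2) + y * (y ^ 2 + 1 / c ^ 2 + 1) + 2 * C3 * y ^ 2 with hM
  have hM0 : 0 ≤ M := by positivity
  filter_upwards [Real.tendsto_log_atTop.eventually_ge_atTop (C0 * M + 1), eventually_ge_atTop 1] with T hL hT1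
  have hCM : 0 ≤ C0 * M := by positivity
  have hL1 : 1 ≤ Real.log T := by linarith
  have hL2 : Real.log (2 * T) ≤ 2 * Real.log T := by
    rw [Real.log_mul (by norm_num) (by linarith)]
    have := Real.log_two_lt_d9
    linarith
  set L := Real.log T with hLdef
  have hL0 : 0 < L := by linarith
  have ha : aa x T = y / L := by unfold aa; rw [hy, hLdef]
  rw [ha]
  have h1 : L * Real.exp (-(c * L) ^ 2 / 4) ≤ 4 / c ^ 2 := by
    have h2 := Real.add_one_le_exp ((c * L) ^ 2 / 4)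
    have h3 : Real.exp (-(c * L) ^ 2 / 4) ≤ 4 / (c * L) ^ 2 := by
      rw [neg_div, Real.exp_neg, inv_le_comm₀ (Real.exp_pos _) (by positivity), inv_div]
      linarith
    calc L * Real.exp (-(c * L) ^ 2 / 4) ≤ L * (4 / (c * L) ^ 2) := mul_le_mul_of_nonneg_left h3 hL0.le
      _ = 4 / c ^ 2 / L := by field_simp
      _ ≤ 4 / c ^ 2 := div_le_self (by positivity) hL1
  have h4 : y / L * (1 + L * Real.exp (-(c * L) ^ 2 / 4)) ≤ y * (1 + 4 / c ^ 2) / L := by
    calc _ ≤ y / L * (1 + 4 / c ^ 2) := by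
          apply mul_le_mul_of_nonneg_left _ (by positivity)
          linarith
      _ = _ := by ring
  have hLL : 1 / L ^ 2 ≤ 1 / L := by
    apply one_div_le_one_div_of_le hL0
    nlinarith
  have h5 : L * (y / L) * ((y / L) ^ 2 + 1 / (c * L) ^ 2 + 1 / L) ≤ y * (y ^ 2 + 1 / c ^ 2 + 1) / L := by
    have e1 : L * (y / L) = y := by field_simp
    have e2 : (y / L) ^ 2 = y ^ 2 * (1 / L ^ 2) := by field_simp
    have e3 : 1 / (c * L) ^ 2 = 1 / c ^ 2 * (1 / L ^ 2) := by field_simp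
    rw [e1, e2, e3]
    calc y * (y ^ 2 * (1 / L ^ 2) + 1 / c ^ 2 * (1 / L ^ 2) + 1 / L) ≤
        y * (y ^ 2 * (1 / L) + 1 / c ^ 2 * (1 / L) + 1 / L) := by gcongr
      _ = _ := by ring
  have h6 : (y / L) ^ 2 * (C3 * Real.log (2 * T)) ≤ 2 * C3 * y ^ 2 / L := by
    calc (y / L) ^ 2 * (C3 * Real.log (2 * T)) ≤ (y / L) ^ 2 * (C3 * (2 * L)) := by gcongr
      _ = _ := by field_simp
  have h7 : C0 * (y * (1 + 4 / c ^ 2) / L + y * (y ^ 2 + 1 / c ^ 2 + 1) / L + 2 * C3 * y ^ 2 / L) = C0 * M / L := by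
    rw [hM]; ring
  calc _ ≤ C0 * (y * (1 + 4 / c ^ 2) / L + y * (y ^ 2 + 1 / c ^ 2 + 1) / L + 2 * C3 * y ^ 2 / L) := by gcongr
    _ = C0 * M / L := h7
    _ ≤ 1 := by
      rw [div_le_one hL0]
      linarith

/-- upper endpoint -/
noncomputable def U1 (T : ℝ) : ℝ := T + Real.log T
noncomputable def U2 (T : ℝ) : ℝ := 2 * T - Real.log T - 1

/-- elementary facts for large `T` -/
lemma basics (x : ℝ) (hx : 0 < x) (T0 : ℝ) : ∀ᶠ T : ℝ in atTop, T0 ≤ T ∧ 10 ≤ T ∧ 1 ≤ Real.log T ∧ 0 < aa x T ∧ aa x T ≤ 1 / 2 ∧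
    U1 T ≤ U2 T ∧ 0 < Real.log T ∧ 3 * Real.log T + 1 ≤ T / 2 := by
  have hpi := Real.pi_pos
  have h0 : ∀ᶠ T : ℝ in atTop, Real.log T ≤ 1 / 12 * T := by
    have := Real.isLittleO_log_id_atTop.bound (show (0 : ℝ) < 1 / 12 by norm_num)
    filter_upwards [this, eventually_ge_atTop 1] with T h1 h2
    rw [Real.norm_eq_abs, Real.norm_eq_abs, id, abs_of_nonneg (Real.log_nonneg h2), abs_of_nonneg (by linarith)] at h1
    exact h1
  filter_upwards [h0, eventually_ge_atTop T0, eventually_ge_atTop 10,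
    Real.tendsto_log_atTop.eventually_ge_atTop (2 * (Real.pi * x) + 1)] with T h1 h2 h3 h4
  have hy : 0 < Real.pi * x := by positivity
  have hL : 1 ≤ Real.log T := by linarith
  refine ⟨h2, h3, hL, by unfold aa; positivity, ?_, ?_, by linarith, by linarith⟩
  · unfold aa
    rw [div_le_iff₀ (by linarith)]
    linarith
  · unfold U1 U2
    linarith

theorem err_mom (hRH : RiemannHypothesis) {k : ℕ} (hk : 8 ≤ k) : ∃ C : ℝ, 0 < C ∧ ∀ x : ℝ, 0 < x →
    ∀ᶠ T : ℝ in atTop, ∫ t in (U1 T)..(U2 T), EE x k T t ^ 4 ≤ C * T := by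
  obtain ⟨C0, T0, hC0, hT0, h0⟩ := pointwise (Pool.Agent.H707.SM.rhs_of hRH)
  obtain ⟨C3, hC3, h3⟩ := cn_log
  obtain ⟨C4, T4, hC4, hT4, h4⟩ := far_mom (Pool.Agent.H707.SM.rhs_of hRH) (κ := 1 / 4) (by norm_num)
    (by norm_num) (show 2 ≤ k by omega)
  obtain ⟨C5, hC5, h5⟩ := squares_mom
  refine ⟨64 * (1 + 2 * 114 ^ 4 * C4 + C5), by positivity, fun x hx => ?_⟩
  have hk0 : (8 : ℝ) ≤ k := by exact_mod_cast hk
  have hc : (0 : ℝ) < 3 / (8 * k) := by positivity
  filter_upwards [basics x hx (max T0 T4), const_small C0 C3 x (3 / (8 * k)) (by linarith) hC3.le hx hc] with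
    T ⟨hTT, hT10, hL1, ha0, ha1, hU, hL0, hL3⟩ hcs
  have hT : 1 ≤ T := by linarith
  have hTT0 : T0 ≤ T := (le_max_left _ _).trans hTT
  have hTT4 : T4 ≤ T := (le_max_right _ _).trans hTT
  set a := aa x T with ha
  set l := ll k T with hl'
  have hle : l = 3 / (8 * k) * Real.log T := by rw [hl', ll_eq]; ring
  have hl0 : 0 < l := by rw [hle]; positivity
  have hlL : 8 * l ≤ Real.log T := by
    rw [hle]
    have : 8 * (3 / (8 * (k : ℝ)) * Real.log T) = 3 / k * Real.log T := by field_simp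
    rw [this]
    have : 3 / (k : ℝ) ≤ 1 := by rw [div_le_one (by linarith)]; linarith
    nlinarith
  have hhl : hl x T = 2 * a := by
    rw [ha]; unfold hl aa; ring
  have hLa : Real.log T * a / Real.pi = x := by
    rw [ha]; unfold aa
    have := Real.pi_ne_zero
    field_simp
  rw [← hle] at hcs
  set f1 : ℝ → ℝ := fun t => FS hT a l (t + a) with hf1
  set f2 : ℝ → ℝ := fun t => FS hT (-a) l (t + a) with hf2
  set f3 : ℝ → ℝ := fun t => ‖PP (Pr l) (c2 T a l) (2 * (t + a))‖ with hf3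
  have hf1c : Continuous f1 := (FS_cont hT a l).comp (by fun_prop)
  have hf2c : Continuous f2 := (FS_cont hT (-a) l).comp (by fun_prop)
  have hf3c : Continuous f3 := ((PP_cont _ _).comp (by fun_prop)).norm
  have hf10 : ∀ t, 0 ≤ f1 t := fun t => FS_nonneg hT _ _ _
  have hf20 : ∀ t, 0 ≤ f2 t := fun t => FS_nonneg hT _ _ _
  have hf30 : ∀ t, 0 ≤ f3 t := fun t => norm_nonneg _
  have hpt : ∀ t ∈ Icc (U1 T) (U2 T), |EE x k T t| ≤ 1 + 114 * f1 t + 114 * f2 t + f3 t := by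
    intro t ht
    unfold U1 U2 at ht
    have h6 := h0 T hTT0 hT (t + a) (by linarith [ht.1]) (by linarith [ht.2]) a l ha0 (by linarith) hl0 (by linarith)
    rw [hLa, PP_shift, add_sub_cancel_right, ← hhl] at h6
    have h7 := h3 T (by linarith) (hl x T) (by rw [hhl]; linarith) t ⟨by linarith [ht.1], by linarith [ht.2]⟩
    have h8 : C0 * (a * (1 + Real.log T * Real.exp (-l ^ 2 / 4)) + Real.log T * a * (a ^ 2 + 1 / l ^ 2 + 1 / Real.log T) +
        a ^ 2 * cn (hl x T) t) ≤ 1 := by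
      refine le_trans ?_ hcs
      apply mul_le_mul_of_nonneg_left _ (by linarith)
      apply add_le_add_right
      exact mul_le_mul_of_nonneg_left h7 (sq_nonneg _)
    have h9 : EE x k T t = cn (hl x T) t - x + (PP (Pr (2 * l)) (fun p => c1 T a l p * ee p a) t).re := rfl
    rw [h9]
    refine h6.trans ?_
    linarith
  have hpt4 : ∀ t ∈ Icc (U1 T) (U2 T), EE x k T t ^ 4 ≤
      64 * (1 + 114 ^ 4 * f1 t ^ 4 + 114 ^ 4 * f2 t ^ 4 + f3 t ^ 4) := by
    intro t ht
    have h6 := hpt t ht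
    have h7 : EE x k T t ^ 4 = |EE x k T t| ^ 4 := by
      rw [show (4 : ℕ) = 2 * 2 by norm_num, pow_mul, pow_mul, sq_abs]
    rw [h7]
    refine (pow_le_pow_left₀ (abs_nonneg _) h6 4).trans ?_
    have g1 := hf10 t
    have g2 := hf20 t
    have g3 := hf30 t
    refine (pow4 (by norm_num) (by positivity) (by positivity) g3).trans (le_of_eq ?_)
    ring
  have hgc : Continuous fun t => 64 * (1 + 114 ^ 4 * f1 t ^ 4 + 114 ^ 4 * f2 t ^ 4 + f3 t ^ 4) := by fun_prop
  have hEi : IntervalIntegrable (fun t => EE x k T t ^ 4) volume (U1 T) (U2 T) := by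
    refine (hgc.intervalIntegrable (U1 T) (U2 T)).mono_fun' ((EE_meas x k T).pow_const 4).aestronglyMeasurable ?_
    rw [uIoc_of_le hU]
    refine (ae_restrict_iff' measurableSet_Ioc).2 (ae_of_all _ fun t ht => ?_)
    change ‖EE x k T t ^ 4‖ ≤ _
    rw [Real.norm_eq_abs, abs_of_nonneg (by positivity)]
    exact hpt4 t ⟨ht.1.le, ht.2⟩
  have i1 : ∫ t in (U1 T)..(U2 T), f1 t ^ 4 ≤ C4 * T := by
    rw [hf1, intervalIntegral.integral_comp_add_right (fun t => FS hT a l t ^ 4)]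
    unfold U1 U2 at *
    exact h4 T hTT4 hT a _ _ (by linarith) (by linarith) (by linarith)
  have i2 : ∫ t in (U1 T)..(U2 T), f2 t ^ 4 ≤ C4 * T := by
    rw [hf2, intervalIntegral.integral_comp_add_right (fun t => FS hT (-a) l t ^ 4)]
    unfold U1 U2 at *
    exact h4 T hTT4 hT (-a) _ _ (by linarith) (by linarith) (by linarith)
  have i3 : ∫ t in (U1 T)..(U2 T), f3 t ^ 4 ≤ C5 * T := by
    rw [hf3, intervalIntegral.integral_comp_add_right (fun t => ‖PP (Pr l) (c2 T a l) (2 * t)‖ ^ 4)]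
    unfold U1 U2 at *
    exact h5 T a l _ _ hT ha0.le (by linarith) hl0.le hlL (by linarith) (by linarith)
  calc ∫ t in (U1 T)..(U2 T), EE x k T t ^ 4 ≤
      ∫ t in (U1 T)..(U2 T), 64 * (1 + 114 ^ 4 * f1 t ^ 4 + 114 ^ 4 * f2 t ^ 4 + f3 t ^ 4) :=
        intervalIntegral.integral_mono_on hU hEi (hgc.intervalIntegrable _ _) hpt4
    _ = 64 * ((U2 T - U1 T) + 114 ^ 4 * (∫ t in (U1 T)..(U2 T), f1 t ^ 4) +
        114 ^ 4 * (∫ t in (U1 T)..(U2 T), f2 t ^ 4) + ∫ t in (U1 T)..(U2 T), f3 t ^ 4) := by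
        rw [intervalIntegral.integral_const_mul, intervalIntegral.integral_add, intervalIntegral.integral_add,
          intervalIntegral.integral_add, intervalIntegral.integral_const_mul, intervalIntegral.integral_const_mul,
          intervalIntegral.integral_const, smul_eq_mul, mul_one]
        all_goals (apply Continuous.intervalIntegrable; fun_prop)
    _ ≤ 64 * (T + 114 ^ 4 * (C4 * T) + 114 ^ 4 * (C4 * T) + C5 * T) := by
        have : U2 T - U1 T ≤ T := by unfold U1 U2; linarith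
        gcongr
    _ = _ := by ring

end Pool.Agent.Helper77.RS
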