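import Pool.Graph.R_seed8.TH800.LD.Mom
import Pool.Graph.R_seed8.TH800.LD.Win

/-! Sums over all zeros with a weight centred at a shifted point. -/

open Complex Filter Topology Set MeasureTheory

namespace Pool.Agent.Helper77.RS

open SP (zs ps QW ell W1 RHs ZZ mu)
open Pool.Agent.TH800.LD (ZZf)

/-- modulated weight -/
noncomputable def Wm (a b u : ℝ) : ℂ := W1 b u * cexp (-(I * ((u * a : ℝ) : ℂ)))

lemma Wm_cont (a b : ℝ) : Continuous (Wm a b) := by
  unfold Wm
  have := SP.MkB.W1_cont b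
  fun_prop

lemma Wm_norm (a : ℝ) {b : ℝ} (hb : 0 < b) (u : ℝ) : ‖Wm a b u‖ ≤ 1 := by
  unfold Wm
  rw [norm_mul, show -(I * ((u * a : ℝ) : ℂ)) = ((-(u * a) : ℝ) : ℂ) * I by push_cast; ring,
    Complex.norm_exp_ofReal_mul_I, mul_one]
  exact SP.MkB.W1_norm hb u

/-- the sum over all zeros -/
noncomputable def FS {T : ℝ} (hT : 1 ≤ T) (a b t : ℝ) : ℝ :=
  ∑ s ∈ (ZZf hT).toFinset, (mu s : ℝ) * Real.exp (-(s.im - t) ^ 2 / 2) *
      (1 / (1 + (b * (s.im - t - a)) ^ 2))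

lemma FS_nonneg {T : ℝ} (hT : 1 ≤ T) (a b t : ℝ) : 0 ≤ FS hT a b t := by
  unfold FS
  apply Finset.sum_nonneg
  intro s _
  positivity

lemma FS_cont {T : ℝ} (hT : 1 ≤ T) (a b : ℝ) : Continuous (FS hT a b) := by
  unfold FS
  apply continuous_finsetSum
  intro s _
  apply Continuous.mul
  · fun_prop
  · apply Continuous.div continuous_const (by fun_prop)
    intro t
    positivity

theorem far_mod (hRH : RHs) : ∃ C T0 : ℝ, 1 ≤ C ∧ 10 ≤ T0 ∧ ∀ T : ℝ, T0 ≤ T → ∀ (hT : 1 ≤ T) (t : ℝ),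
    T + Real.log T ≤ t → t ≤ 2 * T - Real.log T → ∀ a b l : ℝ, 0 < b → b ≤ l → l ≤ Real.log T →
    FS hT a b t ≤ C * (Real.log T / b) * (1 + ‖QW T t l (Wm a b)‖) + C * (l / b) := by
  obtain ⟨C1, T1, hC1, hT1, h1⟩ := LG.EFWm hRH
  obtain ⟨C2, hC2, h2⟩ := LG.prime_part2
  refine ⟨10 * (2 + 2 * C1 + C2), T1, by linarith, hT1, ?_⟩
  intro T hT0 hT t ht1 ht2 a b l hb hbl hlL
  have hT10 : 10 ≤ T := hT1.trans hT0
  have hL1 : 1 ≤ Real.log T := by
    rw [Real.le_log_iff_exp_le (by linarith)]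
    have := Real.exp_one_lt_d9
    linarith
  have hL : 0 < Real.log T := by linarith
  set L := Real.log T with hLdef
  have hl : 0 < l := by linarith
  have hW : ∀ u, ‖Wm a b u‖ ≤ 1 := Wm_norm a hb
  have hz : ∀ u : ℝ, l ≤ u → Wm a b u = 0 := by
    intro u hu
    unfold Wm
    rw [SP.MkB.W1_zero hb (hbl.trans hu), zero_mul]
  have e1 := h1 T hT0 t ht1 ht2 (Wm a b) 2 (Wm_cont a b) (fun u _ => (hW u).trans (by norm_num))
  have e2 := h2 T hT10 t l hl hlL (Wm a b) (Wm_cont a b)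
    (fun u _ => (hW u).trans (by norm_num)) hz
  have e3 : b / 10 * FS hT a b t ≤ (zs T t (Wm a b)).re := by
    unfold FS
    rw [LG.NoZero.zs_eq hT, Complex.re_sum, Finset.mul_sum]
    refine Finset.sum_le_sum fun s _ => ?_
    have e3 : (mu s : ℂ) * (Real.exp (-(s.im - t) ^ 2 / 2) : ℂ) =
        (((mu s : ℝ) * Real.exp (-(s.im - t) ^ 2 / 2) : ℝ) : ℂ) := by push_cast; rfl
    have e5 : ∫ u in (0 : ℝ)..L, Wm a b u * cexp (I * ((u * (s.im - t) : ℝ) : ℂ)) =
        ∫ u in (0 : ℝ)..L, W1 b u * cexp (I * ((u * (s.im - t - a) : ℝ) : ℂ)) := by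
      apply intervalIntegral.integral_congr
      intro u _
      simp only
      unfold Wm
      rw [mul_assoc, ← Complex.exp_add]
      congr 2
      push_cast
      ring
    rw [e3, Complex.re_ofReal_mul, e5, SP.MkB.re_int hb (hbl.trans hlL)]
    have e4 := SP.MkB.int_cos (x := s.im - t - a) hb
    calc b / 10 * ((mu s : ℝ) * Real.exp (-(s.im - t) ^ 2 / 2) *
          (1 / (1 + (b * (s.im - t - a)) ^ 2)))
        = (mu s : ℝ) * Real.exp (-(s.im - t) ^ 2 / 2) *
          (b / 10 / (1 + (b * (s.im - t - a)) ^ 2)) := by ring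
      _ ≤ _ := mul_le_mul_of_nonneg_left e4 (by positivity)
  -- the Gaussian term
  have e4 : ‖((L / Real.sqrt (2 * Real.pi) : ℝ) : ℂ) *
      ∫ u in (0 : ℝ)..L, Wm a b u * (Real.exp (-u ^ 2 / 2) : ℂ)‖ ≤ L := by
    have hs : 0 < Real.sqrt (2 * Real.pi) := Real.sqrt_pos.2 (by positivity)
    obtain ⟨g0, g1, g2⟩ := Pool.Agent.TH800.LD.gauss_head hL
    have h3 : ‖∫ u in (0 : ℝ)..L, Wm a b u * (Real.exp (-u ^ 2 / 2) : ℂ)‖ ≤
        ∫ u in (0 : ℝ)..L, Real.exp (-u ^ 2 / 2) := by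
      apply intervalIntegral.norm_integral_le_of_norm_le hL.le
      · refine Filter.Eventually.of_forall fun u _ => ?_
        rw [norm_mul, Complex.norm_real, Real.norm_eq_abs, abs_of_pos (Real.exp_pos _)]
        have := (Real.exp_pos (-u ^ 2 / 2)).le
        nlinarith [hW u]
      · apply Continuous.intervalIntegrable; fun_prop
    rw [norm_mul, Complex.norm_real, Real.norm_eq_abs, abs_of_pos (by positivity)]
    calc L / Real.sqrt (2 * Real.pi) * ‖∫ u in (0 : ℝ)..L, Wm a b u * (Real.exp (-u ^ 2 / 2) : ℂ)‖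
        ≤ L / Real.sqrt (2 * Real.pi) * (Real.sqrt (2 * Real.pi) / 2) :=
          mul_le_mul_of_nonneg_left (h3.trans g1) (by positivity)
      _ = L / 2 := by field_simp
      _ ≤ L := by linarith
  set X := ((L / Real.sqrt (2 * Real.pi) : ℝ) : ℂ) *
      ∫ u in (0 : ℝ)..L, Wm a b u * (Real.exp (-u ^ 2 / 2) : ℂ) with hX
  have f1 := (Complex.abs_re_le_norm _).trans e1
  have f2 := (Complex.abs_re_le_norm _).trans e2
  have f4 := (Complex.abs_re_le_norm _).trans e4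
  rw [Complex.sub_re, Complex.add_re] at f1
  rw [Complex.sub_re] at f2
  have f3 : |((L : ℂ) * QW T t l (Wm a b)).re| ≤ L * ‖QW T t l (Wm a b)‖ := by
    refine (Complex.abs_re_le_norm _).trans ?_
    rw [norm_mul, Complex.norm_real, Real.norm_eq_abs, abs_of_pos hL]
  rw [abs_le] at f1 f2 f3 f4
  have f5 : (zs T t (Wm a b)).re ≤ L * ‖QW T t l (Wm a b)‖ + L + C1 * 2 + C2 * (1 + l) := by
    linarith [f1.2, f2.1, f3.1, f4.2]
  set Y := FS hT a b t with hY
  have hq : 0 ≤ ‖QW T t l (Wm a b)‖ := norm_nonneg _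
  have f6 : Y ≤ 10 / b * (L * ‖QW T t l (Wm a b)‖ + L + C1 * 2 + C2 * (1 + l)) := by
    have h7 : b / 10 * Y ≤ L * ‖QW T t l (Wm a b)‖ + L + C1 * 2 + C2 * (1 + l) := e3.trans f5
    calc Y = 10 / b * (b / 10 * Y) := by field_simp
      _ ≤ _ := mul_le_mul_of_nonneg_left h7 (by positivity)
  refine f6.trans ?_
  have f7 : L * ‖QW T t l (Wm a b)‖ + L + C1 * 2 + C2 * (1 + l) ≤
      (2 + 2 * C1 + C2) * (L * (1 + ‖QW T t l (Wm a b)‖)) + (2 + 2 * C1 + C2) * l := by
    nlinarith [mul_nonneg hL.le hq, mul_nonneg hC1.le (mul_nonneg hL.le hq),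
      mul_nonneg hC2.le (mul_nonneg hL.le hq), mul_nonneg hC1.le hl.le, mul_nonneg hC1.le
      (by linarith : 0 ≤ L - 1), mul_nonneg hC2.le (by linarith : 0 ≤ L - 1)]
  calc 10 / b * (L * ‖QW T t l (Wm a b)‖ + L + C1 * 2 + C2 * (1 + l))
      ≤ 10 / b * ((2 + 2 * C1 + C2) * (L * (1 + ‖QW T t l (Wm a b)‖)) + (2 + 2 * C1 + C2) * l) :=
        mul_le_mul_of_nonneg_left f7 (by positivity)
    _ = _ := by ring

/-- the fourth moment is bounded -/
theorem far_mom (hRH : RHs) {κ : ℝ} (hκ : 0 < κ) (hκ1 : κ < 1 / 2) {k : ℕ} (hk : 2 ≤ k) :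
    ∃ C T0 : ℝ, 0 < C ∧ 10 ≤ T0 ∧ ∀ T : ℝ, T0 ≤ T → ∀ (hT : 1 ≤ T) (a V1 V2 : ℝ),
    T + Real.log T ≤ V1 → V1 ≤ V2 → V2 ≤ 2 * T - Real.log T →
    ∫ t in V1..V2, FS hT a (ell κ T k) t ^ 4 ≤ C * T := by
  obtain ⟨C1, T1, hC1, hT1, h1⟩ := far_mod hRH
  obtain ⟨C2, T2, hC2, hT2, h2⟩ := Pool.Agent.TH800.LD.leb_QW κ hκ hκ1
  set M : ℝ := C1 * (4 * k) with hM
  have hk0 : (2 : ℝ) ≤ k := by exact_mod_cast hk
  refine ⟨8 * (2 * M) ^ 4 * (2 + 6 * (C2 / k) ^ k), max T1 T2, by positivity, hT1.trans (le_max_left _ _), ?_⟩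
  intro T hTT hT a V1 V2 hV1 hV hV2
  have hT10 : 10 ≤ T := (hT1.trans (le_max_left _ _)).trans hTT
  have hL1 : 1 ≤ Real.log T := by
    rw [Real.le_log_iff_exp_le (by linarith)]
    have := Real.exp_one_lt_d9
    linarith
  have hl0 : 0 < ell κ T k := by
    unfold ell
    have : 0 < 1 - κ := by linarith
    positivity
  have hlL : ell κ T k ≤ Real.log T := by
    unfold ell
    rw [div_le_iff₀ (by positivity)]
    have : (1 - κ) * Real.log T ≤ 1 * Real.log T := by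
      apply mul_le_mul_of_nonneg_right _ (by linarith)
      linarith
    nlinarith
  have hLl : Real.log T / ell κ T k ≤ 4 * k := by
    rw [div_le_iff₀ hl0]
    unfold ell
    have : 4 * (k : ℝ) * ((1 - κ) * Real.log T / (2 * k)) = 2 * ((1 - κ) * Real.log T) := by
      field_simp
      ring
    rw [this]
    nlinarith
  have h3 := h2 T ((le_max_right _ _).trans hTT) k (by omega) (Wm a (ell κ T k)) (Wm_cont _ _)
    (fun u => (Wm_norm a hl0 u).trans (by norm_num)) V1 V2 (by linarith) hV (by linarith)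
  set q : ℝ → ℝ := fun t => ‖QW T t (ell κ T k) (Wm a (ell κ T k))‖ with hq
  have hqc : Continuous q := (LG.GapAux.QW_cont T (ell κ T k) _).norm
  have hpt : ∀ t ∈ Icc V1 V2, FS hT a (ell κ T k) t ^ 4 ≤ 8 * (2 * M) ^ 4 * (2 + q t ^ (2 * k)) := by
    intro t ht
    have h4 := h1 T ((le_max_left _ _).trans hTT) hT t (by linarith [ht.1]) (by linarith [ht.2]) a
      (ell κ T k) (ell κ T k) hl0 le_rfl hlL
    have hq0 : 0 ≤ q t := norm_nonneg _
    have h5 : FS hT a (ell κ T k) t ≤ 2 * M * (1 + q t) := by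
      refine h4.trans ?_
      rw [div_self hl0.ne', mul_one]
      have h6 : C1 * (Real.log T / ell κ T k) * (1 + q t) ≤ M * (1 + q t) := by
        apply mul_le_mul_of_nonneg_right _ (by linarith)
        rw [hM]
        exact mul_le_mul_of_nonneg_left hLl (by linarith)
      have h7 : C1 ≤ M := by
        rw [hM]
        nlinarith
      have h8 : 0 ≤ M := by rw [hM]; positivity
      nlinarith
    have h9 := pow_le_pow_left₀ (FS_nonneg hT a (ell κ T k) t) h5 4
    refine h9.trans ?_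
    rw [mul_pow]
    have h10 : (1 + q t) ^ 4 ≤ 8 * (1 + q t ^ 4) := by nlinarith [sq_nonneg (q t - 1), sq_nonneg (q t ^ 2 - 1), sq_nonneg (q t)]
    have h11 : q t ^ 4 ≤ 1 + q t ^ (2 * k) := by
      rcases le_total (q t) 1 with h | h
      · have : q t ^ 4 ≤ 1 := pow_le_one₀ hq0 h
        have : 0 ≤ q t ^ (2 * k) := by positivity
        linarith
      · have : q t ^ 4 ≤ q t ^ (2 * k) := pow_le_pow_right₀ h (by omega)
        linarith
    calc (2 * M) ^ 4 * (1 + q t) ^ 4 ≤ (2 * M) ^ 4 * (8 * (1 + (1 + q t ^ (2 * k)))) := by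
          apply mul_le_mul_of_nonneg_left _ (by positivity)
          linarith
      _ = _ := by ring
  calc ∫ t in V1..V2, FS hT a (ell κ T k) t ^ 4 ≤ ∫ t in V1..V2, 8 * (2 * M) ^ 4 * (2 + q t ^ (2 * k)) := by
        apply intervalIntegral.integral_mono_on hV
        · exact ((FS_cont hT a _).pow 4).intervalIntegrable _ _
        · apply Continuous.intervalIntegrable
          fun_prop
        · exact hpt
    _ = 8 * (2 * M) ^ 4 * (2 * (V2 - V1) + ∫ t in V1..V2, q t ^ (2 * k)) := by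
        rw [intervalIntegral.integral_const_mul, intervalIntegral.integral_add
          (by apply Continuous.intervalIntegrable; fun_prop) (by apply Continuous.intervalIntegrable; fun_prop),
          intervalIntegral.integral_const, smul_eq_mul]
        ring
    _ ≤ 8 * (2 * M) ^ 4 * (2 * T + 6 * T * (C2 / k) ^ k) := by
        apply mul_le_mul_of_nonneg_left _ (by positivity)
        linarith
    _ = _ := by ring

end Pool.Agent.Helper77.RS
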