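import Pool.Agent.Helper77.RS.Trn

/-! The central limit theorem for the sums of gaps. -/

open Filter Topology Set MeasureTheory ProbabilityTheory

namespace Pool.Agent.Helper77.RS

open SG (ord NZ)
open Pool.Agent.H707.NB (sp lc lc_nonneg lc_le)
open Pool.Agent.H707.NV (cn hl)

/-- the normal distribution function -/
noncomputable def Ph (z : ℝ) : ℝ := (gaussianReal 0 1).real (Iic z)

lemma Ph_mono {a b : ℝ} (h : a ≤ b) : Ph a ≤ Ph b :=
  measureReal_mono (Iic_subset_Iic.2 h)

lemma gpdf_le (u : ℝ) : gaussianPDF 0 1 u ≤ ENNReal.ofReal 1 := by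
  unfold gaussianPDF
  apply ENNReal.ofReal_le_ofReal
  unfold gaussianPDFReal
  have h1 : Real.exp (-(u - 0) ^ 2 / (2 * ((1 : NNReal) : ℝ))) ≤ 1 := by
    apply Real.exp_le_one_iff.2
    have := sq_nonneg (u - 0)
    simp only [NNReal.coe_one, mul_one]
    linarith
  have h2 : (Real.sqrt (2 * Real.pi * ((1 : NNReal) : ℝ)))⁻¹ ≤ 1 := by
    apply inv_le_one_of_one_le₀
    rw [Real.one_le_sqrt]
    simp only [NNReal.coe_one, mul_one]
    have := Real.pi_gt_three
    linarith
  calc _ ≤ (1 : ℝ) * 1 := mul_le_mul h2 h1 (Real.exp_pos _).le zero_le_one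
    _ = 1 := one_mul 1

lemma Ph_lip {a b : ℝ} (h : a ≤ b) : Ph b ≤ Ph a + (b - a) := by
  have h1 : (gaussianReal 0 1) (Ioc a b) ≤ ENNReal.ofReal (b - a) := by
    rw [gaussianReal_apply 0 (by norm_num : (1 : NNReal) ≠ 0)]
    calc ∫⁻ u in Ioc a b, gaussianPDF 0 1 u ≤ ∫⁻ _ in Ioc a b, ENNReal.ofReal 1 :=
          lintegral_mono fun u => gpdf_le u
      _ = _ := by
        rw [setLIntegral_const, Real.volume_Ioc, ENNReal.ofReal_one, one_mul]
  have h2 : (gaussianReal 0 1).real (Ioc a b) ≤ b - a := by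
    unfold Measure.real
    rw [← ENNReal.toReal_ofReal (by linarith : 0 ≤ b - a)]
    exact ENNReal.toReal_mono ENNReal.ofReal_ne_top h1
  unfold Ph
  rw [← Iic_union_Ioc_eq_Iic h]
  exact (measureReal_union_le _ _).trans (by linarith)

lemma Ph_ici (z : ℝ) : (gaussianReal 0 1).real (Ici (-z)) = Ph z := by
  have h := gaussianReal_map_neg (μ := 0) (v := 1)
  rw [neg_zero] at h
  unfold Ph
  rw [← h, map_measureReal_apply measurable_neg measurableSet_Iic, h]
  congr 1
  ext u
  simp only [mem_preimage, mem_Iic, mem_Ici]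
  constructor <;> intro h <;> linarith

lemma sq_int_gauss : Integrable (fun u : ℝ => u ^ 2) (gaussianReal 0 1) := by
  have := (memLp_id_gaussianReal (μ := 0) (v := 1) 2).integrable_sq
  simpa using this

lemma Gy_diff (z : ℝ) {δ : ℝ} (hδ : 0 ≤ δ) : δ * Ph z ≤ Gy (z + δ) - Gy z ∧ Gy (z + δ) - Gy z ≤ δ * Ph (z + δ) := by
  have hi : ∀ y, Integrable (hh y) (gaussianReal 0 1) := fun y => hh_integrable sq_int_gauss y
  have e1 : Gy (z + δ) - Gy z = ∫ u, (hh (z + δ) u - hh z u) ∂(gaussianReal 0 1) :=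
    (integral_sub (hi _) (hi _)).symm
  have e2 : ∀ w : ℝ, δ * Ph w = ∫ u, (Ici (-w)).indicator (fun _ => δ) u ∂(gaussianReal 0 1) := by
    intro w
    rw [integral_indicator measurableSet_Ici, setIntegral_const, smul_eq_mul, Ph_ici, mul_comm]
  have hind : ∀ w : ℝ, Integrable ((Ici (-w)).indicator (fun _ => δ)) (gaussianReal 0 1) := fun w =>
    (integrable_const δ).indicator measurableSet_Ici
  rw [e1, e2, e2]
  constructor
  · apply integral_mono (hind _) ((hi _).sub (hi _))
    intro u
    change _ ≤ hh (z + δ) u - hh z u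
    by_cases h : u ∈ Ici (-z)
    · rw [indicator_of_mem h]
      rw [mem_Ici] at h
      unfold hh
      rw [max_eq_left (by linarith), max_eq_left (by linarith)]
      linarith
    · rw [indicator_of_notMem h]
      unfold hh
      have : max (u + z) 0 ≤ max (u + (z + δ)) 0 := max_le_max (by linarith) le_rfl
      linarith
  · apply integral_mono ((hi _).sub (hi _)) (hind _)
    intro u
    change hh (z + δ) u - hh z u ≤ _
    by_cases h : u ∈ Ici (-(z + δ))
    · rw [indicator_of_mem h]
      have := hh_lip 0 (u + (z + δ)) (u + z)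
      have e3 : hh (z + δ) u = hh 0 (u + (z + δ)) := by unfold hh; rw [add_zero]
      have e4 : hh z u = hh 0 (u + z) := by unfold hh; rw [add_zero]
      rw [e3, e4]
      have h5 := (le_abs_self _).trans this
      rw [show u + (z + δ) - (u + z) = δ by ring, abs_of_nonneg hδ] at h5
      exact h5
    · rw [indicator_of_notMem h]
      rw [mem_Ici, not_le] at h
      unfold hh
      rw [max_eq_right (by linarith), max_eq_right (by linarith), sub_self]

/-- the normalisation -/
noncomputable def sg (r : ℕ) : ℝ := Real.sqrt (Real.log r) / Real.pi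

lemma sg_facts (y : ℝ) (x0 : ℝ) {θ : ℝ} (hθ : 0 < θ) : ∀ᶠ r : ℕ in atTop, 0 < sg r ∧ x0 ≤ r + y * sg r ∧
    0 < r + y * sg r ∧ |sg r ^ 2 - Real.log (r + y * sg r) / Real.pi ^ 2| ≤ θ * (Real.log (r + y * sg r) / Real.pi ^ 2) := by
  have hpi := Real.pi_pos
  have hlim : Tendsto (fun r : ℕ => (r : ℝ)) atTop atTop := tendsto_natCast_atTop_atTop
  have h0 : ∀ᶠ r : ℝ in atTop, Real.log r ≤ 1 / (2 * (|y| + 1)) * r := by
    have := Real.isLittleO_log_id_atTop.bound (show (0 : ℝ) < 1 / (2 * (|y| + 1)) by positivity)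
    filter_upwards [this, eventually_ge_atTop 1] with T h1 h2
    rw [Real.norm_eq_abs, Real.norm_eq_abs, id, abs_of_nonneg (Real.log_nonneg h2),
      abs_of_nonneg (by linarith : (0 : ℝ) ≤ T)] at h1
    exact h1
  filter_upwards [hlim.eventually h0, hlim.eventually_ge_atTop (2 * |x0| + 2),
    hlim.eventually (Real.tendsto_log_atTop.eventually_ge_atTop (2 / θ + 2))] with r h1 h2 h3
  have hab := abs_nonneg x0
  have haby := abs_nonneg y
  have hlr : 2 ≤ Real.log r := by
    have : 0 < 2 / θ := by positivity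
    linarith
  have hs0 : 0 < Real.sqrt (Real.log r) := Real.sqrt_pos.2 (by linarith)
  have hsg : 0 < sg r := by unfold sg; positivity
  have hs1 : Real.sqrt (Real.log r) ≤ Real.log r := by
    rw [Real.sqrt_le_left (by linarith)]
    nlinarith
  have hsgl : sg r ≤ Real.log r := by
    unfold sg
    refine (div_le_self hs0.le ?_).trans hs1
    linarith [Real.pi_gt_three]
  have hy : |y * sg r| ≤ r / 2 := by
    rw [abs_mul, abs_of_pos hsg]
    calc |y| * sg r ≤ (|y| + 1) * Real.log r := by
          apply mul_le_mul (by linarith) hsgl hsg.le (by linarith)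
      _ ≤ (|y| + 1) * (1 / (2 * (|y| + 1)) * r) := mul_le_mul_of_nonneg_left h1 (by linarith)
      _ = r / 2 := by field_simp
  rw [abs_le] at hy
  have hx1 : (r : ℝ) / 2 ≤ r + y * sg r := by linarith [hy.1]
  have hx2 : r + y * sg r ≤ 2 * r := by linarith [hy.2]
  have hx0 : 0 < r + y * sg r := by linarith
  refine ⟨hsg, ?_, hx0, ?_⟩
  · have := le_abs_self x0
    linarith
  · have hsq : sg r ^ 2 = Real.log r / Real.pi ^ 2 := by
      unfold sg
      rw [div_pow, Real.sq_sqrt (by linarith)]
    rw [hsq, ← sub_div, abs_div, abs_of_pos (by positivity : 0 < Real.pi ^ 2), ← mul_div_assoc]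
    apply div_le_div_of_nonneg_right _ (by positivity)
    have hr0 : (0 : ℝ) < r := by linarith
    have l1 : Real.log r - Real.log 2 ≤ Real.log (r + y * sg r) := by
      rw [← Real.log_div hr0.ne' (by norm_num)]
      exact Real.log_le_log (by positivity) hx1
    have l2 : Real.log (r + y * sg r) ≤ Real.log 2 + Real.log r := by
      rw [← Real.log_mul (by norm_num) hr0.ne']
      exact Real.log_le_log hx0 hx2
    have l3 := Real.log_two_lt_d9
    have l4 : 1 ≤ θ * Real.log (r + y * sg r) := by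
      have : 2 / θ ≤ Real.log (r + y * sg r) := by linarith
      rw [div_le_iff₀ hθ] at this
      linarith
    rw [abs_le]
    constructor <;> linarith

/-- the means of the test functions -/
theorem mean_y (hRH : RiemannHypothesis) (y : ℝ) {ε : ℝ} (hε : 0 < ε) : ∀ᶠ r : ℕ in atTop, ∀ᶠ N : ℕ in atTop,
    |(∑ n ∈ Finset.Icc 1 N, lc (r + y * sg r) (sp n r)) - sg r * Gy y * N| ≤ (ε * sg r) * N := by
  obtain ⟨x0, θ, hx0, hθ, hclt⟩ := clt_win hRH y (half_pos hε)
  filter_upwards [sg_facts y x0 hθ] with r ⟨hs, h1, h2, h3⟩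
  have h4 := hclt _ h1 (sg r) hs h3
  set x := (r : ℝ) + y * sg r with hx
  have h5 : ∀ᶠ V : ℝ in atTop, |(1 / (U2 V - U1 V)) * (∫ t in (U1 V)..(U2 V), max 0 (cn (hl x V) t - r)) - sg r * Gy y| ≤ ε / 2 * sg r := by
    filter_upwards [h4] with V h6
    have h7 : ∀ t, max 0 (cn (hl x V) t - r) = sg r * hh y (DD x V t / sg r) := by
      intro t
      unfold hh DD
      rw [mul_max_of_nonneg _ _ hs.le, mul_zero, max_comm]
      congr 1
      rw [hx]
      field_simp
      ring
    simp_rw [h7]
    rw [intervalIntegral.integral_const_mul, mul_left_comm, ← mul_sub, abs_mul, abs_of_pos hs]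
    have := mul_le_mul_of_nonneg_left h6 hs.le
    linarith
  have h6 := transfer hRH h2 r (by positivity) h5 (ε := ε / 2 * sg r) (by positivity)
  filter_upwards [h6] with N h7
  refine h7.trans (le_of_eq ?_)
  ring

/-- number of indices with small sums -/
noncomputable def cnt (r N : ℕ) (x : ℝ) : ℝ := (((Finset.Icc 1 N).filter (fun n => sp n r ≤ x)).card : ℝ)

lemma lc_ge {x x' s : ℝ} (hx : 0 ≤ x) (hxx : x ≤ x') : (x' - x) * (if s ≤ x then 1 else 0) ≤ lc x' s - lc x s := by
  unfold lc
  split_ifs with h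
  · rw [mul_one]
    rcases le_total 0 s with hs | hs
    · rw [min_eq_right (max_le (by linarith) (by linarith)), min_eq_right (max_le hx (by linarith)),
        max_eq_right (by linarith), max_eq_right (by linarith)]
      linarith
    · rw [min_eq_left, min_eq_left]
      · exact (by linarith : x ≤ x - s).trans (le_max_right _ _)
      · exact (by linarith : x' ≤ x' - s).trans (le_max_right _ _)
  · rw [mul_zero]
    have : min x (max 0 (x - s)) ≤ min x' (max 0 (x' - s)) :=
      min_le_min hxx (max_le_max le_rfl (by linarith))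
    linarith

lemma lc_le' {x x' s : ℝ} (hx : 0 ≤ x) (hxx : x ≤ x') : lc x' s - lc x s ≤ (x' - x) * (if s ≤ x' then 1 else 0) := by
  unfold lc
  split_ifs with h
  · rw [mul_one]
    rcases le_total s 0 with hs | hs
    · rw [min_eq_left, min_eq_left]
      · exact (by linarith : x ≤ x - s).trans (le_max_right _ _)
      · exact (by linarith : x' ≤ x' - s).trans (le_max_right _ _)
    · rw [min_eq_right (max_le (by linarith) (by linarith)), min_eq_right (max_le hx (by linarith)),
        max_eq_right (by linarith)]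
      have := le_max_right 0 (x - s)
      linarith
  · rw [not_le] at h
    rw [mul_zero, max_eq_left (by linarith), max_eq_left (by linarith), min_eq_right (by linarith), min_eq_right hx]
    linarith

theorem pointwise_clt (hRH : RiemannHypothesis) (z : ℝ) {ε : ℝ} (hε : 0 < ε) : ∀ᶠ r : ℕ in atTop, ∀ᶠ N : ℕ in atTop,
    |cnt r N (r + z * sg r) - Ph z * N| ≤ ε * N := by
  set δ := ε / 3 with hδ
  have hδ0 : 0 < δ := by positivity
  have hδ2 : 0 < δ ^ 2 := by positivity
  filter_upwards [mean_y hRH z hδ2, mean_y hRH (z + δ) hδ2, mean_y hRH (z - δ) hδ2,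
    sg_facts z 1 one_pos, sg_facts (z - δ) 1 one_pos] with r h1 h2 h3 ⟨hs, a1, a2, a3⟩ ⟨_, b1, b2, b3⟩
  filter_upwards [h1, h2, h3] with N g1 g2 g3
  have hN : (0 : ℝ) ≤ N := Nat.cast_nonneg N
  set s := sg r with hsd
  have k1 : δ * s * cnt r N (r + z * s) ≤ (∑ n ∈ Finset.Icc 1 N, lc (r + (z + δ) * s) (sp n r)) -
      ∑ n ∈ Finset.Icc 1 N, lc (r + z * s) (sp n r) := by
    unfold cnt
    rw [Finset.card_filter, ← Finset.sum_sub_distrib]
    push_cast
    rw [Finset.mul_sum]
    apply Finset.sum_le_sum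
    intro n _
    have := lc_ge (s := sp n r) a2.le (show (r : ℝ) + z * s ≤ r + (z + δ) * s by nlinarith)
    rw [show r + (z + δ) * s - (r + z * s) = δ * s by ring] at this
    exact this
  have k2 : (∑ n ∈ Finset.Icc 1 N, lc (r + z * s) (sp n r)) -
      ∑ n ∈ Finset.Icc 1 N, lc (r + (z - δ) * s) (sp n r) ≤ δ * s * cnt r N (r + z * s) := by
    unfold cnt
    rw [Finset.card_filter, ← Finset.sum_sub_distrib]
    push_cast
    rw [Finset.mul_sum]
    apply Finset.sum_le_sum
    intro n _
    have := lc_le' (s := sp n r) b2.le (show (r : ℝ) + (z - δ) * s ≤ r + z * s by nlinarith)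
    rw [show r + z * s - (r + (z - δ) * s) = δ * s by ring] at this
    exact this
  obtain ⟨d1, d2⟩ := Gy_diff z hδ0.le
  obtain ⟨d3, d4⟩ := Gy_diff (z - δ) hδ0.le
  rw [sub_add_cancel] at d3 d4
  have p1 := Ph_lip (show z ≤ z + δ by linarith)
  have p2 := Ph_lip (show z - δ ≤ z by linarith)
  rw [abs_le] at g1 g2 g3
  have hsN : 0 ≤ s * N := by positivity
  have m1 : s * N * (Gy (z + δ) - Gy z) ≤ s * N * (δ * (Ph z + δ)) := by
    apply mul_le_mul_of_nonneg_left _ hsN
    have : δ * Ph (z + δ) ≤ δ * (Ph z + δ) := mul_le_mul_of_nonneg_left (by linarith) hδ0.le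
    linarith
  have m2 : s * N * (δ * (Ph z - δ)) ≤ s * N * (Gy z - Gy (z - δ)) := by
    apply mul_le_mul_of_nonneg_left _ hsN
    have : δ * (Ph z - δ) ≤ δ * Ph (z - δ) := mul_le_mul_of_nonneg_left (by linarith) hδ0.le
    linarith
  have q1 : δ * s * cnt r N (r + z * s) ≤ δ * s * (Ph z * N + ε * N) := by
    have e : δ * s * (Ph z * N + ε * N) = s * N * (δ * (Ph z + δ)) + 2 * (δ ^ 2 * s * N) := by
      rw [hδ]; ring
    rw [e]
    nlinarith [g1.1, g2.2]
  have q2 : δ * s * (Ph z * N - ε * N) ≤ δ * s * cnt r N (r + z * s) := by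
    have e : δ * s * (Ph z * N - ε * N) = s * N * (δ * (Ph z - δ)) - 2 * (δ ^ 2 * s * N) := by
      rw [hδ]; ring
    rw [e]
    nlinarith [g1.1, g3.2]
  have hds : 0 < δ * s := by positivity
  have r1 := le_of_mul_le_mul_left q1 hds
  have r2 := le_of_mul_le_mul_left q2 hds
  rw [abs_le]
  constructor <;> linarith

end Pool.Agent.Helper77.RS
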