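import Pool.Agent.Helper77.RS.Trn

/-! Fourth moments of the window counts. -/

open Complex Filter Topology Set MeasureTheory

namespace Pool.Agent.Helper77.RS

open Pool.Agent.H707.NV (cn cn_log cn_meas cn_nonneg hl cn_pow_ii cn_bdd)

theorem four (hRH : RiemannHypothesis) : ∃ C : ℝ, 0 < C ∧ ∀ x : ℝ, 1 ≤ x → ∀ᶠ T : ℝ in atTop,
    ∫ t in (U1 T)..(U2 T), DD x T t ^ 4 ≤ C * (1 + Real.log x) ^ 2 * (U2 T - U1 T) := by
  have hpi := Real.pi_pos
  have hpi3 := Real.pi_gt_three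
  obtain ⟨C1, hC1, h1⟩ := err_mom hRH (k := 12) (by norm_num)
  obtain ⟨C3, hC3, h3⟩ := err_sq hRH (k := 12) (by norm_num)
  set B : ℝ := 34 + 8 * C3 with hB
  refine ⟨8 * (2 * C1 + 2 * B ^ 2 + 1), by positivity, fun x hx => ?_⟩
  have hx0 : 0 < x := by linarith
  have hlx : 0 ≤ Real.log x := Real.log_nonneg hx
  filter_upwards [basics x hx0 1, varU hRH hx, h1 x hx0, h3 x hx0,
    polyfacts (k := 12) (q := 2) (by norm_num) (by norm_num) hx0 (show (0 : ℝ) < 1 / 2 by norm_num),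
    polyfacts (k := 12) (q := 4) (by norm_num) (by norm_num) hx0 one_pos] with
    T ⟨hTT, hT10, hL1, ha0, ha1, hU, hL0, hL3⟩ ⟨hv1, hv2⟩ hE4 hE2 ⟨hp1, hp2⟩ ⟨_, hp4⟩
  have hh : 0 ≤ hl x T := by rw [hl_aa]; linarith
  have hPc := Pc_cont x 12 T
  set Q := Real.log x / Real.pi ^ 2 with hQ
  have hQle : Q ≤ Real.log x := by
    rw [hQ]
    apply div_le_self hlx
    nlinarith
  set W := U2 T - U1 T with hW
  have hW0 : 0 < W := by rw [hW]; unfold U1 U2; linarith
  have hTW : T ≤ 2 * W := by rw [hW]; unfold U1 U2; linarith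
  set A := ∑ p ∈ Pr (2 * ll 12 T), ‖cs x 12 T p‖ ^ 2 with hA
  have hA0 : 0 ≤ A := Finset.sum_nonneg fun _ _ => by positivity
  have hll0 : 0 ≤ 2 * ll 12 T := by
    rw [ll_eq]
    positivity
  have hmean := re_pow_mean (S := Pr (2 * ll 12 T)) (fun p hp => Pr_prime hp) (cs x 12 T) 2 (X := Real.exp (2 * ll 12 T))
    (Real.one_le_exp hll0) (fun p hp => Pr_le hp) (U1 T) (U2 T)
  rw [if_pos (by decide)] at hmean
  norm_num at hmean
  have hD2 := le_Dg (S := Pr (2 * ll 12 T)) (fun p hp => Pr_prime hp) (cs x 12 T) 1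
  norm_num at hD2
  rw [← hA] at hD2
  have hBs : ∑ p ∈ Pr (2 * ll 12 T), ‖cs x 12 T p‖ ^ 4 ≤ 1 / 2 * A := by
    rw [hA, Finset.mul_sum]
    apply Finset.sum_le_sum
    intro p hp
    have := hp1 p hp
    calc ‖cs x 12 T p‖ ^ 4 = ‖cs x 12 T p‖ ^ 2 * ‖cs x 12 T p‖ ^ 2 := by ring
      _ ≤ 1 / 2 * ‖cs x 12 T p‖ ^ 2 := mul_le_mul_of_nonneg_right this (by positivity)
  set IP := ∫ t in (U1 T)..(U2 T), Pc x 12 T t ^ 2 with hIP
  have hIP' : ∫ t in (U1 T)..(U2 T), (PP (Pr (2 * ll 12 T)) (cs x 12 T) t).re ^ 2 = IP := rfl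
  rw [hIP'] at hmean
  set G := (Dg (Pr (2 * ll 12 T)) (cs x 12 T) 1 1).re with hG
  have hm := abs_le.1 hmean
  have hW' : U2 T - U1 T = W := rfl
  rw [hW'] at hm
  have hml : W * (1 / 4 * (2 * G)) - 1 / 2 * W ≤ IP := by linarith [hm.1]
  have iE : IntervalIntegrable (fun t => EE x 12 T t ^ 2) volume (U1 T) (U2 T) :=
    ii_comp hh (fun d t => (d + Pc x 12 T t) ^ 2) (by simp only [Function.uncurry_def]; fun_prop) hU
  have iE4 : IntervalIntegrable (fun t => EE x 12 T t ^ 4) volume (U1 T) (U2 T) :=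
    ii_comp hh (fun d t => (d + Pc x 12 T t) ^ 4) (by simp only [Function.uncurry_def]; fun_prop) hU
  have iD : IntervalIntegrable (fun t => DD x T t ^ 2) volume (U1 T) (U2 T) :=
    ii_comp hh (fun d t => d ^ 2) (by simp only [Function.uncurry_def]; fun_prop) hU
  have iD4 : IntervalIntegrable (fun t => DD x T t ^ 4) volume (U1 T) (U2 T) :=
    ii_comp hh (fun d t => d ^ 4) (by simp only [Function.uncurry_def]; fun_prop) hU
  have iP : IntervalIntegrable (fun t => Pc x 12 T t ^ 2) volume (U1 T) (U2 T) :=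
    (hPc.pow 2).intervalIntegrable _ _
  have k2 : IP ≤ 2 * (∫ t in (U1 T)..(U2 T), DD x T t ^ 2) + 2 * ∫ t in (U1 T)..(U2 T), EE x 12 T t ^ 2 := by
    rw [hIP, ← intervalIntegral.integral_const_mul, ← intervalIntegral.integral_const_mul,
      ← intervalIntegral.integral_add (iD.const_mul _) (iE.const_mul _)]
    apply intervalIntegral.integral_mono_on hU iP ((iD.const_mul _).add (iE.const_mul _))
    intro t _
    rw [EE_eq]
    nlinarith [sq_nonneg (2 * DD x T t + Pc x 12 T t)]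
  have u1 : (1 / 4 * A - 1 / 2) * W ≤ (2 * (Q + 3) + 2 * C3) * W := by
    have h1 : (1 / 4 * A - 1 / 2) * W ≤ IP := by
      have : W * (1 / 2 * A) ≤ W * G := mul_le_mul_of_nonneg_left (by linarith) hW0.le
      linarith
    linarith
  have u2 := le_of_mul_le_mul_right u1 hW0
  have hAB : A ≤ B * (1 + Real.log x) := by
    rw [hB]
    nlinarith [mul_nonneg hC3.le hlx]
  -- fourth moment of the polynomial
  have hev := even_PP (S := Pr (2 * ll 12 T)) (fun p hp => Pr_prime hp) (cs x 12 T) 2 (X := Real.exp (2 * ll 12 T))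
    (Real.one_le_exp hll0) (fun p hp => Pr_le hp) hU
  norm_num at hev
  rw [← hA, hW'] at hev
  have hP4 : ∫ t in (U1 T)..(U2 T), Pc x 12 T t ^ 4 ≤ (2 * A ^ 2 + 1) * W := by
    have h5 : ∫ t in (U1 T)..(U2 T), Pc x 12 T t ^ 4 ≤ ∫ t in (U1 T)..(U2 T), ‖PP (Pr (2 * ll 12 T)) (cs x 12 T) t‖ ^ 4 := by
      apply intervalIntegral.integral_mono_on hU ((hPc.pow 4).intervalIntegrable _ _)
      · exact ((PP_cont _ _).norm.pow 4).intervalIntegrable _ _
      · intro t _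
        have h6 : |Pc x 12 T t| ≤ ‖PP (Pr (2 * ll 12 T)) (cs x 12 T) t‖ := Complex.abs_re_le_norm _
        have h7 := pow_le_pow_left₀ (abs_nonneg _) h6 4
        have h8 : |Pc x 12 T t| ^ 4 = Pc x 12 T t ^ 4 := by
          rw [show (4 : ℕ) = 2 * 2 by norm_num, pow_mul, pow_mul, sq_abs]
        rw [h8] at h7
        exact h7
    linarith
  have hfin : ∫ t in (U1 T)..(U2 T), DD x T t ^ 4 ≤ 8 * (∫ t in (U1 T)..(U2 T), EE x 12 T t ^ 4) +
      8 * ∫ t in (U1 T)..(U2 T), Pc x 12 T t ^ 4 := by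
    have iP4 : IntervalIntegrable (fun t => Pc x 12 T t ^ 4) volume (U1 T) (U2 T) :=
      (hPc.pow 4).intervalIntegrable _ _
    rw [← intervalIntegral.integral_const_mul, ← intervalIntegral.integral_const_mul,
      ← intervalIntegral.integral_add (iE4.const_mul _) (iP4.const_mul _)]
    apply intervalIntegral.integral_mono_on hU iD4 ((iE4.const_mul _).add (iP4.const_mul _))
    intro t _
    have e : DD x T t = EE x 12 T t + -Pc x 12 T t := by rw [EE_eq]; ring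
    have key : ∀ u v : ℝ, (u + v) ^ 4 ≤ 8 * (u ^ 4 + v ^ 4) := by
      intro u v
      nlinarith [sq_nonneg (u - v), sq_nonneg (u ^ 2 - v ^ 2), sq_nonneg (u + v), mul_nonneg (sq_nonneg (u - v)) (sq_nonneg (u + v)),
        mul_nonneg (sq_nonneg (u - v)) (sq_nonneg (u - v)), sq_nonneg (u * v)]
    have h9 := key (EE x 12 T t) (-Pc x 12 T t)
    rw [← e, Even.neg_pow (by decide : Even 4)] at h9
    linarith
  have hA2 : A ^ 2 ≤ B ^ 2 * (1 + Real.log x) ^ 2 := by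
    rw [← mul_pow]
    exact pow_le_pow_left₀ hA0 hAB 2
  have hE5 : ∫ t in (U1 T)..(U2 T), EE x 12 T t ^ 4 ≤ 2 * C1 * W := by
    have : C1 * T ≤ C1 * (2 * W) := mul_le_mul_of_nonneg_left hTW hC1.le
    linarith
  have h10 : 1 ≤ (1 + Real.log x) ^ 2 := by nlinarith
  calc _ ≤ 8 * (2 * C1 * W) + 8 * ((2 * A ^ 2 + 1) * W) := by linarith
    _ = 8 * (2 * C1 + 2 * A ^ 2 + 1) * W := by ring
    _ ≤ 8 * (2 * C1 * (1 + Real.log x) ^ 2 + 2 * (B ^ 2 * (1 + Real.log x) ^ 2) + (1 + Real.log x) ^ 2) * W := by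
      apply mul_le_mul_of_nonneg_right _ hW0.le
      have : C1 * 1 ≤ C1 * (1 + Real.log x) ^ 2 := mul_le_mul_of_nonneg_left h10 hC1.le
      linarith
    _ = _ := by ring

end Pool.Agent.Helper77.RS
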