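import Pool.Agent.Helper77.RS.Ker
import Pool.Graph.R_seed8.TH800.LD.Ker

/-! The smoothed indicator of a window. -/

open MeasureTheory Filter Topology Set

namespace Pool.Agent.Helper77.RS

/-- the weight -/
noncomputable def vw (a l u : ℝ) : ℝ := 2 * a / Real.pi * Real.sinc (a * u) * Bm (u / l)

lemma vw_cont (a l : ℝ) : Continuous (vw a l) := by
  unfold vw
  have h1 := Real.continuous_sinc
  have h2 := Bm_cont
  fun_prop

lemma vw_abs {a : ℝ} (ha : 0 ≤ a) (l u : ℝ) : |vw a l u| ≤ 2 * a / Real.pi := by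
  have hpi := Real.pi_pos
  unfold vw
  have h1 := Real.abs_sinc_le_one (a * u)
  have h2 := Bm_nonneg (u / l)
  have h3 := Bm_le (u / l)
  have h4 : 0 ≤ 2 * a / Real.pi := by positivity
  rw [abs_mul, abs_mul, abs_of_nonneg h4, abs_of_nonneg h2]
  calc 2 * a / Real.pi * |Real.sinc (a * u)| * Bm (u / l) ≤ 2 * a / Real.pi * 1 * 1 := by
        apply mul_le_mul _ h3 h2 (by positivity)
        exact mul_le_mul_of_nonneg_left h1 h4
    _ = _ := by ring

lemma vw_zero {a l u : ℝ} (hl : 0 < l) (hu : l ≤ u) : vw a l u = 0 := by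
  unfold vw
  rw [Bm_zero, mul_zero]
  have : 1 ≤ u / l := by rw [le_div_iff₀ hl]; linarith
  exact this.trans (le_abs_self _)

/-- the smoothed indicator -/
noncomputable def fw (a l y : ℝ) : ℝ := 1 / Real.pi * ∫ X in (l * (y - a))..(l * (y + a)), J X

lemma int_Bm {l : ℝ} (hl : 0 < l) (z : ℝ) :
    ∫ u in (0 : ℝ)..l, Bm (u / l) * Real.cos (u * z) = l * J (l * z) := by
  have h1 := intervalIntegral.smul_integral_comp_mul_left (a := 0) (b := 1)
    (fun u => Bm (u / l) * Real.cos (u * z)) l
  rw [mul_zero, mul_one] at h1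
  rw [← h1, smul_eq_mul]
  congr 1
  unfold J
  apply intervalIntegral.integral_congr
  intro v hv
  rw [uIcc_of_le zero_le_one] at hv
  simp only
  rw [mul_div_cancel_left₀ _ hl.ne', Bm_eq (by rw [abs_of_nonneg hv.1]; exact hv.2)]
  congr 2
  ring

lemma fw_eq {a l L : ℝ} (ha : 0 < a) (hl : 0 < l) (hL : l ≤ L) (y : ℝ) :
    ∫ u in (0 : ℝ)..L, vw a l u * Real.cos (u * y) = fw a l y := by
  have hpi := Real.pi_pos
  have hc : Continuous (fun u => vw a l u * Real.cos (u * y)) := by
    have := vw_cont a l
    fun_prop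
  rw [← intervalIntegral.integral_add_adjacent_intervals (hc.intervalIntegrable 0 l)
    (hc.intervalIntegrable l L)]
  have h1 : ∫ u in l..L, vw a l u * Real.cos (u * y) = 0 := by
    have : ∀ u ∈ uIcc l L, vw a l u * Real.cos (u * y) = 0 := by
      intro u hu
      rw [uIcc_of_le hL] at hu
      rw [vw_zero hl hu.1, zero_mul]
    rw [intervalIntegral.integral_congr this]
    simp
  rw [h1, add_zero]
  have h2 : ∀ u ∈ uIcc 0 l, vw a l u * Real.cos (u * y) =
      1 / Real.pi * ∫ v in (-a)..a, Bm (u / l) * Real.cos (u * (y - v)) := by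
    intro u _
    rw [intervalIntegral.integral_const_mul]
    have h3 := Pool.Agent.TH800.LD.sinc_cos (a := a) (u := u) (x := y) ha
    unfold vw
    calc 2 * a / Real.pi * Real.sinc (a * u) * Bm (u / l) * Real.cos (u * y)
        = 1 / Real.pi * (Bm (u / l) * (a * (2 * Real.sinc (a * u) * Real.cos (u * y)))) := by ring
      _ = _ := by
        rw [h3]
        congr 2
        rw [← mul_assoc, mul_one_div_cancel ha.ne', one_mul]
  rw [intervalIntegral.integral_congr h2, intervalIntegral.integral_const_mul]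
  unfold fw
  congr 1
  rw [intervalIntegral_intervalIntegral_swap]
  · have h3 : ∀ v ∈ uIcc (-a) a, ∫ u in (0 : ℝ)..l, Bm (u / l) * Real.cos (u * (y - v)) = l * J (l * y - l * v) := by
      intro v _
      rw [int_Bm hl, mul_sub]
    rw [intervalIntegral.integral_congr h3, intervalIntegral.integral_const_mul]
    have h4 := intervalIntegral.smul_integral_comp_sub_mul (a := -a) (b := a) J l (l * y)
    rw [smul_eq_mul] at h4
    rw [h4]
    congr 1 <;> ring
  · rw [uIoc_of_le hl.le, uIoc_of_le (by linarith : -a ≤ a)]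
    have hB := Bm_cont
    have : Continuous (Function.uncurry fun u v : ℝ => Bm (u / l) * Real.cos (u * (y - v))) := by
      simp only [Function.uncurry_def]
      fun_prop
    exact (this.continuousOn.integrableOn_compact (isCompact_Icc.prod isCompact_Icc)).mono_set
      (Set.prod_mono Ioc_subset_Icc_self Ioc_subset_Icc_self)

/-- tails of the kernel -/
noncomputable def TJ (X : ℝ) : ℝ := ∫ s in Ioi X, J s

lemma TJ_neg (X : ℝ) : TJ (-X) = Real.pi - TJ X := by
  unfold TJ
  have h1 : ∫ s in Ioi (-X), J s = ∫ s in Iic X, J s := by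
    have := integral_comp_neg_Iic X J
    simp only [J_even] at this
    exact this.symm
  have h2 := intervalIntegral.integral_Iic_add_Ioi (b := X) (f := J) (μ := volume) J_int.integrableOn J_int.integrableOn
  rw [J_mass] at h2
  rw [h1]
  linarith

lemma TJ_sub (p q : ℝ) : ∫ s in p..q, J s = TJ p - TJ q := by
  unfold TJ
  exact (intervalIntegral.integral_Ioi_sub_Ioi' (J_int.integrableOn) (J_int.integrableOn)).symm

/-- indicator of the window -/
noncomputable def iw (a y : ℝ) : ℝ := if |y| ≤ a then 1 else 0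

/-- the error function -/
noncomputable def ew (a l y : ℝ) : ℝ := 1 / (1 + (l * (y - a)) ^ 2) + 1 / (1 + (l * (y + a)) ^ 2)

lemma fw_err {a l : ℝ} (ha : 0 < a) (hl : 0 < l) (y : ℝ) : |fw a l y - iw a y| ≤ 113 * ew a l y := by
  have hpi := Real.pi_pos
  have hpi2 : 1 / Real.pi * 352 ≤ 113 := by
    have := Real.pi_gt_d2
    rw [div_mul_eq_mul_div, div_le_iff₀ hpi]
    linarith
  have ht : ∀ X : ℝ, 0 ≤ X → |TJ X| ≤ 352 * (1 / (1 + X ^ 2)) := by
    intro X hX
    have := J_tail hX
    rw [one_div]
    exact this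
  set p := l * (y - a) with hp
  set q := l * (y + a) with hq
  have hfin : ∀ u v : ℝ, |u| ≤ 352 * (1 / (1 + p ^ 2)) → |v| ≤ 352 * (1 / (1 + q ^ 2)) →
      |1 / Real.pi * (u + v)| ≤ 113 * ew a l y := by
    intro u v hu hv
    rw [abs_mul, abs_of_pos (by positivity)]
    calc 1 / Real.pi * |u + v| ≤ 1 / Real.pi * (352 * (1 / (1 + p ^ 2)) + 352 * (1 / (1 + q ^ 2))) := by
          apply mul_le_mul_of_nonneg_left _ (by positivity)
          exact (abs_add_le _ _).trans (add_le_add hu hv)
      _ = 1 / Real.pi * 352 * ew a l y := by unfold ew; ring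
      _ ≤ _ := by
        apply mul_le_mul_of_nonneg_right hpi2
        unfold ew
        positivity
  unfold fw
  rw [← hp, ← hq, TJ_sub]
  unfold iw
  split_ifs with h
  · rw [abs_le] at h
    have hp0 : p ≤ 0 := by
      rw [hp]
      exact mul_nonpos_of_nonneg_of_nonpos hl.le (by linarith)
    have hq0 : 0 ≤ q := by
      rw [hq]
      exact mul_nonneg hl.le (by linarith)
    have h1 := TJ_neg (-p)
    rw [neg_neg] at h1
    rw [h1]
    have h2 : 1 / Real.pi * (Real.pi - TJ (-p) - TJ q) - 1 = 1 / Real.pi * (-TJ (-p) + -TJ q) := by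
      field_simp
      ring
    rw [h2]
    apply hfin
    · rw [abs_neg]
      have := ht (-p) (by linarith)
      rwa [neg_sq] at this
    · rw [abs_neg]
      exact ht q hq0
  · rw [sub_zero]
    rcases lt_or_ge y 0 with hy | hy
    · rw [abs_of_neg hy] at h
      push Not at h
      have hq0 : q ≤ 0 := by
        rw [hq]
        exact mul_nonpos_of_nonneg_of_nonpos hl.le (by linarith)
      have hp0 : p ≤ 0 := by
        rw [hp]
        exact mul_nonpos_of_nonneg_of_nonpos hl.le (by linarith)
      have h1 := TJ_neg (-p)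
      have h2 := TJ_neg (-q)
      rw [neg_neg] at h1 h2
      rw [h1, h2, show Real.pi - TJ (-p) - (Real.pi - TJ (-q)) = -TJ (-p) + TJ (-q) by ring]
      apply hfin
      · rw [abs_neg]
        have := ht (-p) (by linarith)
        rwa [neg_sq] at this
      · have := ht (-q) (by linarith)
        rwa [neg_sq] at this
    · rw [abs_of_nonneg hy] at h
      push Not at h
      have hq0 : 0 ≤ q := by
        rw [hq]
        exact mul_nonneg hl.le (by linarith)
      have hp0 : 0 ≤ p := by
        rw [hp]
        exact mul_nonneg hl.le (by linarith)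
      rw [sub_eq_add_neg]
      apply hfin
      · exact ht p hp0
      · rw [abs_neg]
        exact ht q hq0

end Pool.Agent.Helper77.RS
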