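import Pool.Agent.Helper77.RS.Wcl
import Pool.Graph.R_pool_sql_team_seeded_620a6dc7.H707.NB.Avg

/-! From the window counts to the distances of `r`-th neighbours. -/

open Filter Topology Set MeasureTheory

namespace Pool.Agent.Helper77.RS

open SG (ord NZ)
open Pool.Agent.H707.SM (chi chi_of_mem chi_of_not chi_int integral_chi Bx_eq XV_large)
open Pool.Agent.H707.NB (exists_idx sp sp_le exc lc lc_nonneg lc_le)
open Pool.Agent.H707.NV (cn cn_log cn_meas cn_nonneg hl hl_XV cn_pow_ii cn_bdd MM MM_le MM_eq_cn MM_supp MM_nonneg int_MM MM_int first)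
open Pool.Agent.Y747 (Bx mem_Bx)
open Pool.Agent.TH873.EW (XV)

/-- pointwise: pairs `(n, n + r)` in a window -/
lemma pairs_pt {y : ℕ → ℝ} {a b : ℕ} (hab : a ≤ b)
    (hy : ∀ n k : ℕ, a ≤ n → n ≤ k → k ≤ b → y n ≤ y k) {h : ℝ} (hh : 0 ≤ h) (r : ℕ) (t : ℝ) :
    ∑ n ∈ (Finset.Icc a b).filter (fun n => n + r ≤ b), chi (y (n + r) - h) (y n) t =
      max 0 ((∑ n ∈ Finset.Icc a b, chi (y n - h) (y n) t) - r) := by
  classical
  obtain ⟨p, hp1, hp2, hp⟩ := exists_idx hab hy t
  obtain ⟨q, hq1, hq2, hq⟩ := exists_idx hab hy (t + h)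
  have hpq : p ≤ q := by
    by_contra hc
    rw [not_le] at hc
    have h1 := (hp q hq1 (by omega)).2 hc
    have h2 := (hq q hq1 (by omega)).1 (by linarith)
    omega
  have hM : ∑ n ∈ Finset.Icc a b, chi (y n - h) (y n) t = ((q - p : ℕ) : ℝ) := by
    have h1 : ∑ n ∈ Finset.Icc a b, chi (y n - h) (y n) t =
        (((Finset.Icc a b).filter (fun n => p ≤ n ∧ n < q)).card : ℝ) := by
      rw [Finset.card_filter]
      push_cast
      apply Finset.sum_congr rfl
      intro n hn
      rw [Finset.mem_Icc] at hn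
      have a1 := hp n hn.1 hn.2
      have a2 := hq n hn.1 hn.2
      split_ifs with hc
      · apply chi_of_mem
        · have := a2.2 hc.2
          linarith
        · by_contra h3
          rw [not_lt] at h3
          have := a1.1 h3
          omega
      · apply chi_of_not
        rintro ⟨h3, h4⟩
        apply hc
        constructor
        · by_contra h5
          rw [not_le] at h5
          have := a1.2 h5
          linarith
        · exact a2.1 (by linarith)
    have h2 : (Finset.Icc a b).filter (fun n => p ≤ n ∧ n < q) = Finset.Ico p q := by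
      ext n
      rw [Finset.mem_filter, Finset.mem_Icc, Finset.mem_Ico]
      omega
    rw [h1, h2, Nat.card_Ico]
  have hN : ∑ n ∈ (Finset.Icc a b).filter (fun n => n + r ≤ b), chi (y (n + r) - h) (y n) t =
      ((q - r - p : ℕ) : ℝ) := by
    have h1 : ∑ n ∈ (Finset.Icc a b).filter (fun n => n + r ≤ b), chi (y (n + r) - h) (y n) t =
        ((((Finset.Icc a b).filter (fun n => n + r ≤ b)).filter (fun n => p ≤ n ∧ n + r < q)).card : ℝ) := by
      rw [Finset.card_filter]
      push_cast
      apply Finset.sum_congr rfl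
      intro n hn
      rw [Finset.mem_filter, Finset.mem_Icc] at hn
      have a1 := hp n hn.1.1 hn.1.2
      have a2 := hq (n + r) (by omega) hn.2
      split_ifs with hc
      · apply chi_of_mem
        · have := a2.2 hc.2
          linarith
        · by_contra h3
          rw [not_lt] at h3
          have := a1.1 h3
          omega
      · apply chi_of_not
        rintro ⟨h3, h4⟩
        apply hc
        constructor
        · by_contra h5
          rw [not_le] at h5
          have := a1.2 h5
          linarith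
        · exact a2.1 (by linarith)
    have h2 : ((Finset.Icc a b).filter (fun n => n + r ≤ b)).filter (fun n => p ≤ n ∧ n + r < q) = Finset.Ico p (q - r) := by
      ext n
      rw [Finset.mem_filter, Finset.mem_filter, Finset.mem_Icc, Finset.mem_Ico]
      omega
    rw [h1, h2, Nat.card_Ico]
  rw [hM, hN]
  rcases le_total (q - p) r with hc | hc
  · have h1 : q - r - p = 0 := by omega
    have h2 : ((q - p : ℕ) : ℝ) ≤ r := by exact_mod_cast hc
    rw [h1, Nat.cast_zero, max_eq_left (by linarith)]
  · have h1 : q - r - p = (q - p) - r := by omega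
    have h2 : (r : ℝ) ≤ ((q - p : ℕ) : ℝ) := by exact_mod_cast hc
    rw [h1, Nat.cast_sub hc, max_eq_right (by linarith)]

/-- **the identity** -/
theorem pairs_int {y : ℕ → ℝ} {a b : ℕ} (hab : a ≤ b)
    (hy : ∀ n k : ℕ, a ≤ n → n ≤ k → k ≤ b → y n ≤ y k) {h : ℝ} (hh : 0 ≤ h) (r : ℕ) :
    ∑ n ∈ (Finset.Icc a b).filter (fun n => n + r ≤ b), max 0 (h - (y (n + r) - y n)) =
      ∫ t, max 0 ((∑ n ∈ Finset.Icc a b, chi (y n - h) (y n) t) - r) := by
  simp_rw [← pairs_pt hab hy hh r]
  rw [integral_finsetSum _ fun n _ => chi_int _ _]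
  apply Finset.sum_congr rfl
  intro n _
  rw [integral_chi]
  congr 1
  ring

lemma U_facts {x : ℝ} (hx : 0 < x) : ∀ᶠ V : ℝ in atTop, hl x V ≤ 1 ∧ 0 ≤ hl x V := by
  filter_upwards [basics x hx 1] with T ⟨hTT, hT10, hL1, ha0, ha1, hU, hL0, hL3⟩
  rw [hl_aa]
  constructor <;> linarith

/-- the sum over a block as an integral over the smaller interval -/
theorem block_pairs {x : ℝ} (hx : 0 < x) {ε : ℝ} (hε : 0 < ε) (r : ℕ) : ∀ᶠ V : ℝ in atTop,
    |(∑ n ∈ (Bx V).filter (fun n => n + r ∈ Bx V), max 0 (hl x V - (ord (n + r) - ord n))) -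
      ∫ t in (U1 V)..(U2 V), max 0 (cn (hl x V) t - r)| ≤ ε * V := by
  obtain ⟨C3, hC3, h3⟩ := cn_log
  have e1 : ∀ᶠ T : ℝ in atTop, (3 * Real.log T) * (C3 * Real.log (2 * T)) ≤ ε * T := by
    have h1 : (fun T : ℝ => Real.log T ^ 2) =o[atTop] fun T => T := Real.isLittleO_pow_log_id_atTop
    have h2 := h1.bound (show (0 : ℝ) < ε / (6 * C3) by positivity)
    filter_upwards [h2, basics x hx 1] with T h4 ⟨hTT, hT10, hL1, ha0, ha1, hU, hL0, hL3⟩
    rw [Real.norm_eq_abs, Real.norm_eq_abs, abs_of_nonneg (by positivity), abs_of_nonneg (by linarith)] at h4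
    have hL2 : Real.log (2 * T) ≤ 2 * Real.log T := by
      rw [Real.log_mul (by norm_num) (by linarith)]
      have := Real.log_two_lt_d9
      linarith
    calc (3 * Real.log T) * (C3 * Real.log (2 * T)) ≤ (3 * Real.log T) * (C3 * (2 * Real.log T)) := by
          gcongr
      _ = 6 * C3 * Real.log T ^ 2 := by ring
      _ ≤ 6 * C3 * (ε / (6 * C3) * T) := by gcongr
      _ = ε * T := by field_simp
  obtain ⟨V2, hV2⟩ := XV_large 1
  filter_upwards [basics x hx (max 4 V2), e1] with V ⟨hTT, hT10, hL1, ha0, ha1, hU, hL0, hL3⟩ h4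
  have hh0 : 0 ≤ hl x V := by rw [hl_aa]; linarith
  have hh1 : hl x V ≤ 1 := by rw [hl_aa]; linarith
  set h := hl x V with hhdef
  have hU1 : V ≤ U1 V := by unfold U1; linarith
  have hU2 : U2 V ≤ 2 * V := by unfold U2; linarith
  -- the sum
  have hsum : ∑ n ∈ (Bx V).filter (fun n => n + r ∈ Bx V), max 0 (h - (ord (n + r) - ord n)) =
      ∫ t, max 0 (MM V h t - r) := by
    set a := NZ (V + 1) + 1 with ha
    set b := NZ (2 * V - 1) with hb
    have hBx : Bx V = Finset.Icc a b := Bx_eq V
    have hfil : (Bx V).filter (fun n => n + r ∈ Bx V) = (Finset.Icc a b).filter (fun n => n + r ≤ b) := by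
      rw [hBx]
      ext n
      rw [Finset.mem_filter, Finset.mem_filter, Finset.mem_Icc, Finset.mem_Icc]
      omega
    rw [hfil]
    rcases Nat.lt_or_ge b a with hab | hab
    · have : Finset.Icc a b = ∅ := Finset.Icc_eq_empty (by omega)
      rw [this, Finset.filter_empty, Finset.sum_empty]
      have h5 : ∀ t, max 0 (MM V h t - r) = 0 := by
        intro t
        unfold MM
        rw [hBx, this, Finset.sum_empty]
        apply max_eq_left
        have : (0 : ℝ) ≤ r := Nat.cast_nonneg r
        linarith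
      simp_rw [h5]
      simp
    · rw [pairs_int hab (fun n k h1 h2 _ => SG.ord_mono (by omega) h2) hh0 r]
      congr 1
      funext t
      unfold MM
      rw [hBx]
  rw [hsum]
  -- restrict to the block
  set F : ℝ → ℝ := fun t => max 0 (MM V h t - r) with hF
  have hMMm : Measurable (MM V h) := by
    unfold MM
    apply Finset.measurable_sum
    intro n _
    unfold Pool.Agent.H707.SM.chi
    exact measurable_const.indicator measurableSet_Ico
  have hF0 : ∀ t, 0 ≤ F t := fun t => le_max_left _ _
  have hFle : ∀ t, F t ≤ MM V h t := by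
    intro t
    rw [hF]
    apply max_le (MM_nonneg V h t)
    have : (0 : ℝ) ≤ r := Nat.cast_nonneg r
    linarith
  have hFi : Integrable F := by
    refine (MM_int V h).mono' ((measurable_const.max (hMMm.sub_const _))).aestronglyMeasurable ?_
    refine ae_of_all _ fun t => ?_
    rw [Real.norm_eq_abs, abs_of_nonneg (hF0 t)]
    exact hFle t
  have hFsupp : ∀ t, t ∉ Ioc V (2 * V) → F t = 0 := by
    intro t ht
    have := MM_supp (V := V) (h := h) (t := t) hh1 (by simpa [mem_Ioc] using ht)
    rw [hF]
    simp only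
    rw [this]
    apply max_eq_left
    have : (0 : ℝ) ≤ r := Nat.cast_nonneg r
    linarith
  have hint : ∫ t, F t = ∫ t in V..(2 * V), F t := by
    rw [intervalIntegral.integral_of_le (by linarith)]
    exact (setIntegral_eq_integral_of_forall_compl_eq_zero hFsupp).symm
  have hsplit : ∫ t in V..(2 * V), F t = (∫ t in V..(U1 V), F t) +
      (∫ t in (U1 V)..(U2 V), F t) + ∫ t in (U2 V)..(2 * V), F t := by
    rw [intervalIntegral.integral_add_adjacent_intervals hFi.intervalIntegrable hFi.intervalIntegrable,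
      intervalIntegral.integral_add_adjacent_intervals hFi.intervalIntegrable hFi.intervalIntegrable]
  have hmid : ∫ t in (U1 V)..(U2 V), F t = ∫ t in (U1 V)..(U2 V), max 0 (cn h t - r) := by
    apply intervalIntegral.integral_congr
    intro t ht
    rw [uIcc_of_le hU] at ht
    simp only [hF]
    unfold U1 U2 at ht
    rw [MM_eq_cn hh0 (by linarith [ht.1]) (by linarith [ht.2])]
  have hbd : ∀ t ∈ Icc V (2 * V), F t ≤ C3 * Real.log (2 * V) := by
    intro t ht
    exact (hFle t).trans ((MM_le hh0).trans (h3 V (by linarith) h hh1 t ht))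
  have hl20 : 0 ≤ C3 * Real.log (2 * V) := mul_nonneg hC3.le (Real.log_nonneg (by linarith))
  have hg1 : 0 ≤ ∫ t in V..(U1 V), F t := intervalIntegral.integral_nonneg hU1 fun t _ => hF0 t
  have hg2 : 0 ≤ ∫ t in (U2 V)..(2 * V), F t := intervalIntegral.integral_nonneg hU2 fun t _ => hF0 t
  have hg3 : ∫ t in V..(U1 V), F t ≤ (U1 V - V) * (C3 * Real.log (2 * V)) := by
    have := intervalIntegral.integral_mono_on hU1 hFi.intervalIntegrable (intervalIntegrable_const (c := (C3 * Real.log (2 * V))))
      (fun t ht => hbd t ⟨ht.1, ht.2.trans (hU.trans hU2)⟩)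
    rw [intervalIntegral.integral_const, smul_eq_mul] at this
    exact this
  have hg4 : ∫ t in (U2 V)..(2 * V), F t ≤ (2 * V - U2 V) * (C3 * Real.log (2 * V)) := by
    have := intervalIntegral.integral_mono_on hU2 hFi.intervalIntegrable (intervalIntegrable_const (c := (C3 * Real.log (2 * V))))
      (fun t ht => hbd t ⟨hU1.trans (hU.trans ht.1), ht.2⟩)
    rw [intervalIntegral.integral_const, smul_eq_mul] at this
    exact this
  have hs2 : (U1 V - V) * (C3 * Real.log (2 * V)) + (2 * V - U2 V) * (C3 * Real.log (2 * V)) ≤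
      3 * Real.log V * (C3 * Real.log (2 * V)) := by
    rw [← add_mul]
    apply mul_le_mul_of_nonneg_right _ hl20
    unfold U1 U2
    linarith
  rw [hint, hsplit, hmid, abs_le]
  constructor <;> linarith

end Pool.Agent.Helper77.RS
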