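import Pool.Agent.Helper77.RS.Law
import Pool.Graph.R_pool_sql_team_seeded_620a6dc7.H707.NV.Fou

/-! The smoothing kernel. -/

open MeasureTheory Filter Topology Set
open scoped FourierTransform

namespace Pool.Agent.Helper77.RS

/-- the kernel -/
noncomputable def J (X : ℝ) : ℝ := ∫ v in (0 : ℝ)..1, (1 - v ^ 2) ^ 2 * Real.cos (v * X)

lemma J_even (X : ℝ) : J (-X) = J X := by
  unfold J
  apply intervalIntegral.integral_congr
  intro v _
  simp only
  rw [mul_neg, Real.cos_neg]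

lemma J_cont : Continuous J := by
  unfold J
  apply intervalIntegral.continuous_parametric_intervalIntegral_of_continuous' (f := fun X v => (1 - v ^ 2) ^ 2 * Real.cos (v * X))
  fun_prop

lemma J_abs1 (X : ℝ) : |J X| ≤ 1 := by
  unfold J
  have h : ∀ v ∈ uIoc (0 : ℝ) 1, ‖(1 - v ^ 2) ^ 2 * Real.cos (v * X)‖ ≤ 1 := by
    intro v hv
    rw [uIoc_of_le zero_le_one] at hv
    rw [norm_mul, Real.norm_eq_abs, Real.norm_eq_abs]
    have h1 := Real.abs_cos_le_one (v * X)
    have h2 : v ^ 2 ≤ 1 := by nlinarith [hv.1, hv.2]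
    have h3 : |(1 - v ^ 2) ^ 2| ≤ 1 := by
      rw [abs_of_nonneg (by positivity)]
      nlinarith [sq_nonneg v]
    calc _ ≤ (1 : ℝ) * 1 := mul_le_mul h3 h1 (abs_nonneg _) zero_le_one
      _ = 1 := one_mul 1
  have := intervalIntegral.norm_integral_le_of_norm_le_const h
  simpa using this

lemma J_closed {X : ℝ} (hX : X ≠ 0) :
    J X = 8 * ((3 - X ^ 2) * Real.sin X - 3 * X * Real.cos X) / X ^ 5 := by
  unfold J
  have hd : ∀ v ∈ uIcc (0 : ℝ) 1, HasDerivAt (fun v : ℝ =>
      (1 - v ^ 2) ^ 2 * Real.sin (v * X) / X + (-4 * v + 4 * v ^ 3) * Real.cos (v * X) / X ^ 2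
      - (-4 + 12 * v ^ 2) * Real.sin (v * X) / X ^ 3 - 24 * v * Real.cos (v * X) / X ^ 4
      + 24 * Real.sin (v * X) / X ^ 5) ((1 - v ^ 2) ^ 2 * Real.cos (v * X)) v := by
    intro v _
    have h0 : HasDerivAt (fun v : ℝ => v * X) X v := by simpa using (hasDerivAt_id v).mul_const X
    have hs : HasDerivAt (fun v : ℝ => Real.sin (v * X)) (Real.cos (v * X) * X) v := h0.sin
    have hc : HasDerivAt (fun v : ℝ => Real.cos (v * X)) (-Real.sin (v * X) * X) v := h0.cos
    have p2 : HasDerivAt (fun v : ℝ => v ^ 2) (2 * v) v := by simpa using hasDerivAt_pow 2 v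
    have p3 : HasDerivAt (fun v : ℝ => v ^ 3) (3 * v ^ 2) v := by simpa using hasDerivAt_pow 3 v
    have q1 : HasDerivAt (fun v : ℝ => (1 - v ^ 2) ^ 2) (2 * (1 - v ^ 2) * (-(2 * v))) v := by
      have := (p2.const_sub 1).fun_pow 2
      simpa using this
    have q2 : HasDerivAt (fun v : ℝ => -4 * v + 4 * v ^ 3) (-4 + 4 * (3 * v ^ 2)) v := by
      have := ((hasDerivAt_id v).const_mul (-4 : ℝ)).fun_add (p3.const_mul 4)
      simpa using this
    have q3 : HasDerivAt (fun v : ℝ => -4 + 12 * v ^ 2) (12 * (2 * v)) v := by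
      have := (p2.const_mul 12).const_add (-4 : ℝ)
      simpa using this
    have q4 : HasDerivAt (fun v : ℝ => 24 * v) 24 v := by
      have := (hasDerivAt_id v).const_mul (24 : ℝ)
      simpa using this
    have e1 := (q1.mul hs).div_const X
    have e2 := (q2.mul hc).div_const (X ^ 2)
    have e3 := (q3.mul hs).div_const (X ^ 3)
    have e4 := (q4.mul hc).div_const (X ^ 4)
    have e5 := (hs.const_mul 24).div_const (X ^ 5)
    have e := (((e1.add e2).sub e3).sub e4).add e5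
    refine e.congr_deriv ?_
    field_simp
    ring
  rw [intervalIntegral.integral_eq_sub_of_hasDerivAt hd
    (by apply Continuous.intervalIntegrable; fun_prop)]
  simp
  field_simp
  ring

lemma J_abs3 {X : ℝ} (hX : 1 ≤ |X|) : |J X| ≤ 56 / |X| ^ 3 := by
  have h0 : X ≠ 0 := by
    intro h
    rw [h, abs_zero] at hX
    linarith
  have hp : 0 < |X| := by linarith
  rw [J_closed h0, abs_div, abs_pow, abs_mul, abs_of_pos (by norm_num : (0:ℝ) < 8)]
  have h1 : |(3 - X ^ 2) * Real.sin X - 3 * X * Real.cos X| ≤ 7 * |X| ^ 2 := by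
    have h2 : |(3 - X ^ 2) * Real.sin X| ≤ 3 + |X| ^ 2 := by
      rw [abs_mul]
      have h3 : |3 - X ^ 2| ≤ 3 + |X| ^ 2 := by
        have := abs_sub (3 : ℝ) (X ^ 2)
        rw [abs_pow, abs_of_pos (by norm_num : (0:ℝ) < 3)] at this
        exact this
      calc _ ≤ (3 + |X| ^ 2) * 1 := mul_le_mul h3 (Real.abs_sin_le_one X) (abs_nonneg _) (by positivity)
        _ = _ := mul_one _
    have h4 : |3 * X * Real.cos X| ≤ 3 * |X| := by
      rw [abs_mul, abs_mul, abs_of_pos (by norm_num : (0:ℝ) < 3)]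
      calc _ ≤ 3 * |X| * 1 := mul_le_mul_of_nonneg_left (Real.abs_cos_le_one X) (by positivity)
        _ = _ := mul_one _
    have h5 := abs_sub ((3 - X ^ 2) * Real.sin X) (3 * X * Real.cos X)
    nlinarith
  rw [div_le_div_iff₀ (by positivity) (by positivity)]
  calc 8 * |(3 - X ^ 2) * Real.sin X - 3 * X * Real.cos X| * |X| ^ 3 ≤ 8 * (7 * |X| ^ 2) * |X| ^ 3 := by gcongr
    _ = 56 * |X| ^ 5 := by ring

lemma J_bound (X : ℝ) : |J X| ≤ 112 * (1 + X ^ 2)⁻¹ := by
  rw [← div_eq_mul_inv, le_div_iff₀ (by positivity)]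
  rcases le_total 1 |X| with h | h
  · have h1 := J_abs3 h
    have hp : 0 < |X| := by linarith
    rw [le_div_iff₀ (by positivity)] at h1
    have h2 : 0 ≤ |J X| := abs_nonneg _
    have h3 : X ^ 2 = |X| ^ 2 := (sq_abs X).symm
    rw [h3]
    have h4 : |J X| * |X| ^ 2 ≤ |J X| * |X| ^ 3 := by
      apply mul_le_mul_of_nonneg_left _ h2
      exact pow_le_pow_right₀ h (by norm_num)
    have h5 : |J X| ≤ |J X| * |X| ^ 3 := by
      have : 1 ≤ |X| ^ 3 := one_le_pow₀ h
      nlinarith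
    linarith
  · have h1 := J_abs1 X
    have h3 : X ^ 2 ≤ 1 := by rw [← sq_abs]; nlinarith [abs_nonneg X]
    nlinarith [abs_nonneg (J X), sq_nonneg X]

lemma J_int : Integrable J := by
  refine (integrable_inv_one_add_sq.const_mul 112).mono' J_cont.aestronglyMeasurable ?_
  exact ae_of_all _ fun X => J_bound X

/-- the multiplier -/
noncomputable def Bm (v : ℝ) : ℝ := (max 0 (1 - v ^ 2)) ^ 2

lemma Bm_cont : Continuous Bm := by unfold Bm; fun_prop

lemma Bm_zero {v : ℝ} (hv : 1 ≤ |v|) : Bm v = 0 := by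
  unfold Bm
  have : 1 ≤ v ^ 2 := by rw [← sq_abs]; exact one_le_pow₀ hv
  rw [max_eq_left (by linarith)]
  ring

lemma Bm_eq {v : ℝ} (hv : |v| ≤ 1) : Bm v = (1 - v ^ 2) ^ 2 := by
  unfold Bm
  have : v ^ 2 ≤ 1 := by rw [← sq_abs]; nlinarith [abs_nonneg v]
  rw [max_eq_right (by linarith)]

lemma Bm_nonneg (v : ℝ) : 0 ≤ Bm v := by unfold Bm; positivity

lemma Bm_le (v : ℝ) : Bm v ≤ 1 := by
  unfold Bm
  have : max 0 (1 - v ^ 2) ≤ 1 := max_le zero_le_one (by nlinarith [sq_nonneg v])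
  exact pow_le_one₀ (le_max_left _ _) this

lemma J_fourier (w : ℝ) : 𝓕 (fun v : ℝ => ((Bm v : ℝ) : ℂ)) w = ((2 * J (2 * Real.pi * w) : ℝ) : ℂ) := by
  rw [Real.fourier_eq']
  have h1 : ∀ v : ℝ, Complex.exp (((-2 * Real.pi * inner ℝ v w : ℝ) : ℂ) * Complex.I) • ((Bm v : ℝ) : ℂ) =
      (Icc (-1 : ℝ) 1).indicator (fun v : ℝ => Complex.exp (((-2 * Real.pi * inner ℝ v w : ℝ) : ℂ) * Complex.I) * (((1 - v ^ 2) ^ 2 : ℝ) : ℂ)) v := by
    intro v
    by_cases hv : v ∈ Icc (-1 : ℝ) 1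
    · rw [indicator_of_mem hv, Bm_eq (abs_le.2 hv), smul_eq_mul]
    · rw [indicator_of_notMem hv, Bm_zero, Complex.ofReal_zero, smul_zero]
      by_contra hc
      push Not at hc
      exact hv (abs_le.1 hc.le)
  simp_rw [h1]
  rw [integral_indicator measurableSet_Icc, integral_Icc_eq_integral_Ioc,
    ← intervalIntegral.integral_of_le (by norm_num : (-1 : ℝ) ≤ 1)]
  have hc : Continuous (fun v : ℝ => Complex.exp (((-2 * Real.pi * inner ℝ v w : ℝ) : ℂ) * Complex.I) * (((1 - v ^ 2) ^ 2 : ℝ) : ℂ)) := by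
    fun_prop
  rw [← intervalIntegral.integral_add_adjacent_intervals (hc.intervalIntegrable (-1) 0) (hc.intervalIntegrable 0 1)]
  have h2 : ∫ v in (-1 : ℝ)..0, Complex.exp (((-2 * Real.pi * inner ℝ v w : ℝ) : ℂ) * Complex.I) * (((1 - v ^ 2) ^ 2 : ℝ) : ℂ) =
      ∫ v in (0 : ℝ)..1, Complex.exp (((-2 * Real.pi * inner ℝ (-v) w : ℝ) : ℂ) * Complex.I) * (((1 - (-v) ^ 2) ^ 2 : ℝ) : ℂ) := by
    rw [intervalIntegral.integral_comp_neg (fun v : ℝ => Complex.exp (((-2 * Real.pi * inner ℝ v w : ℝ) : ℂ) * Complex.I) * (((1 - v ^ 2) ^ 2 : ℝ) : ℂ))]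
    simp
  rw [h2, ← intervalIntegral.integral_add]
  · unfold J
    rw [← intervalIntegral.integral_const_mul, ← intervalIntegral.integral_ofReal]
    apply intervalIntegral.integral_congr
    intro v _
    simp only
    have h3 : (inner ℝ v w : ℝ) = v * w := by simp [mul_comm]
    have h4 : (inner ℝ (-v) w : ℝ) = -(v * w) := by simp [mul_comm]
    rw [h3, h4, neg_sq, ← add_mul]
    have h5 : Complex.exp (((-2 * Real.pi * -(v * w) : ℝ) : ℂ) * Complex.I) +
        Complex.exp (((-2 * Real.pi * (v * w) : ℝ) : ℂ) * Complex.I) = ((2 * Real.cos (v * (2 * Real.pi * w)) : ℝ) : ℂ) := by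
      push_cast
      rw [Complex.two_cos]
      congr 2 <;> ring
    rw [h5]
    push_cast
    ring
  · apply Continuous.intervalIntegrable
    fun_prop
  · exact hc.intervalIntegrable 0 1

lemma J_mass : ∫ X : ℝ, J X = Real.pi := by
  have hpi := Real.pi_pos
  have hc : Continuous (fun v : ℝ => ((Bm v : ℝ) : ℂ)) := Complex.continuous_ofReal.comp Bm_cont
  have hcs : HasCompactSupport (fun v : ℝ => ((Bm v : ℝ) : ℂ)) := by
    apply HasCompactSupport.of_support_subset_isCompact (K := Set.Icc (-1 : ℝ) 1) isCompact_Icc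
    intro y hy
    by_contra hcon
    apply hy
    simp only
    rw [Bm_zero, Complex.ofReal_zero]
    by_contra hcon2
    push Not at hcon2
    exact hcon (abs_le.1 hcon2.le)
  have hi := hc.integrable_of_hasCompactSupport (μ := volume) hcs
  have hF : 𝓕 (fun v : ℝ => ((Bm v : ℝ) : ℂ)) = fun w => ((2 * J (2 * Real.pi * w) : ℝ) : ℂ) := by
    funext w
    exact J_fourier w
  have hJ2 : Integrable (fun w : ℝ => 2 * J (2 * Real.pi * w)) :=
    (J_int.comp_mul_left' (by positivity)).const_mul 2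
  have hFi : Integrable (𝓕 (fun v : ℝ => ((Bm v : ℝ) : ℂ))) := by
    rw [hF]
    exact hJ2.ofReal
  have hinv := congrFun (hc.fourierInv_fourier_eq hi hFi) 0
  rw [hF, Real.fourierInv_eq'] at hinv
  simp only [inner_zero_right, mul_zero, Complex.ofReal_zero, zero_mul, Complex.exp_zero, one_smul] at hinv
  rw [integral_complex_ofReal] at hinv
  have h1 : Bm 0 = 1 := by
    unfold Bm
    norm_num
  rw [h1] at hinv
  have h2 : ∫ w : ℝ, 2 * J (2 * Real.pi * w) = 1 := by exact_mod_cast hinv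
  rw [integral_const_mul, Measure.integral_comp_mul_left] at h2
  rw [abs_of_pos (by positivity), smul_eq_mul] at h2
  field_simp at h2
  linarith

lemma J_half : ∫ X in Ioi (0 : ℝ), J X = Real.pi / 2 := by
  have h1 := integral_comp_abs (f := J)
  have h2 : ∫ x : ℝ, J |x| = ∫ x : ℝ, J x := by
    congr 1
    funext x
    rcases abs_choice x with h | h
    · rw [h]
    · rw [h, J_even]
  rw [h2, J_mass] at h1
  linarith

lemma J_tail {X : ℝ} (hX : 0 ≤ X) : |∫ s in Ioi X, J s| ≤ 352 * (1 + X ^ 2)⁻¹ := by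
  have hpi := Real.pi_pos
  rw [← div_eq_mul_inv, le_div_iff₀ (by positivity)]
  rcases le_total X 1 with h | h
  · have h1 : |∫ s in Ioi X, J s| ≤ ∫ s in Ioi X, 112 * (1 + s ^ 2)⁻¹ := by
      rw [← Real.norm_eq_abs]
      apply norm_integral_le_of_norm_le
      · exact (integrable_inv_one_add_sq.const_mul 112).integrableOn
      · exact ae_of_all _ fun s => J_bound s
    have h2 : ∫ s in Ioi X, 112 * (1 + s ^ 2)⁻¹ ≤ ∫ s in Ioi (0 : ℝ), 112 * (1 + s ^ 2)⁻¹ := by
      apply setIntegral_mono_set (integrable_inv_one_add_sq.const_mul 112).integrableOn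
      · exact ae_of_all _ fun s => by positivity
      · exact Filter.Eventually.of_forall fun s (hs : X < s) => lt_of_le_of_lt hX hs
    have h3 : ∫ s in Ioi (0 : ℝ), 112 * (1 + s ^ 2)⁻¹ = 112 * (Real.pi / 2) := by
      rw [integral_const_mul, integral_Ioi_inv_one_add_sq]
      simp
    have h4 : Real.pi ≤ 3.142 := by linarith [Real.pi_lt_d4]
    have h5 := abs_nonneg (∫ s in Ioi X, J s)
    nlinarith
  · have hX0 : 0 < X := by linarith
    have h1 : |∫ s in Ioi X, J s| ≤ ∫ s in Ioi X, 56 * s ^ (-3 : ℝ) := by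
      rw [← Real.norm_eq_abs]
      apply norm_integral_le_of_norm_le
      · exact ((integrableOn_Ioi_rpow_of_lt (by norm_num) hX0).const_mul 56)
      · refine (ae_restrict_iff' measurableSet_Ioi).2 (ae_of_all _ fun s hs => ?_)
        have hs1 : X < s := hs
        have h2 := J_abs3 (X := s) (by rw [abs_of_pos (by linarith)]; linarith)
        rw [abs_of_pos (by linarith : (0:ℝ) < s)] at h2
        rw [Real.norm_eq_abs]
        refine h2.trans (le_of_eq ?_)
        rw [Real.rpow_neg (by linarith)]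
        norm_cast
    rw [integral_const_mul, integral_Ioi_rpow_of_lt (by norm_num) hX0] at h1
    have h2 : -X ^ ((-3 : ℝ) + 1) / (-3 + 1) = 1 / (2 * X ^ 2) := by
      rw [show (-3 : ℝ) + 1 = -2 by norm_num, Real.rpow_neg hX0.le]
      norm_num
      ring
    rw [h2] at h1
    have h3 : |∫ s in Ioi X, J s| * X ^ 2 ≤ 28 := by
      have := mul_le_mul_of_nonneg_right h1 (sq_nonneg X)
      refine this.trans (le_of_eq ?_)
      field_simp
      norm_num
    have h5 := abs_nonneg (∫ s in Ioi X, J s)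
    nlinarith [mul_nonneg h5 (by nlinarith : 0 ≤ X ^ 2 - 1)]

end Pool.Agent.Helper77.RS
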