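import Pool.Agent.Helper77.RS.Mom3

open MeasureTheory Finset Complex Filter Topology

namespace Pool.Agent.Helper77.RS

/-- Taylor remainder of `e^{isx}`. -/
lemma taylor_aux (x : ℝ) (n : ℕ) : ∀ s : ℝ, 0 ≤ s →
    ‖cexp ((s : ℂ) * x * I) - ∑ q ∈ range n, ((s : ℂ) * x * I) ^ q / (q.factorial : ℂ)‖ ≤
      (|x| * s) ^ n / n.factorial := by
  induction n with
  | zero =>
    intro s _
    simp only [Finset.range_zero, Finset.sum_empty, sub_zero, pow_zero, Nat.factorial_zero,
      Nat.cast_one, div_one]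
    rw [show (s : ℂ) * x * I = ((s * x : ℝ) : ℂ) * I by push_cast; ring, Complex.norm_exp_ofReal_mul_I]
  | succ n ih =>
    intro s hs
    set g : ℝ → ℂ := fun s => cexp ((s : ℂ) * x * I) -
      ∑ q ∈ range n, ((s : ℂ) * x * I) ^ q / (q.factorial : ℂ) with hg
    set G : ℝ → ℂ := fun s => cexp ((s : ℂ) * x * I) -
      ∑ q ∈ range (n + 1), ((s : ℂ) * x * I) ^ q / (q.factorial : ℂ) with hG
    have hd0 : ∀ s : ℝ, HasDerivAt (fun s : ℝ => (s : ℂ) * x * I) ((x : ℂ) * I) s := by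
      intro s
      have h1 : HasDerivAt (fun s : ℝ => (s : ℂ)) 1 s := Complex.ofRealCLM.hasDerivAt
      have := (h1.mul_const (x : ℂ)).mul_const I
      simpa using this
    have hd : ∀ s : ℝ, HasDerivAt G ((x : ℂ) * I * g s) s := by
      intro s
      have h1 : HasDerivAt (fun s : ℝ => cexp ((s : ℂ) * x * I)) (cexp ((s : ℂ) * x * I) * ((x : ℂ) * I)) s :=
        (hd0 s).cexp
      have h2 : HasDerivAt (fun s : ℝ => ∑ q ∈ range (n + 1), ((s : ℂ) * x * I) ^ q / (q.factorial : ℂ))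
          (∑ q ∈ range (n + 1), ((q : ℂ) * ((s : ℂ) * x * I) ^ (q - 1) * ((x : ℂ) * I)) / (q.factorial : ℂ)) s := by
        apply HasDerivAt.fun_sum
        intro q _
        exact ((hd0 s).fun_pow q).div_const _
      have h3 : HasDerivAt G _ s := h1.sub h2
      refine h3.congr_deriv ?_
      rw [hg]
      simp only
      rw [Finset.sum_range_succ']
      simp only [Nat.cast_zero, zero_mul, zero_div, add_zero, Nat.add_sub_cancel]
      rw [mul_sub, Finset.mul_sum]
      congr 1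
      · ring
      · apply Finset.sum_congr rfl
        intro q _
        rw [Nat.factorial_succ]
        have h4 : ((q : ℂ) + 1) ≠ 0 := by exact_mod_cast Nat.succ_ne_zero q
        have h5 : (q.factorial : ℂ) ≠ 0 := by exact_mod_cast Nat.factorial_ne_zero q
        push_cast
        field_simp
    have hG0 : G 0 = 0 := by
      rw [hG]
      simp only [Complex.ofReal_zero, zero_mul, Complex.exp_zero]
      rw [Finset.sum_range_succ', Finset.sum_eq_zero]
      · simp
      · intro q _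
        simp
    have hgc : Continuous g := by
      rw [hg]
      fun_prop
    have hint : ∫ u in (0 : ℝ)..s, (x : ℂ) * I * g u = G s - G 0 := by
      apply intervalIntegral.integral_eq_sub_of_hasDerivAt
      · intro u _
        exact hd u
      · apply Continuous.intervalIntegrable
        fun_prop
    have hGs : G s = ∫ u in (0 : ℝ)..s, (x : ℂ) * I * g u := by
      rw [hint, hG0, sub_zero]
    change ‖G s‖ ≤ _
    rw [hGs]
    have hb : ‖∫ u in (0 : ℝ)..s, (x : ℂ) * I * g u‖ ≤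
        ∫ u in (0 : ℝ)..s, |x| * ((|x| * u) ^ n / n.factorial) := by
      apply intervalIntegral.norm_integral_le_of_norm_le hs
      · apply MeasureTheory.ae_of_all
        intro u hu
        rw [norm_mul, norm_mul, Complex.norm_I, mul_one, Complex.norm_real, Real.norm_eq_abs]
        exact mul_le_mul_of_nonneg_left (ih u hu.1.le) (abs_nonneg _)
      · apply Continuous.intervalIntegrable
        fun_prop
    refine hb.trans (le_of_eq ?_)
    have e1 : ∀ u : ℝ, |x| * ((|x| * u) ^ n / n.factorial) = (|x| ^ (n + 1) / n.factorial) * u ^ n := by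
      intro u
      rw [mul_pow]
      ring
    simp_rw [e1]
    rw [intervalIntegral.integral_const_mul, integral_pow, Nat.factorial_succ]
    have h5 : (n.factorial : ℝ) ≠ 0 := by exact_mod_cast Nat.factorial_ne_zero n
    have h6 : (n : ℝ) + 1 ≠ 0 := by positivity
    push_cast
    field_simp
    rw [mul_pow]
    simp

lemma taylor_exp (x : ℝ) (n : ℕ) :
    ‖cexp ((x : ℂ) * I) - ∑ q ∈ range n, ((x : ℂ) * I) ^ q / (q.factorial : ℂ)‖ ≤
      |x| ^ n / n.factorial := by
  have := taylor_aux x n 1 zero_le_one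
  simpa using this

/-- Partial sums of the characteristic function of the normal law. -/
lemma gm_sum (t : ℝ) (Q : ℕ) :
    ∑ q ∈ range (2 * Q), ((t : ℂ) * I) ^ q / (q.factorial : ℂ) * (gm q : ℂ) =
      ∑ k ∈ range Q, (-(t : ℂ) ^ 2 / 2) ^ k / (k.factorial : ℂ) := by
  induction Q with
  | zero => simp
  | succ Q ih =>
    rw [show 2 * (Q + 1) = 2 * Q + 1 + 1 by ring, Finset.sum_range_succ, Finset.sum_range_succ, ih,
      Finset.sum_range_succ]
    have h1 : gm (2 * Q + 1) = 0 := by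
      rw [gm, if_neg]
      simp
    have h2 : gm (2 * Q) = ((2 * Q).factorial : ℝ) / (2 ^ Q * Q.factorial) := by
      rw [gm, if_pos (even_two_mul Q)]
      congr
      · omega
      · omega
    rw [h1, h2]
    have h5 : ((2 * Q).factorial : ℂ) ≠ 0 := by exact_mod_cast Nat.factorial_ne_zero _
    have h6 : (Q.factorial : ℂ) ≠ 0 := by exact_mod_cast Nat.factorial_ne_zero _
    push_cast
    rw [mul_zero, add_zero]
    congr 1
    rw [pow_mul, mul_pow, Complex.I_sq, div_pow]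
    field_simp

lemma gm_sum_tendsto (t : ℝ) :
    Tendsto (fun Q : ℕ => ∑ q ∈ range (2 * Q), ((t : ℂ) * I) ^ q / (q.factorial : ℂ) * (gm q : ℂ))
      atTop (𝓝 (cexp (-(t : ℂ) ^ 2 / 2))) := by
  simp_rw [gm_sum]
  have h := NormedSpace.expSeries_div_hasSum_exp (-(t : ℂ) ^ 2 / 2)
  rw [← Complex.exp_eq_exp_ℂ] at h
  exact h.tendsto_sum_nat

lemma gm_tail_tendsto (t : ℝ) :
    Tendsto (fun Q : ℕ => |t| ^ (2 * Q) / (2 * Q).factorial * (gm (2 * Q) + 1)) atTop (𝓝 0) := by
  have h1 : Tendsto (fun Q : ℕ => (t ^ 2 / 2) ^ Q / Q.factorial) atTop (𝓝 0) :=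
    FloorSemiring.tendsto_pow_div_factorial_atTop _
  have h2 : Tendsto (fun Q : ℕ => |t| ^ (2 * Q) / (2 * Q).factorial) atTop (𝓝 0) :=
    (FloorSemiring.tendsto_pow_div_factorial_atTop _).comp
      (tendsto_id.const_mul_atTop' (by norm_num : 0 < 2))
  have h3 := h1.add h2
  rw [add_zero] at h3
  refine h3.congr fun Q => ?_
  have h4 : gm (2 * Q) = ((2 * Q).factorial : ℝ) / (2 ^ Q * Q.factorial) := by
    rw [gm, if_pos (even_two_mul Q)]
    congr
    · omega
    · omega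
  rw [h4]
  have h5 : ((2 * Q).factorial : ℝ) ≠ 0 := by exact_mod_cast Nat.factorial_ne_zero _
  have h6 : (Q.factorial : ℝ) ≠ 0 := by exact_mod_cast Nat.factorial_ne_zero _
  rw [pow_mul, sq_abs, div_pow]
  field_simp

open ProbabilityTheory

lemma charFun_close (μ : Measure ℝ) [IsProbabilityMeasure μ] {Q : ℕ} {δ : ℝ} (hδ : 0 ≤ δ) (hδ1 : δ ≤ 1)
    (hi : ∀ q, q ≤ 2 * Q → Integrable (fun u : ℝ => u ^ q) μ)
    (hm : ∀ q, q ≤ 2 * Q → |∫ u, u ^ q ∂μ - gm q| ≤ δ) (t : ℝ) :
    ‖charFun μ t - ∑ q ∈ range (2 * Q), ((t : ℂ) * I) ^ q / (q.factorial : ℂ) * (gm q : ℂ)‖ ≤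
      |t| ^ (2 * Q) / (2 * Q).factorial * (gm (2 * Q) + 1) + δ * Real.exp |t| := by
  have h1 : ∀ q, q ≤ 2 * Q → Integrable (fun u : ℝ => ((t : ℂ) * I) ^ q / (q.factorial : ℂ) * ((u ^ q : ℝ) : ℂ)) μ :=
    fun q hq => (hi q hq).ofReal.const_mul _
  have h2 : ∫ u, ∑ q ∈ range (2 * Q), ((t : ℂ) * I) ^ q / (q.factorial : ℂ) * ((u ^ q : ℝ) : ℂ) ∂μ =
      ∑ q ∈ range (2 * Q), ((t : ℂ) * I) ^ q / (q.factorial : ℂ) * ((∫ u, u ^ q ∂μ : ℝ) : ℂ) := by
    rw [integral_finsetSum]
    · apply Finset.sum_congr rfl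
      intro q _
      rw [integral_const_mul, integral_complex_ofReal]
    · intro q hq
      exact h1 q (Finset.mem_range.1 hq).le
  have h3 : ‖charFun μ t - ∫ u, ∑ q ∈ range (2 * Q), ((t : ℂ) * I) ^ q / (q.factorial : ℂ) * ((u ^ q : ℝ) : ℂ) ∂μ‖ ≤
      |t| ^ (2 * Q) / (2 * Q).factorial * (gm (2 * Q) + 1) := by
    rw [charFun_apply_real, ← integral_sub]
    · have h4 : ∀ u : ℝ, ‖cexp (t * u * I) - ∑ q ∈ range (2 * Q), ((t : ℂ) * I) ^ q / (q.factorial : ℂ) * ((u ^ q : ℝ) : ℂ)‖ ≤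
          |t| ^ (2 * Q) / (2 * Q).factorial * u ^ (2 * Q) := by
        intro u
        have h5 := taylor_exp (t * u) (2 * Q)
        have h6 : ∑ q ∈ range (2 * Q), (((t * u : ℝ) : ℂ) * I) ^ q / (q.factorial : ℂ) =
            ∑ q ∈ range (2 * Q), ((t : ℂ) * I) ^ q / (q.factorial : ℂ) * ((u ^ q : ℝ) : ℂ) := by
          apply Finset.sum_congr rfl
          intro q _
          push_cast
          rw [show (t : ℂ) * u * I = t * I * u by ring, mul_pow]
          ring
        rw [h6] at h5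
        have h7 : |t * u| ^ (2 * Q) = |t| ^ (2 * Q) * u ^ (2 * Q) := by
          rw [abs_mul, mul_pow, pow_mul |u|, sq_abs, ← pow_mul]
        rw [h7, show ((t * u : ℝ) : ℂ) = (t : ℂ) * u by push_cast; rfl] at h5
        refine h5.trans (le_of_eq ?_)
        ring
      calc _ ≤ ∫ u, |t| ^ (2 * Q) / (2 * Q).factorial * u ^ (2 * Q) ∂μ :=
            norm_integral_le_of_norm_le ((hi _ le_rfl).const_mul _) (ae_of_all _ h4)
        _ = |t| ^ (2 * Q) / (2 * Q).factorial * ∫ u, u ^ (2 * Q) ∂μ := integral_const_mul _ _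
        _ ≤ _ := by
          apply mul_le_mul_of_nonneg_left _ (by positivity)
          have := (abs_le.1 (hm _ le_rfl)).2
          linarith
    · have h8 : ∀ u : ℝ, ‖cexp (t * u * I)‖ ≤ 1 := by
        intro u
        rw [show (t : ℂ) * u * I = ((t * u : ℝ) : ℂ) * I by push_cast; ring, Complex.norm_exp_ofReal_mul_I]
      refine Integrable.of_bound (C := 1) ?_ (ae_of_all _ h8)
      apply Continuous.aestronglyMeasurable
      fun_prop
    · exact integrable_finsetSum _ fun q hq => h1 q (Finset.mem_range.1 hq).le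
  have h4 : ‖∫ u, ∑ q ∈ range (2 * Q), ((t : ℂ) * I) ^ q / (q.factorial : ℂ) * ((u ^ q : ℝ) : ℂ) ∂μ -
      ∑ q ∈ range (2 * Q), ((t : ℂ) * I) ^ q / (q.factorial : ℂ) * (gm q : ℂ)‖ ≤ δ * Real.exp |t| := by
    rw [h2, ← Finset.sum_sub_distrib]
    calc _ ≤ ∑ q ∈ range (2 * Q), |t| ^ q / q.factorial * δ := by
          apply norm_sum_le_of_le
          intro q hq
          rw [← mul_sub, norm_mul, norm_div, norm_pow, norm_mul, Complex.norm_I, mul_one, Complex.norm_real,
            Real.norm_eq_abs, ← Complex.ofReal_sub, Complex.norm_real, Real.norm_eq_abs]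
          have h9 : ‖(q.factorial : ℂ)‖ = q.factorial := by
            rw [Complex.norm_natCast]
          rw [h9]
          exact mul_le_mul_of_nonneg_left (hm q (Finset.mem_range.1 hq).le) (by positivity)
      _ = δ * ∑ q ∈ range (2 * Q), |t| ^ q / q.factorial := by
          rw [Finset.mul_sum]
          apply Finset.sum_congr rfl
          intro q _
          ring
      _ ≤ _ := mul_le_mul_of_nonneg_left (Real.sum_le_exp_of_nonneg (abs_nonneg t) _) hδ
  calc _ ≤ _ := norm_sub_le_norm_sub_add_norm_sub _ _ _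
    _ ≤ _ := add_le_add h3 h4

/-- the test functions -/
noncomputable def hh (y u : ℝ) : ℝ := max (u + y) 0

lemma hh_nonneg (y u : ℝ) : 0 ≤ hh y u := le_max_right _ _

lemma hh_sq (y u : ℝ) : hh y u ^ 2 ≤ 2 * u ^ 2 + 2 * y ^ 2 := by
  unfold hh
  rcases le_total 0 (u + y) with h | h
  · rw [max_eq_left h]
    nlinarith [sq_nonneg (u - y)]
  · rw [max_eq_right h]
    nlinarith [sq_nonneg u, sq_nonneg y]

lemma hh_le (y u : ℝ) : hh y u ≤ 1 + u ^ 2 + y ^ 2 := by
  have := hh_sq y u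
  nlinarith [sq_nonneg (hh y u - 1)]

@[fun_prop]
lemma hh_cont (y : ℝ) : Continuous (hh y) := by
  unfold hh
  fun_prop

lemma hh_lip (y u v : ℝ) : |hh y u - hh y v| ≤ |u - v| := by
  unfold hh
  have := abs_max_sub_max_le_abs (u + y) (v + y) 0
  simpa using this

lemma hh_integrable {μ : Measure ℝ} [IsFiniteMeasure μ] (h2 : Integrable (fun u : ℝ => u ^ 2) μ) (y : ℝ) :
    Integrable (hh y) μ := by
  have h : Integrable (fun u : ℝ => 1 + u ^ 2 + y ^ 2) μ :=
    ((integrable_const _).add h2).add (integrable_const _)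
  refine h.mono' (hh_cont y).aestronglyMeasurable (ae_of_all _ fun u => ?_)
  rw [Real.norm_eq_abs, abs_of_nonneg (hh_nonneg y u)]
  exact hh_le y u

lemma trunc_bound {μ : Measure ℝ} [IsProbabilityMeasure μ] (h2 : Integrable (fun u : ℝ => u ^ 2) μ) (y : ℝ)
    {M : ℝ} (hM : 0 < M) :
    |∫ u, hh y u ∂μ - ∫ u, min (hh y u) M ∂μ| ≤ (2 * ∫ u, u ^ 2 ∂μ + 2 * y ^ 2) / M := by
  have hi := hh_integrable h2 y
  have hi2 : Integrable (fun u => min (hh y u) M) μ := by
    refine hi.mono' (by apply Continuous.aestronglyMeasurable; fun_prop) (ae_of_all _ fun u => ?_)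
    rw [Real.norm_eq_abs, abs_of_nonneg (le_min (hh_nonneg y u) hM.le)]
    exact min_le_left _ _
  rw [← integral_sub hi hi2]
  have hi3 : Integrable (fun u : ℝ => (2 * u ^ 2 + 2 * y ^ 2) / M) μ :=
    ((h2.const_mul 2).add (integrable_const _)).div_const M
  have h3 : ∀ u, ‖hh y u - min (hh y u) M‖ ≤ (2 * u ^ 2 + 2 * y ^ 2) / M := by
    intro u
    have h4 := hh_sq y u
    rw [Real.norm_eq_abs]
    rcases le_total (hh y u) M with h | h
    · rw [min_eq_left h, sub_self, abs_zero]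
      positivity
    · rw [min_eq_right h, abs_of_nonneg (by linarith), le_div_iff₀ hM]
      nlinarith
  calc _ ≤ ∫ u, (2 * u ^ 2 + 2 * y ^ 2) / M ∂μ :=
        norm_integral_le_of_norm_le hi3 (ae_of_all _ h3)
    _ = _ := by
      rw [integral_div, integral_add (h2.const_mul 2) (integrable_const _), integral_const_mul,
        integral_const]
      simp

theorem law (y : ℝ) {ε : ℝ} (hε : 0 < ε) : ∃ K : ℕ, ∃ δ : ℝ, 0 < δ ∧ ∀ μ : Measure ℝ, IsProbabilityMeasure μ →
    (∀ q, q ≤ K → Integrable (fun u : ℝ => u ^ q) μ) → (∀ q, q ≤ K → |∫ u, u ^ q ∂μ - gm q| ≤ δ) →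
    |∫ u, hh y u ∂μ - ∫ u, hh y u ∂(gaussianReal 0 1)| ≤ ε := by
  by_contra hcon
  push Not at hcon
  have hc : ∀ n : ℕ, ∃ μ : Measure ℝ, IsProbabilityMeasure μ ∧
      (∀ q, q ≤ n → Integrable (fun u : ℝ => u ^ q) μ) ∧ (∀ q, q ≤ n → |∫ u, u ^ q ∂μ - gm q| ≤ 1 / ((n : ℝ) + 1)) ∧
      ε < |∫ u, hh y u ∂μ - ∫ u, hh y u ∂(gaussianReal 0 1)| := by
    intro n
    obtain ⟨μ, h1, h2, h3, h4⟩ := hcon n (1 / ((n : ℝ) + 1)) (by positivity)
    exact ⟨μ, h1, h2, h3, h4⟩
  choose μ hP hI hM hE using hc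
  let ν : ℕ → ProbabilityMeasure ℝ := fun n => ⟨μ n, hP n⟩
  let γ : ProbabilityMeasure ℝ := ⟨gaussianReal 0 1, inferInstance⟩
  have hchar : ∀ t : ℝ, Tendsto (fun n => charFun (ν n : Measure ℝ) t) atTop (𝓝 (charFun (γ : Measure ℝ) t)) := by
    intro t
    have hγ : charFun (γ : Measure ℝ) t = cexp (-(t : ℂ) ^ 2 / 2) := by
      change charFun (gaussianReal 0 1) t = _
      rw [charFun_gaussianReal]
      congr 1
      simp
      ring
    rw [hγ, Metric.tendsto_atTop]
    intro e he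
    have ha := (Metric.tendsto_atTop.1 (gm_sum_tendsto t)) (e / 4) (by positivity)
    have hb := (Metric.tendsto_atTop.1 (gm_tail_tendsto t)) (e / 4) (by positivity)
    obtain ⟨Q1, hQ1⟩ := ha
    obtain ⟨Q2, hQ2⟩ := hb
    set Q := max Q1 Q2 with hQ
    have ha' := hQ1 Q (le_max_left _ _)
    have hb' := hQ2 Q (le_max_right _ _)
    rw [dist_eq_norm] at ha'
    rw [Real.dist_eq, sub_zero] at hb'
    obtain ⟨n0, hn0⟩ := exists_nat_gt (4 * Real.exp |t| / e)
    refine ⟨max n0 (2 * Q), fun n hn => ?_⟩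
    have hn1 : n0 ≤ n := (le_max_left _ _).trans hn
    have hn2 : 2 * Q ≤ n := (le_max_right _ _).trans hn
    have := hP n
    have hcl := charFun_close (μ n) (Q := Q) (δ := 1 / ((n : ℝ) + 1)) (by positivity)
      (by rw [div_le_one (by positivity)]; linarith [(Nat.cast_nonneg n : (0:ℝ) ≤ n)])
      (fun q hq => hI n q (hq.trans hn2)) (fun q hq => hM n q (hq.trans hn2)) t
    have h5 : 1 / ((n : ℝ) + 1) * Real.exp |t| < e / 4 := by
      have h6 : (n0 : ℝ) ≤ n := by exact_mod_cast hn1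
      rw [div_mul_eq_mul_div, one_mul, div_lt_iff₀ (by positivity)]
      rw [div_lt_iff₀ he] at hn0
      nlinarith
    have h6 := (le_abs_self _).trans hb'.le
    rw [dist_eq_norm]
    calc _ ≤ _ := norm_sub_le_norm_sub_add_norm_sub _ (∑ q ∈ range (2 * Q), ((t : ℂ) * I) ^ q / (q.factorial : ℂ) * (gm q : ℂ)) _
      _ < _ := by
        have : ‖charFun ((ν n : ProbabilityMeasure ℝ) : Measure ℝ) t - ∑ q ∈ range (2 * Q), ((t : ℂ) * I) ^ q / (q.factorial : ℂ) * (gm q : ℂ)‖ ≤
            e / 4 + e / 4 := by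
          refine hcl.trans ?_
          exact add_le_add h6 h5.le
        linarith
  have hw : Tendsto ν atTop (𝓝 γ) := ProbabilityMeasure.tendsto_of_tendsto_charFun hchar
  rw [ProbabilityMeasure.tendsto_iff_forall_integral_tendsto] at hw
  -- second moments
  have hg2 : Integrable (fun u : ℝ => u ^ 2) (gaussianReal 0 1) := by
    have := (memLp_id_gaussianReal (μ := 0) (v := 1) 2).integrable_sq
    simpa using this
  set G2 : ℝ := ∫ u, u ^ 2 ∂(gaussianReal 0 1) with hG2
  have hgm2 : gm 2 = 1 := by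
    rw [gm, if_pos (by decide)]
    norm_num
  set M : ℝ := 4 * (4 + 2 * y ^ 2 + 2 * |G2|) / ε with hMdef
  have hMpos : 0 < M := by positivity
  have hbc : Continuous (fun u => min (hh y u) M) := by fun_prop
  let F : BoundedContinuousFunction ℝ ℝ := BoundedContinuousFunction.ofNormedAddCommGroup
    (fun u => min (hh y u) M) hbc M (by
      intro u
      rw [Real.norm_eq_abs, abs_of_nonneg (le_min (hh_nonneg y u) hMpos.le)]
      exact min_le_right _ _)
  have hF := hw F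
  rw [Metric.tendsto_atTop] at hF
  obtain ⟨n0, hn0⟩ := hF (ε / 4) (by positivity)
  set n := max n0 2 with hn
  have h1 := hn0 n (le_max_left _ _)
  have h2n : 2 ≤ n := le_max_right _ _
  have h1' : |∫ u, min (hh y u) M ∂(μ n) - ∫ u, min (hh y u) M ∂(gaussianReal 0 1)| < ε / 4 := h1
  have := hP n
  have h2 := trunc_bound (μ := μ n) (hI n 2 h2n) y hMpos
  have h3 := trunc_bound (μ := gaussianReal 0 1) hg2 y hMpos
  have h4 : ∫ u, u ^ 2 ∂(μ n) ≤ 2 := by
    have h5 := (abs_le.1 (hM n 2 h2n)).2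
    rw [hgm2] at h5
    have h6 : 1 / ((n : ℝ) + 1) ≤ 1 := by
      rw [div_le_one (by positivity)]
      linarith [(Nat.cast_nonneg n : (0:ℝ) ≤ n)]
    linarith
  have h5 : (2 * ∫ u, u ^ 2 ∂(μ n) + 2 * y ^ 2) / M ≤ ε / 4 := by
    rw [div_le_iff₀ hMpos, hMdef]
    have : ε / 4 * (4 * (4 + 2 * y ^ 2 + 2 * |G2|) / ε) = 4 + 2 * y ^ 2 + 2 * |G2| := by
      field_simp
    rw [this]
    have := abs_nonneg G2
    linarith
  have h6 : (2 * G2 + 2 * y ^ 2) / M ≤ ε / 4 := by
    rw [div_le_iff₀ hMpos, hMdef]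
    have : ε / 4 * (4 * (4 + 2 * y ^ 2 + 2 * |G2|) / ε) = 4 + 2 * y ^ 2 + 2 * |G2| := by
      field_simp
    rw [this]
    have := le_abs_self G2
    linarith
  have h7 := hE n
  have h8 : |∫ u, hh y u ∂(μ n) - ∫ u, hh y u ∂(gaussianReal 0 1)| ≤ ε / 4 + ε / 4 + ε / 4 := by
    have e1 : ∫ u, hh y u ∂(μ n) - ∫ u, hh y u ∂(gaussianReal 0 1) =
        (∫ u, hh y u ∂(μ n) - ∫ u, min (hh y u) M ∂(μ n)) +
        (∫ u, min (hh y u) M ∂(μ n) - ∫ u, min (hh y u) M ∂(gaussianReal 0 1)) -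
        (∫ u, hh y u ∂(gaussianReal 0 1) - ∫ u, min (hh y u) M ∂(gaussianReal 0 1)) := by ring
    rw [e1]
    refine (abs_sub _ _).trans ?_
    refine (add_le_add (abs_add_le _ _) le_rfl).trans ?_
    have := h2.trans h5
    have := h3.trans h6
    linarith
  linarith

end Pool.Agent.Helper77.RS
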