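import Mathlib

/-! Moments of Dirichlet polynomials supported on the primes. -/

open MeasureTheory Finset Complex

namespace Pool.Agent.Helper77.RS

/-- `x^{-it}` -/
noncomputable def ee (x t : ℝ) : ℂ := cexp (((-(t * Real.log x) : ℝ) : ℂ) * I)

/-- the Dirichlet polynomial `∑_{p ∈ S} c_p p^{-it}` -/
noncomputable def PP (S : Finset ℕ) (c : ℕ → ℂ) (t : ℝ) : ℂ := ∑ p ∈ S, c p * ee p t

lemma ee_cont (x : ℝ) : Continuous (ee x) := by
  unfold ee
  fun_prop

lemma PP_cont (S : Finset ℕ) (c : ℕ → ℂ) : Continuous (PP S c) := by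
  unfold PP
  exact continuous_finsetSum _ fun p _ => continuous_const.mul (ee_cont _)

lemma ee_norm (x t : ℝ) : ‖ee x t‖ = 1 := by
  unfold ee
  exact Complex.norm_exp_ofReal_mul_I _

lemma ee_conj (x t : ℝ) : (starRingEnd ℂ) (ee x t) = cexp (((t * Real.log x : ℝ) : ℂ) * I) := by
  unfold ee
  rw [← Complex.exp_conj]
  congr 1
  rw [map_mul, Complex.conj_I, Complex.conj_ofReal]
  push_cast
  ring

/-- the product of the values of `f` -/
def pr {k : ℕ} (f : Fin k → ℕ) : ℕ := ∏ i, f i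

/-- the coefficient of `f` -/
noncomputable def cf {k : ℕ} (c : ℕ → ℂ) (f : Fin k → ℕ) : ℂ := ∏ i, c (f i)

lemma prod_ee {k : ℕ} {f : Fin k → ℕ} (hf : ∀ i, f i ≠ 0) (t : ℝ) :
    ∏ i, ee (f i) t = ee (pr f) t := by
  unfold ee pr
  rw [← Complex.exp_sum]
  congr 1
  have h1 : Real.log ((∏ i, f i : ℕ) : ℝ) = ∑ i, Real.log (f i) := by
    push_cast
    exact Real.log_prod (fun i _ => by exact_mod_cast hf i)
  rw [h1, ← Finset.sum_mul, ← Complex.ofReal_sum, Finset.mul_sum, Finset.sum_neg_distrib]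

lemma PP_pow (S : Finset ℕ) (hS : ∀ p ∈ S, p ≠ 0) (c : ℕ → ℂ) (k : ℕ) (t : ℝ) :
    PP S c t ^ k = ∑ f ∈ Fintype.piFinset (fun _ : Fin k => S), cf c f * ee (pr f) t := by
  unfold PP
  rw [Finset.sum_pow']
  apply Finset.sum_congr rfl
  intro f hf
  rw [Fintype.mem_piFinset] at hf
  rw [Finset.prod_mul_distrib, prod_ee (fun i => hS _ (hf i))]
  rfl

/-- an oscillating integral -/
lemma osc {w : ℝ} (hw : w ≠ 0) (V1 V2 : ℝ) :
    ‖∫ t in V1..V2, cexp (((t * w : ℝ) : ℂ) * I)‖ ≤ 2 / |w| := by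
  have h1 : ∀ t : ℝ, cexp (((t * w : ℝ) : ℂ) * I) = cexp (((w : ℂ) * I) * (t : ℂ)) := by
    intro t
    congr 1
    push_cast
    ring
  simp_rw [h1]
  have hwI : (w : ℂ) * I ≠ 0 := mul_ne_zero (by exact_mod_cast hw) I_ne_zero
  rw [integral_exp_mul_complex hwI, norm_div]
  have h2 : ‖(w : ℂ) * I‖ = |w| := by
    rw [norm_mul, Complex.norm_I, mul_one, Complex.norm_real, Real.norm_eq_abs]
  rw [h2]
  apply div_le_div_of_nonneg_right _ (abs_nonneg w)
  have h3 : ∀ t : ℝ, ‖cexp (((w : ℂ) * I) * (t : ℂ))‖ = 1 := by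
    intro t
    rw [← h1]
    exact Complex.norm_exp_ofReal_mul_I _
  calc _ ≤ ‖cexp (((w : ℂ) * I) * (V2 : ℂ))‖ + ‖cexp (((w : ℂ) * I) * (V1 : ℂ))‖ := norm_sub_le _ _
    _ = 2 := by rw [h3, h3]; norm_num

lemma log_diff {m n : ℕ} (hm : 0 < m) (hn : 0 < n) (hmn : m ≠ n) {M : ℝ} (h1 : (m : ℝ) ≤ M)
    (h2 : (n : ℝ) ≤ M) : 1 / M ≤ |Real.log m - Real.log n| := by
  have key : ∀ a b : ℕ, 0 < a → a < b → (b : ℝ) ≤ M → 1 / M ≤ Real.log b - Real.log a := by
    intro a b ha hab hb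
    have ha' : (0 : ℝ) < a := by exact_mod_cast ha
    have hb' : (0 : ℝ) < b := by exact_mod_cast ha.trans hab
    have h3 := Real.log_le_sub_one_of_pos (div_pos ha' hb')
    rw [Real.log_div ha'.ne' hb'.ne'] at h3
    have h4 : (a : ℝ) + 1 ≤ b := by exact_mod_cast hab
    have h5 : 1 / (b : ℝ) ≤ 1 - a / b := by
      rw [le_sub_iff_add_le, ← add_div, div_le_one hb']
      linarith
    have h6 : 1 / M ≤ 1 / (b : ℝ) := one_div_le_one_div_of_le hb' hb
    linarith
  rcases lt_or_gt_of_ne hmn with h | h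
  · rw [abs_sub_comm]
    exact (key m n hm h h2).trans (le_abs_self _)
  · exact (key n m hn h h1).trans (le_abs_self _)

/-- the diagonal sum -/
noncomputable def Dg (S : Finset ℕ) (c : ℕ → ℂ) (j k : ℕ) : ℂ :=
  ∑ f ∈ Fintype.piFinset (fun _ : Fin j => S), ∑ g ∈ Fintype.piFinset (fun _ : Fin k => S),
    if pr f = pr g then cf c f * (starRingEnd ℂ) (cf c g) else 0

lemma pr_le {S : Finset ℕ} {X : ℝ} (hX : ∀ p ∈ S, (p : ℝ) ≤ X) {k : ℕ} {f : Fin k → ℕ}
    (hf : f ∈ Fintype.piFinset (fun _ : Fin k => S)) : (pr f : ℝ) ≤ X ^ k := by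
  rw [Fintype.mem_piFinset] at hf
  unfold pr
  push_cast
  calc ∏ i, (f i : ℝ) ≤ ∏ _i : Fin k, X :=
        Finset.prod_le_prod (fun i _ => Nat.cast_nonneg _) fun i _ => hX _ (hf i)
    _ = X ^ k := by rw [Finset.prod_const, Finset.card_univ, Fintype.card_fin]

lemma sum_cf (S : Finset ℕ) (c : ℕ → ℂ) (k : ℕ) :
    ∑ f ∈ Fintype.piFinset (fun _ : Fin k => S), ‖cf c f‖ = (∑ p ∈ S, ‖c p‖) ^ k := by
  rw [Finset.sum_pow']
  apply Finset.sum_congr rfl
  intro f _
  unfold cf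
  rw [norm_prod]

/-- the mean value of `P^j conj P^k` -/
theorem mean_PP (S : Finset ℕ) (hS : ∀ p ∈ S, p ≠ 0) (c : ℕ → ℂ) (j k : ℕ) {X : ℝ} (hX1 : 1 ≤ X)
    (hX : ∀ p ∈ S, (p : ℝ) ≤ X) (V1 V2 : ℝ) :
    ‖(∫ t in V1..V2, PP S c t ^ j * (starRingEnd ℂ) (PP S c t) ^ k) -
      ((V2 - V1 : ℝ) : ℂ) * Dg S c j k‖ ≤ 2 * X ^ (j + k) * (∑ p ∈ S, ‖c p‖) ^ (j + k) := by
  set F := Fintype.piFinset (fun _ : Fin j => S) with hF
  set G := Fintype.piFinset (fun _ : Fin k => S) with hG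
  have hposF : ∀ f ∈ F, 0 < pr f := by
    intro f hf
    rw [hF, Fintype.mem_piFinset] at hf
    exact Finset.prod_pos fun i _ => Nat.pos_of_ne_zero (hS _ (hf i))
  have hposG : ∀ f ∈ G, 0 < pr f := by
    intro f hf
    rw [hG, Fintype.mem_piFinset] at hf
    exact Finset.prod_pos fun i _ => Nat.pos_of_ne_zero (hS _ (hf i))
  have h1 : ∀ t : ℝ, PP S c t ^ j * (starRingEnd ℂ) (PP S c t) ^ k =
      ∑ f ∈ F, ∑ g ∈ G, (cf c f * (starRingEnd ℂ) (cf c g)) *
        cexp (((t * (Real.log (pr g) - Real.log (pr f)) : ℝ) : ℂ) * I) := by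
    intro t
    rw [← map_pow, PP_pow S hS c j, PP_pow S hS c k, map_sum, Finset.sum_mul_sum]
    apply Finset.sum_congr rfl
    intro f _
    apply Finset.sum_congr rfl
    intro g _
    rw [map_mul, ee_conj]
    unfold ee
    rw [show cf c f * cexp (((-(t * Real.log (pr f)) : ℝ) : ℂ) * I) *
        ((starRingEnd ℂ) (cf c g) * cexp (((t * Real.log (pr g) : ℝ) : ℂ) * I)) =
        cf c f * (starRingEnd ℂ) (cf c g) * (cexp (((-(t * Real.log (pr f)) : ℝ) : ℂ) * I) *
          cexp (((t * Real.log (pr g) : ℝ) : ℂ) * I)) by ring, ← Complex.exp_add]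
    congr 2
    push_cast
    ring
  have hint : ∀ w : ℝ, IntervalIntegrable (fun t : ℝ => cexp (((t * w : ℝ) : ℂ) * I)) volume V1 V2 := by
    intro w
    apply Continuous.intervalIntegrable
    fun_prop
  have h2 : (∫ t in V1..V2, PP S c t ^ j * (starRingEnd ℂ) (PP S c t) ^ k) =
      ∑ f ∈ F, ∑ g ∈ G, (cf c f * (starRingEnd ℂ) (cf c g)) *
        ∫ t in V1..V2, cexp (((t * (Real.log (pr g) - Real.log (pr f)) : ℝ) : ℂ) * I) := by
    simp_rw [h1]
    rw [intervalIntegral.integral_finsetSum]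
    · apply Finset.sum_congr rfl
      intro f _
      rw [intervalIntegral.integral_finsetSum]
      · apply Finset.sum_congr rfl
        intro g _
        rw [intervalIntegral.integral_const_mul]
      · intro g _
        exact (hint _).const_mul _
    · intro f _
      apply Continuous.intervalIntegrable
      exact continuous_finsetSum _ fun g _ => continuous_const.mul (by fun_prop)
  rw [h2]
  unfold Dg
  rw [Finset.mul_sum, ← Finset.sum_sub_distrib]
  have hterm : ∀ f ∈ F, ∀ g ∈ G, ‖(cf c f * (starRingEnd ℂ) (cf c g)) *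
        (∫ t in V1..V2, cexp (((t * (Real.log (pr g) - Real.log (pr f)) : ℝ) : ℂ) * I)) -
        ((V2 - V1 : ℝ) : ℂ) * (if pr f = pr g then cf c f * (starRingEnd ℂ) (cf c g) else 0)‖ ≤
        2 * X ^ (j + k) * (‖cf c f‖ * ‖cf c g‖) := by
    intro f hf g hg
    by_cases h : pr f = pr g
    · rw [if_pos h, h, sub_self]
      simp only [mul_zero, Complex.ofReal_zero, zero_mul, Complex.exp_zero]
      rw [intervalIntegral.integral_const]
      have : (cf c f * (starRingEnd ℂ) (cf c g)) * ((V2 - V1) • (1 : ℂ)) -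
          ((V2 - V1 : ℝ) : ℂ) * (cf c f * (starRingEnd ℂ) (cf c g)) = 0 := by
        rw [Complex.real_smul]
        ring
      rw [this, norm_zero]
      positivity
    · rw [if_neg h, mul_zero, sub_zero, norm_mul, norm_mul, RCLike.norm_conj]
      have hw := log_diff (hposG g hg) (hposF f hf) (Ne.symm h) (M := X ^ (j + k))
        ((pr_le hX hg).trans (pow_le_pow_right₀ hX1 (by omega)))
        ((pr_le hX hf).trans (pow_le_pow_right₀ hX1 (by omega)))
      have hXp : 0 < X ^ (j + k) := by positivity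
      have hw0 : 0 < |Real.log (pr g) - Real.log (pr f)| := lt_of_lt_of_le (by positivity) hw
      have h3 := osc (w := Real.log (pr g) - Real.log (pr f)) (abs_pos.1 hw0) V1 V2
      have h4 : 2 / |Real.log (pr g) - Real.log (pr f)| ≤ 2 * X ^ (j + k) := by
        rw [div_le_iff₀ hw0]
        rw [div_le_iff₀ hXp] at hw
        nlinarith
      calc ‖cf c f‖ * ‖cf c g‖ *
          ‖∫ t in V1..V2, cexp (((t * (Real.log (pr g) - Real.log (pr f)) : ℝ) : ℂ) * I)‖
          ≤ ‖cf c f‖ * ‖cf c g‖ * (2 * X ^ (j + k)) :=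
            mul_le_mul_of_nonneg_left (h3.trans h4) (by positivity)
        _ = _ := by ring
  calc _ ≤ ∑ f ∈ F, ∑ g ∈ G, 2 * X ^ (j + k) * (‖cf c f‖ * ‖cf c g‖) := by
        refine (norm_sum_le _ _).trans (Finset.sum_le_sum fun f hf => ?_)
        rw [Finset.mul_sum, ← Finset.sum_sub_distrib]
        exact (norm_sum_le _ _).trans (Finset.sum_le_sum fun g hg => hterm f hf g hg)
    _ = 2 * X ^ (j + k) * ((∑ f ∈ F, ‖cf c f‖) * ∑ g ∈ G, ‖cf c g‖) := by
        rw [Finset.sum_mul_sum, Finset.mul_sum]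
        apply Finset.sum_congr rfl
        intro f _
        rw [Finset.mul_sum]
    _ = _ := by
        rw [hF, hG, sum_cf, sum_cf, ← pow_add]

end Pool.Agent.Helper77.RS
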