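import Pool.Agent.Helper77.RS.Mom2

/-! Real moments. -/

open MeasureTheory Finset Complex Filter Topology

namespace Pool.Agent.Helper77.RS

/-- the moments of the standard normal law -/
noncomputable def gm (q : ℕ) : ℝ :=
  if Even q then (q.factorial : ℝ) / (2 ^ (q / 2) * (q / 2).factorial) else 0

lemma re_pow_int (S : Finset ℕ) (c : ℕ → ℂ) (q : ℕ) (V1 V2 : ℝ) :
    ((∫ t in V1..V2, (PP S c t).re ^ q : ℝ) : ℂ) = (1 / 2 : ℂ) ^ q *
      ∑ j ∈ range (q + 1), (q.choose j : ℂ) *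
        ∫ t in V1..V2, PP S c t ^ j * (starRingEnd ℂ) (PP S c t) ^ (q - j) := by
  rw [← intervalIntegral.integral_ofReal]
  have h1 : ∀ t : ℝ, (((PP S c t).re ^ q : ℝ) : ℂ) = (1 / 2 : ℂ) ^ q *
      ∑ j ∈ range (q + 1), (q.choose j : ℂ) *
        (PP S c t ^ j * (starRingEnd ℂ) (PP S c t) ^ (q - j)) := by
    intro t
    have h2 : (((PP S c t).re : ℝ) : ℂ) = (1 / 2) * (PP S c t + (starRingEnd ℂ) (PP S c t)) := by
      rw [Complex.add_conj]
      push_cast
      ring
    rw [Complex.ofReal_pow, h2, mul_pow, add_pow]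
    congr 1
    apply Finset.sum_congr rfl
    intro j _
    ring
  simp_rw [h1]
  rw [intervalIntegral.integral_const_mul, intervalIntegral.integral_finsetSum]
  · congr 1
    apply Finset.sum_congr rfl
    intro j _
    rw [intervalIntegral.integral_const_mul]
  · intro j _
    apply Continuous.intervalIntegrable
    have := PP_cont S c
    fun_prop

lemma sum_half_choose (q : ℕ) : (1 / 2 : ℝ) ^ q * ∑ j ∈ range (q + 1), (q.choose j : ℝ) = 1 := by
  have h := Nat.sum_range_choose q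
  have h2 : ∑ j ∈ range (q + 1), (q.choose j : ℝ) = 2 ^ q := by exact_mod_cast h
  rw [h2, ← mul_pow]
  norm_num

theorem re_pow_mean {S : Finset ℕ} (hS : ∀ p ∈ S, p.Prime) (c : ℕ → ℂ) (q : ℕ) {X : ℝ} (hX1 : 1 ≤ X)
    (hX : ∀ p ∈ S, (p : ℝ) ≤ X) (V1 V2 : ℝ) :
    |(∫ t in V1..V2, (PP S c t).re ^ q) - (V2 - V1) *
      (if Even q then (1 / 2 : ℝ) ^ q * (q.choose (q / 2) * (Dg S c (q / 2) (q / 2)).re) else 0)| ≤
      2 * X ^ q * (∑ p ∈ S, ‖c p‖) ^ q := by
  have h0 : ∀ p ∈ S, p ≠ 0 := fun p hp => (hS p hp).ne_zero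
  set Y : ℝ := ∑ p ∈ S, ‖c p‖ with hY
  have hD : ∀ k, ((Dg S c k k).re : ℂ) = Dg S c k k := by
    intro k
    rw [Dg_eq hS, Complex.ofReal_re]
  have e1 : (((V2 - V1) * (if Even q then (1 / 2 : ℝ) ^ q * (q.choose (q / 2) *
      (Dg S c (q / 2) (q / 2)).re) else 0) : ℝ) : ℂ) = (1 / 2 : ℂ) ^ q *
      ∑ j ∈ range (q + 1), (q.choose j : ℂ) * (((V2 - V1 : ℝ) : ℂ) * Dg S c j (q - j)) := by
    split_ifs with hq
    · obtain ⟨m, hm⟩ := hq
      have hm2 : q / 2 = m := by omega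
      rw [hm2, Finset.sum_eq_single m]
      · have : q - m = m := by omega
        rw [this]
        push_cast
        rw [hD]
        ring
      · intro j hj hjm
        rw [Finset.mem_range] at hj
        rw [Dg_ne hS c (by omega), mul_zero, mul_zero]
      · intro h
        exact absurd (Finset.mem_range.2 (by omega)) h
    · rw [mul_zero, Complex.ofReal_zero, Finset.sum_eq_zero, mul_zero]
      intro j hj
      rw [Finset.mem_range] at hj
      rw [Dg_ne hS c, mul_zero, mul_zero]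
      intro h
      apply hq
      exact ⟨j, by omega⟩
  have e2 : ((((∫ t in V1..V2, (PP S c t).re ^ q) - (V2 - V1) *
      (if Even q then (1 / 2 : ℝ) ^ q * (q.choose (q / 2) * (Dg S c (q / 2) (q / 2)).re)
        else 0) : ℝ)) : ℂ) = (1 / 2 : ℂ) ^ q * ∑ j ∈ range (q + 1), (q.choose j : ℂ) *
        ((∫ t in V1..V2, PP S c t ^ j * (starRingEnd ℂ) (PP S c t) ^ (q - j)) -
          ((V2 - V1 : ℝ) : ℂ) * Dg S c j (q - j)) := by
    rw [Complex.ofReal_sub, re_pow_int, e1, ← mul_sub, ← Finset.sum_sub_distrib]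
    congr 1
    apply Finset.sum_congr rfl
    intro j _
    ring
  rw [← Real.norm_eq_abs, ← Complex.norm_real, e2, norm_mul]
  have e3 : ‖(1 / 2 : ℂ) ^ q‖ = (1 / 2 : ℝ) ^ q := by
    rw [norm_pow]
    norm_num
  rw [e3]
  calc (1 / 2 : ℝ) ^ q * ‖∑ j ∈ range (q + 1), (q.choose j : ℂ) *
        ((∫ t in V1..V2, PP S c t ^ j * (starRingEnd ℂ) (PP S c t) ^ (q - j)) -
          ((V2 - V1 : ℝ) : ℂ) * Dg S c j (q - j))‖
      ≤ (1 / 2 : ℝ) ^ q * ∑ j ∈ range (q + 1), (q.choose j : ℝ) * (2 * X ^ q * Y ^ q) := by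
        apply mul_le_mul_of_nonneg_left _ (by positivity)
        refine (norm_sum_le _ _).trans (Finset.sum_le_sum fun j hj => ?_)
        rw [Finset.mem_range] at hj
        rw [norm_mul, Complex.norm_natCast]
        apply mul_le_mul_of_nonneg_left _ (Nat.cast_nonneg _)
        have := mean_PP S h0 c j (q - j) hX1 hX V1 V2
        rwa [show j + (q - j) = q by omega] at this
    _ = _ := by
        rw [← Finset.sum_mul, ← mul_assoc, sum_half_choose, one_mul]

/-- the moments are near those of the normal law -/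
theorem mom_close (q : ℕ) {ε : ℝ} (hε : 0 < ε) : ∃ η : ℝ, 0 < η ∧ ∀ (S : Finset ℕ) (c : ℕ → ℂ)
    (X V1 V2 : ℝ), (∀ p ∈ S, p.Prime) → 1 ≤ X → (∀ p ∈ S, (p : ℝ) ≤ X) → V1 < V2 →
    |∑ p ∈ S, ‖c p‖ ^ 2 - 2| ≤ η → ∑ p ∈ S, ‖c p‖ ^ 4 ≤ η →
    2 * X ^ q * (∑ p ∈ S, ‖c p‖) ^ q ≤ η * (V2 - V1) →
    |(1 / (V2 - V1)) * (∫ t in V1..V2, (PP S c t).re ^ q) - gm q| ≤ ε := by
  -- the odd case
  by_cases hq : Even q
  swap
  · refine ⟨ε, hε, fun S c X V1 V2 hS hX1 hX hV h1 h2 h3 => ?_⟩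
    have h4 := re_pow_mean hS c q hX1 hX V1 V2
    rw [if_neg hq, mul_zero, sub_zero] at h4
    unfold gm
    rw [if_neg hq, sub_zero, abs_mul, abs_of_pos (by
      have : 0 < V2 - V1 := by linarith
      positivity : 0 < 1 / (V2 - V1)), one_div, inv_mul_le_iff₀ (by linarith)]
    linarith
  obtain ⟨m, hm⟩ := hq
  have hm2 : q / 2 = m := by omega
  set K : ℝ := (1 / 2 : ℝ) ^ q * q.choose m with hK
  have hK0 : 0 < K := by
    rw [hK]
    have : 0 < q.choose m := Nat.choose_pos (by omega)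
    positivity
  -- continuity of `A ↦ K m! A^m` at `2`
  have hcont : ContinuousAt (fun A : ℝ => K * (m.factorial * A ^ m)) 2 := by fun_prop
  rw [Metric.continuousAt_iff] at hcont
  obtain ⟨η1, hη1, hc1⟩ := hcont (ε / 4) (by positivity)
  set D : ℝ := K * (m.factorial * (m ^ 2 * 3 ^ (m - 2))) with hD
  have hD0 : 0 ≤ D := by positivity
  refine ⟨min (min 1 (η1 / 2)) (min (ε / 4) (ε / (4 * (D + 1)))), ?_, ?_⟩
  · have : 0 < ε / (4 * (D + 1)) := by positivity
    exact lt_min (lt_min one_pos (by positivity)) (lt_min (by positivity) this)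
  intro S c X V1 V2 hS hX1 hX hV h1 h2 h3
  set η := min (min 1 (η1 / 2)) (min (ε / 4) (ε / (4 * (D + 1)))) with hη
  have b1 : η ≤ 1 := (min_le_left _ _).trans (min_le_left _ _)
  have b2 : η ≤ η1 / 2 := (min_le_left _ _).trans (min_le_right _ _)
  have b3 : η ≤ ε / 4 := (min_le_right _ _).trans (min_le_left _ _)
  have b4 : η ≤ ε / (4 * (D + 1)) := (min_le_right _ _).trans (min_le_right _ _)
  set A := ∑ p ∈ S, ‖c p‖ ^ 2 with hA
  set B := ∑ p ∈ S, ‖c p‖ ^ 4 with hB
  have hA0 : 0 ≤ A := by positivity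
  have hB0 : 0 ≤ B := by positivity
  have hA3 : A ≤ 3 := by
    have := (abs_le.1 h1).2
    linarith
  have h4 := re_pow_mean hS c q hX1 hX V1 V2
  rw [if_pos ⟨m, hm⟩, hm2] at h4
  have hN : 0 < V2 - V1 := by linarith
  set R := (Dg S c m m).re with hR
  have h5 : |(1 / (V2 - V1)) * (∫ t in V1..V2, (PP S c t).re ^ q) - K * R| ≤ ε / 4 := by
    have e : (1 / (V2 - V1)) * (∫ t in V1..V2, (PP S c t).re ^ q) - K * R =
        (1 / (V2 - V1)) * ((∫ t in V1..V2, (PP S c t).re ^ q) -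
          (V2 - V1) * ((1 / 2 : ℝ) ^ q * (q.choose m * R))) := by
      rw [hK]
      field_simp
    rw [e, abs_mul, abs_of_pos (by positivity : 0 < 1 / (V2 - V1)), one_div,
      inv_mul_le_iff₀ hN]
    have : η * (V2 - V1) ≤ ε / 4 * (V2 - V1) := mul_le_mul_of_nonneg_right b3 hN.le
    linarith
  have h6 : |K * R - K * (m.factorial * A ^ m)| ≤ ε / 4 := by
    have l1 := Dg_le hS c m
    have l2 := le_Dg hS c m
    have l3 : A ^ (m - 2) ≤ 3 ^ (m - 2) := pow_le_pow_left₀ hA0 hA3 _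
    have l4 : (m.factorial : ℝ) * (m ^ 2 * (B * A ^ (m - 2))) ≤
        m.factorial * (m ^ 2 * 3 ^ (m - 2)) * η := by
      calc (m.factorial : ℝ) * (m ^ 2 * (B * A ^ (m - 2))) ≤
          m.factorial * (m ^ 2 * (η * 3 ^ (m - 2))) := by
            have hη0 : 0 ≤ η := hB0.trans h2
            gcongr
        _ = _ := by ring
    have l5 : D * η ≤ ε / 4 := by
      calc D * η ≤ D * (ε / (4 * (D + 1))) := mul_le_mul_of_nonneg_left b4 hD0
        _ ≤ (D + 1) * (ε / (4 * (D + 1))) :=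
          mul_le_mul_of_nonneg_right (by linarith) (by positivity)
        _ = ε / 4 := by field_simp
    rw [← mul_sub, abs_mul, abs_of_pos hK0]
    have l6 : |R - m.factorial * A ^ m| ≤ m.factorial * (m ^ 2 * 3 ^ (m - 2)) * η := by
      rw [abs_le]
      constructor
      · linarith
      · have : 0 ≤ (m.factorial : ℝ) * (m ^ 2 * 3 ^ (m - 2)) * η := by
          have hη0 : 0 ≤ η := hB0.trans h2
          positivity
        linarith
    calc K * |R - m.factorial * A ^ m| ≤ K * (m.factorial * (m ^ 2 * 3 ^ (m - 2)) * η) :=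
          mul_le_mul_of_nonneg_left l6 hK0.le
      _ = D * η := by rw [hD]; ring
      _ ≤ ε / 4 := l5
  have h7 : |K * (m.factorial * A ^ m) - K * (m.factorial * 2 ^ m)| ≤ ε / 4 := by
    have := hc1 (x := A) (by
      rw [Real.dist_eq]
      linarith)
    rw [Real.dist_eq] at this
    exact this.le
  have h8 : K * (m.factorial * 2 ^ m) = gm q := by
    unfold gm
    rw [if_pos ⟨m, hm⟩, hm2, hK]
    have hch : (q.choose m : ℝ) = q.factorial / (m.factorial * m.factorial) := by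
      have h := Nat.choose_mul_factorial_mul_factorial (n := q) (k := m) (by omega)
      rw [show q - m = m by omega] at h
      rw [eq_div_iff (by positivity), ← mul_assoc]
      exact_mod_cast h
    rw [hch, hm, pow_add]
    have h9 : (1 / 2 : ℝ) ^ m * 2 ^ m = 1 := by
      rw [← mul_pow]; norm_num
    have h10 : (2 : ℝ) ^ m ≠ 0 := by positivity
    field_simp
    rw [← mul_pow]
    norm_num
    exact Or.inl h9
  rw [← h8]
  have t1 := abs_sub_le ((1 / (V2 - V1)) * (∫ t in V1..V2, (PP S c t).re ^ q)) (K * R)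
    (K * (m.factorial * 2 ^ m))
  have t2 := abs_sub_le (K * R) (K * (m.factorial * A ^ m)) (K * (m.factorial * 2 ^ m))
  linarith

end Pool.Agent.Helper77.RS
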