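import Pool.Agent.Helper77.RS.Idn

/-! From blocks to all indices. -/

open Filter Topology Set MeasureTheory

namespace Pool.Agent.Helper77.RS

open SG (ord NZ)
open Pool.Agent.H707.SM (chi chi_of_mem chi_of_not chi_int integral_chi Bx_eq XV_large)
open Pool.Agent.H707.NB (exists_idx sp sp_le exc lc lc_nonneg lc_le)
open Pool.Agent.H707.NV (cn cn_log cn_meas cn_nonneg hl hl_XV cn_pow_ii cn_bdd MM MM_le MM_eq_cn MM_supp MM_nonneg int_MM MM_int first)
open Pool.Agent.Y747 (Bx mem_Bx)
open Pool.Agent.TH873.EW (XV)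

/-- the number of indices in a block -/
lemma card_Bx (hRH : RiemannHypothesis) {ε : ℝ} (hε : 0 < ε) : ∀ᶠ V : ℝ in atTop, ((Bx V).card : ℝ) ≤ (1 + ε) * XV V := by
  have hx : (0 : ℝ) < 1 := one_pos
  filter_upwards [first hRH hx (show (0 : ℝ) < ε / 2 by positivity), basics 1 hx (4 * (1 + ε) / ε + 4)] with
    V h1 ⟨hTT, hT10, hL1, ha0, ha1, hU, hL0, hL3⟩
  have hh0 : 0 ≤ hl 1 V := by rw [hl_aa]; linarith
  have hh1 : hl 1 V ≤ 1 := by rw [hl_aa]; linarith
  have hhp : 0 < hl 1 V := by rw [hl_aa]; linarith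
  have h2 := int_MM (V := V) hh0
  have h3 : ∫ t, MM V (hl 1 V) t = ∫ t in V..(2 * V), MM V (hl 1 V) t := by
    rw [intervalIntegral.integral_of_le (by linarith)]
    exact (setIntegral_eq_integral_of_forall_compl_eq_zero (fun t ht => MM_supp hh1 (by simpa [mem_Ioc] using ht))).symm
  have h4 : ∫ t in V..(2 * V), MM V (hl 1 V) t ≤ ∫ t in V..(2 * V), cn (hl 1 V) t := by
    apply intervalIntegral.integral_mono_on (by linarith) (MM_int V _).intervalIntegrable
    · simpa using cn_pow_ii hh0 1 (a := V) (b := 2 * V) (by linarith)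
    · intro t _
      exact MM_le hh0
  have h5 := (abs_le.1 h1).2
  have h6 := hl_XV (x := 1) (V := V) (by linarith)
  have h7 : hl 1 V * (Bx V).card ≤ (1 + ε / 2) * V := by linarith
  have h8 : (1 + ε / 2) * V ≤ (1 + ε) * (V - 2) := by
    have : 4 * (1 + ε) / ε ≤ V := by linarith
    rw [div_le_iff₀ hε] at this
    nlinarith
  have h9 : hl 1 V * (Bx V).card ≤ hl 1 V * ((1 + ε) * XV V) := by
    have : hl 1 V * ((1 + ε) * XV V) = (1 + ε) * (V - 2) := by
      rw [mul_left_comm, h6]; ring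
    linarith
  exact le_of_mul_le_mul_left h9 hhp

lemma XV_facts {ε : ℝ} (hε : 0 < ε) (c : ℝ) : ∀ᶠ V : ℝ in atTop,
    Real.log V / (2 * Real.pi) * V ≤ 2 * XV V ∧ c ≤ ε * XV V ∧ 0 < XV V ∧
    XV V - Real.log V / (2 * Real.pi) * (U2 V - U1 V) ≤ ε * XV V ∧
    Real.log V / (2 * Real.pi) * (U2 V - U1 V) ≤ XV V := by
  have hpi := Real.pi_pos
  obtain ⟨V2, hV2⟩ := XV_large (c / ε)
  have h0 : ∀ᶠ T : ℝ in atTop, 2 * Real.log T ≤ ε / 2 * T := by
    have := Real.isLittleO_log_id_atTop.bound (show (0 : ℝ) < ε / 4 by positivity)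
    filter_upwards [this, eventually_ge_atTop 1] with T h1 h2
    rw [Real.norm_eq_abs, Real.norm_eq_abs, id, abs_of_nonneg (Real.log_nonneg h2), abs_of_nonneg (by linarith)] at h1
    linarith
  filter_upwards [basics 1 one_pos V2, h0] with V ⟨hTT, hT10, hL1, ha0, ha1, hU, hL0, hL3⟩ h0
  have hX : XV V = Real.log V / (2 * Real.pi) * (V - 2) := by
    unfold Pool.Agent.TH873.EW.XV
    ring
  have hk : 0 < Real.log V / (2 * Real.pi) := by positivity
  set κ := Real.log V / (2 * Real.pi) with hκ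
  have hXp : 0 < XV V := by rw [hX]; exact mul_pos hk (by linarith)
  refine ⟨?_, ?_, hXp, ?_, ?_⟩
  · rw [hX]
    have : κ * V ≤ κ * (2 * (V - 2)) := mul_le_mul_of_nonneg_left (by linarith) hk.le
    linarith
  · have := hV2 V hTT
    rw [div_le_iff₀ hε] at this
    linarith
  · rw [hX]
    have h1 : κ * (V - 2) - κ * (U2 V - U1 V) = κ * (2 * Real.log V - 1) := by unfold U1 U2; ring
    rw [h1]
    have h2 : κ * (2 * Real.log V - 1) ≤ κ * (ε * (V - 2)) := by
      apply mul_le_mul_of_nonneg_left _ hk.le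
      have : V / 2 ≤ V - 2 := by linarith
      have : ε * (V / 2) ≤ ε * (V - 2) := mul_le_mul_of_nonneg_left this hε.le
      linarith
    linarith
  · rw [hX]
    apply mul_le_mul_of_nonneg_left _ hk.le
    unfold U1 U2
    linarith

theorem transfer (hRH : RiemannHypothesis) {x : ℝ} (hx : 0 < x) (r : ℕ) {A ε0 : ℝ} (_hε0 : 0 ≤ ε0)
    (hA : ∀ᶠ V : ℝ in atTop, |(1 / (U2 V - U1 V)) * (∫ t in (U1 V)..(U2 V), max 0 (cn (hl x V) t - r)) - A| ≤ ε0)
    {ε : ℝ} (hε : 0 < ε) : ∀ᶠ N : ℕ in atTop,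
    |(∑ n ∈ Finset.Icc 1 N, lc x (sp n r)) - A * N| ≤ (ε0 + ε) * N := by
  classical
  have hpi := Real.pi_pos
  -- `A + ε0 ≥ 0`
  have hA0 : 0 ≤ A + ε0 := by
    obtain ⟨V, h1, h2⟩ := (hA.and (basics 1 one_pos 1)).exists
    have h3 : 0 ≤ ∫ t in (U1 V)..(U2 V), max 0 (cn (hl x V) t - r) :=
      intervalIntegral.integral_nonneg h2.2.2.2.2.2.1 fun _ _ => le_max_left _ _
    have h4 := (abs_le.1 h1).2
    have h5 : 0 ≤ 1 / (U2 V - U1 V) := by
      have := h2.2.2.2.2.2.1
      apply div_nonneg zero_le_one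
      linarith
    have := mul_nonneg h5 h3
    linarith
  -- block facts
  have hfacts : ∀ e : ℝ, 0 < e → ∀ᶠ V : ℝ in atTop, 10 ≤ V ∧ 0 < XV V ∧
      Real.log V / (2 * Real.pi) * (∑ n ∈ (Bx V).filter (fun n => n + r ∈ Bx V), max 0 (hl x V - (ord (n + r) - ord n))) ≤
        (A + ε0 + 3 * e) * XV V ∧
      (A - ε0 - (2 + |A - ε0|) * e) * XV V ≤ Real.log V / (2 * Real.pi) * (∑ n ∈ (Bx V).filter (fun n => n + r ∈ Bx V), max 0 (hl x V - (ord (n + r) - ord n))) ∧
      r * x ≤ e * XV V ∧ ((Bx V).card : ℝ) ≤ (1 + e) * XV V := by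
    intro e he
    filter_upwards [hA, block_pairs hx he r, XV_facts he (r * x), basics x hx 10, card_Bx hRH he] with
      V h1 h2 ⟨h3, h4, h5, h6, h7⟩ ⟨hTT, hT10, hL1, ha0, ha1, hU, hL0, hL3⟩ h8
    set κ := Real.log V / (2 * Real.pi) with hκ
    have hk : 0 < κ := by positivity
    set S := ∑ n ∈ (Bx V).filter (fun n => n + r ∈ Bx V), max 0 (hl x V - (ord (n + r) - ord n)) with hS
    set I := ∫ t in (U1 V)..(U2 V), max 0 (cn (hl x V) t - r) with hI
    set W := U2 V - U1 V with hW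
    have hW0 : 0 < W := by rw [hW]; unfold U1 U2; linarith
    have h9 := abs_le.1 h1
    have h10 := abs_le.1 h2
    have i1 : I ≤ (A + ε0) * W := by
      have : 1 / W * I ≤ A + ε0 := by linarith [h9.2]
      rw [div_mul_eq_mul_div, one_mul, div_le_iff₀ hW0] at this
      exact this
    have i2 : (A - ε0) * W ≤ I := by
      have : A - ε0 ≤ 1 / W * I := by linarith [h9.1]
      rw [div_mul_eq_mul_div, one_mul, le_div_iff₀ hW0] at this
      exact this
    refine ⟨hT10, h5, ?_, ?_, h4, h8⟩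
    · have j1 : κ * S ≤ κ * ((A + ε0) * W + e * V) := mul_le_mul_of_nonneg_left (by linarith [h10.2]) hk.le
      have j2 : κ * ((A + ε0) * W + e * V) = (A + ε0) * (κ * W) + e * (κ * V) := by ring
      have j3 : (A + ε0) * (κ * W) ≤ (A + ε0) * XV V := mul_le_mul_of_nonneg_left h7 hA0
      have j4 : e * (κ * V) ≤ e * (2 * XV V) := mul_le_mul_of_nonneg_left h3 he.le
      have j5 : 0 ≤ e * XV V := by positivity
      linarith
    · have j1 : κ * ((A - ε0) * W - e * V) ≤ κ * S := mul_le_mul_of_nonneg_left (by linarith [h10.1]) hk.le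
      have j2 : κ * ((A - ε0) * W - e * V) = (A - ε0) * XV V - (A - ε0) * (XV V - κ * W) - e * (κ * V) := by ring
      have j3 : (A - ε0) * (XV V - κ * W) ≤ |A - ε0| * (e * XV V) := by
        calc (A - ε0) * (XV V - κ * W) ≤ |A - ε0| * (XV V - κ * W) :=
              mul_le_mul_of_nonneg_right (le_abs_self _) (by linarith)
          _ ≤ _ := mul_le_mul_of_nonneg_left h6 (abs_nonneg _)
      have j4 : e * (κ * V) ≤ e * (2 * XV V) := mul_le_mul_of_nonneg_left h3 he.le
      have j6 : (A - ε0 - (2 + |A - ε0|) * e) * XV V = (A - ε0) * XV V - |A - ε0| * (e * XV V) - e * (2 * XV V) := by ring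
      rw [j6]
      linarith
  have hscale : ∀ V : ℝ, 1 < V → ∀ d : ℝ, Real.log V / (2 * Real.pi) * max 0 (hl x V - d) =
      max 0 (x - Real.log V / (2 * Real.pi) * d) := by
    intro V hV d
    have hlV : 0 < Real.log V := Real.log_pos hV
    have hk : 0 < Real.log V / (2 * Real.pi) := by positivity
    rw [mul_max_of_nonneg _ _ hk.le, mul_zero, mul_sub]
    congr 2
    unfold hl
    field_simp
  -- upper bound
  have hup : ∀ e : ℝ, 0 < e → ∀ᶠ N : ℕ in atTop, ∑ n ∈ Finset.Icc 1 N, lc x (sp n r) ≤ (A + ε0 + e) * N := by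
    apply Pool.Agent.Y747.average hRH (A + ε0) x (fun n => lc x (sp n r)) (fun n => lc_nonneg hx.le) (fun n => lc_le _ _)
    intro e he
    obtain ⟨V0, hV0⟩ := (hfacts (e / 4) (by positivity)).exists_forall_of_atTop
    obtain ⟨V1, hV1⟩ := sp_le 1 one_pos
    refine ⟨max V0 (max V1 10), (le_max_right _ _).trans (le_max_right _ _), fun V hV => ?_⟩
    have c1 : V0 ≤ V := (le_max_left _ _).trans hV
    have c2 : V1 ≤ V := ((le_max_left _ _).trans (le_max_right _ _)).trans hV
    obtain ⟨hV10, hX, f1, f2, f3, f4⟩ := hV0 V c1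
    rw [← Finset.sum_filter_add_sum_filter_not (Bx V) (fun n => n + r ∈ Bx V)]
    have h2 := exc (V := V) (r := r) (f := fun n => lc x (sp n r)) (D := x) (fun n => lc_le _ _) hx.le
    have h3 : ∑ n ∈ (Bx V).filter (fun n => n + r ∈ Bx V), lc x (sp n r) ≤
        Real.log V / (2 * Real.pi) * (∑ n ∈ (Bx V).filter (fun n => n + r ∈ Bx V), max 0 (hl x V - (ord (n + r) - ord n))) := by
      rw [Finset.mul_sum]
      apply Finset.sum_le_sum
      intro n hn
      rw [Finset.mem_filter] at hn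
      have h4 := (hV1 V c2 n r hn.1 hn.2).2
      rw [hscale V (by linarith)]
      unfold lc
      refine (min_le_right _ _).trans ?_
      exact max_le_max le_rfl (by linarith)
    linarith
  -- lower bound
  have hlow : ∀ e : ℝ, 0 < e → ∀ᶠ N : ℕ in atTop, ∑ n ∈ Finset.Icc 1 N, (x - lc x (sp n r)) ≤ (x - A + ε0 + e) * N := by
    have hAe : x - A + ε0 = x - A + ε0 := rfl
    apply Pool.Agent.Y747.average hRH (x - A + ε0) x (fun n => x - lc x (sp n r))
      (fun n => by have := lc_le x (sp n r); linarith) (fun n => by have := lc_nonneg (s := sp n r) hx.le; linarith)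
    intro e he
    set e' : ℝ := min 1 (e / (3 * x + 2 + |A - ε0| + 1)) with he'
    have hab := abs_nonneg (A - ε0)
    have he'0 : 0 < e' := lt_min one_pos (by positivity)
    have he'1 : e' ≤ 1 := min_le_left _ _
    have he'2 : e' * (3 * x + 2 + |A - ε0| + 1) ≤ e := by
      have := min_le_right 1 (e / (3 * x + 2 + |A - ε0| + 1))
      rw [← he', le_div_iff₀ (by positivity)] at this
      exact this
    obtain ⟨V0, hV0⟩ := (hfacts e' he'0).exists_forall_of_atTop
    obtain ⟨V1, hV1⟩ := sp_le e' he'0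
    refine ⟨max V0 (max V1 10), (le_max_right _ _).trans (le_max_right _ _), fun V hV => ?_⟩
    have c1 : V0 ≤ V := (le_max_left _ _).trans hV
    have c2 : V1 ≤ V := ((le_max_left _ _).trans (le_max_right _ _)).trans hV
    obtain ⟨hV10, hX, f1, f2, f3, f4⟩ := hV0 V c1
    have hlV : 0 < Real.log V := Real.log_pos (by linarith)
    have h3 : Real.log V / (2 * Real.pi) * (∑ n ∈ (Bx V).filter (fun n => n + r ∈ Bx V), max 0 (hl x V - (ord (n + r) - ord n))) -
        e' * x * (Bx V).card ≤ ∑ n ∈ (Bx V).filter (fun n => n + r ∈ Bx V), lc x (sp n r) := by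
      have h5 : ((((Bx V).filter (fun n => n + r ∈ Bx V)).card : ℕ) : ℝ) ≤ (Bx V).card := by
        exact_mod_cast Finset.card_filter_le _ _
      have h6 : ∑ n ∈ (Bx V).filter (fun n => n + r ∈ Bx V), (Real.log V / (2 * Real.pi) * max 0 (hl x V - (ord (n + r) - ord n)) - e' * x) ≤
          ∑ n ∈ (Bx V).filter (fun n => n + r ∈ Bx V), lc x (sp n r) := by
        apply Finset.sum_le_sum
        intro n hn
        rw [Finset.mem_filter] at hn
        have h4 := hV1 V c2 n r hn.1 hn.2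
        rw [hscale V (by linarith)]
        have hord : ord n ≤ ord (n + r) := SG.ord_mono (mem_Bx.1 hn.1).1 (by omega)
        set d := Real.log V / (2 * Real.pi) * (ord (n + r) - ord n) with hd
        have hd0 : 0 ≤ d := mul_nonneg (by positivity) (by linarith)
        have hs0 : 0 ≤ sp n r := hd0.trans h4.2
        unfold lc
        rw [min_eq_right (max_le hx.le (by linarith))]
        rcases le_total d x with hdx | hdx
        · have : e' * d ≤ e' * x := mul_le_mul_of_nonneg_left hdx he'0.le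
          rw [max_eq_right (by linarith : 0 ≤ x - d)]
          refine le_trans ?_ (le_max_right _ _)
          linarith [h4.1]
        · rw [max_eq_left (by linarith : x - d ≤ 0)]
          refine le_trans ?_ (le_max_left _ _)
          have : 0 ≤ e' * x := by positivity
          linarith
      rw [Finset.sum_sub_distrib, ← Finset.mul_sum, Finset.sum_const, nsmul_eq_mul] at h6
      have h7 : ((((Bx V).filter (fun n => n + r ∈ Bx V)).card : ℕ) : ℝ) * (e' * x) ≤ (Bx V).card * (e' * x) :=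
        mul_le_mul_of_nonneg_right h5 (by positivity)
      linarith
    have h8 : ∑ n ∈ (Bx V).filter (fun n => n + r ∈ Bx V), lc x (sp n r) ≤ ∑ n ∈ Bx V, lc x (sp n r) :=
      Finset.sum_le_sum_of_subset_of_nonneg (Finset.filter_subset _ _) (fun n _ _ => lc_nonneg hx.le)
    rw [Finset.sum_sub_distrib, Finset.sum_const, nsmul_eq_mul]
    have h9 : (1 + e') * XV V ≤ 2 * XV V := mul_le_mul_of_nonneg_right (by linarith) hX.le
    have h10 : e' * x * (Bx V).card ≤ e' * x * (2 * XV V) := mul_le_mul_of_nonneg_left (f4.trans h9) (by positivity)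
    have h11 : x * (Bx V).card ≤ x * ((1 + e') * XV V) := mul_le_mul_of_nonneg_left f4 hx.le
    have h12 : e' * (3 * x + 2 + |A - ε0| + 1) * XV V ≤ e * XV V := mul_le_mul_of_nonneg_right he'2 hX.le
    have h13 : 0 ≤ e' * XV V := by positivity
    nlinarith
  filter_upwards [hup ε hε, hlow ε hε] with N h1 h2
  rw [Finset.sum_sub_distrib, Finset.sum_const, nsmul_eq_mul, Nat.card_Icc, Nat.add_sub_cancel] at h2
  rw [abs_le]
  constructor <;> nlinarith

end Pool.Agent.Helper77.RS
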