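import Pool.Agent.Helper77.RS.Acl

/-! The central limit theorem for the window counts. -/

open Complex Filter Topology Set MeasureTheory ProbabilityTheory

namespace Pool.Agent.Helper77.RS

open Pool.Agent.H707.NV (cn cn_log cn_meas cn_nonneg hl cn_pow_ii cn_bdd)

/-- the Gaussian mean of the test function -/
noncomputable def Gy (y : ℝ) : ℝ := ∫ u, hh y u ∂(gaussianReal 0 1)

lemma law_avg (y : ℝ) {ε : ℝ} (hε : 0 < ε) : ∃ K : ℕ, ∃ δ : ℝ, 0 < δ ∧ ∀ (V1 V2 : ℝ) (f : ℝ → ℝ), V1 < V2 →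
    Continuous f → (∀ q, q ≤ K → |(1 / (V2 - V1)) * (∫ t in V1..V2, f t ^ q) - gm q| ≤ δ) →
    |(1 / (V2 - V1)) * (∫ t in V1..V2, hh y (f t)) - Gy y| ≤ ε := by
  obtain ⟨K, δ, hδ, h⟩ := law y hε
  refine ⟨K, δ, hδ, fun V1 V2 f hV hf hq => ?_⟩
  set W := V2 - V1 with hW
  have hW0 : 0 < W := by rw [hW]; linarith
  set ν : Measure ℝ := (ENNReal.ofReal (1 / W)) • (volume.restrict (Ioc V1 V2)) with hν
  have hνp : IsProbabilityMeasure ν := by
    constructor
    rw [hν, Measure.smul_apply, Measure.restrict_apply_univ, Real.volume_Ioc, smul_eq_mul,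
      ← ENNReal.ofReal_mul (by positivity), ← hW, one_div, inv_mul_cancel₀ hW0.ne', ENNReal.ofReal_one]
  have hfm : AEMeasurable f ν := hf.aemeasurable
  have hμp : IsProbabilityMeasure (ν.map f) := Measure.isProbabilityMeasure_map hfm
  have hint : ∀ g : ℝ → ℝ, Continuous g → ∫ u, g u ∂(ν.map f) = (1 / W) * ∫ t in V1..V2, g (f t) := by
    intro g hg
    rw [integral_map hfm hg.aestronglyMeasurable, hν, integral_smul_measure,
      ENNReal.toReal_ofReal (by positivity), intervalIntegral.integral_of_le hV.le, smul_eq_mul]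
  have hintg : ∀ g : ℝ → ℝ, Continuous g → Integrable g (ν.map f) := by
    intro g hg
    rw [integrable_map_measure hg.aestronglyMeasurable hfm]
    have h1 : IntervalIntegrable (g ∘ f) volume V1 V2 := (hg.comp hf).intervalIntegrable _ _
    rw [intervalIntegrable_iff_integrableOn_Ioc_of_le hV.le] at h1
    exact Integrable.smul_measure h1 ENNReal.ofReal_ne_top
  have h2 := h (ν.map f) hμp (fun q _ => hintg _ (continuous_pow q)) (fun q hqK => by
    rw [hint _ (continuous_pow q)]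
    exact hq q hqK)
  rw [hint _ (hh_cont y)] at h2
  exact h2

lemma min_eta (K : ℕ) {δ : ℝ} (hδ : 0 < δ) : ∃ η : ℝ, 0 < η ∧ ∀ q, q ≤ K → ∀ (S : Finset ℕ) (c : ℕ → ℂ)
    (X V1 V2 : ℝ), (∀ p ∈ S, p.Prime) → 1 ≤ X → (∀ p ∈ S, (p : ℝ) ≤ X) → V1 < V2 →
    |∑ p ∈ S, ‖c p‖ ^ 2 - 2| ≤ η → ∑ p ∈ S, ‖c p‖ ^ 4 ≤ η →
    2 * X ^ q * (∑ p ∈ S, ‖c p‖) ^ q ≤ η * (V2 - V1) →
    |(1 / (V2 - V1)) * (∫ t in V1..V2, (PP S c t).re ^ q) - gm q| ≤ δ := by
  induction K with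
  | zero =>
    obtain ⟨η, hη, h⟩ := mom_close 0 hδ
    refine ⟨η, hη, fun q hq => ?_⟩
    have : q = 0 := by omega
    subst this
    exact h
  | succ K ih =>
    obtain ⟨η1, hη1, h1⟩ := ih
    obtain ⟨η2, hη2, h2⟩ := mom_close (K + 1) hδ
    refine ⟨min η1 η2, lt_min hη1 hη2, fun q hq S c X V1 V2 a1 a2 a3 a4 a5 a6 a7 => ?_⟩
    have hW : 0 ≤ V2 - V1 := by linarith
    rcases Nat.lt_or_ge q (K + 1) with h | h
    · exact h1 q (by omega) S c X V1 V2 a1 a2 a3 a4 (a5.trans (min_le_left _ _)) (a6.trans (min_le_left _ _))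
        (a7.trans (mul_le_mul_of_nonneg_right (min_le_left _ _) hW))
    · have : q = K + 1 := by omega
      subst this
      exact h2 S c X V1 V2 a1 a2 a3 a4 (a5.trans (min_le_right _ _)) (a6.trans (min_le_right _ _))
        (a7.trans (mul_le_mul_of_nonneg_right (min_le_right _ _) hW))

theorem clt_win (hRH : RiemannHypothesis) (y : ℝ) {ε : ℝ} (hε : 0 < ε) : ∃ x0 θ : ℝ, 1 ≤ x0 ∧ 0 < θ ∧
    ∀ x : ℝ, x0 ≤ x → ∀ σ : ℝ, 0 < σ → |σ ^ 2 - Real.log x / Real.pi ^ 2| ≤ θ * (Real.log x / Real.pi ^ 2) →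
    ∀ᶠ T : ℝ in atTop, |(1 / (U2 T - U1 T)) * (∫ t in (U1 T)..(U2 T), hh y (DD x T t / σ)) - Gy y| ≤ ε := by
  have hpi := Real.pi_pos
  obtain ⟨K, δ, hδ, hlaw⟩ := law_avg y (half_pos hε)
  obtain ⟨η, hη, hmc⟩ := min_eta K hδ
  set k := 3 * K + 8 with hk
  have hk8 : 8 ≤ k := by omega
  have hkq : ∀ q, q ≤ K → 3 * q ≤ k := fun q hq => by omega
  obtain ⟨C, hC, hE⟩ := err_sq hRH hk8
  obtain ⟨x1, hx1, hA⟩ := A_close hRH hk8 (show (0 : ℝ) < η / 8 by positivity)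
  set R : ℝ := 2 * (1 + (2 * (1 + C) / ε) ^ 2) with hR
  have hR0 : 0 < R := by positivity
  set θ : ℝ := min (1 / 2) (η / 16) with hθ
  have hθ0 : 0 < θ := lt_min (by norm_num) (by positivity)
  refine ⟨max x1 (Real.exp (Real.pi ^ 2 * R)), θ, hx1.trans (le_max_left _ _), hθ0, fun x hx σ hσ hσQ => ?_⟩
  have hxx1 : x1 ≤ x := (le_max_left _ _).trans hx
  have hxe : Real.exp (Real.pi ^ 2 * R) ≤ x := (le_max_right _ _).trans hx
  have hx0 : 0 < x := (Real.exp_pos _).trans_le hxe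
  set Q := Real.log x / Real.pi ^ 2 with hQ
  have hQR : R ≤ Q := by
    have h1 : Real.pi ^ 2 * R ≤ Real.log x := by
      rw [Real.le_log_iff_exp_le hx0]; exact hxe
    rw [hQ, le_div_iff₀ (by positivity)]
    linarith
  have hQ0 : 0 < Q := by linarith
  have hθ1 : θ ≤ 1 / 2 := min_le_left _ _
  have hθ2 : θ ≤ η / 16 := min_le_right _ _
  have hσa := abs_le.1 hσQ
  have hθQ : θ * Q ≤ 1 / 2 * Q := mul_le_mul_of_nonneg_right hθ1 hQ0.le
  have hσ2 : Q ≤ 2 * σ ^ 2 := by linarith [hσa.1]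
  have hσ3 : 1 + (2 * (1 + C) / ε) ^ 2 ≤ σ ^ 2 := by linarith
  have hσ1 : 1 ≤ σ := by
    have : 1 ^ 2 ≤ σ ^ 2 := by nlinarith [sq_nonneg (2 * (1 + C) / ε)]
    exact le_of_sq_le_sq this hσ.le
  have hσC : 2 * (1 + C) / ε ≤ σ := by
    have : (2 * (1 + C) / ε) ^ 2 ≤ σ ^ 2 := by linarith
    exact le_of_sq_le_sq this hσ.le
  -- facts for every moment
  have hall : ∀ᶠ T : ℝ in atTop, ∀ q, q ≤ K → (∀ p ∈ Pr (2 * ll k T), ‖cs x k T p‖ ^ 2 ≤ η / (2 + η)) ∧
      2 * Real.exp (2 * ll k T) ^ q * (∑ p ∈ Pr (2 * ll k T), ‖cs x k T p‖) ^ q ≤ η * (U2 T - U1 T) := by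
    have h1 : ∀ q ∈ Finset.range (K + 1), ∀ᶠ T : ℝ in atTop, (∀ p ∈ Pr (2 * ll k T), ‖cs x k T p‖ ^ 2 ≤ η / (2 + η)) ∧
      2 * Real.exp (2 * ll k T) ^ q * (∑ p ∈ Pr (2 * ll k T), ‖cs x k T p‖) ^ q ≤ η * (U2 T - U1 T) := by
      intro q hq
      rw [Finset.mem_range] at hq
      filter_upwards [polyfacts hk8 (hkq q (by omega)) hx0 hη,
        polyfacts hk8 (hkq q (by omega)) hx0 (show (0 : ℝ) < η / (2 + η) by positivity)] with T h2 h3
      exact ⟨h3.1, h2.2⟩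
    have h2 := (Filter.eventually_all_finset (Finset.range (K + 1))).2 h1
    filter_upwards [h2] with T h3
    intro q hq
    exact h3 q (Finset.mem_range.2 (by omega))
  filter_upwards [basics x hx0 1, hE x hx0, hA x hxx1, hall] with
    T ⟨hTT, hT10, hL1, ha0, ha1, hU, hL0, hL3⟩ hE2 hA2 hall2
  have hh' : 0 ≤ hl x T := by rw [hl_aa]; linarith
  have hPc := Pc_cont x k T
  have hUU : U1 T < U2 T := by unfold U1 U2; linarith
  set W := U2 T - U1 T with hW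
  have hW0 : 0 < W := by linarith
  set S := Pr (2 * ll k T) with hS
  set c : ℕ → ℂ := fun p => (((-1 / σ : ℝ)) : ℂ) * cs x k T p with hc
  have hcn : ∀ p, ‖c p‖ = ‖cs x k T p‖ / σ := by
    intro p
    rw [hc]
    simp only
    rw [norm_mul, Complex.norm_real, Real.norm_eq_abs, abs_div, abs_neg, abs_one, abs_of_pos hσ]
    ring
  have hcre : ∀ t, (PP S c t).re = -Pc x k T t / σ := by
    intro t
    have : PP S c t = (((-1 / σ : ℝ)) : ℂ) * PP S (cs x k T) t := by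
      unfold PP
      rw [Finset.mul_sum]
      apply Finset.sum_congr rfl
      intro p _
      rw [hc]
      ring
    rw [this, Complex.re_ofReal_mul]
    unfold Pc
    ring
  have hll0 : 0 ≤ 2 * ll k T := by
    rw [ll_eq]
    have : (0 : ℝ) < k := by exact_mod_cast (by omega : 0 < k)
    positivity
  have hsum2 : ∑ p ∈ S, ‖c p‖ ^ 2 = (∑ p ∈ S, ‖cs x k T p‖ ^ 2) / σ ^ 2 := by
    rw [Finset.sum_div]
    apply Finset.sum_congr rfl
    intro p _
    rw [hcn, div_pow]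
  have hσ20 : 0 < σ ^ 2 := by positivity
  have g1 : |∑ p ∈ S, ‖c p‖ ^ 2 - 2| ≤ η := by
    rw [hsum2]
    have h1 : (∑ p ∈ S, ‖cs x k T p‖ ^ 2) / σ ^ 2 - 2 = ((∑ p ∈ S, ‖cs x k T p‖ ^ 2) - 2 * σ ^ 2) / σ ^ 2 := by
      field_simp
    rw [h1, abs_div, abs_of_pos hσ20, div_le_iff₀ hσ20]
    have h2 := abs_le.1 hA2
    have h3 : θ * Q ≤ η / 16 * Q := mul_le_mul_of_nonneg_right hθ2 hQ0.le
    have h4 : η * Q ≤ η * (2 * σ ^ 2) := mul_le_mul_of_nonneg_left hσ2 hη.le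
    rw [abs_le]
    constructor <;> linarith [h2.1, h2.2, hσa.1, hσa.2]
  have g2 : ∑ p ∈ S, ‖c p‖ ^ 4 ≤ η := by
    have h1 : ∀ p ∈ S, ‖c p‖ ^ 4 ≤ η / (2 + η) * ‖c p‖ ^ 2 := by
      intro p hp
      have h2 := (hall2 0 (Nat.zero_le _)).1 p hp
      have h3 : ‖c p‖ ^ 2 ≤ η / (2 + η) := by
        rw [hcn, div_pow]
        refine (div_le_self (by positivity) ?_).trans h2
        nlinarith
      calc ‖c p‖ ^ 4 = ‖c p‖ ^ 2 * ‖c p‖ ^ 2 := by ring
        _ ≤ _ := mul_le_mul_of_nonneg_right h3 (by positivity)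
    refine (Finset.sum_le_sum h1).trans ?_
    rw [← Finset.mul_sum]
    have h4 := (abs_le.1 g1).2
    calc η / (2 + η) * ∑ p ∈ S, ‖c p‖ ^ 2 ≤ η / (2 + η) * (2 + η) :=
          mul_le_mul_of_nonneg_left (by linarith) (by positivity)
      _ = η := by field_simp
  have g3 : ∀ q, q ≤ K → 2 * Real.exp (2 * ll k T) ^ q * (∑ p ∈ S, ‖c p‖) ^ q ≤ η * (U2 T - U1 T) := by
    intro q hq
    refine le_trans ?_ (hall2 q hq).2
    have h1 : ∑ p ∈ S, ‖c p‖ ≤ ∑ p ∈ S, ‖cs x k T p‖ := by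
      apply Finset.sum_le_sum
      intro p _
      rw [hcn]
      exact div_le_self (norm_nonneg _) hσ1
    have h2 : 0 ≤ ∑ p ∈ S, ‖c p‖ := Finset.sum_nonneg fun _ _ => norm_nonneg _
    gcongr
  have hmom : ∀ q, q ≤ K → |(1 / (U2 T - U1 T)) * (∫ t in (U1 T)..(U2 T), (PP S c t).re ^ q) - gm q| ≤ δ :=
    fun q hq => hmc q hq S c (Real.exp (2 * ll k T)) (U1 T) (U2 T) (fun p hp => Pr_prime hp)
      (Real.one_le_exp hll0) (fun p hp => Pr_le hp) hUU g1 g2 (g3 q hq)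
  have hL := hlaw (U1 T) (U2 T) (fun t => (PP S c t).re) hUU
    (Complex.continuous_re.comp (PP_cont _ _)) hmom
  -- comparison
  have i1 : IntervalIntegrable (fun t => hh y (DD x T t / σ)) volume (U1 T) (U2 T) :=
    ii_comp hh' (fun d t => hh y (d / σ)) (by simp only [Function.uncurry_def]; fun_prop) hU
  have i2 : IntervalIntegrable (fun t => hh y ((PP S c t).re)) volume (U1 T) (U2 T) := by
    apply Continuous.intervalIntegrable
    have := PP_cont S c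
    fun_prop
  have i3 : IntervalIntegrable (fun t => (1 + EE x k T t ^ 2) / σ) volume (U1 T) (U2 T) :=
    ii_comp hh' (fun d t => (1 + (d + Pc x k T t) ^ 2) / σ) (by simp only [Function.uncurry_def]; fun_prop) hU
  have iE : IntervalIntegrable (fun t => EE x k T t ^ 2) volume (U1 T) (U2 T) :=
    ii_comp hh' (fun d t => (d + Pc x k T t) ^ 2) (by simp only [Function.uncurry_def]; fun_prop) hU
  have hcmp : |(∫ t in (U1 T)..(U2 T), hh y (DD x T t / σ)) - ∫ t in (U1 T)..(U2 T), hh y ((PP S c t).re)| ≤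
      W * ((1 + C) / σ) := by
    rw [← intervalIntegral.integral_sub i1 i2]
    have h1 : ‖∫ t in (U1 T)..(U2 T), (hh y (DD x T t / σ) - hh y ((PP S c t).re))‖ ≤
        ∫ t in (U1 T)..(U2 T), (1 + EE x k T t ^ 2) / σ := by
      apply intervalIntegral.norm_integral_le_of_norm_le hU _ i3
      refine ae_of_all _ fun t _ => ?_
      rw [Real.norm_eq_abs]
      refine (hh_lip _ _ _).trans ?_
      rw [hcre]
      have h2 : DD x T t / σ - -Pc x k T t / σ = EE x k T t / σ := by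
        rw [EE_eq]; ring
      rw [h2, abs_div, abs_of_pos hσ]
      apply div_le_div_of_nonneg_right _ hσ.le
      have h3 : |EE x k T t| ^ 2 = EE x k T t ^ 2 := sq_abs _
      nlinarith [sq_nonneg (|EE x k T t| - 1)]
    refine h1.trans ?_
    rw [intervalIntegral.integral_div, intervalIntegral.integral_add intervalIntegrable_const iE,
      intervalIntegral.integral_const, smul_eq_mul, mul_one, ← mul_div_assoc]
    apply div_le_div_of_nonneg_right _ hσ.le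
    linarith
  have hfin : |(1 / W) * (∫ t in (U1 T)..(U2 T), hh y (DD x T t / σ)) - (1 / W) * ∫ t in (U1 T)..(U2 T), hh y ((PP S c t).re)| ≤
      ε / 2 := by
    rw [← mul_sub, abs_mul, abs_of_pos (by positivity)]
    calc 1 / W * |_| ≤ 1 / W * (W * ((1 + C) / σ)) := mul_le_mul_of_nonneg_left hcmp (by positivity)
      _ = (1 + C) / σ := by field_simp
      _ ≤ ε / 2 := by
        rw [div_le_iff₀ hε] at hσC
        rw [div_le_iff₀ hσ]
        linarith
  have := abs_sub_le ((1 / W) * (∫ t in (U1 T)..(U2 T), hh y (DD x T t / σ)))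
    ((1 / W) * ∫ t in (U1 T)..(U2 T), hh y ((PP S c t).re)) (Gy y)
  linarith

end Pool.Agent.Helper77.RS
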